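import Pool.Agent.Y300.Count

/-! Asymptotics of the counting. -/

set_option autoImplicit false

open Set MeasureTheory Topology Filter
open scoped NNReal

namespace Pool.Agent.Y300

lemma exists_M {c L : ℝ} (hL : 0 < L) (hc : c < 1 / L) :
    ∃ M : ℕ, 2 ≤ M ∧ c < (1 - 1 / (M:ℝ)) ^ 2 * (1 - 1 / (M:ℝ) ^ 2) / L := by
  have h1 : Tendsto (fun M : ℕ => 1 / (M:ℝ)) atTop (𝓝 0) := tendsto_one_div_atTop_nhds_zero_nat
  have h2 : Tendsto (fun M : ℕ => 1 / (M:ℝ) ^ 2) atTop (𝓝 0) := by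
    have := h1.pow 2
    simpa using this
  have h3 : Tendsto (fun M : ℕ => (1 - 1 / (M:ℝ)) ^ 2 * (1 - 1 / (M:ℝ) ^ 2) / L) atTop
      (𝓝 ((1 - 0) ^ 2 * (1 - 0) / L)) :=
    (((h1.const_sub 1).pow 2).mul (h2.const_sub 1)).div_const L
  have h4 : c < (1 - 0) ^ 2 * (1 - 0) / L := by simpa using hc
  obtain ⟨M, h5, h6⟩ := ((h3.eventually_const_lt h4).and (eventually_ge_atTop 2)).exists
  exact ⟨M, h6, h5⟩

theorem Stage.asym {c : ℝ} (hc : c < 1 / Real.log 2) :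
    ∃ n₀ : ℕ, ∀ n ≥ n₀, ∃ D N a b : ℕ, 0 < D ∧ D ≤ n + 1 ∧ Stage D D N a b ∧
      c * (n:ℝ) ^ 2 * Real.log n ≤ N := by
  set L := Real.log 2 with hL
  have hL0 : 0 < L := Real.log_pos (by norm_num)
  obtain ⟨M, hM, hcM⟩ := exists_M hL0 hc
  set A := (1 - 1 / (M:ℝ)) ^ 2 * (1 - 1 / (M:ℝ) ^ 2) / L with hA
  have hM' : (2:ℝ) ≤ M := by exact_mod_cast hM
  have hM0 : (0:ℝ) < M := by linarith
  set C := Real.log M / L + 6 with hC
  have hlogM : 0 ≤ Real.log M := Real.log_nonneg (by linarith)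
  have hC0 : 0 ≤ C := by positivity
  have hlog : Tendsto (fun n : ℕ => Real.log n) atTop atTop :=
    Real.tendsto_log_atTop.comp tendsto_natCast_atTop_atTop
  have hm1 : 1 / (M:ℝ) ≤ 1 / 2 := by
    apply one_div_le_one_div_of_le <;> linarith
  have hm2 : 1 / (M:ℝ) ^ 2 ≤ 1 / 4 := by
    apply one_div_le_one_div_of_le (by norm_num)
    nlinarith
  have hm1' : 0 < 1 / (M:ℝ) := by positivity
  have hm2' : 0 < 1 / (M:ℝ) ^ 2 := by positivity
  have ev1 : ∀ᶠ n : ℕ in atTop, C / (A - c) ≤ Real.log n := hlog.eventually_ge_atTop _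
  have ev2 : ∀ᶠ n : ℕ in atTop, C / ((1 - 1 / (M:ℝ) ^ 2) / L) ≤ Real.log n :=
    hlog.eventually_ge_atTop _
  obtain ⟨n₀, hn₀⟩ := eventually_atTop.1 (ev1.and (ev2.and (eventually_ge_atTop (2 * M))))
  refine ⟨n₀, fun n hn => ?_⟩
  obtain ⟨g1, g2, g3⟩ := hn₀ n hn
  have hAc : 0 < A - c := by linarith
  rw [div_le_iff₀ hAc] at g1
  have hq : 0 < (1 - 1 / (M:ℝ) ^ 2) / L := div_pos (by linarith) hL0
  rw [div_le_iff₀ hq] at g2
  -- the exponents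
  have hMpos : 0 < M := by omega
  have hdiv : 2 ≤ (n + 1) / M := by
    rw [Nat.le_div_iff_mul_le hMpos]
    omega
  set l := Nat.log 2 ((n + 1) / M) with hl
  have hl1 : 1 ≤ l := by
    rw [hl]
    exact (Nat.le_log_iff_pow_le (by norm_num) (by omega)).2 (by simpa using hdiv)
  obtain ⟨J, hJ⟩ : ∃ J, l = J + 1 := ⟨l - 1, by omega⟩
  have hlow : 2 ^ (J + 1) ≤ (n + 1) / M := by
    rw [← hJ, hl]
    exact Nat.pow_log_le_self 2 (by omega)
  have hhigh : (n + 1) / M < 2 ^ (J + 2) := by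
    rw [show J + 2 = l + 1 by omega, hl]
    exact Nat.lt_pow_succ_log_self (by norm_num) _
  have hlow' : 2 ^ (J + 1) * M ≤ n + 1 := (Nat.le_div_iff_mul_le hMpos).1 hlow
  have hhigh' : n + 1 < 2 ^ (J + 2) * M := (Nat.div_lt_iff_lt_mul hMpos).1 hhigh
  have hP : 0 < 2 ^ (J + 1) := by positivity
  set s := (n + 1) / 2 ^ (J + 1) with hs
  have hsM : M ≤ s := by
    rw [hs, Nat.le_div_iff_mul_le hP]
    linarith
  have hs1 : 2 ^ (J + 1) * s ≤ n + 1 := Nat.mul_div_le _ _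
  have hs2 : n + 1 < 2 ^ (J + 1) * (s + 1) := Nat.lt_mul_div_succ _ hP
  obtain ⟨N, hN, hNb⟩ := Stage.iter s (by omega) J
  refine ⟨2 ^ J * (2 * s), N, _, _, by
    have : 0 < 2 ^ J := by positivity
    have h2 : 0 < 2 * s := by omega
    positivity, ?_, hN, ?_⟩
  · calc 2 ^ J * (2 * s) = 2 ^ (J + 1) * s := by ring
      _ ≤ n + 1 := hs1
  -- real estimates
  set P : ℝ := 2 ^ (J + 1) with hPdef
  have hP0 : 0 < P := by positivity
  have r1 : P * M ≤ n + 1 := by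
    have : ((2 ^ (J + 1) * M : ℕ) : ℝ) ≤ ((n + 1 : ℕ) : ℝ) := by exact_mod_cast hlow'
    push_cast at this
    exact this
  have r2 : (n:ℝ) + 1 < P * (s + 1) := by
    have : ((n + 1 : ℕ) : ℝ) < ((2 ^ (J + 1) * (s + 1) : ℕ) : ℝ) := by exact_mod_cast hs2
    push_cast at this
    exact this
  have r3 : (n:ℝ) + 1 < 2 ^ (J + 2) * M := by
    have : ((n + 1 : ℕ) : ℝ) < ((2 ^ (J + 2) * M : ℕ) : ℝ) := by exact_mod_cast hhigh'
    push_cast at this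
    exact this
  have hsM' : (M:ℝ) ≤ s := by exact_mod_cast hsM
  have hs0 : (0:ℝ) < s := by linarith
  have hn0 : (0:ℝ) < n := by
    have : 0 < n := by omega
    exact_mod_cast this
  have r4 : (n:ℝ) * (1 - 1 / M) ≤ P * s := by
    have h1 : P ≤ (n + 1) / M := by rw [le_div_iff₀ hM0]; exact r1
    have h2 : ((n:ℝ) + 1) - (n + 1) / M ≤ P * s := by linarith
    have h3 : (n:ℝ) * (1 - 1 / M) ≤ ((n:ℝ) + 1) - (n + 1) / M := by
      have : ((n:ℝ) + 1) - (n + 1) / M = n * (1 - 1 / M) + (1 - 1 / M) := by ring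
      rw [this]
      linarith
    linarith
  -- bound for J
  have r5 : Real.log n / L - Real.log M / L - 2 ≤ J := by
    have h1 : Real.log n ≤ Real.log (2 ^ (J + 2) * M) :=
      Real.log_le_log hn0 (by linarith)
    rw [Real.log_mul (by positivity) hM0.ne', Real.log_pow, ← hL] at h1
    push_cast at h1
    have h2 : Real.log n / L ≤ (J + 2) + Real.log M / L := by
      rw [div_le_iff₀ hL0, add_mul, div_mul_cancel₀ _ hL0.ne']
      exact h1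
    linarith
  -- lower bound of N
  have r6 : (P * s) ^ 2 * (J * (1 - 1 / (M:ℝ) ^ 2) - 4) ≤ N := by
    refine le_trans ?_ hNb
    have e4 : (4:ℝ) ^ J = 2 ^ J * 2 ^ J := by rw [← mul_pow]; norm_num
    have e5 : (P * s) ^ 2 = 4 ^ J * (4 * s ^ 2) := by
      rw [hPdef, pow_succ, e4]; ring
    rw [e5]
    have h4 : (0:ℝ) < 4 ^ J := by positivity
    rw [mul_assoc]
    refine mul_le_mul_of_nonneg_left ?_ h4.le
    have h5 : 1 ≤ (s:ℝ) ^ 2 / (M:ℝ) ^ 2 := by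
      rw [le_div_iff₀ (by positivity), one_mul]
      exact pow_le_pow_left₀ hM0.le hsM' 2
    have h6 : 4 * (s:ℝ) ^ 2 * (J * (1 - 1 / (M:ℝ) ^ 2) - 4) =
        J * (4 * s ^ 2 - 4 * (s ^ 2 / M ^ 2)) - 16 * s ^ 2 := by
      field_simp
      ring
    rw [h6]
    have h7 : (0:ℝ) ≤ J := Nat.cast_nonneg J
    have h8 : (J:ℝ) * (4 * s ^ 2 - 4 * (s ^ 2 / M ^ 2)) ≤ J * (4 * s ^ 2 - 4) :=
      mul_le_mul_of_nonneg_left (by linarith) h7
    have h9 : (0:ℝ) < 1 / 2 ^ J := by positivity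
    have h10 : 16 * (s:ℝ) * (1 - 1 / 2 ^ J) ≤ 16 * s :=
      mul_le_of_le_one_right (by positivity) (by linarith)
    have h11 : (s:ℝ) ≤ s ^ 2 := by
      rw [pow_two]
      exact le_mul_of_one_le_left hs0.le (by linarith)
    linarith
  refine le_trans ?_ r6
  have r7 : (1 - 1 / (M:ℝ) ^ 2) / L * Real.log n - C ≤ J * (1 - 1 / (M:ℝ) ^ 2) - 4 := by
    have h1 : (Real.log n / L - Real.log M / L - 2) * (1 - 1 / (M:ℝ) ^ 2) ≤
        J * (1 - 1 / (M:ℝ) ^ 2) := mul_le_mul_of_nonneg_right r5 (by linarith)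
    have h2 : (Real.log M / L + 2) * (1 - 1 / (M:ℝ) ^ 2) ≤ Real.log M / L + 2 :=
      mul_le_of_le_one_right (by positivity) (by linarith)
    have h3 : (Real.log n / L - Real.log M / L - 2) * (1 - 1 / (M:ℝ) ^ 2) =
        (1 - 1 / (M:ℝ) ^ 2) / L * Real.log n - (Real.log M / L + 2) * (1 - 1 / (M:ℝ) ^ 2) := by
      ring
    rw [h3] at h1
    rw [hC]
    linarith
  have r8 : 0 ≤ (1 - 1 / (M:ℝ) ^ 2) / L * Real.log n - C := by
    rw [mul_comm] at g2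
    linarith
  have r9 : ((n:ℝ) * (1 - 1 / M)) ^ 2 ≤ (P * s) ^ 2 := by
    have : 0 ≤ (n:ℝ) * (1 - 1 / M) := by
      have : 0 ≤ 1 - 1 / (M:ℝ) := by linarith
      positivity
    exact pow_le_pow_left₀ this r4 2
  have r10 : (n:ℝ) ^ 2 * (A * Real.log n - C) ≤
      ((n:ℝ) * (1 - 1 / M)) ^ 2 * ((1 - 1 / (M:ℝ) ^ 2) / L * Real.log n - C) := by
    have h1 : ((n:ℝ) * (1 - 1 / M)) ^ 2 * ((1 - 1 / (M:ℝ) ^ 2) / L * Real.log n - C) =
        (n:ℝ) ^ 2 * (A * Real.log n - (1 - 1 / (M:ℝ)) ^ 2 * C) := by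
      rw [hA]; ring
    rw [h1]
    have h2 : (1 - 1 / (M:ℝ)) ^ 2 ≤ 1 := pow_le_one₀ (by linarith) (by linarith)
    have h3 : (1 - 1 / (M:ℝ)) ^ 2 * C ≤ C := mul_le_of_le_one_left hC0 h2
    have h4 : (0:ℝ) ≤ (n:ℝ) ^ 2 := by positivity
    exact mul_le_mul_of_nonneg_left (by linarith) h4
  have r11 : c * (n:ℝ) ^ 2 * Real.log n ≤ (n:ℝ) ^ 2 * (A * Real.log n - C) := by
    have h4 : (0:ℝ) ≤ (n:ℝ) ^ 2 := by positivity
    have h5 : c * Real.log n ≤ A * Real.log n - C := by linarith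
    calc c * (n:ℝ) ^ 2 * Real.log n = (n:ℝ) ^ 2 * (c * Real.log n) := by ring
      _ ≤ _ := mul_le_mul_of_nonneg_left h5 h4
  calc c * (n:ℝ) ^ 2 * Real.log n ≤ (n:ℝ) ^ 2 * (A * Real.log n - C) := r11
    _ ≤ ((n:ℝ) * (1 - 1 / M)) ^ 2 * ((1 - 1 / (M:ℝ) ^ 2) / L * Real.log n - C) := r10
    _ ≤ (P * s) ^ 2 * ((1 - 1 / (M:ℝ) ^ 2) / L * Real.log n - C) :=
        mul_le_mul_of_nonneg_right r9 r8
    _ ≤ (P * s) ^ 2 * (J * (1 - 1 / (M:ℝ) ^ 2) - 4) :=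
        mul_le_mul_of_nonneg_left r7 (by positivity)

end Pool.Agent.Y300
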