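import Pool.Agent.Y300.Exist

/-! Averages of the Melnikov integral as double integrals. -/

set_option autoImplicit false

open Set MeasureTheory Topology Filter
open scoped NNReal

namespace Pool.Agent.Y300

/-- open disc -/
def Bl (p : ℝ × ℝ) (r : ℝ) : Set (ℝ × ℝ) := {z | dot (z - p) (z - p) < r ^ 2}

lemma isOpen_Bl (p : ℝ × ℝ) (r : ℝ) : IsOpen (Bl p r) :=
  isOpen_lt (continuous_dot_self p) continuous_const

lemma measurableSet_Bl (p : ℝ × ℝ) (r : ℝ) : MeasurableSet (Bl p r) :=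
  (isOpen_Bl p r).measurableSet

lemma dot_self_nonneg (v : ℝ × ℝ) : 0 ≤ dot v v := by
  unfold dot; nlinarith [mul_self_nonneg v.1, mul_self_nonneg v.2]

lemma Bl_subset_ann (p : ℝ × ℝ) (r : ℝ) : Bl p r ⊆ ann p 0 r := fun z hz =>
  ⟨by simpa using dot_self_nonneg _, le_of_lt hz⟩

/-- divergence -/
noncomputable def dv (Y : ℝ × ℝ → ℝ × ℝ) (z : ℝ × ℝ) : ℝ :=
  fderiv ℝ (fun z => (Y z).1) z (1, 0) + fderiv ℝ (fun z => (Y z).2) z (0, 1)

/-- a disc with ovals of `H` -/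
structure Well (p : ℝ × ℝ) (r₁ r₂ : ℝ) (H : ℝ × ℝ → ℝ) (a b : ℝ) : Prop where
  pos : 0 < r₁
  lt : r₁ < r₂
  ab : a < b
  hH : ContDiff ℝ 2 H
  hrad : ∀ z ∈ ann p r₁ r₂, 0 < fderiv ℝ H z (z - p)
  hin : ∀ z, dot (z - p) (z - p) ≤ r₁ ^ 2 → H z < a
  hout : ∀ z, dot (z - p) (z - p) = r₂ ^ 2 → b < H z

lemma exists_ray_lower {p : ℝ × ℝ} {r₁ r₂ : ℝ} {H : ℝ × ℝ → ℝ} (h1 : 0 < r₁) (h12 : r₁ < r₂)
    (hH : ContDiff ℝ 2 H) (hrad : ∀ z ∈ ann p r₁ r₂, 0 < fderiv ℝ H z (z - p)) :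
    ∃ m > 0, ∀ a b θ, a ∈ Icc r₁ r₂ → b ∈ Icc r₁ r₂ →
      m * |b - a| ≤ |H (pol p b θ) - H (pol p a θ)| := by
  have hcomp : IsCompact (ann p r₁ r₂) := isCompact_ann (h1.trans h12).le
  have hcont : Continuous fun z => fderiv ℝ H z (z - p) :=
    (hH.continuous_fderiv (by norm_num)).clm_apply (continuous_id.sub continuous_const)
  have hne : (ann p r₁ r₂).Nonempty := ⟨pol p r₁ 0, pol_mem_ann h1 ⟨le_rfl, h12.le⟩ 0⟩
  obtain ⟨z₀, hz₀, hmin⟩ := hcomp.exists_isMinOn hne hcont.continuousOn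
  have hd : ∀ z ∈ ann p r₁ r₂, DifferentiableAt ℝ H z := fun z _ =>
    (hH.differentiable (by norm_num)) z
  have hm0 := hrad z₀ hz₀
  have key := fun (a b θ : ℝ) (ha : a ∈ Icc r₁ r₂) (hb : b ∈ Icc r₁ r₂) (hab : a ≤ b) =>
    ray_lower (p := p) (θ := θ) h1 hd (fun z hz => hmin hz) hm0.le ha hb hab
  have hr2 : 0 < r₂ := h1.trans h12
  refine ⟨fderiv ℝ H z₀ (z₀ - p) / r₂, by positivity, fun a b θ ha hb => ?_⟩
  rcases le_total a b with hab | hab
  · have h3 := key a b θ ha hb hab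
    rw [abs_of_nonneg (sub_nonneg.2 hab)]
    exact h3.trans (le_abs_self _)
  · have h3 := key b a θ hb ha hab
    rw [abs_sub_comm b a, abs_of_nonneg (sub_nonneg.2 hab), abs_sub_comm]
    exact h3.trans (le_abs_self _)

section

variable {p : ℝ × ℝ} {r₁ r₂ : ℝ} {H : ℝ × ℝ → ℝ} {a b : ℝ}

lemma Well.exists_R (h : Well p r₁ r₂ H a b) :
    ∃ R : ℝ → ℝ → ℝ, (∀ θ, ∀ c ∈ Icc a b, R θ c ∈ Ioo r₁ r₂ ∧ H (pol p (R θ c) θ) = c) ∧
      (∀ c, ∀ θ, R (θ + 2 * Real.pi) c = R θ c) ∧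
      ContinuousOn (fun q : ℝ × ℝ => R q.1 q.2) (univ ×ˢ Icc a b) := by
  classical
  have hray : ∀ θ, Continuous fun r => H (pol p r θ) := fun θ =>
    h.hH.continuous.comp (continuous_pol.comp (by fun_prop : Continuous fun r : ℝ => (θ, r)))
  have hex : ∀ θ, ∀ c ∈ Icc a b, ∃ r ∈ Ioo r₁ r₂, H (pol p r θ) = c := by
    intro θ c hc
    have e1 : H (pol p r₁ θ) < c := (h.hin _ (dot_self_pol p r₁ θ).le).trans_le hc.1
    have e2 : c < H (pol p r₂ θ) := hc.2.trans_lt (h.hout _ (dot_self_pol p r₂ θ))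
    have := intermediate_value_Ioo h.lt.le (hray θ).continuousOn
    exact this ⟨e1, e2⟩
  have hmono : ∀ θ, StrictMonoOn (fun r => H (pol p r θ)) (Icc r₁ r₂) := fun θ =>
    ray_strictMono h.pos (fun z _ => (h.hH.differentiable (by norm_num)) z) h.hrad θ
  set R : ℝ → ℝ → ℝ := fun θ c =>
    if hx : ∃ r ∈ Ioo r₁ r₂, H (pol p r θ) = c then hx.choose else r₁ with hR
  have hRspec : ∀ θ, ∀ c ∈ Icc a b, R θ c ∈ Ioo r₁ r₂ ∧ H (pol p (R θ c) θ) = c := by
    intro θ c hc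
    have hx := hex θ c hc
    simp only [hR]
    rw [dif_pos hx]
    exact hx.choose_spec
  refine ⟨R, hRspec, ?_, ?_⟩
  · intro c θ
    have e : ∀ r, pol p r (θ + 2 * Real.pi) = pol p r θ := by
      intro r
      simp [pol, ev]
    simp only [hR, e]
  · obtain ⟨m, hm, hlow⟩ := exists_ray_lower h.pos h.lt h.hH h.hrad
    rintro ⟨θ₀, c₀⟩ ⟨-, hc₀⟩
    rw [ContinuousWithinAt, tendsto_iff_dist_tendsto_zero]
    have hg : Tendsto (fun q : ℝ × ℝ => m⁻¹ * |q.2 - H (pol p (R θ₀ c₀) q.1)|)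
        (𝓝[univ ×ˢ Icc a b] (θ₀, c₀)) (𝓝 0) := by
      have h1 : Continuous fun q : ℝ × ℝ => m⁻¹ * |q.2 - H (pol p (R θ₀ c₀) q.1)| := by
        have h2 : Continuous fun q : ℝ × ℝ => H (pol p (R θ₀ c₀) q.1) :=
          h.hH.continuous.comp (continuous_pol.comp
            (by fun_prop : Continuous fun q : ℝ × ℝ => (q.1, R θ₀ c₀)))
        exact continuous_const.mul (continuous_abs.comp (continuous_snd.sub h2))
      have h3 := h1.tendsto (θ₀, c₀)
      simp only [(hRspec θ₀ c₀ hc₀).2, sub_self, abs_zero, mul_zero] at h3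
      exact h3.mono_left nhdsWithin_le_nhds
    refine squeeze_zero' (Eventually.of_forall fun _ => dist_nonneg) ?_ hg
    filter_upwards [self_mem_nhdsWithin] with q hq
    obtain ⟨-, hq2⟩ := hq
    obtain ⟨h4, h5⟩ := hRspec q.1 q.2 hq2
    obtain ⟨h6, h7⟩ := hRspec θ₀ c₀ hc₀
    have h8 := hlow (R θ₀ c₀) (R q.1 q.2) q.1 (Ioo_subset_Icc_self h6) (Ioo_subset_Icc_self h4)
    rw [h5] at h8
    simp only [Real.dist_eq]
    rw [inv_mul_eq_div, le_div_iff₀ hm, mul_comm]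
    exact h8

/-- integral over a disc in polar coordinates -/
lemma integral_disc {f : ℝ × ℝ → ℝ} (hf : Continuous f) {r : ℝ} (hr : 0 < r) (p : ℝ × ℝ) :
    ∫ z in Bl p r, f z =
      ∫ θ in (-Real.pi)..Real.pi, ∫ ρ in (0:ℝ)..r, ρ * f (pol p ρ θ) := by
  have hg : Continuous fun q : ℝ × ℝ => q.1 * f (pol p q.1 q.2) := by
    have h1 : Continuous fun q : ℝ × ℝ => pol p q.1 q.2 :=
      continuous_pol.comp (by fun_prop : Continuous fun q : ℝ × ℝ => (q.2, q.1))
    exact continuous_fst.mul (hf.comp h1)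
  set A : Set (ℝ × ℝ) := Ioo 0 r ×ˢ Ioo (-Real.pi) Real.pi with hA
  have hAm : MeasurableSet A := measurableSet_Ioo.prod measurableSet_Ioo
  have hAt : A ⊆ polarCoord.target := by
    rintro ⟨x, y⟩ ⟨hx, hy⟩
    rw [polarCoord_target]
    exact ⟨hx.1, hy⟩
  have hint : IntegrableOn (fun q : ℝ × ℝ => q.1 * f (pol p q.1 q.2))
      (Icc 0 r ×ˢ Icc (-Real.pi) Real.pi) :=
    hg.continuousOn.integrableOn_compact (isCompact_Icc.prod isCompact_Icc)
  have hintA : IntegrableOn (fun q : ℝ × ℝ => q.1 * f (pol p q.1 q.2)) A :=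
    hint.mono_set (prod_mono Ioo_subset_Icc_self Ioo_subset_Icc_self)
  calc ∫ z in Bl p r, f z = ∫ z, (Bl p r).indicator f z :=
        (integral_indicator (measurableSet_Bl p r)).symm
    _ = ∫ z, (Bl p r).indicator f (p + z) := (integral_add_left_eq_self _ p).symm
    _ = ∫ q in polarCoord.target, q.1 • (Bl p r).indicator f (p + polarCoord.symm q) :=
        (integral_comp_polarCoord_symm (fun z => (Bl p r).indicator f (p + z))).symm
    _ = ∫ q in polarCoord.target, A.indicator (fun q => q.1 * f (pol p q.1 q.2)) q := by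
        refine setIntegral_congr_fun polarCoord.open_target.measurableSet ?_
        intro q hq
        rw [polarCoord_target] at hq
        obtain ⟨hq1, hq2⟩ := hq
        have hq1' : 0 < q.1 := hq1
        have e : p + polarCoord.symm q = pol p q.1 q.2 := by
          simp [pol, ev, polarCoord]
        simp only [e]
        by_cases hqr : q.1 < r
        · have h1 : pol p q.1 q.2 ∈ Bl p r := by
            show dot (pol p q.1 q.2 - p) (pol p q.1 q.2 - p) < r ^ 2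
            rw [dot_self_pol]
            nlinarith
          have h2 : q ∈ A := ⟨⟨hq1', hqr⟩, hq2⟩
          rw [indicator_of_mem h1, indicator_of_mem h2, smul_eq_mul]
        · have h1 : pol p q.1 q.2 ∉ Bl p r := by
            show ¬ dot (pol p q.1 q.2 - p) (pol p q.1 q.2 - p) < r ^ 2
            rw [dot_self_pol]
            nlinarith
          have h2 : q ∉ A := fun h => hqr h.1.2
          rw [indicator_of_notMem h1, indicator_of_notMem h2, smul_zero]
    _ = ∫ q in A, q.1 * f (pol p q.1 q.2) := by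
        rw [setIntegral_indicator hAm, inter_eq_right.2 hAt]
    _ = ∫ ρ in Ioo 0 r, ∫ θ in Ioo (-Real.pi) Real.pi, ρ * f (pol p ρ θ) :=
        setIntegral_prod _ hintA
    _ = ∫ ρ in (0:ℝ)..r, ∫ θ in (-Real.pi)..Real.pi, ρ * f (pol p ρ θ) := by
        rw [intervalIntegral.integral_of_le hr.le, integral_Ioc_eq_integral_Ioo]
        refine setIntegral_congr_fun measurableSet_Ioo fun ρ _ => ?_
        rw [intervalIntegral.integral_of_le (by linarith [Real.pi_pos]),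
          integral_Ioc_eq_integral_Ioo]
    _ = _ := by
        apply intervalIntegral_intervalIntegral_swap (F := fun ρ θ => ρ * f (pol p ρ θ))
        refine hint.mono_set ?_
        rw [uIoc_of_le hr.le, uIoc_of_le (by linarith [Real.pi_pos])]
        exact prod_mono Ioc_subset_Icc_self Ioc_subset_Icc_self

end

end Pool.Agent.Y300
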