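import Pool.Agent.Y300.Avg

/-! Averages of the Melnikov integral as double integrals, part 2. -/

set_option autoImplicit false

open Set MeasureTheory Topology Filter
open scoped NNReal

namespace Pool.Agent.Y300

section

variable {p : ℝ × ℝ} {r₁ r₂ : ℝ} {H : ℝ × ℝ → ℝ} {a b : ℝ}

lemma mel_continuousOn (hH : ContDiff ℝ 2 H) {Y : ℝ × ℝ → ℝ × ℝ} (hY : Continuous Y)
    (hrad : ∀ z ∈ ann p r₁ r₂, 0 < fderiv ℝ H z (z - p)) :
    ContinuousOn (mel p H Y) (ann p r₁ r₂) := by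
  have h1 : Continuous (fderiv ℝ H) := hH.continuous_fderiv (by norm_num)
  have h2 : Continuous fun z => fderiv ℝ H z (z - p) :=
    h1.clm_apply (continuous_id.sub continuous_const)
  have h3 : Continuous fun z => dot (z - p) (z - p) * fderiv ℝ H z (Y z) :=
    (continuous_dot_self p).mul (h1.clm_apply hY)
  exact h3.continuousOn.div h2.continuousOn fun z hz => (hrad z hz).ne'

lemma Well.avg (h : Well p r₁ r₂ H a b) {Y : ℝ × ℝ → ℝ × ℝ} (hY : Continuous Y) {R : ℝ → ℝ → ℝ}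
    (hR : ∀ θ, ∀ c ∈ Icc a b, R θ c ∈ Ioo r₁ r₂ ∧ H (pol p (R θ c) θ) = c)
    (hRc : ContinuousOn (fun q : ℝ × ℝ => R q.1 q.2) (univ ×ˢ Icc a b)) {ψ : ℝ → ℝ}
    (hψ : Continuous ψ) (hψ0 : ∀ t, t ∉ Ioo a b → ψ t = 0) :
    ∫ z in Bl p r₂, ψ (H z) * fderiv ℝ H z (Y z) =
      ∫ c in a..b, ψ c * ∫ θ in (-Real.pi)..Real.pi, mel p H Y (pol p (R θ c) θ) := by
  have hr2 : 0 < r₂ := h.pos.trans h.lt
  have hdH : Continuous (fderiv ℝ H) := h.hH.continuous_fderiv (by norm_num)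
  have hf : Continuous fun z => ψ (H z) * fderiv ℝ H z (Y z) :=
    (hψ.comp h.hH.continuous).mul (hdH.clm_apply hY)
  rw [integral_disc hf hr2]
  have hmem : ∀ θ, ∀ c ∈ Icc a b, pol p (R θ c) θ ∈ ann p r₁ r₂ := fun θ c hc =>
    pol_mem_ann h.pos (Ioo_subset_Icc_self (hR θ c hc).1) θ
  have hmono : ∀ θ, StrictMonoOn (fun r => H (pol p r θ)) (Icc r₁ r₂) := fun θ =>
    ray_strictMono h.pos (fun z _ => (h.hH.differentiable (by norm_num)) z) h.hrad θ
  have hpolR : ContinuousOn (fun q : ℝ × ℝ => pol p (R q.1 q.2) q.1) (univ ×ˢ Icc a b) :=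
    continuous_pol.comp_continuousOn (continuousOn_fst.prodMk hRc)
  have hmelc : ContinuousOn (fun q : ℝ × ℝ => mel p H Y (pol p (R q.1 q.2) q.1))
      (univ ×ˢ Icc a b) :=
    (mel_continuousOn h.hH hY h.hrad).comp hpolR fun q hq => hmem q.1 q.2 hq.2
  have hab := h.ab.le
  -- the inner integral
  have hinner : ∀ θ, ∫ ρ in (0:ℝ)..r₂, ρ * (ψ (H (pol p ρ θ)) *
      fderiv ℝ H (pol p ρ θ) (Y (pol p ρ θ))) =
      ∫ c in a..b, ψ c * mel p H Y (pol p (R θ c) θ) := by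
    intro θ
    obtain ⟨ha1, ha2⟩ := hR θ a (left_mem_Icc.2 hab)
    obtain ⟨hb1, hb2⟩ := hR θ b (right_mem_Icc.2 hab)
    set A := R θ a with hA
    set B := R θ b with hB
    have hAB : A < B := by
      by_contra hcon
      push Not at hcon
      have h3 := (hmono θ).monotoneOn (Ioo_subset_Icc_self hb1) (Ioo_subset_Icc_self ha1) hcon
      rw [ha2, hb2] at h3
      exact absurd h3 (not_le.2 h.ab)
    have hpc : Continuous fun ρ : ℝ => pol p ρ θ :=
      continuous_pol.comp (by fun_prop : Continuous fun r : ℝ => (θ, r))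
    have hFc : Continuous fun ρ : ℝ => ρ * (ψ (H (pol p ρ θ)) *
      fderiv ℝ H (pol p ρ θ) (Y (pol p ρ θ))) := continuous_id.mul (hf.comp hpc)
    have hii : ∀ x y : ℝ, IntervalIntegrable (fun ρ : ℝ => ρ * (ψ (H (pol p ρ θ)) *
      fderiv ℝ H (pol p ρ θ) (Y (pol p ρ θ)))) volume x y := fun x y => hFc.intervalIntegrable x y
    have hlow : ∀ ρ ∈ Icc 0 A, ψ (H (pol p ρ θ)) = 0 := by
      intro ρ hρ
      apply hψ0
      intro hcon
      rcases le_total ρ r₁ with h4 | h4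
      · have := h.hin (pol p ρ θ) (by rw [dot_self_pol]; nlinarith [hρ.1, h.pos])
        exact absurd hcon.1 (not_lt.2 this.le)
      · have h5 := (hmono θ).monotoneOn ⟨h4, (hρ.2.trans ha1.2.le)⟩ (Ioo_subset_Icc_self ha1) hρ.2
        rw [ha2] at h5
        exact absurd hcon.1 (not_lt.2 h5)
    have hhigh : ∀ ρ ∈ Icc B r₂, ψ (H (pol p ρ θ)) = 0 := by
      intro ρ hρ
      apply hψ0
      intro hcon
      have h5 := (hmono θ).monotoneOn (Ioo_subset_Icc_self hb1)
        ⟨hb1.1.le.trans hρ.1, hρ.2⟩ hρ.1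
      rw [hb2] at h5
      exact absurd hcon.2 (not_lt.2 h5)
    have hA0 : 0 < A := h.pos.trans ha1.1
    have e1 : ∫ ρ in (0:ℝ)..A, ρ * (ψ (H (pol p ρ θ)) *
      fderiv ℝ H (pol p ρ θ) (Y (pol p ρ θ))) = 0 := by
      rw [intervalIntegral.integral_congr (g := fun _ => 0)]
      · simp
      · intro ρ hρ
        rw [uIcc_of_le hA0.le] at hρ
        simp only [hlow ρ hρ, zero_mul, mul_zero]
    have e2 : ∫ ρ in B..r₂, ρ * (ψ (H (pol p ρ θ)) *
      fderiv ℝ H (pol p ρ θ) (Y (pol p ρ θ))) = 0 := by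
      rw [intervalIntegral.integral_congr (g := fun _ => 0)]
      · simp
      · intro ρ hρ
        rw [uIcc_of_le hb1.2.le] at hρ
        simp only [hhigh ρ hρ, zero_mul, mul_zero]
    rw [← intervalIntegral.integral_add_adjacent_intervals (hii 0 A) (hii A r₂),
      ← intervalIntegral.integral_add_adjacent_intervals (hii A B) (hii B r₂), e1, e2, zero_add,
      add_zero]
    -- substitution
    have himg : (fun ρ => H (pol p ρ θ)) '' (uIcc A B) ⊆ Icc a b := by
      rw [uIcc_of_le hAB.le]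
      rintro _ ⟨ρ, hρ, rfl⟩
      have hρ' : ρ ∈ Icc r₁ r₂ := ⟨ha1.1.le.trans hρ.1, hρ.2.trans hb1.2.le⟩
      refine ⟨?_, ?_⟩
      · have := (hmono θ).monotoneOn (Ioo_subset_Icc_self ha1) hρ' hρ.1
        rwa [ha2] at this
      · have := (hmono θ).monotoneOn hρ' (Ioo_subset_Icc_self hb1) hρ.2
        rwa [hb2] at this
    have hsub := intervalIntegral.integral_comp_mul_deriv' (a := A) (b := B)
      (f := fun ρ => H (pol p ρ θ)) (f' := fun ρ => fderiv ℝ H (pol p ρ θ) (ev θ))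
      (g := fun c => ψ c * mel p H Y (pol p (R θ c) θ))
      (fun ρ _ => hasDerivAt_ray H p ((h.hH.differentiable (by norm_num)) _))
      ((hdH.comp hpc).clm_apply continuous_const).continuousOn ?_
    · simp only [ha2, hb2] at hsub
      rw [← hsub]
      refine intervalIntegral.integral_congr fun ρ hρ => ?_
      have hρi := himg (mem_image_of_mem _ hρ)
      rw [uIcc_of_le hAB.le] at hρ
      have hρ' : ρ ∈ Icc r₁ r₂ := ⟨ha1.1.le.trans hρ.1, hρ.2.trans hb1.2.le⟩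
      have hρ0 : 0 < ρ := h.pos.trans_le hρ'.1
      have hRρ : R θ (H (pol p ρ θ)) = ρ := by
        obtain ⟨h6, h7⟩ := hR θ (H (pol p ρ θ)) hρi
        exact (hmono θ).injOn (Ioo_subset_Icc_self h6) hρ' h7
      simp only [Function.comp]
      rw [hRρ, fderiv_ev_eq H p hρ0]
      unfold mel
      rw [dot_self_pol]
      have := h.hrad _ (pol_mem_ann h.pos hρ' θ)
      field_simp
    · refine ContinuousOn.mono ?_ himg
      refine hψ.continuousOn.mul ?_
      have h8 : ContinuousOn (fun c : ℝ => ((θ, c) : ℝ × ℝ)) (Icc a b) := by fun_prop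
      exact ContinuousOn.comp (g := fun q : ℝ × ℝ => mel p H Y (pol p (R q.1 q.2) q.1))
        (f := fun c : ℝ => ((θ, c) : ℝ × ℝ)) (t := univ ×ˢ Icc a b) hmelc h8
        (fun c hc => ⟨mem_univ _, hc⟩)
  simp only [hinner]
  rw [intervalIntegral_intervalIntegral_swap (F := fun θ c => ψ c * mel p H Y (pol p (R θ c) θ))]
  · refine intervalIntegral.integral_congr fun c _ => ?_
    rw [intervalIntegral.integral_const_mul]
  · have h9 : ContinuousOn (Function.uncurry fun θ c => ψ c * mel p H Y (pol p (R θ c) θ))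
        (Icc (-Real.pi) Real.pi ×ˢ Icc a b) := by
      have h10 : ContinuousOn (fun q : ℝ × ℝ => ψ q.2 * mel p H Y (pol p (R q.1 q.2) q.1))
          (Icc (-Real.pi) Real.pi ×ˢ Icc a b) :=
        (hψ.comp continuous_snd).continuousOn.mul
          (hmelc.mono (prod_mono (subset_univ _) Subset.rfl))
      exact h10
    refine (h9.integrableOn_compact (isCompact_Icc.prod isCompact_Icc)).mono_set ?_
    rw [uIoc_of_le (by linarith [Real.pi_pos]), uIoc_of_le hab]
    exact prod_mono Ioc_subset_Icc_self Ioc_subset_Icc_self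

/-- a level with a prescribed sign of the Melnikov integral -/
lemma Well.exists_level (h : Well p r₁ r₂ H a b) {Y : ℝ × ℝ → ℝ × ℝ} (hY : Continuous Y)
    {R : ℝ → ℝ → ℝ}
    (hR : ∀ θ, ∀ c ∈ Icc a b, R θ c ∈ Ioo r₁ r₂ ∧ H (pol p (R θ c) θ) = c)
    (hRc : ContinuousOn (fun q : ℝ × ℝ => R q.1 q.2) (univ ×ˢ Icc a b))
    (hRp : ∀ c, ∀ θ, R (θ + 2 * Real.pi) c = R θ c) {ψ : ℝ → ℝ}
    (hψ : Continuous ψ) (hψpos : ∀ t, 0 ≤ ψ t) {a' b' : ℝ} (ha' : a ≤ a') (hb' : b' ≤ b)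
    (hψ0 : ∀ t, t ∉ Ioo a' b' → ψ t = 0) {s : ℝ}
    (hs : 0 < s * ∫ z in Bl p r₂, ψ (H z) * fderiv ℝ H z (Y z)) :
    ∃ c ∈ Ioo a' b', 0 < s * ∫ θ in (0:ℝ)..(2 * Real.pi), mel p H Y (pol p (R θ c) θ) := by
  have hsub : Ioo a' b' ⊆ Ioo a b := Ioo_subset_Ioo ha' hb'
  rw [h.avg hY hR hRc hψ fun t ht => hψ0 t fun h' => ht (hsub h')] at hs
  by_contra hcon
  push Not at hcon
  have hper : ∀ c, ∫ θ in (-Real.pi)..Real.pi, mel p H Y (pol p (R θ c) θ) =
      ∫ θ in (0:ℝ)..(2 * Real.pi), mel p H Y (pol p (R θ c) θ) := by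
    intro c
    have hp : Function.Periodic (fun θ => mel p H Y (pol p (R θ c) θ)) (2 * Real.pi) := by
      intro θ
      simp only
      rw [hRp]
      congr 1
      simp [pol, ev]
    have := hp.intervalIntegral_add_eq (-Real.pi) 0
    rw [show -Real.pi + 2 * Real.pi = Real.pi by ring, zero_add] at this
    exact this
  have h1 : s * ∫ c in a..b, ψ c * ∫ θ in (-Real.pi)..Real.pi, mel p H Y (pol p (R θ c) θ) =
      ∫ c in a..b, s * (ψ c * ∫ θ in (-Real.pi)..Real.pi, mel p H Y (pol p (R θ c) θ)) :=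
    (intervalIntegral.integral_const_mul _ _).symm
  rw [h1] at hs
  refine absurd hs (not_lt.2 ?_)
  rw [intervalIntegral.integral_of_le h.ab.le]
  refine integral_nonpos fun c => ?_
  simp only [Pi.zero_apply]
  rw [hper]
  by_cases hc : c ∈ Ioo a' b'
  · have h2 := hcon c hc
    have h3 := hψpos c
    nlinarith
  · rw [hψ0 c hc, zero_mul, mul_zero]

end

end Pool.Agent.Y300
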