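import Pool.Agent.Y300.Stage

/-! The initial Hamiltonian: a product of ellipses. -/

set_option autoImplicit false

open Set MeasureTheory Topology Filter
open scoped NNReal

namespace Pool.Agent.Y300

lemma hasDerivAt_prod_log {ι : Type*} (s : Finset ι) (φ : ι → ℝ → ℝ) (φ' : ι → ℝ) {x : ℝ}
    (h : ∀ i ∈ s, HasDerivAt (φ i) (φ' i) x) (h0 : ∀ i ∈ s, φ i x ≠ 0) :
    HasDerivAt (fun x => ∏ i ∈ s, φ i x) ((∏ i ∈ s, φ i x) * ∑ i ∈ s, φ' i / φ i x) x := by
  classical
  induction s using Finset.induction_on with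
  | empty => simpa using hasDerivAt_const x (1:ℝ)
  | insert i s hi ih =>
    have h1 := ih (fun j hj => h j (Finset.mem_insert_of_mem hj))
      (fun j hj => h0 j (Finset.mem_insert_of_mem hj))
    have h2 := (h i (Finset.mem_insert_self _ _)).mul h1
    have h3 := h0 i (Finset.mem_insert_self _ _)
    have e : (fun x => ∏ j ∈ insert i s, φ j x) = φ i * fun x => ∏ j ∈ s, φ j x := by
      funext x
      rw [Finset.prod_insert hi, Pi.mul_apply]
    rw [e, Finset.prod_insert hi, Finset.sum_insert hi]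
    refine h2.congr_deriv ?_
    field_simp

/-- value of one factor on the side, as a function of `y` -/
noncomputable def Ef (t y : ℝ) : ℝ := 4 * t + y ^ 2 / t - 6

/-- the square of the root -/
def rt (t : ℝ) : ℝ := t * (6 - 4 * t)

lemma Ef_eq {t : ℝ} (ht : 0 < t) (y : ℝ) : Ef t y = (y ^ 2 - rt t) / t := by
  unfold Ef rt
  field_simp
  try ring

lemma rt_anti {s t : ℝ} (hs : 3 / 4 < s) (hst : s < t) : rt t < rt s := by
  unfold rt
  nlinarith

lemma rt_bounds {t : ℝ} (h1 : 3 / 4 < t) (h2 : t < 4 / 3) : 0 < rt t ∧ rt t < 4 := by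
  unfold rt
  constructor <;> nlinarith [sq_nonneg (t - 3 / 4)]

section side

variable {s : ℕ} {t : ℕ → ℝ}

/-- the restriction of the initial Hamiltonian to a side -/
noncomputable def fs (s : ℕ) (t : ℕ → ℝ) (y : ℝ) : ℝ := ∏ i ∈ Finset.range s, Ef (t i) y

lemma hasDerivAt_Ef {t : ℝ} (y : ℝ) : HasDerivAt (Ef t) (2 * y / t) y := by
  unfold Ef
  have h := (((hasDerivAt_pow 2 y).div_const t).const_add (4 * t)).sub_const 6
  simpa using h

lemma contDiff_fs {n : WithTop ℕ∞} : ContDiff ℝ n (fs s t) := by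
  unfold fs Ef
  fun_prop

lemma hasDerivAt_fs {y : ℝ} (h0 : ∀ i ∈ Finset.range s, Ef (t i) y ≠ 0) :
    HasDerivAt (fs s t) (fs s t y * ∑ i ∈ Finset.range s, (2 * y / t i) / Ef (t i) y) y :=
  hasDerivAt_prod_log _ (fun i => Ef (t i)) (fun i => 2 * y / t i)
    (fun _ _ => hasDerivAt_Ef y) h0

/-- a critical point in a gap is a tangency -/
lemma crit_mem (ht : ∀ i < s, 3 / 4 < t i ∧ t i < 4 / 3)
    (hmono : ∀ i j, i < j → j < s → t i < t j) {k : ℕ}
    (hk : k + 1 < s) {y : ℝ} (hy1 : rt (t (k + 1)) < y ^ 2) (hy2 : y ^ 2 < rt (t k))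
    (hcrit : ∑ i ∈ Finset.range s, (1 / t i) / Ef (t i) y = 0) {g : ℝ → ℝ}
    (hg : ∀ y, (∀ i ∈ Finset.range s, Ef (t i) y ≠ 0) →
      g y = fs s t y * (-4 * ∑ i ∈ Finset.range s, t i / Ef (t i) y)) :
    y ∈ Tn (fs s t) g := by
  have hks : k < s := by omega
  have ht0 : ∀ i < s, 0 < t i := fun i hi => by linarith [(ht i hi).1]
  have hneg : ∀ i ≤ k, Ef (t i) y < 0 := by
    intro i hi
    have his : i < s := by omega
    rw [Ef_eq (ht0 i his)]
    apply div_neg_of_neg_of_pos _ (ht0 i his)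
    rcases eq_or_lt_of_le hi with h | h
    · rw [h]; linarith
    · have := rt_anti (ht i his).1 (hmono i k h hks)
      linarith
  have hposi : ∀ i, k + 1 ≤ i → i < s → 0 < Ef (t i) y := by
    intro i hi his
    rw [Ef_eq (ht0 i his)]
    apply div_pos _ (ht0 i his)
    rcases eq_or_lt_of_le hi with h | h
    · rw [← h]; linarith
    · have := rt_anti (ht (k + 1) hk).1 (hmono _ _ h his)
      linarith
  have hne : ∀ i ∈ Finset.range s, Ef (t i) y ≠ 0 := by
    intro i his
    rcases Nat.lt_or_ge k i with h | h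
    · exact (hposi i h (Finset.mem_range.1 his)).ne'
    · exact (hneg i h).ne
  have hy0 : y ≠ 0 := by
    rintro rfl
    have := (rt_bounds (ht (k + 1) hk).1 (ht (k + 1) hk).2).1
    norm_num at hy1
    linarith
  have hy4 : y ^ 2 < 4 := hy2.trans (rt_bounds (ht k hks).1 (ht k hks).2).2
  -- near `y` the factors do not vanish
  have hcE : ∀ i, Continuous (Ef (t i)) := fun i => by unfold Ef; fun_prop
  have hev : ∀ᶠ x in 𝓝 y, ∀ i ∈ Finset.range s, Ef (t i) x ≠ 0 := by
    rw [Filter.eventually_all_finset]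
    intro i hi
    exact ((hcE i).continuousAt).eventually_ne (hne i hi)
  have hd1 : deriv (fs s t) =ᶠ[𝓝 y] fun x =>
      fs s t x * ∑ i ∈ Finset.range s, (2 * x / t i) / Ef (t i) x := by
    filter_upwards [hev] with x hx
    exact (hasDerivAt_fs hx).deriv
  have hS : ∑ i ∈ Finset.range s, (2 * y / t i) / Ef (t i) y = 0 := by
    have : ∑ i ∈ Finset.range s, (2 * y / t i) / Ef (t i) y =
        2 * y * ∑ i ∈ Finset.range s, (1 / t i) / Ef (t i) y := by
      rw [Finset.mul_sum]
      refine Finset.sum_congr rfl fun i _ => ?_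
      ring
    rw [this, hcrit, mul_zero]
  have hd2 : deriv (deriv (fs s t)) y = fs s t y *
      ∑ i ∈ Finset.range s, (-(2 * y / t i) ^ 2 / Ef (t i) y ^ 2) := by
    rw [hd1.deriv_eq]
    have h1 : HasDerivAt (fun x => ∑ i ∈ Finset.range s, (2 * x / t i) / Ef (t i) x)
        (∑ i ∈ Finset.range s, ((2 / t i) * Ef (t i) y - (2 * y / t i) * (2 * y / t i)) /
          Ef (t i) y ^ 2) y := by
      have h2 : ∀ i ∈ Finset.range s, HasDerivAt (fun x => (2 * x / t i) / Ef (t i) x)
          (((2 / t i) * Ef (t i) y - (2 * y / t i) * (2 * y / t i)) / Ef (t i) y ^ 2) y := by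
        intro i hi
        have h3 : HasDerivAt (fun x => 2 * x / t i) (2 / t i) y := by
          have := ((hasDerivAt_id y).const_mul 2).div_const (t i)
          simpa using this
        exact h3.div (hasDerivAt_Ef y) (hne i hi)
      exact HasDerivAt.fun_sum h2
    have h4 := ((hasDerivAt_fs hne).mul h1).deriv
    have h5 : deriv (fun x => fs s t x * ∑ i ∈ Finset.range s, (2 * x / t i) / Ef (t i) x) y =
        deriv (fs s t * fun x => ∑ i ∈ Finset.range s, (2 * x / t i) / Ef (t i) x) y := rfl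
    rw [h5, h4, hS, mul_zero, zero_add]
    congr 1
    have h6 : ∑ i ∈ Finset.range s, ((2 / t i) * Ef (t i) y - (2 * y / t i) * (2 * y / t i)) /
          Ef (t i) y ^ 2 = 2 * ∑ i ∈ Finset.range s, (1 / t i) / Ef (t i) y +
          ∑ i ∈ Finset.range s, (-(2 * y / t i) ^ 2 / Ef (t i) y ^ 2) := by
      rw [Finset.mul_sum, ← Finset.sum_add_distrib]
      refine Finset.sum_congr rfl fun i hi => ?_
      have h7 := hne i hi
      have h8 := (ht0 i (Finset.mem_range.1 hi)).ne'
      field_simp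
      ring
    rw [h6, hcrit, mul_zero, zero_add]
  have hkm : k ∈ Finset.range s := Finset.mem_range.2 (by omega)
  have hQ : ∑ i ∈ Finset.range s, (-(2 * y / t i) ^ 2 / Ef (t i) y ^ 2) < 0 := by
    apply Finset.sum_neg
    · intro i hi
      have h7 := hne i hi
      have h8 := ht0 i (Finset.mem_range.1 hi)
      rw [neg_div]
      have : 0 < (2 * y / t i) ^ 2 / Ef (t i) y ^ 2 := by positivity
      linarith
    · exact ⟨k, hkm⟩
  have hW : 0 < ∑ i ∈ Finset.range s, t i / Ef (t i) y := by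
    have h1 : ∑ i ∈ Finset.range s, t i / Ef (t i) y =
        ∑ i ∈ Finset.range s, (t i ^ 2 - t (k + 1) ^ 2) * ((1 / t i) / Ef (t i) y) := by
      have h2 : ∑ i ∈ Finset.range s, (t i ^ 2 - t (k + 1) ^ 2) * ((1 / t i) / Ef (t i) y) =
          ∑ i ∈ Finset.range s, t i / Ef (t i) y -
          t (k + 1) ^ 2 * ∑ i ∈ Finset.range s, (1 / t i) / Ef (t i) y := by
        rw [Finset.mul_sum, ← Finset.sum_sub_distrib]
        refine Finset.sum_congr rfl fun i hi => ?_
        have h8 := (ht0 i (Finset.mem_range.1 hi)).ne'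
        field_simp
      rw [h2, hcrit, mul_zero, sub_zero]
    rw [h1]
    apply Finset.sum_pos'
    · intro i hi
      have his := Finset.mem_range.1 hi
      rcases Nat.lt_or_ge k i with h | h
      · have h3 := hposi i h his
        have h4 : t (k + 1) ≤ t i := by
          rcases eq_or_lt_of_le (Nat.succ_le_of_lt h) with h' | h'
          · rw [← h']
          · exact (hmono _ _ h' his).le
        have h5 := ht0 (k + 1) hk
        have h6 := ht0 i his
        have h7 : 0 ≤ t i ^ 2 - t (k + 1) ^ 2 := by nlinarith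
        positivity
      · have h3 := hneg i h
        have h4 : t i < t (k + 1) := hmono _ _ (by omega) hk
        have h5 := ht0 (k + 1) hk
        have h6 := ht0 i his
        have h7 : t i ^ 2 - t (k + 1) ^ 2 < 0 := by nlinarith
        have h8 : (1 / t i) / Ef (t i) y < 0 := div_neg_of_pos_of_neg (by positivity) h3
        exact (mul_pos_of_neg_of_neg h7 h8).le
    · refine ⟨k, hkm, ?_⟩
      have h3 := hneg k le_rfl
      have h4 : t k < t (k + 1) := hmono _ _ (by omega) hk
      have h5 := ht0 (k + 1) hk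
      have h6 := ht0 k hks
      have h7 : t k ^ 2 - t (k + 1) ^ 2 < 0 := by nlinarith
      have h8 : (1 / t k) / Ef (t k) y < 0 := div_neg_of_pos_of_neg (by positivity) h3
      exact mul_pos_of_neg_of_neg h7 h8
  have hf0 : fs s t y ≠ 0 := Finset.prod_ne_zero_iff.2 hne
  refine ⟨⟨by nlinarith, by nlinarith⟩, ?_, ?_⟩
  · rw [(hasDerivAt_fs hne).deriv, hS, mul_zero]
  · rw [hd2, hg y hne]
    have h1 : 0 < fs s t y ^ 2 := by positivity
    have h2 := mul_pos hW (neg_pos.2 hQ)
    nlinarith [mul_pos h1 h2]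

/-- the number of tangencies on a side -/
lemma side_count (ht : ∀ i < s, 3 / 4 < t i ∧ t i < 4 / 3)
    (hmono : ∀ i j, i < j → j < s → t i < t j) {g : ℝ → ℝ}
    (hg : ∀ y, (∀ i ∈ Finset.range s, Ef (t i) y ≠ 0) →
      g y = fs s t y * (-4 * ∑ i ∈ Finset.range s, t i / Ef (t i) y)) :
    ((2 * (s - 1) : ℕ) : ℕ∞) ≤ (Tn (fs s t) g).encard := by
  have ht0 : ∀ i < s, 0 < t i := fun i hi => by linarith [(ht i hi).1]
  -- critical points
  have hex : ∀ k : Fin (s - 1), ∃ c : ℝ, 0 < c ∧ rt (t (k + 1)) < c ^ 2 ∧ c ^ 2 < rt (t k) ∧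
      ∑ i ∈ Finset.range s, (1 / t i) / Ef (t i) c = 0 := by
    intro k
    have hk : (k : ℕ) + 1 < s := by omega
    have hks : (k : ℕ) < s := by omega
    have hb1 := rt_bounds (ht (k + 1) hk).1 (ht (k + 1) hk).2
    have hb2 := rt_bounds (ht k hks).1 (ht k hks).2
    have hlt := rt_anti (ht k hks).1 (hmono _ _ (Nat.lt_succ_self (k : ℕ)) hk)
    have hz1 : fs s t (√(rt (t (k + 1)))) = 0 := by
      refine Finset.prod_eq_zero (Finset.mem_range.2 hk) ?_
      rw [Ef_eq (ht0 _ hk), Real.sq_sqrt hb1.1.le, sub_self, zero_div]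
    have hz2 : fs s t (√(rt (t k))) = 0 := by
      refine Finset.prod_eq_zero (Finset.mem_range.2 hks) ?_
      rw [Ef_eq (ht0 _ hks), Real.sq_sqrt hb2.1.le, sub_self, zero_div]
    obtain ⟨c, hc, hc0⟩ := exists_deriv_eq_zero (Real.sqrt_lt_sqrt hb1.1.le hlt)
      (contDiff_fs (n := 0)).continuous.continuousOn (hz1.trans hz2.symm)
    have hcpos : 0 < c := (Real.sqrt_pos.2 hb1.1).trans hc.1
    have hc1 : rt (t (k + 1)) < c ^ 2 := (Real.sqrt_lt' hcpos).1 hc.1
    have hc2 : c ^ 2 < rt (t k) := by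
      have h1 := Real.sq_sqrt hb2.1.le
      have h2 := Real.sqrt_nonneg (rt (t k))
      nlinarith [hc.2]
    refine ⟨c, hcpos, hc1, hc2, ?_⟩
    have hne : ∀ i ∈ Finset.range s, Ef (t i) c ≠ 0 := by
      intro i his
      have his := Finset.mem_range.1 his
      rw [Ef_eq (ht0 i his)]
      apply div_ne_zero _ (ht0 i his).ne'
      rcases Nat.lt_or_ge k i with h | h
      · have : rt (t i) ≤ rt (t (k + 1)) := by
          rcases eq_or_lt_of_le (Nat.succ_le_of_lt h) with h' | h'
          · rw [← h']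
          · exact (rt_anti (ht (k + 1) hk).1 (hmono _ _ h' his)).le
        have : 0 < c ^ 2 - rt (t i) := by linarith
        exact this.ne'
      · have : rt (t k) ≤ rt (t i) := by
          rcases eq_or_lt_of_le h with h' | h'
          · rw [h']
          · exact (rt_anti (ht i his).1 (hmono _ _ h' hks)).le
        have : c ^ 2 - rt (t i) < 0 := by linarith
        exact this.ne
    have h3 := (hasDerivAt_fs hne).deriv
    rw [hc0] at h3
    have hf0 : fs s t c ≠ 0 := Finset.prod_ne_zero_iff.2 hne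
    have h4 : ∑ i ∈ Finset.range s, (2 * c / t i) / Ef (t i) c = 0 :=
      (mul_eq_zero.1 h3.symm).resolve_left hf0
    have h5 : ∑ i ∈ Finset.range s, (2 * c / t i) / Ef (t i) c =
        2 * c * ∑ i ∈ Finset.range s, (1 / t i) / Ef (t i) c := by
      rw [Finset.mul_sum]
      refine Finset.sum_congr rfl fun i _ => ?_
      ring
    rw [h5] at h4
    exact (mul_eq_zero.1 h4).resolve_left (by positivity)
  choose c hc0 hc1 hc2 hc3 using hex
  have hinj : Function.Injective c := by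
    intro k l hkl
    by_contra hne
    have key : ∀ k l : Fin (s - 1), k < l → c l < c k := by
      intro k l h
      have h1 : rt (t l) ≤ rt (t (k + 1)) := by
        have h2 : (k : ℕ) + 1 ≤ l := h
        rcases eq_or_lt_of_le h2 with h' | h'
        · rw [← h']
        · exact (rt_anti (ht (k + 1) (by omega)).1 (hmono _ _ h' (by omega))).le
      have h3 := hc2 l
      have h4 := hc1 k
      have h5 := hc0 k
      have h6 := hc0 l
      nlinarith
    rcases lt_or_gt_of_ne hne with h | h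
    · exact absurd hkl (key _ _ h).ne'
    · exact absurd hkl (key _ _ h).ne
  set A := range c with hA
  set B := range fun k => -c k with hB
  have hAB : Disjoint A B := by
    rw [Set.disjoint_left]
    rintro _ ⟨k, rfl⟩ ⟨l, h⟩
    have := hc0 k
    have := hc0 l
    simp only at h
    linarith
  have hsub : A ∪ B ⊆ Tn (fs s t) g := by
    rintro _ (⟨k, rfl⟩ | ⟨k, rfl⟩)
    · exact crit_mem ht hmono (by omega) (hc1 k) (hc2 k) (hc3 k) hg
    · refine crit_mem ht hmono (k := k) (by omega) ?_ ?_ ?_ hg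
      · simp only [neg_sq]; exact hc1 k
      · simp only [neg_sq]; exact hc2 k
      · have h1 := hc3 k
        unfold Ef at h1 ⊢
        simp only [neg_sq]
        exact h1
  refine le_trans ?_ (Set.encard_le_encard hsub)
  rw [Set.encard_union_eq hAB]
  have h1 : ((s - 1 : ℕ) : ℕ∞) ≤ A.encard := le_encard_of_inj c hinj fun k => mem_range_self k
  have h2 : ((s - 1 : ℕ) : ℕ∞) ≤ B.encard :=
    le_encard_of_inj (fun k => -c k) (fun k l h => hinj (neg_injective h))
      fun k => mem_range_self k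
  rw [two_mul, Nat.cast_add]
  exact add_le_add h1 h2

end side

/-- parameters of the ellipses -/
noncomputable def tp (s : ℕ) (i : ℕ) : ℝ := Real.exp ((2 * i + 1 - s) / (4 * s))

/-- the initial Hamiltonian -/
noncomputable def H0 (s : ℕ) (z : ℝ × ℝ) : ℝ :=
  ∏ i ∈ Finset.range s, (tp s i * z.1 ^ 2 + z.2 ^ 2 / tp s i - 6)

lemma tp_bounds {s i : ℕ} (hi : i < s) : 3 / 4 < tp s i ∧ tp s i < 4 / 3 := by
  have hs : (0:ℝ) < s := by exact_mod_cast (Nat.zero_le i).trans_lt hi
  have hi' : (i:ℝ) + 1 ≤ s := by exact_mod_cast hi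
  have hi0 : (0:ℝ) ≤ i := Nat.cast_nonneg i
  have key : ∀ x : ℝ, |x| ≤ 1 / 4 → 3 / 4 < Real.exp x ∨ x = -(1 / 4) := by
    intro x hx
    by_cases h : x = -(1 / 4)
    · exact Or.inr h
    · left
      have h1 : -(1 / 4) < x := lt_of_le_of_ne (abs_le.1 hx).1 (Ne.symm h)
      have := Real.add_one_le_exp x
      linarith
  have key2 : 3 / 4 < Real.exp (-(1 / 4)) := by
    have := Real.add_one_lt_exp (x := -(1 / 4)) (by norm_num)
    linarith
  have key3 : ∀ x : ℝ, |x| ≤ 1 / 4 → 3 / 4 < Real.exp x := by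
    intro x hx
    rcases key x hx with h | h
    · exact h
    · rw [h]; exact key2
  have hx : |(2 * (i:ℝ) + 1 - s) / (4 * s)| ≤ 1 / 4 := by
    rw [abs_div, abs_of_pos (by positivity : (0:ℝ) < 4 * s), div_le_iff₀ (by positivity), abs_le]
    constructor <;> linarith
  refine ⟨key3 _ hx, ?_⟩
  have h1 := key3 (-((2 * (i:ℝ) + 1 - s) / (4 * s))) (by rwa [abs_neg])
  rw [Real.exp_neg] at h1
  have h2 : 0 < tp s i := Real.exp_pos _
  have h3 : 3 / 4 < (tp s i)⁻¹ := h1
  rw [lt_inv_comm₀ (by norm_num) h2] at h3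
  norm_num at h3
  exact h3

lemma tp_mono {s i j : ℕ} (hij : i < j) (hj : j < s) : tp s i < tp s j := by
  have hs : (0:ℝ) < s := by exact_mod_cast (Nat.zero_le j).trans_lt hj
  have h : (i:ℝ) < j := by exact_mod_cast hij
  unfold tp
  apply Real.exp_lt_exp.2
  gcongr

lemma tp_reflect {s i : ℕ} (hi : i < s) : tp s (s - 1 - i) = (tp s i)⁻¹ := by
  unfold tp
  rw [← Real.exp_neg]
  congr 1
  have h : ((s - 1 - i : ℕ) : ℝ) = s - 1 - i := by
    rw [Nat.cast_sub (by omega), Nat.cast_sub (by omega)]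
    simp
  rw [h]
  ring

lemma H0_swap (s : ℕ) : (fun z : ℝ × ℝ => H0 s z.swap) = H0 s := by
  funext z
  unfold H0
  rw [← Finset.prod_range_reflect]
  refine Finset.prod_congr rfl fun i hi => ?_
  have his := Finset.mem_range.1 hi
  rw [tp_reflect his, Prod.fst_swap, Prod.snd_swap]
  have : tp s i ≠ 0 := (Real.exp_pos _).ne'
  field_simp
  ring

lemma mul_ellipse_mem {D B : ℕ} {f : ℝ × ℝ → ℝ} (hf : f ∈ Pw D D 0 B) (t : ℝ) :
    (fun z : ℝ × ℝ => f z * (t * z.1 ^ 2 + z.2 ^ 2 / t - 6)) ∈ Pw D D 0 (B + 2 * D) := by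
  refine map_mem (LinearMap.mulRight ℝ (fun z : ℝ × ℝ => t * z.1 ^ 2 + z.2 ^ 2 / t - 6))
    (fun α β h => ?_) hf
  have e : (LinearMap.mulRight ℝ (fun z : ℝ × ℝ => t * z.1 ^ 2 + z.2 ^ 2 / t - 6)) (mo α β) =
      t • mo (α + 2) β + t⁻¹ • mo α (β + 2) + (-6 : ℝ) • mo α β := by
    funext z
    simp only [LinearMap.mulRight_apply, Pi.mul_apply, mo, Pi.smul_apply, Pi.add_apply, smul_eq_mul]
    ring
  rw [e]
  refine Submodule.add_mem _ (Submodule.add_mem _ (Submodule.smul_mem _ _ (mo_mem ?_))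
    (Submodule.smul_mem _ _ (mo_mem ?_))) (Submodule.smul_mem _ _ (mo_mem ?_))
  · rw [mul_add]; omega
  · rw [mul_add]; omega
  · omega

lemma H0_mem (s : ℕ) : H0 s ∈ Pw (2 * s) (2 * s) 0 (2 * s * (2 * s)) := by
  have key : ∀ n : ℕ, (fun z : ℝ × ℝ => ∏ i ∈ Finset.range n,
      (tp s i * z.1 ^ 2 + z.2 ^ 2 / tp s i - 6)) ∈ Pw (2 * s) (2 * s) 0 (n * (2 * (2 * s))) := by
    intro n
    induction n with
    | zero =>
      have e : (fun z : ℝ × ℝ => ∏ i ∈ Finset.range 0,
        (tp s i * z.1 ^ 2 + z.2 ^ 2 / tp s i - 6)) = mo 0 0 := by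
        funext z; simp [mo]
      rw [e]
      exact mo_mem (by omega)
    | succ n ih =>
      have h1 := mul_ellipse_mem ih (tp s n)
      have e : (fun z : ℝ × ℝ => ∏ i ∈ Finset.range (n + 1),
        (tp s i * z.1 ^ 2 + z.2 ^ 2 / tp s i - 6)) = fun z : ℝ × ℝ =>
        (∏ i ∈ Finset.range n, (tp s i * z.1 ^ 2 + z.2 ^ 2 / tp s i - 6)) *
          (tp s n * z.1 ^ 2 + z.2 ^ 2 / tp s n - 6) := by
        funext z; rw [Finset.prod_range_succ]
      rw [e, show (n + 1) * (2 * (2 * s)) = n * (2 * (2 * s)) + 2 * (2 * s) by ring]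
      exact h1
  have := key s
  rw [show s * (2 * (2 * s)) = 2 * s * (2 * s) by ring] at this
  exact this

lemma H0_fderiv {s : ℕ} {x y : ℝ} (hx : x ^ 2 = 4)
    (h : ∀ i ∈ Finset.range s, Ef (tp s i) y ≠ 0) :
    fderiv ℝ (H0 s) (x, y) (1, 0) =
      fs s (tp s) y * (2 * x * ∑ i ∈ Finset.range s, tp s i / Ef (tp s i) y) := by
  have hd : Differentiable ℝ (H0 s) :=
    (contDiff_of_mem (H0_mem s) (n := 1)).differentiable (by norm_num)
  have h1 : HasDerivAt (fun x : ℝ => (x, y)) ((1:ℝ), (0:ℝ)) x :=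
    (hasDerivAt_id x).prodMk (hasDerivAt_const x y)
  have h2 := (hd (x, y)).hasFDerivAt.comp_hasDerivAt x h1
  have hE : ∀ i, tp s i * x ^ 2 + y ^ 2 / tp s i - 6 = Ef (tp s i) y := by
    intro i
    unfold Ef
    rw [hx]
    ring
  have h3 := hasDerivAt_prod_log (Finset.range s)
    (fun i x => tp s i * x ^ 2 + y ^ 2 / tp s i - 6) (fun i => tp s i * (2 * x)) (x := x)
    (fun i _ => by
      have := ((((hasDerivAt_pow 2 x).const_mul (tp s i)).add_const
        (y ^ 2 / tp s i)).sub_const 6)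
      simpa using this)
    (fun i hi => by rw [hE]; exact h i hi)
  have h4 := h2.unique h3
  rw [h4]
  simp only [hE]
  have e1 : ∏ i ∈ Finset.range s, Ef (tp s i) y = fs s (tp s) y := rfl
  rw [e1]
  congr 1
  rw [Finset.mul_sum]
  refine Finset.sum_congr rfl fun i _ => ?_
  ring

lemma H0_side {s : ℕ} {x : ℝ} (hx : x ^ 2 = 4) : (fun y => H0 s (x, y)) = fs s (tp s) := by
  funext y
  unfold H0 fs
  refine Finset.prod_congr rfl fun i _ => ?_
  unfold Ef
  simp only [hx]
  ring

lemma TL_H0 (s : ℕ) : ((2 * (s - 1) : ℕ) : ℕ∞) ≤ (TL (H0 s)).encard := by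
  unfold TL
  rw [H0_side (by norm_num)]
  refine side_count (fun i hi => tp_bounds hi) (fun i j hij hj => tp_mono hij hj) ?_
  intro y hy
  rw [H0_fderiv (by norm_num) hy]
  ring

lemma TR_H0 (s : ℕ) : ((2 * (s - 1) : ℕ) : ℕ∞) ≤ (TR (H0 s)).encard := by
  unfold TR
  rw [H0_side (by norm_num)]
  refine side_count (fun i hi => tp_bounds hi) (fun i j hij hj => tp_mono hij hj) ?_
  intro y hy
  rw [H0_fderiv (by norm_num) hy]
  ring

/-- the initial stage -/
theorem Stage.base (s : ℕ) : Stage (2 * s) (2 * s) 0 (2 * (s - 1)) (2 * (s - 1)) := by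
  have hd : Differentiable ℝ (H0 s) :=
    (contDiff_of_mem (H0_mem s) (n := 1)).differentiable (by norm_num)
  refine ⟨H0 s, 0, 0, ∅, H0_mem s, Submodule.zero_mem _, Submodule.zero_mem _, isCompact_empty,
    empty_subset _, Many.zero _ _ _, TL_H0 s, TR_H0 s, ?_, ?_⟩
  · have h := TL_swap hd
    rw [H0_swap] at h
    rw [← h]
    exact TL_H0 s
  · have h := TR_swap hd
    rw [H0_swap] at h
    rw [← h]
    exact TR_H0 s

end Pool.Agent.Y300
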