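import Mathlib

/-! Closed orbits of planar fields: change of time. -/

set_option autoImplicit false

open Set MeasureTheory Topology Filter

namespace Pool.Agent.Y300

/-- `C` is a nonconstant closed orbit of the field `V` -/
def ClosedOrbit (V : ℝ × ℝ → ℝ × ℝ) (C : Set (ℝ × ℝ)) : Prop :=
  ∃ γ : ℝ → ℝ × ℝ, ∃ T : ℝ, 0 < T ∧ (∀ t, HasDerivAt γ (V (γ t)) t) ∧
    (∀ t, γ (t + T) = γ t) ∧ (∃ s t, γ s ≠ γ t) ∧ C = range γ

lemma ClosedOrbit.nonempty {V : ℝ × ℝ → ℝ × ℝ} {C : Set (ℝ × ℝ)} (h : ClosedOrbit V C) :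
    C.Nonempty := by
  obtain ⟨γ, T, -, -, -, -, rfl⟩ := h
  exact range_nonempty γ

/-- the inverse of the primitive of a positive periodic function -/
lemma time_change (K : ℝ → ℝ) (hK : Continuous K) (hpos : ∀ t, 0 < K t) (T : ℝ) (hT : 0 < T)
    (hper : ∀ t, K (t + T) = K t) :
    ∃ (τ : ℝ → ℝ) (S : ℝ), 0 < S ∧ Function.Surjective τ ∧
      (∀ v, HasDerivAt τ (K (τ v))⁻¹ v) ∧ ∀ v, τ (v + S) = τ v + T := by
  set sg : ℝ → ℝ := fun t => ∫ x in (0:ℝ)..t, K x with hsg
  have hint : ∀ a b, IntervalIntegrable K volume a b := fun a b => hK.intervalIntegrable a b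
  have hd : ∀ t, HasDerivAt sg (K t) t := fun t =>
    intervalIntegral.integral_hasDerivAt_right (hint 0 t)
      hK.aestronglyMeasurable.stronglyMeasurableAtFilter hK.continuousAt
  have hcont : Continuous sg := continuous_iff_continuousAt.2 fun t => (hd t).continuousAt
  have hmono : StrictMono sg := strictMono_of_deriv_pos fun t => by
    rw [(hd t).deriv]
    exact hpos t
  have hper' : Function.Periodic K T := hper
  have hsurj : Function.Surjective sg := hcont.surjective
    (hper'.tendsto_atTop_intervalIntegral_of_pos' (hint 0 T) hpos hT)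
    (hper'.tendsto_atBot_intervalIntegral_of_pos' (hint 0 T) hpos hT)
  have h0 : sg 0 = 0 := by simp [hsg]
  have hS : 0 < sg T := by
    rw [← h0]
    exact hmono hT
  have hadd : ∀ t, sg (t + T) = sg t + sg T := by
    intro t
    have h1 := hper'.intervalIntegral_add_eq_add 0 t hint
    simp only [zero_add] at h1
    exact h1
  let e : ℝ ≃o ℝ := StrictMono.orderIsoOfSurjective sg hmono hsurj
  have he : ∀ v, sg (e.symm v) = v := fun v => e.apply_symm_apply v
  refine ⟨e.symm, sg T, hS, e.symm.surjective, ?_, ?_⟩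
  · intro v
    exact HasDerivAt.of_local_left_inverse e.symm.continuous.continuousAt (hd (e.symm v))
      (hpos _).ne' (Filter.Eventually.of_forall he)
  · intro v
    apply hmono.injective
    rw [he, hadd, he]

/-- a periodic curve whose velocity is a positive multiple of the field parametrizes a closed
orbit -/
lemma closedOrbit_of_reparam {V : ℝ × ℝ → ℝ × ℝ} {γ : ℝ → ℝ × ℝ} {g : ℝ → ℝ} {S : ℝ}
    (hg : Continuous g) (hpos : ∀ s, 0 < g s) (hS : 0 < S) (hγS : ∀ s, γ (s + S) = γ s)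
    (hgS : ∀ s, g (s + S) = g s) (hd : ∀ s, HasDerivAt γ (g s • V (γ s)) s)
    (hne : ∃ s t, γ s ≠ γ t) : ClosedOrbit V (range γ) := by
  obtain ⟨τ, T, hT, hsurj, hτ, hτT⟩ := time_change g hg hpos S hS hgS
  refine ⟨fun v => γ (τ v), T, hT, ?_, ?_, ?_, ?_⟩
  · intro v
    have h1 := (hd (τ v)).scomp v (hτ v)
    have h2 : (g (τ v))⁻¹ • g (τ v) • V (γ (τ v)) = V (γ (τ v)) := by
      rw [smul_smul, inv_mul_cancel₀ (hpos _).ne', one_smul]
    rw [h2] at h1
    exact h1
  · intro v
    simp only [hτT, hγS]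
  · obtain ⟨s, t, hst⟩ := hne
    obtain ⟨a, rfl⟩ := hsurj s
    obtain ⟨b, rfl⟩ := hsurj t
    exact ⟨a, b, hst⟩
  · exact (hsurj.range_comp γ).symm

/-- the same with a multiple of constant sign -/
lemma closedOrbit_of_reparam' {V : ℝ × ℝ → ℝ × ℝ} {γ : ℝ → ℝ × ℝ} {g : ℝ → ℝ} {S : ℝ}
    (hg : Continuous g) (hpos : (∀ s, 0 < g s) ∨ ∀ s, g s < 0) (hS : 0 < S)
    (hγS : ∀ s, γ (s + S) = γ s)
    (hgS : ∀ s, g (s + S) = g s) (hd : ∀ s, HasDerivAt γ (g s • V (γ s)) s)
    (hne : ∃ s t, γ s ≠ γ t) : ClosedOrbit V (range γ) := by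
  rcases hpos with hpos | hpos
  · exact closedOrbit_of_reparam hg hpos hS hγS hgS hd hne
  · have h1 : range γ = range (fun s => γ (-s)) := by
      have : (fun s => γ (-s)) = γ ∘ (fun s => -s) := rfl
      rw [this, (neg_surjective (G := ℝ)).range_comp]
    rw [h1]
    refine closedOrbit_of_reparam (g := fun s => -g (-s)) (S := S) (by fun_prop)
      (fun s => by have := hpos (-s); linarith) hS ?_ ?_ ?_ ?_
    · intro s
      have := hγS (-(s + S))
      rw [show -(s + S) + S = -s by ring] at this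
      exact this.symm
    · intro s
      have := hgS (-(s + S))
      rw [show -(s + S) + S = -s by ring] at this
      simp only [this]
    · intro s
      have h2 := (hd (-s)).scomp s (hasDerivAt_neg s)
      have h3 : (-1 : ℝ) • g (-s) • V (γ (-s)) = (-g (-s)) • V (γ (-s)) := by
        rw [smul_smul]; ring_nf
      rw [h3] at h2
      exact h2
    · obtain ⟨s, t, hst⟩ := hne
      exact ⟨-s, -t, by simpa using hst⟩

end Pool.Agent.Y300
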