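import Pool.Agent.Y300.Poly

/-! Tangency points on the sides of the square. -/

set_option autoImplicit false

open Set MeasureTheory Topology Filter
open scoped NNReal

namespace Pool.Agent.Y300

/-- critical points of `f` in `(-2, 2)` with `g f'' > 0` -/
def Tn (f g : ℝ → ℝ) : Set ℝ :=
  {t | t ∈ Ioo (-2 : ℝ) 2 ∧ deriv f t = 0 ∧ 0 < g t * deriv (deriv f) t}

lemma contDiff_deriv {f : ℝ → ℝ} (hf : ContDiff ℝ 2 f) : ContDiff ℝ 1 (deriv f) := by
  apply ContDiff.deriv'
  rw [one_add_one_eq_two]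
  exact hf

lemma encard_ge_of_image {α β : Type*} {S : Set α} {S' : Set β} {n : ℕ} (h : (n : ℕ∞) ≤ S.encard)
    (F : α → β) (hF : InjOn F S) (hm : ∀ x ∈ S, F x ∈ S') : (n : ℕ∞) ≤ S'.encard :=
  h.trans (Set.encard_le_encard_of_injOn hm hF)

/-- `Tn` does not change when `g` is scaled -/
lemma Tn_scale {f g : ℝ → ℝ} {c : ℝ} (hc : 0 < c) : Tn f g ⊆ Tn f (fun t => c * g t) := by
  rintro t ⟨h1, h2, h3⟩
  exact ⟨h1, h2, by
    have := mul_pos hc h3
    simpa [mul_assoc] using this⟩

lemma deriv_comp_q {f : ℝ → ℝ} (hf : Differentiable ℝ f) (u : ℝ) :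
    deriv (fun u => f (u ^ 2 - 2)) u = 2 * u * deriv f (u ^ 2 - 2) := by
  have h1 : HasDerivAt (fun u : ℝ => u ^ 2 - 2) (2 * u) u := by
    simpa using (hasDerivAt_pow 2 u).sub_const 2
  have h2 := ((hf (u ^ 2 - 2)).hasDerivAt.comp u h1).deriv
  have h3 : deriv (fun u => f (u ^ 2 - 2)) u = deriv (f ∘ fun u => u ^ 2 - 2) u := rfl
  rw [h3, h2]
  ring

/-- composition with the fold of the line doubles the number of tangencies -/
lemma Tn_fold {f g : ℝ → ℝ} (hf : ContDiff ℝ 2 f) {n : ℕ} (h : (n : ℕ∞) ≤ (Tn f g).encard) :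
    ((2 * n : ℕ) : ℕ∞) ≤ (Tn (fun u => f (u ^ 2 - 2)) (fun u => g (u ^ 2 - 2))).encard := by
  have hfd : Differentiable ℝ f := hf.differentiable (by norm_num)
  have hf' : ContDiff ℝ 1 (deriv f) := contDiff_deriv hf
  have hfd' : Differentiable ℝ (deriv f) := hf'.differentiable (by norm_num)
  have key : ∀ t ∈ Tn f g, ∀ u : ℝ, u ≠ 0 → u ^ 2 - 2 = t →
      u ∈ Tn (fun u => f (u ^ 2 - 2)) (fun u => g (u ^ 2 - 2)) := by
    rintro t ⟨h1, h2, h3⟩ u hu rfl
    refine ⟨⟨by nlinarith [h1.2], by nlinarith [h1.2]⟩, ?_, ?_⟩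
    · rw [deriv_comp_q hfd, h2, mul_zero]
    · have e : deriv (fun u => f (u ^ 2 - 2)) = fun u => 2 * u * deriv f (u ^ 2 - 2) := by
        funext u; exact deriv_comp_q hfd u
      rw [e]
      have h4 : HasDerivAt (fun u : ℝ => 2 * u) 2 u := by simpa using (hasDerivAt_id u).const_mul 2
      have h5 : HasDerivAt (fun u : ℝ => deriv f (u ^ 2 - 2))
          (2 * u * deriv (deriv f) (u ^ 2 - 2)) u := by
        have h6 : HasDerivAt (fun u : ℝ => u ^ 2 - 2) (2 * u) u := by
          simpa using (hasDerivAt_pow 2 u).sub_const 2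
        have h7 := (hfd' (u ^ 2 - 2)).hasDerivAt.comp u h6
        refine h7.congr_deriv (by ring)
      have h8 := (h4.mul h5).deriv
      have h9 : deriv (fun u => 2 * u * deriv f (u ^ 2 - 2)) u =
        2 * deriv f (u ^ 2 - 2) + 2 * u * (2 * u * deriv (deriv f) (u ^ 2 - 2)) := h8
      rw [h9, h2]
      have : 0 < u ^ 2 := by positivity
      have h10 := mul_pos this h3
      simp only
      nlinarith
  have hpos : ∀ t ∈ Tn f g, 0 < √(t + 2) := fun t ht => Real.sqrt_pos.2 (by linarith [ht.1.1])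
  have hsq : ∀ t ∈ Tn f g, √(t + 2) ^ 2 = t + 2 := fun t ht => Real.sq_sqrt (by linarith [ht.1.1])
  set A := (fun t : ℝ => √(t + 2)) '' Tn f g with hA
  set B := (fun t : ℝ => -√(t + 2)) '' Tn f g with hB
  have hinj : InjOn (fun t : ℝ => √(t + 2)) (Tn f g) := by
    intro s hs t ht hst
    have := hsq s hs
    simp only at hst
    rw [hst, hsq t ht] at this
    linarith
  have hinj' : InjOn (fun t : ℝ => -√(t + 2)) (Tn f g) := by
    intro s hs t ht hst
    exact hinj hs ht (neg_injective hst)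
  have hAB : Disjoint A B := by
    rw [Set.disjoint_left]
    rintro _ ⟨s, hs, rfl⟩ ⟨t, ht, h⟩
    have h1 := hpos s hs
    have h2 := hpos t ht
    simp only at h
    linarith
  have hsub : A ∪ B ⊆ Tn (fun u => f (u ^ 2 - 2)) (fun u => g (u ^ 2 - 2)) := by
    rintro _ (⟨s, hs, rfl⟩ | ⟨s, hs, rfl⟩)
    · exact key s hs _ (hpos s hs).ne' (by simp only; rw [hsq s hs]; ring)
    · exact key s hs _ (neg_ne_zero.2 (hpos s hs).ne') (by simp only; rw [neg_sq, hsq s hs]; ring)
  refine le_trans ?_ (Set.encard_le_encard hsub)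
  rw [Set.encard_union_eq hAB, hA, hB, hinj.encard_image, hinj'.encard_image]
  push_cast
  rw [two_mul]
  exact add_le_add h h

/-- a simple zero persists -/
lemma zero_persist {f f₁ g g₁ : ℝ → ℝ} (hf : ContDiff ℝ 2 f) (hf₁ : ContDiff ℝ 2 f₁)
    (hg : Continuous g) (hg₁ : Continuous g₁) {t : ℝ} (ht : t ∈ Tn f g) {δ₀ : ℝ} (hδ₀ : 0 < δ₀) :
    ∃ ε₀ > 0, ∀ ε : ℝ, |ε| ≤ ε₀ →
      ∃ s ∈ Tn (fun x => f x + ε * f₁ x) (fun x => g x + ε * g₁ x), |s - t| < δ₀ := by
  obtain ⟨h1, h2, h3⟩ := ht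
  have hf' : ContDiff ℝ 1 (deriv f) := contDiff_deriv hf
  have hf₁' : ContDiff ℝ 1 (deriv f₁) := contDiff_deriv hf₁
  have hf'' : Continuous (deriv (deriv f)) := hf'.continuous_deriv (by norm_num)
  have hf₁'' : Continuous (deriv (deriv f₁)) := hf₁'.continuous_deriv (by norm_num)
  have hd : ∀ ε : ℝ, deriv (fun x => f x + ε * f₁ x) = fun x => deriv f x + ε * deriv f₁ x := by
    intro ε
    funext x
    have h4 := (((hf.differentiable (by norm_num)) x).hasDerivAt.add
      (((hf₁.differentiable (by norm_num)) x).hasDerivAt.const_mul ε)).deriv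
    exact h4
  have hdd : ∀ ε : ℝ, deriv (deriv (fun x => f x + ε * f₁ x)) =
      fun x => deriv (deriv f) x + ε * deriv (deriv f₁) x := by
    intro ε
    rw [hd ε]
    funext x
    have h4 := (((hf'.differentiable (by norm_num)) x).hasDerivAt.add
      (((hf₁'.differentiable (by norm_num)) x).hasDerivAt.const_mul ε)).deriv
    exact h4
  -- the product is positive near `(0, t)`
  have hc : Continuous fun q : ℝ × ℝ => (g q.2 + q.1 * g₁ q.2) *
      (deriv (deriv f) q.2 + q.1 * deriv (deriv f₁) q.2) := by fun_prop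
  have hev : ∀ᶠ q : ℝ × ℝ in 𝓝 ((0:ℝ), t), 0 < (g q.2 + q.1 * g₁ q.2) *
      (deriv (deriv f) q.2 + q.1 * deriv (deriv f₁) q.2) :=
    (hc.tendsto ((0:ℝ), t)).eventually_const_lt (by simpa using h3)
  rw [Metric.eventually_nhds_iff] at hev
  obtain ⟨δ₁, hδ₁, hev⟩ := hev
  have hd0 : deriv (deriv f) t ≠ 0 := by
    intro h; rw [h, mul_zero] at h3; exact lt_irrefl _ h3
  -- choose `δ`
  obtain ⟨δ, hδ, hδa, hδb, hδc, hδd⟩ : ∃ δ > 0, δ < δ₀ ∧ δ < δ₁ ∧ δ < t + 2 ∧ δ < 2 - t := by
    refine ⟨min (min δ₀ δ₁) (min (t + 2) (2 - t)) / 2, ?_, ?_, ?_, ?_, ?_⟩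
    · have : 0 < min (min δ₀ δ₁) (min (t + 2) (2 - t)) :=
        lt_min (lt_min hδ₀ hδ₁) (lt_min (by linarith [h1.1]) (by linarith [h1.2]))
      linarith
    all_goals
      have h0 : 0 < min (min δ₀ δ₁) (min (t + 2) (2 - t)) :=
        lt_min (lt_min hδ₀ hδ₁) (lt_min (by linarith [h1.1]) (by linarith [h1.2]))
      have ha := min_le_left (min δ₀ δ₁) (min (t + 2) (2 - t))
      have hb := min_le_right (min δ₀ δ₁) (min (t + 2) (2 - t))
      have hc := min_le_left δ₀ δ₁
      have hd := min_le_right δ₀ δ₁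
      have he := min_le_left (t + 2) (2 - t)
      have hf := min_le_right (t + 2) (2 - t)
      linarith
  -- the second derivative has constant sign on the interval
  have hpos : ∀ ε x : ℝ, |ε| < δ₁ → |x - t| ≤ δ → 0 < (g x + ε * g₁ x) *
      (deriv (deriv f) x + ε * deriv (deriv f₁) x) := by
    intro ε x hε hx
    apply hev (y := (ε, x))
    rw [Prod.dist_eq]
    refine max_lt ?_ ?_
    · simpa [Real.dist_eq] using hε
    · rw [Real.dist_eq]; exact hx.trans_lt hδb
  -- the first derivative has opposite signs at the end points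
  have hends : deriv f (t - δ) * deriv f (t + δ) < 0 := by
    have hne : ∀ x ∈ Icc (t - δ) (t + δ), deriv (deriv f) x ≠ 0 := by
      intro x hx h0
      have := hpos 0 x (by simpa using hδ₁) (abs_le.2 ⟨by linarith [hx.1], by linarith [hx.2]⟩)
      simp [h0] at this
    have hcf : ContinuousOn (deriv f) (Icc (t - δ) (t + δ)) := hf'.continuous.continuousOn
    rcases lt_or_gt_of_ne hd0 with h | h
    · have hneg : ∀ x ∈ Icc (t - δ) (t + δ), deriv (deriv f) x < 0 := by
        intro x hx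
        by_contra hcon
        push Not at hcon
        have hx0 := hne x hx
        have hconv : IsPreconnected (Icc (t - δ) (t + δ)) := isPreconnected_Icc
        have := hconv.intermediate_value (f := deriv (deriv f)) (a := t) (b := x)
          ⟨by linarith, by linarith⟩ hx hf''.continuousOn ⟨h.le, hcon⟩
        obtain ⟨y, hy, hy0⟩ := this
        exact hne y hy hy0
      have hanti : StrictAntiOn (deriv f) (Icc (t - δ) (t + δ)) := by
        apply strictAntiOn_of_deriv_neg (convex_Icc _ _) hcf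
        intro x hx
        exact hneg x (interior_subset hx)
      have h5 := hanti (a := t - δ) (b := t) ⟨by linarith, by linarith⟩ ⟨by linarith, by linarith⟩
        (by linarith)
      have h6 := hanti (a := t) (b := t + δ) ⟨by linarith, by linarith⟩ ⟨by linarith, by linarith⟩
        (by linarith)
      rw [h2] at h5 h6
      exact mul_neg_of_pos_of_neg h5 h6
    · have hneg : ∀ x ∈ Icc (t - δ) (t + δ), 0 < deriv (deriv f) x := by
        intro x hx
        by_contra hcon
        push Not at hcon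
        have hx0 := hne x hx
        have hconv : IsPreconnected (Icc (t - δ) (t + δ)) := isPreconnected_Icc
        have := hconv.intermediate_value (f := deriv (deriv f)) (a := x) (b := t)
          hx ⟨by linarith, by linarith⟩ hf''.continuousOn ⟨hcon, h.le⟩
        obtain ⟨y, hy, hy0⟩ := this
        exact hne y hy hy0
      have hanti : StrictMonoOn (deriv f) (Icc (t - δ) (t + δ)) := by
        apply strictMonoOn_of_deriv_pos (convex_Icc _ _) hcf
        intro x hx
        exact hneg x (interior_subset hx)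
      have h5 := hanti (a := t - δ) (b := t) ⟨by linarith, by linarith⟩ ⟨by linarith, by linarith⟩
        (by linarith)
      have h6 := hanti (a := t) (b := t + δ) ⟨by linarith, by linarith⟩ ⟨by linarith, by linarith⟩
        (by linarith)
      rw [h2] at h5 h6
      exact mul_neg_of_neg_of_pos h5 h6
  have hc2 : Continuous fun ε : ℝ => (deriv f (t - δ) + ε * deriv f₁ (t - δ)) *
      (deriv f (t + δ) + ε * deriv f₁ (t + δ)) := by fun_prop
  have hev2 : ∀ᶠ ε : ℝ in 𝓝 (0:ℝ), (deriv f (t - δ) + ε * deriv f₁ (t - δ)) *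
      (deriv f (t + δ) + ε * deriv f₁ (t + δ)) < 0 :=
    (hc2.tendsto (0:ℝ)).eventually_lt_const (by simpa using hends)
  rw [Metric.eventually_nhds_iff] at hev2
  obtain ⟨δ₂, hδ₂, hev2⟩ := hev2
  refine ⟨min δ₁ δ₂ / 2, by positivity, fun ε hε => ?_⟩
  have hm := lt_min hδ₁ hδ₂
  have hε1 : |ε| < δ₁ := by
    have := min_le_left δ₁ δ₂
    linarith
  have hε2 : |ε| < δ₂ := by
    have := min_le_right δ₁ δ₂
    linarith
  have h7 := hev2 (y := ε) (by simpa [Real.dist_eq] using hε2)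
  have hcon : ContinuousOn (fun x => deriv f x + ε * deriv f₁ x) (Icc (t - δ) (t + δ)) := by
    have : Continuous (fun x => deriv f x + ε * deriv f₁ x) :=
      hf'.continuous.add (continuous_const.mul hf₁'.continuous)
    exact this.continuousOn
  obtain ⟨s, hs, hs0⟩ : ∃ s ∈ Icc (t - δ) (t + δ), deriv f s + ε * deriv f₁ s = 0 := by
    rcases mul_neg_iff.1 h7 with ⟨ha, hb⟩ | ⟨ha, hb⟩
    · have := intermediate_value_Icc' (by linarith : t - δ ≤ t + δ) hcon
      exact this ⟨hb.le, ha.le⟩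
    · have := intermediate_value_Icc (by linarith : t - δ ≤ t + δ) hcon
      exact this ⟨ha.le, hb.le⟩
  have hst : |s - t| ≤ δ := abs_le.2 ⟨by linarith [hs.1], by linarith [hs.2]⟩
  refine ⟨s, ⟨⟨by linarith [hs.1], by linarith [hs.2]⟩, ?_, ?_⟩, hst.trans_lt hδa⟩
  · rw [hd ε]; exact hs0
  · rw [hdd ε]; exact hpos ε s hε1 hst

/-- the number of tangencies does not decrease under small perturbations -/
lemma Tn_persist {f f₁ g g₁ : ℝ → ℝ} (hf : ContDiff ℝ 2 f) (hf₁ : ContDiff ℝ 2 f₁)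
    (hg : Continuous g) (hg₁ : Continuous g₁) {n : ℕ} (h : (n : ℕ∞) ≤ (Tn f g).encard) :
    ∃ ε₀ > 0, ∀ ε : ℝ, |ε| ≤ ε₀ →
      (n : ℕ∞) ≤ (Tn (fun x => f x + ε * f₁ x) (fun x => g x + ε * g₁ x)).encard := by
  classical
  obtain ⟨S, hS, hcard⟩ := Set.exists_subset_encard_eq h
  have hfin : S.Finite := Set.finite_of_encard_eq_coe hcard
  -- separation
  obtain ⟨δ₀, hδ₀, hsep⟩ : ∃ δ₀ : ℝ, 0 < δ₀ ∧ ∀ s ∈ S, ∀ t ∈ S, s ≠ t → 2 * δ₀ ≤ |s - t| := by
    have hfin2 : (S ×ˢ S).Finite := hfin.prod hfin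
    set P := (hfin2.toFinset.filter fun q => q.1 ≠ q.2) with hP
    rcases P.eq_empty_or_nonempty with he | hne
    · refine ⟨1, one_pos, fun s hs t ht hst => ?_⟩
      exfalso
      have : (s, t) ∈ P := by
        rw [hP, Finset.mem_filter]
        exact ⟨by simpa using ⟨hs, ht⟩, hst⟩
      rw [he] at this
      exact absurd this (Finset.notMem_empty _)
    · obtain ⟨q, hq, hmin⟩ := P.exists_min_image (fun q => |q.1 - q.2|) hne
      have hq2 : q.1 ≠ q.2 := (Finset.mem_filter.1 hq).2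
      refine ⟨|q.1 - q.2| / 2, by
        have : 0 < |q.1 - q.2| := abs_pos.2 (sub_ne_zero.2 hq2)
        linarith, fun s hs t ht hst => ?_⟩
      have := hmin (s, t) (by
        rw [hP, Finset.mem_filter]
        exact ⟨by simpa using ⟨hs, ht⟩, hst⟩)
      simp only at this
      linarith
  choose! e he hes using fun t (ht : t ∈ S) => zero_persist hf hf₁ hg hg₁ (hS ht) hδ₀
  obtain ⟨ε₀, hε₀, hle⟩ : ∃ ε₀ : ℝ, 0 < ε₀ ∧ ∀ t ∈ S, ε₀ ≤ e t := by
    rcases S.eq_empty_or_nonempty with h0 | hne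
    · exact ⟨1, one_pos, fun t ht => by rw [h0] at ht; exact absurd ht (notMem_empty _)⟩
    · obtain ⟨t, ht, hmin⟩ := hfin.toFinset.exists_min_image e (by simpa using hne)
      exact ⟨e t, he t (by simpa using ht), fun s hs => hmin s (by simpa using hs)⟩
  refine ⟨ε₀, hε₀, fun ε hε => ?_⟩
  choose! F hF hFd using fun t (ht : t ∈ S) => hes t ht ε (hε.trans (hle t ht))
  refine encard_ge_of_image hcard.ge F ?_ hF
  intro s hs t ht hst
  by_contra hne
  have h1 := hsep s hs t ht hne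
  have h2 := hFd s hs
  have h3 := hFd t ht
  rw [← hst] at h3
  have h4 : |s - t| ≤ |F s - s| + |F s - t| := by
    calc |s - t| = |(F s - t) - (F s - s)| := by ring_nf
      _ ≤ |F s - t| + |F s - s| := abs_sub _ _
      _ = _ := by ring
  linarith

end Pool.Agent.Y300
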