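import Pool.Agent.Y300.Scale
import Pool.Agent.Y300.Tan

/-! A tangency on the fold line gives a nondegenerate minimum after folding. -/

set_option autoImplicit false

open Set MeasureTheory Topology Filter
open scoped NNReal

namespace Pool.Agent.Y300

lemma norm_clm_le {L : ℝ × ℝ →L[ℝ] ℝ} {δ : ℝ} (hδ : 0 ≤ δ) (h1 : |L (1, 0)| ≤ δ)
    (h2 : |L (0, 1)| ≤ δ) : ‖L‖ ≤ 2 * δ := by
  refine ContinuousLinearMap.opNorm_le_bound _ (by positivity) fun v => ?_
  rw [clm_apply]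
  calc ‖v.1 * L (1, 0) + v.2 * L (0, 1)‖ ≤ |v.1 * L (1, 0)| + |v.2 * L (0, 1)| := abs_add_le _ _
    _ ≤ ‖v‖ * δ + ‖v‖ * δ := by
        rw [abs_mul, abs_mul]
        gcongr
        · exact norm_fst_le v
        · exact norm_snd_le v
    _ = _ := by ring

/-- a function whose gradient is close to that of a quadratic form -/
lemma exists_ctr_aux {F : ℝ × ℝ → ℝ} (hF : ContDiff ℝ 2 F) {p : ℝ × ℝ} {α β : ℝ} (hα : 0 < α)
    (hβ : 0 < β)
    (hgrad : ∀ δ : ℝ, 0 < δ → ∃ r > 0, ∀ z, ‖z - p‖ ≤ r →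
      |fderiv ℝ F z (1, 0) - 2 * α * (z - p).1| ≤ δ * ‖z - p‖ ∧
      |fderiv ℝ F z (0, 1) - 2 * β * (z - p).2| ≤ δ * ‖z - p‖) :
    ∃ r₀ > 0, ∃ lam > 0, ∀ r, 0 < r → r ≤ r₀ → Ctr F p α β r lam := by
  have hFd : Differentiable ℝ F := hF.differentiable (by norm_num)
  -- quadratic approximation
  have hquad : ∀ δ : ℝ, 0 < δ → ∃ r > 0, ∀ z, ‖z - p‖ ≤ r →
      |F z - F p - (α * (z - p).1 ^ 2 + β * (z - p).2 ^ 2)| ≤ δ * ‖z - p‖ ^ 2 := by
    intro δ hδ
    obtain ⟨r, hr, hgr⟩ := hgrad (δ / 2) (by positivity)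
    refine ⟨r, hr, fun z hz => ?_⟩
    set E : ℝ × ℝ → ℝ := fun z => F z - (α * (z - p).1 ^ 2 + β * (z - p).2 ^ 2) with hE
    have hEd : ∀ w, HasFDerivAt E (fderiv ℝ F w - ((2 * α * (w - p).1) •
        ContinuousLinearMap.fst ℝ ℝ ℝ + (2 * β * (w - p).2) • ContinuousLinearMap.snd ℝ ℝ ℝ)) w := by
      intro w
      have h1 : HasFDerivAt (fun w : ℝ × ℝ => (w - p).1) (ContinuousLinearMap.fst ℝ ℝ ℝ) w :=
        hasFDerivAt_fst.sub_const p.1
      have h2 : HasFDerivAt (fun w : ℝ × ℝ => (w - p).2) (ContinuousLinearMap.snd ℝ ℝ ℝ) w :=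
        hasFDerivAt_snd.sub_const p.2
      have h3 := ((h1.pow 2).const_mul α).add ((h2.pow 2).const_mul β)
      refine (hFd w).hasFDerivAt.sub (h3.congr_fderiv ?_)
      ext <;> simp <;> ring
    have hconv := Convex.norm_image_sub_le_of_norm_hasFDerivWithin_le (𝕜 := ℝ) (f := E)
      (s := Metric.closedBall p ‖z - p‖) (C := δ * ‖z - p‖)
      (fun w _ => (hEd w).hasFDerivWithinAt) ?_ (convex_closedBall _ _)
      (Metric.mem_closedBall_self (norm_nonneg _)) (by simp [dist_eq_norm] : z ∈ _)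
    · have e : E z - E p = F z - F p - (α * (z - p).1 ^ 2 + β * (z - p).2 ^ 2) := by
        simp only [hE, sub_self, Prod.fst_zero, Prod.snd_zero]
        ring
      rw [e, Real.norm_eq_abs] at hconv
      calc _ ≤ _ := hconv
        _ = _ := by ring
    · intro w hw
      rw [Metric.mem_closedBall, dist_eq_norm] at hw
      obtain ⟨h1, h2⟩ := hgr w (hw.trans hz)
      have h3 : δ / 2 * ‖w - p‖ ≤ δ / 2 * ‖z - p‖ := by gcongr
      refine (norm_clm_le (δ := δ / 2 * ‖z - p‖) (by positivity) ?_ ?_).trans (le_of_eq (by ring))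
      · refine le_trans (le_of_eq ?_) (h1.trans h3)
        simp
      · refine le_trans (le_of_eq ?_) (h2.trans h3)
        simp
  set μ := min α β with hμ
  have hμ0 : 0 < μ := lt_min hα hβ
  obtain ⟨ra, hra, hga⟩ := hgrad (μ / 2) (by positivity)
  obtain ⟨rb, hrb, hgb⟩ := hquad (μ / 2) (by positivity)
  have hmα : μ ≤ α := min_le_left _ _
  have hmβ : μ ≤ β := min_le_right _ _
  refine ⟨min ra rb, lt_min hra hrb, μ / 2, by positivity, fun r hr hr0 =>
    ⟨hF, hr, by positivity, hα, hβ, ?_, ?_, ?_⟩⟩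
  · intro z hz
    have h1 := norm_sq_le_dot (z - p)
    have h2 : ‖z - p‖ ≤ r := abs_le_of_sq_le_sq' (h1.trans hz) hr.le |>.2
    have h3 := hgb z (h2.trans (hr0.trans (min_le_right _ _)))
    have h4 := (abs_le.1 h3).1
    have h5 : dot (z - p) (z - p) = (z - p).1 ^ 2 + (z - p).2 ^ 2 := by unfold dot; ring
    have h6 : 0 ≤ (z - p).1 ^ 2 := by positivity
    have h7 : 0 ≤ (z - p).2 ^ 2 := by positivity
    have h8 : μ / 2 * ‖z - p‖ ^ 2 ≤ μ / 2 * dot (z - p) (z - p) := by gcongr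
    have h9 := mul_le_mul_of_nonneg_right hmα h6
    have h10 := mul_le_mul_of_nonneg_right hmβ h7
    rw [h5] at h8 ⊢
    linarith
  · intro z hz hzp
    have h1 := norm_sq_le_dot (z - p)
    have h2 : ‖z - p‖ ≤ r := abs_le_of_sq_le_sq' (h1.trans hz) hr.le |>.2
    obtain ⟨h3, h4⟩ := hga z (h2.trans (hr0.trans (min_le_left _ _)))
    rw [clm_apply]
    set u := (z - p).1 with hu
    set v := (z - p).2 with hv
    set a := fderiv ℝ F z (1, 0) with ha
    set b := fderiv ℝ F z (0, 1) with hb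
    set n := ‖z - p‖ with hn
    have hu' : |u| ≤ n := norm_fst_le (z - p)
    have hv' : |v| ≤ n := norm_snd_le (z - p)
    have hn0 : 0 < n := norm_pos_iff.2 (sub_ne_zero.2 hzp)
    have h5 : |u * (a - 2 * α * u)| ≤ n * (μ / 2 * n) := by
      rw [abs_mul]
      exact mul_le_mul hu' h3 (abs_nonneg _) hn0.le
    have h6 : |v * (b - 2 * β * v)| ≤ n * (μ / 2 * n) := by
      rw [abs_mul]
      exact mul_le_mul hv' h4 (abs_nonneg _) hn0.le
    have h7 := (abs_le.1 h5).1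
    have h8 := (abs_le.1 h6).1
    have hnuv : n ^ 2 ≤ u ^ 2 + v ^ 2 := by
      have := norm_sq_le_dot (z - p)
      unfold dot at this
      nlinarith
    have h9 : 0 ≤ u ^ 2 := by positivity
    have h10 : 0 ≤ v ^ 2 := by positivity
    have h11 := mul_le_mul_of_nonneg_right hmα h9
    have h12 := mul_le_mul_of_nonneg_right hmβ h10
    have h13 := mul_le_mul_of_nonneg_left hnuv hμ0.le
    have h14 : 0 < μ * n ^ 2 := by positivity
    nlinarith
  · intro ζ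
    rw [Metric.tendsto_nhds]
    intro ε hε
    obtain ⟨r', hr', hq⟩ := hquad (ε / (‖ζ‖ ^ 2 + 1)) (by positivity)
    have hev : ∀ᶠ t : ℝ in 𝓝[>] 0, t * ‖ζ‖ ≤ r' := by
      have h1 : Tendsto (fun t : ℝ => t * ‖ζ‖) (𝓝[>] 0) (𝓝 0) := by
        have : Continuous fun t : ℝ => t * ‖ζ‖ := by fun_prop
        have h2 := this.tendsto 0
        rw [zero_mul] at h2
        exact h2.mono_left nhdsWithin_le_nhds
      exact (h1.eventually_lt_const hr').mono fun t ht => ht.le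
    filter_upwards [hev, self_mem_nhdsWithin] with t ht ht0
    have ht0' : (0:ℝ) < t := ht0
    have hnorm : ‖p + t • ζ - p‖ = t * ‖ζ‖ := by
      rw [add_sub_cancel_left, norm_smul, Real.norm_of_nonneg ht0'.le]
    have h3 := hq (p + t • ζ) (by rw [hnorm]; exact ht)
    rw [hnorm] at h3
    simp only [add_sub_cancel_left, Prod.smul_fst, Prod.smul_snd, smul_eq_mul] at h3
    rw [Real.dist_eq]
    have e : (F (p + t • ζ) - F p) / t ^ 2 - (α * ζ.1 ^ 2 + β * ζ.2 ^ 2) =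
        (F (p + t • ζ) - F p - (α * (t * ζ.1) ^ 2 + β * (t * ζ.2) ^ 2)) / t ^ 2 := by
      field_simp
    rw [e, abs_div, abs_of_pos (by positivity : 0 < t ^ 2), div_lt_iff₀ (by positivity)]
    refine h3.trans_lt ?_
    have h4 : ε / (‖ζ‖ ^ 2 + 1) * (t * ‖ζ‖) ^ 2 = ε * t ^ 2 * (‖ζ‖ ^ 2 / (‖ζ‖ ^ 2 + 1)) := by ring
    rw [h4]
    have h5 : ‖ζ‖ ^ 2 / (‖ζ‖ ^ 2 + 1) < 1 := by
      rw [div_lt_one (by positivity)]
      linarith
    have h6 : 0 < ε * t ^ 2 := by positivity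
    nlinarith

/-- the local structure at a tangency point of the fold line -/
lemma exists_ctr {H : ℝ × ℝ → ℝ} (hH : ContDiff ℝ 2 H) {t₀ : ℝ}
    (h1 : fderiv ℝ H (-2, t₀) (0, 1) = 0) (h2 : 0 < fderiv ℝ H (-2, t₀) (1, 0))
    (h3 : 0 < fderiv ℝ (fun z => fderiv ℝ H z (0, 1)) (-2, t₀) (0, 1)) :
    ∃ r₀ > 0, ∃ lam > 0, ∀ r, 0 < r → r ≤ r₀ → Ctr (fun z => H (fo z)) (0, t₀)
      (fderiv ℝ H (-2, t₀) (1, 0)) (fderiv ℝ (fun z => fderiv ℝ H z (0, 1)) (-2, t₀) (0, 1) / 2)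
      r lam := by
  have hHd : Differentiable ℝ H := hH.differentiable (by norm_num)
  have hdH : ContDiff ℝ 1 (fderiv ℝ H) := hH.fderiv_right (m := 1) (by norm_num)
  have hfo : fo (0, t₀) = (-2, t₀) := by simp [fo]
  have hgu : ∀ z, fderiv ℝ (fun z => H (fo z)) z (1, 0) = 2 * z.1 * fderiv ℝ H (fo z) (1, 0) := by
    intro z
    rw [fderiv_fo_comp hHd, clm_apply]
    simp
  have hgv : ∀ z, fderiv ℝ (fun z => H (fo z)) z (0, 1) = fderiv ℝ H (fo z) (0, 1) := by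
    intro z
    rw [fderiv_fo_comp hHd]
    simp
  refine exists_ctr_aux (F := fun z => H (fo z)) (hH.comp contDiff_fo) h2 (by positivity)
    fun δ hδ => ?_
  -- first component
  have hc1 : Continuous fun z => fderiv ℝ H (fo z) (1, 0) :=
    (hdH.continuous.comp (contDiff_fo (n := 0)).continuous).clm_apply continuous_const
  have hev1 : ∀ᶠ z in 𝓝 ((0:ℝ), t₀),
      |fderiv ℝ H (fo z) (1, 0) - fderiv ℝ H (-2, t₀) (1, 0)| < δ / 2 := by
    have := Metric.tendsto_nhds.1 (hc1.tendsto ((0:ℝ), t₀)) (δ / 2) (by positivity)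
    rw [hfo] at this
    simpa [Real.dist_eq] using this
  -- second component
  set Hy : ℝ × ℝ → ℝ := fun z => fderiv ℝ H z (0, 1) with hHy
  have hHyd : Differentiable ℝ Hy :=
    (hdH.clm_apply contDiff_const).differentiable (by norm_num)
  have hder : HasFDerivAt (fun z => Hy (fo z)) (fderiv ℝ (fun z => Hy (fo z)) (0, t₀)) (0, t₀) :=
    (hHyd.comp ((contDiff_fo (n := 1)).differentiable (by norm_num)) _).hasFDerivAt
  have hlo := hder.isLittleO.def hδ
  obtain ⟨r, hr, hball⟩ := Metric.eventually_nhds_iff.1 (hev1.and hlo)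
  refine ⟨r / 2, by positivity, fun z hz => ?_⟩
  obtain ⟨h4, h5⟩ := hball (y := z) (by rw [dist_eq_norm]; linarith)
  refine ⟨?_, ?_⟩
  · rw [hgu]
    have e : 2 * z.1 * fderiv ℝ H (fo z) (1, 0) -
        2 * fderiv ℝ H (-2, t₀) (1, 0) * (z - ((0:ℝ), t₀)).1 =
        2 * ((z - ((0:ℝ), t₀)).1 * (fderiv ℝ H (fo z) (1, 0) - fderiv ℝ H (-2, t₀) (1, 0))) := by
      simp only [Prod.fst_sub, sub_zero]
      ring
    rw [e, abs_mul, abs_mul, abs_two]
    have h6 : |(z - ((0:ℝ), t₀)).1| ≤ ‖z - ((0:ℝ), t₀)‖ :=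
      norm_fst_le (z - ((0:ℝ), t₀))
    calc _ ≤ 2 * (‖z - ((0:ℝ), t₀)‖ * (δ / 2)) := by gcongr
      _ = _ := by ring
  · rw [hgv]
    rw [Real.norm_eq_abs] at h5
    refine le_trans (le_of_eq ?_) h5
    congr 1
    rw [fderiv_fo_comp hHyd, hfo]
    rw [show Hy (-2, t₀) = 0 from h1,
      clm_apply (fderiv ℝ Hy (-2, t₀)) (2 * ((0:ℝ), t₀).1 * (z - ((0:ℝ), t₀)).1,
        (z - ((0:ℝ), t₀)).2)]
    simp only [Prod.fst_sub, Prod.snd_sub]
    rw [show Hy (fo z) = fderiv ℝ H (fo z) (0, 1) from rfl]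
    ring

end Pool.Agent.Y300
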