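import Pool.Agent.Y300.Step
import Pool.Agent.Y300.Base

/-! Counting. -/

set_option autoImplicit false

open Set MeasureTheory Topology Filter
open scoped NNReal

namespace Pool.Agent.Y300

/-- the directions used in the folding step -/
def cl2 (E D ν β : ℕ) : Finset ℕ :=
  Finset.Ico 1 (E * (D - β - 1) / D + 1) ∪ Finset.Ico (ν + 1) (ν + E * (D - β) / D)

/-- all directions -/
def cols (E D ν a : ℕ) : Finset (ℕ × ℕ) :=
  (Finset.range a).biUnion fun β => (cl2 E D ν β).image fun o => (o, β)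

lemma mem_cols {E D ν a : ℕ} {q : ℕ × ℕ} (hq : q ∈ cols E D ν a) :
    q.2 < a ∧ q.1 ∈ cl2 E D ν q.2 := by
  unfold cols at hq
  rw [Finset.mem_biUnion] at hq
  obtain ⟨β, hβ, h⟩ := hq
  rw [Finset.mem_image] at h
  obtain ⟨o, ho, rfl⟩ := h
  exact ⟨Finset.mem_range.1 hβ, ho⟩

lemma card_cols {E D ν a : ℕ} (hν : ν = E * (D - 1) / D) :
    ∑ β ∈ Finset.range a, (E * (D - β - 1) / D + (E * (D - β) / D - 1)) ≤ (cols E D ν a).card := by
  classical
  unfold cols
  rw [Finset.card_biUnion]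
  · refine Finset.sum_le_sum fun β _ => ?_
    rw [Finset.card_image_of_injective _ (fun a b h => (Prod.ext_iff.1 h).1)]
    unfold cl2
    rw [Finset.card_union_of_disjoint, Nat.card_Ico, Nat.card_Ico]
    · omega
    · rw [Finset.disjoint_left]
      intro x hx hx'
      rw [Finset.mem_Ico] at hx hx'
      have h1 : E * (D - β - 1) / D ≤ E * (D - 1) / D :=
        Nat.div_le_div_right (Nat.mul_le_mul_left E (by omega))
      omega
  · intro β _ β' _ hne
    rw [Function.onFun, Finset.disjoint_left]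
    intro x hx hx'
    rw [Finset.mem_image] at hx hx'
    obtain ⟨o, _, rfl⟩ := hx
    obtain ⟨o', _, h⟩ := hx'
    exact hne (Prod.ext_iff.1 h).2.symm

lemma Stage.fold' {E D N a b : ℕ} (h : Stage E D N a b) (hE : 2 ≤ E) (hD : 2 ≤ D) (haD : a ≤ D) :
    Stage (2 * E) D (2 * N + ((cols E D (E * (D - 1) / D) a).card - a)) a (2 * b) := by
  have hD0 : 0 < D := by omega
  set ν := E * (D - 1) / D with hν
  have hν1 : 1 ≤ ν := by
    rw [hν, Nat.le_div_iff_mul_le hD0, one_mul]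
    obtain ⟨d, rfl⟩ : ∃ d, D = d + 2 := ⟨D - 2, by omega⟩
    rw [show d + 2 - 1 = d + 1 by omega]
    nlinarith
  have hdiv : D * ν ≤ E * (D - 1) := Nat.mul_div_le _ _
  have hνD : D * ν + E ≤ D * E := by
    obtain ⟨d, rfl⟩ : ∃ d, D = d + 1 := ⟨D - 1, by omega⟩
    rw [Nat.add_sub_cancel] at hdiv
    nlinarith
  refine h.fold hν1 hνD (cols E D ν a) (fun q hq => (mem_cols hq).1) ?_ ?_ ?_
  · intro q hq
    have h1 := (mem_cols hq).2
    unfold cl2 at h1
    rw [Finset.mem_union, Finset.mem_Ico, Finset.mem_Ico] at h1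
    omega
  · intro q hq hle
    obtain ⟨h0, h1⟩ := mem_cols hq
    unfold cl2 at h1
    rw [Finset.mem_union, Finset.mem_Ico, Finset.mem_Ico] at h1
    have h2 : q.1 ≤ E * (D - q.2 - 1) / D := by omega
    have h3 : D * q.1 ≤ E * (D - q.2 - 1) :=
      (Nat.mul_le_mul_left D h2).trans (Nat.mul_div_le _ _)
    obtain ⟨d, hd⟩ : ∃ d, D = d + (q.2 + 1) := ⟨D - (q.2 + 1), by omega⟩
    have h4 : D - q.2 - 1 = d := by omega
    rw [h4] at h3
    have h5 : 1 ≤ q.1 := by omega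
    obtain ⟨o, ho⟩ : ∃ o, q.1 = o + 1 := ⟨q.1 - 1, by omega⟩
    rw [ho] at h3 ⊢
    rw [Nat.add_sub_cancel]
    have h6 : D * (2 * E) = 2 * (E * d) + 2 * E * q.2 + 2 * E := by
      rw [hd]; ring
    rw [h6]
    nlinarith
  · intro q hq hlt
    obtain ⟨h0, h1⟩ := mem_cols hq
    unfold cl2 at h1
    rw [Finset.mem_union, Finset.mem_Ico, Finset.mem_Ico] at h1
    have h7 : E * (D - q.2 - 1) / D ≤ E * (D - 1) / D :=
      Nat.div_le_div_right (Nat.mul_le_mul_left E (by omega))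
    have h2 : q.1 - ν + 1 ≤ E * (D - q.2) / D := by omega
    have h3 : D * (q.1 - ν + 1) ≤ E * (D - q.2) :=
      (Nat.mul_le_mul_left D h2).trans (Nat.mul_div_le _ _)
    obtain ⟨d, hd⟩ : ∃ d, D = d + q.2 := ⟨D - q.2, by omega⟩
    have h4 : D - q.2 = d := by omega
    rw [h4] at h3
    set o := q.1 - ν with ho
    have h6 : D * (2 * E) = 2 * (E * d) + 2 * E * q.2 := by
      rw [hd]; ring
    rw [h6]
    nlinarith

lemma nat_div_lower (m D : ℕ) (hD : 0 < D) : (m : ℝ) / D - 1 ≤ ((m / D : ℕ) : ℝ) := by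
  have hD' : (0:ℝ) < D := by exact_mod_cast hD
  have h := Nat.lt_mul_div_succ m hD
  have h' : (m : ℝ) < D * (((m / D : ℕ) : ℝ) + 1) := by exact_mod_cast h
  have h2 : (m:ℝ) / D < ((m / D : ℕ) : ℝ) + 1 := by
    rw [div_lt_iff₀ hD']
    linarith
  linarith

lemma card_cols_lower {E D a : ℕ} (hD : 0 < D) (haD : a ≤ D) :
    (E : ℝ) * a * (2 - a / D) - 3 * a ≤ ((cols E D (E * (D - 1) / D) a).card : ℝ) := by
  have h1 := card_cols (E := E) (D := D) (a := a) rfl
  have hD' : (0:ℝ) < D := by exact_mod_cast hD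
  have h2 : (∑ β ∈ Finset.range a, ((E:ℝ) * (2 * (D - β) - 1) / D - 3)) ≤
      ((∑ β ∈ Finset.range a, (E * (D - β - 1) / D + (E * (D - β) / D - 1)) : ℕ) : ℝ) := by
    rw [Nat.cast_sum]
    refine Finset.sum_le_sum fun β hβ => ?_
    have hβ' : β + 1 ≤ D := by
      have := Finset.mem_range.1 hβ
      omega
    have h3 := nat_div_lower (E * (D - β - 1)) D hD
    have h4 := nat_div_lower (E * (D - β)) D hD
    have h5 : ((D - β - 1 : ℕ) : ℝ) = D - β - 1 := by
      rw [show D - β - 1 = D - (β + 1) by omega, Nat.cast_sub hβ']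
      push_cast; ring
    have h6 : ((D - β : ℕ) : ℝ) = D - β := Nat.cast_sub (by omega)
    rw [Nat.cast_mul, h5] at h3
    rw [Nat.cast_mul, h6] at h4
    have h7 : ((E * (D - β) / D : ℕ) : ℝ) - 1 ≤ ((E * (D - β) / D - 1 : ℕ) : ℝ) := by
      rcases Nat.eq_zero_or_pos (E * (D - β) / D) with h | h
      · rw [h]; norm_num
      · rw [Nat.cast_sub h]; norm_num
    rw [Nat.cast_add]
    have h8 : (E:ℝ) * (2 * (D - β) - 1) / D - 3 = (E * (D - β - 1) / D - 1) +
        ((E * (D - β) / D - 1) - 1) := by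
      field_simp
      ring
    rw [h8]
    linarith
  have h3 : (∑ β ∈ Finset.range a, ((E:ℝ) * (2 * (D - β) - 1) / D - 3)) =
      E * a * (2 - a / D) - 3 * a := by
    clear h1 h2 haD
    induction a with
    | zero => simp
    | succ a ih =>
      rw [Finset.sum_range_succ, ih]
      push_cast
      field_simp
      ring
  rw [← h3]
  exact h2.trans (by exact_mod_cast h1)

/-- one round: two foldings -/
lemma Stage.round {D N a : ℕ} (h : Stage D D N a a) (hD : 2 ≤ D) (haD : a ≤ D) :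
    ∃ N' : ℕ, Stage (2 * D) (2 * D) N' (2 * a) (2 * a) ∧
      4 * (N:ℝ) + 8 * D * a - 4 * a ^ 2 - 16 * a ≤ N' := by
  have hD' : (0:ℝ) < D := by exact_mod_cast (show 0 < D by omega)
  have s1 := (h.fold' hD hD haD).swap
  set N₁ := 2 * N + ((cols D D (D * (D - 1) / D) a).card - a) with hN₁
  have s2 := s1.fold' hD (by omega) (by omega)
  set N₂ := 2 * N₁ + ((cols D (2 * D) (D * (2 * D - 1) / (2 * D)) (2 * a)).card - 2 * a) with hN₂
  refine ⟨N₂, s2, ?_⟩
  have c1 := card_cols_lower (E := D) (D := D) (a := a) (by omega) haD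
  have c2 := card_cols_lower (E := D) (D := 2 * D) (a := 2 * a) (by omega) (by omega)
  have e1 : 2 * (N:ℝ) + ((cols D D (D * (D - 1) / D) a).card : ℝ) - a ≤ N₁ := by
    have : 2 * N + (cols D D (D * (D - 1) / D) a).card ≤ N₁ + a := by omega
    have h' : 2 * (N:ℝ) + ((cols D D (D * (D - 1) / D) a).card : ℝ) ≤ N₁ + a := by
      exact_mod_cast this
    linarith
  have e2 : 2 * (N₁:ℝ) + ((cols D (2 * D) (D * (2 * D - 1) / (2 * D)) (2 * a)).card : ℝ) - 2 * a ≤
      N₂ := by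
    have : 2 * N₁ + (cols D (2 * D) (D * (2 * D - 1) / (2 * D)) (2 * a)).card ≤ N₂ + 2 * a := by
      omega
    have h' : 2 * (N₁:ℝ) + ((cols D (2 * D) (D * (2 * D - 1) / (2 * D)) (2 * a)).card : ℝ) ≤
        N₂ + 2 * a := by exact_mod_cast this
    linarith
  push_cast at c1 c2
  have f1 : (D:ℝ) * a * (2 - a / D) = 2 * D * a - a ^ 2 := by field_simp
  have f2 : (D:ℝ) * (2 * a) * (2 - 2 * a / (2 * D)) = 4 * D * a - 2 * a ^ 2 := by
    field_simp
    ring
  rw [f1] at c1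
  rw [f2] at c2
  linarith

/-- iteration -/
lemma Stage.iter (s : ℕ) (hs : 1 ≤ s) (J : ℕ) :
    ∃ N : ℕ, Stage (2 ^ J * (2 * s)) (2 ^ J * (2 * s)) N (2 ^ J * (2 * (s - 1)))
      (2 ^ J * (2 * (s - 1))) ∧
      (4:ℝ) ^ J * (J * (4 * s ^ 2 - 4) - 16 * s * (1 - 1 / 2 ^ J)) ≤ N := by
  induction J with
  | zero => exact ⟨0, by simpa using Stage.base s, by simp⟩
  | succ J ih =>
    obtain ⟨N, hN, hb⟩ := ih
    have hp : 1 ≤ 2 ^ J := Nat.one_le_two_pow
    obtain ⟨N', hN', hb'⟩ := hN.round (by nlinarith) (Nat.mul_le_mul_left _ (by omega))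
    refine ⟨N', ?_, ?_⟩
    · have e1 : 2 ^ (J + 1) * (2 * s) = 2 * (2 ^ J * (2 * s)) := by ring
      have e2 : 2 ^ (J + 1) * (2 * (s - 1)) = 2 * (2 ^ J * (2 * (s - 1))) := by ring
      rw [e1, e2]
      exact hN'
    · refine le_trans ?_ hb'
      have hs' : ((s - 1 : ℕ) : ℝ) = s - 1 := by rw [Nat.cast_sub hs]; norm_num
      push_cast
      rw [hs']
      have e4 : (4:ℝ) ^ J = 2 ^ J * 2 ^ J := by rw [← mul_pow]; norm_num
      have hq : (0:ℝ) < 2 ^ J := by positivity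
      have hb2 : (2:ℝ) ^ J * 2 ^ J * (J * (4 * s ^ 2 - 4)) - 16 * s * (2 ^ J * 2 ^ J - 2 ^ J) ≤ N := by
        refine le_trans (le_of_eq ?_) hb
        rw [e4]
        field_simp
      have e5 : (4:ℝ) ^ (J + 1) * ((J + 1) * (4 * s ^ 2 - 4) - 16 * s * (1 - 1 / 2 ^ (J + 1))) =
          4 * (2 ^ J * 2 ^ J) * ((J + 1) * (4 * s ^ 2 - 4)) -
            16 * s * (4 * (2 ^ J * 2 ^ J) - 2 * 2 ^ J) := by
        rw [pow_succ, pow_succ, e4]
        field_simp
        ring
      rw [e5]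
      have hs0 : (1:ℝ) ≤ s := by exact_mod_cast hs
      nlinarith [hb2, hq, mul_pos hq hq]

end Pool.Agent.Y300
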