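import Pool.Agent.Y300.Ovals

/-! Sign changes of the Melnikov integral over ovals give closed orbits: the main theorem. -/

set_option autoImplicit false

open Set MeasureTheory Topology Filter
open scoped NNReal

namespace Pool.Agent.Y300

lemma rhs_periodic (p : ℝ × ℝ) (Z : ℝ × ℝ → ℝ × ℝ) (θ r : ℝ) :
    rhs p Z (θ + 2 * Real.pi) r = rhs p Z θ r := by
  have : pol p r (θ + 2 * Real.pi) = pol p r θ := by simp [pol, ev]
  unfold rhs
  rw [this]

/-- a fixed point of the return map gives a closed orbit -/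
lemma Near.closed {p : ℝ × ℝ} {r₁ r₂ : ℝ} {H : ℝ × ℝ → ℝ} {Y : ℝ × ℝ → ℝ × ℝ} {κ C : ℝ}
    (h : Near p r₁ r₂ H Y κ C) {r : ℝ → ℝ}
    (hin : ∀ θ ∈ Icc 0 (2 * Real.pi), r θ ∈ Icc r₁ r₂)
    (hd : ∀ θ ∈ Icc 0 (2 * Real.pi), HasDerivWithinAt r (rhs p (pert H Y κ) θ (r θ))
      (Icc 0 (2 * Real.pi)) θ) (hfix : r (2 * Real.pi) = r 0) :
    ∃ C : Set (ℝ × ℝ), ClosedOrbit (pert H Y κ) C ∧ C ⊆ ann p r₁ r₂ ∧
      ∀ x, 0 < x → (pol p x 0 ∈ C ↔ x = r 0) := by
  obtain ⟨ρ, h1, h2, h3⟩ := periodic_glue Real.two_pi_pos (rhs_periodic p (pert H Y κ)) hd hfix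
  have hmem : ∀ θ, ρ θ ∈ Icc r₁ r₂ := by
    intro θ
    obtain ⟨y, hy, hy'⟩ := (show Function.Periodic ρ (2 * Real.pi) from h1).exists_mem_Ico₀
      Real.two_pi_pos θ
    rw [hy', h3 (Ico_subset_Icc_self hy)]
    exact hin y (Ico_subset_Icc_self hy)
  have hpos : ∀ θ, 0 < ρ θ := fun θ => h.pos.trans_le (hmem θ).1
  have hann : ∀ θ, pol p (ρ θ) θ ∈ ann p r₁ r₂ := fun θ => pol_mem_ann h.pos (hmem θ) θ
  have h0 : ρ 0 = r 0 := h3 ⟨le_rfl, Real.two_pi_pos.le⟩
  refine ⟨range fun θ => pol p (ρ θ) θ, closedOrbit_polar hpos (fun θ => h.hw _ (hann θ)) h1 h2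
    (fun θ => (h.contDiffAt (hann θ)).continuousAt), ?_, ?_⟩
  · rintro _ ⟨θ, rfl⟩
    exact hann θ
  · intro x hx
    constructor
    · rintro ⟨θ, hθ⟩
      simp only at hθ
      have e1 := congrArg Prod.fst hθ
      have e2 := congrArg Prod.snd hθ
      simp only [pol, ev, Prod.fst_add, Prod.snd_add, Prod.smul_fst, Prod.smul_snd, smul_eq_mul,
        Real.cos_zero, Real.sin_zero, mul_one, mul_zero, add_zero, add_right_inj, add_eq_left,
        mul_eq_zero] at e1 e2
      have hs : Real.sin θ = 0 := by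
        rcases e2 with e2 | e2
        · exact absurd e2 (hpos θ).ne'
        · exact e2
      have hc : Real.cos θ = 1 := by
        have hsq := Real.sin_sq_add_cos_sq θ
        rw [hs] at hsq
        have hcpos : 0 < Real.cos θ := by
          have : 0 < ρ θ * Real.cos θ := by rw [e1]; exact hx
          exact pos_of_mul_pos_right this (hpos θ).le
        nlinarith
      rw [hc, mul_one] at e1
      obtain ⟨k, hk⟩ := (Real.cos_eq_one_iff θ).1 hc
      have : ρ θ = ρ 0 := by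
        rw [← hk]
        have := (show Function.Periodic ρ (2 * Real.pi) from h1).int_mul k 0
        simpa using this
      rw [← e1, this, h0]
    · intro hx'
      exact ⟨0, by simp only [h0, hx']⟩

lemma exists_zero_of_mul_neg {f : ℝ → ℝ} {a b : ℝ} (hab : a < b) (hf : ContinuousOn f (Icc a b))
    (h : f a * f b < 0) : ∃ x ∈ Ioo a b, f x = 0 := by
  rcases mul_neg_iff.1 h with ⟨h1, h2⟩ | ⟨h1, h2⟩
  · exact intermediate_value_Ioo' hab.le hf ⟨h2, h1⟩
  · exact intermediate_value_Ioo hab.le hf ⟨h1, h2⟩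

section

variable {p : ℝ × ℝ} {r₁ r₂ : ℝ} {H : ℝ × ℝ → ℝ} {Y : ℝ × ℝ → ℝ × ℝ} {n : ℕ} {c : ℕ → ℝ}
  {R : ℕ → ℝ → ℝ}

lemma Ovals.mono_c (h : Ovals p r₁ r₂ H Y n c R) {i j : ℕ} (hij : i ≤ j) (hj : j ≤ n) :
    c i ≤ c j := by
  induction j, hij using Nat.le_induction with
  | base => exact le_rfl
  | succ k hk ih => exact (ih (by omega)).trans (h.hc k (by omega)).le

set_option maxHeartbeats 1000000 in
theorem Ovals.many (h : Ovals p r₁ r₂ H Y n c R) : Many H Y (ann p r₁ r₂) n := by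
  have h1 := h.pos
  have h12 := h.lt
  have hr2 : 0 < r₂ := h1.trans h12
  have hpi := Real.pi_pos
  have hK : IsCompact (ann p r₁ r₂) := isCompact_ann hr2.le
  have hKne : (ann p r₁ r₂).Nonempty := ⟨_, pol_mem_ann h1 ⟨le_rfl, h12.le⟩ 0⟩
  have hdiff : Differentiable ℝ H := h.hH.differentiable (by norm_num)
  have hfc : Continuous (fderiv ℝ H) := h.hH.continuous_fderiv (by norm_num)
  have hDc : Continuous fun z => fderiv ℝ H z (z - p) :=
    hfc.clm_apply (continuous_id.sub continuous_const)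
  -- constants
  obtain ⟨z0, hz0, hz0m⟩ := hK.exists_isMinOn hKne hDc.continuousOn
  set m := fderiv ℝ H z0 (z0 - p) with hm_def
  have hm0 : 0 < m := h.hrad z0 hz0
  have hm : ∀ z ∈ ann p r₁ r₂, m ≤ fderiv ℝ H z (z - p) := fun z hz => hz0m hz
  obtain ⟨BH, hBH'⟩ := hK.exists_bound_of_continuousOn hfc.continuousOn
  obtain ⟨BY, hBY'⟩ := hK.exists_bound_of_continuousOn h.hY.continuousOn
  have hBH : 0 ≤ BH := (norm_nonneg _).trans (hBH' z0 hz0)
  have hBY : 0 ≤ BY := (norm_nonneg _).trans (hBY' z0 hz0)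
  set C : ℝ := r₂ ^ 2 * ((BH + 1) * (BY + 1)) * (2 / m) with hC_def
  set C3 : ℝ := r₂ ^ 2 * (BH + BY + 1) * (2 / m) + r₂ ^ 2 * (BH * BY) * (r₂ * (3 + 2 * BY)) *
        (2 / m ^ 2) with hC3_def
  have hC0 : 0 ≤ C := by positivity
  have hC30 : 0 ≤ C3 := by positivity
  -- gap at the boundary
  have hrm := fun θ => ray_strictMono (p := p) (H := H) h1 (fun z _ => hdiff z) h.hrad θ
  have hT : (Icc 0 (2 * Real.pi)).Nonempty := ⟨0, le_rfl, Real.two_pi_pos.le⟩
  have hcont_r : ∀ r : ℝ, Continuous fun θ => H (pol p r θ) := by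
    intro r
    exact hdiff.continuous.comp (continuous_pol.comp (by fun_prop : Continuous fun θ : ℝ => (θ, r)))
  obtain ⟨η₁, hη₁, hg₁⟩ : ∃ η > 0, ∀ θ ∈ Icc 0 (2 * Real.pi), H (pol p r₁ θ) + η ≤ c 0 := by
    obtain ⟨t, -, ht⟩ := isCompact_Icc.exists_isMaxOn hT (hcont_r r₁).continuousOn
    refine ⟨c 0 - H (pol p r₁ t), ?_, fun θ hθ => ?_⟩
    · have := hrm t ⟨le_rfl, h12.le⟩ (Ioo_subset_Icc_self (h.hmem 0 (Nat.zero_le _) t))
        (h.hmem 0 (Nat.zero_le _) t).1
      simp only [h.hlev 0 (Nat.zero_le _) t] at this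
      linarith
    · have : H (pol p r₁ θ) ≤ H (pol p r₁ t) := ht hθ
      linarith
  obtain ⟨η₂, hη₂, hg₂⟩ : ∃ η > 0, ∀ θ ∈ Icc 0 (2 * Real.pi), c n + η ≤ H (pol p r₂ θ) := by
    obtain ⟨t, -, ht⟩ := isCompact_Icc.exists_isMinOn hT (hcont_r r₂).continuousOn
    refine ⟨H (pol p r₂ t) - c n, ?_, fun θ hθ => ?_⟩
    · have := hrm t (Ioo_subset_Icc_self (h.hmem n le_rfl t)) ⟨h12.le, le_rfl⟩
        (h.hmem n le_rfl t).2
      simp only [h.hlev n le_rfl t] at this
      linarith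
    · have : H (pol p r₂ t) ≤ H (pol p r₂ θ) := ht hθ
      linarith
  set η := min η₁ η₂ with hη_def
  have hη : 0 < η := lt_min hη₁ hη₂
  -- the Melnikov integrals
  set Mk : ℕ → ℝ := fun k => (-1) ^ k *
    ∫ θ in (0:ℝ)..(2 * Real.pi), mel p H Y (pol p (R k θ) θ) with hMk
  obtain ⟨M, hM0, hM⟩ := exists_pos_le n Mk h.hsign
  set δ := M / (8 * Real.pi) with hδ_def
  have hδ : 0 < δ := by positivity
  have hmelc : ContinuousOn (mel p H Y) (ann p r₁ r₂) := by
    unfold mel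
    apply ContinuousOn.div
    · exact ((continuous_dot_self p).mul (hfc.clm_apply h.hY)).continuousOn
    · exact hDc.continuousOn
    · intro z hz
      exact (h.hrad z hz).ne'
  have huc := hK.uniformContinuousOn_of_continuous hmelc
  rw [Metric.uniformContinuousOn_iff] at huc
  obtain ⟨τ, hτ, huc⟩ := huc δ hδ
  -- choice of ε
  set ε : ℝ := min (min 1 (m / (2 * (r₂ * (3 + 2 * BY))))) (min (η / (2 * (2 + 2 * Real.pi * C) + 1))
    (min (τ * (m / r₂) / (2 * (2 + 2 * Real.pi * C))) (δ / (C3 + 1)))) with hε_def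
  have hden : 0 < 2 + 2 * Real.pi * C := by positivity
  have hε0 : 0 < ε := by
    rw [hε_def]
    refine lt_min (lt_min one_pos (by positivity)) (lt_min (by positivity)
      (lt_min (by positivity) (by positivity)))
  have hε1 : ε ≤ 1 := (min_le_left _ _).trans (min_le_left _ _)
  have hε2 : ε * (r₂ * (3 + 2 * BY)) ≤ m / 2 := by
    have : ε ≤ m / (2 * (r₂ * (3 + 2 * BY))) := (min_le_left _ _).trans (min_le_right _ _)
    rw [le_div_iff₀ (by positivity)] at this
    linarith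
  have hε3 : ε * (2 + 2 * Real.pi * C) < η := by
    have h2 : ε ≤ η / (2 * (2 + 2 * Real.pi * C) + 1) := (min_le_right _ _).trans (min_le_left _ _)
    rw [le_div_iff₀ (by positivity)] at h2
    nlinarith [mul_pos hε0 hden]
  have hε4 : ε * (2 + 2 * Real.pi * C) < τ * (m / r₂) := by
    have h2 : ε ≤ τ * (m / r₂) / (2 * (2 + 2 * Real.pi * C)) :=
      (min_le_right _ _).trans ((min_le_right _ _).trans (min_le_left _ _))
    rw [le_div_iff₀ (by positivity)] at h2
    nlinarith [mul_pos hε0 hden]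
  have hε5 : ε * C3 ≤ δ := by
    have h2 : ε ≤ δ / (C3 + 1) :=
      (min_le_right _ _).trans ((min_le_right _ _).trans (min_le_right _ _))
    rw [le_div_iff₀ (by positivity)] at h2
    nlinarith
  refine ⟨ε, hε0, ?_⟩
  intro H' Y' κ s1 s2 c1 c2 c3 hκ hκε
  obtain ⟨hN, hgain, hrad'⟩ := near_close h1 h12 hm0 hBH hBY hm hBH' hBY' hε1 hε2 s1 s2 c2 c3 hκ hκε
  rw [← hC_def] at hN
  rw [← hC3_def] at hgain
  have hκC : κ * C * (2 * Real.pi) ≤ ε * (2 * Real.pi * C) := by
    have := mul_le_mul_of_nonneg_right hκε (show 0 ≤ 2 * Real.pi * C by positivity)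
    linarith
  -- the flow
  obtain ⟨L, hL1, hL2, hL3⟩ := rhs_regular h1 h12 (fun z hz => hN.contDiffAt hz) hN.hw (2 * Real.pi)
  obtain ⟨α, hα, hαc⟩ := flow_exists (f := fun θ x => rhs p (pert H' Y' κ) θ (cl r₁ r₂ x))
    Real.two_pi_pos.le (L := L) (K := L) (fun x => hL3 _ (cl_mem h12.le x))
    (fun θ hθ => by
      have h3 := (hL1 θ hθ)
      have h4 : LipschitzWith (L * 1) (fun x => rhs p (pert H' Y' κ) θ (cl r₁ r₂ x)) := by
        intro x y
        have h5 := h3 (cl_mem h12.le x) (cl_mem h12.le y)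
        refine h5.trans ?_
        have h6 := lipschitz_cl r₁ r₂ x y
        rw [ENNReal.coe_mul, mul_assoc]
        exact mul_le_mul_right h6 _
      rwa [mul_one] at h4)
    (fun θ hθ x => hL2 θ hθ _ (cl_mem h12.le x)) r₂.toNNReal
  rw [Real.coe_toNNReal _ hr2.le] at hα hαc
  have hsub : Icc r₁ r₂ ⊆ Icc (-r₂) r₂ := Icc_subset_Icc_left (by linarith)
  set s : ℕ → ℝ := fun k => R k 0 with hs
  have hsmem : ∀ k ≤ n, s k ∈ Ioo r₁ r₂ := fun k hk => h.hmem k hk 0
  have hslev : ∀ k ≤ n, H (pol p (s k) 0) = c k := fun k hk => h.hlev k hk 0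
  have hsmono : ∀ k < n, s k < s (k + 1) := by
    intro k hk
    have h3 : H (pol p (s k) 0) < H (pol p (s (k + 1)) 0) := by
      rw [hslev k hk.le, hslev (k + 1) (by omega)]
      exact h.hc k hk
    exact ((hrm 0).lt_iff_lt (Ioo_subset_Icc_self (hsmem k hk.le))
      (Ioo_subset_Icc_self (hsmem (k + 1) (by omega)))).1 h3
  have hsle : ∀ i j, i ≤ j → j ≤ n → s i ≤ s j := by
    intro i j hij
    induction j, hij using Nat.le_induction with
    | base => intro _; exact le_rfl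
    | succ k hk ih => intro hkn; exact (ih (by omega)).trans (hsmono k (by omega)).le
  -- solutions stay inside
  have hstay : ∀ x ∈ Icc (s 0) (s n), ∀ θ ∈ Icc 0 (2 * Real.pi), α x θ ∈ Ioo r₁ r₂ ∧
      |H' (pol p (α x θ) θ) - H' (pol p x 0)| ≤ κ * C * (2 * Real.pi) := by
    intro x hx θ hθ
    have hx' : x ∈ Ioo r₁ r₂ := ⟨(hsmem 0 (Nat.zero_le _)).1.trans_le hx.1,
      hx.2.trans_lt (hsmem n le_rfl).2⟩
    have hxI := Ioo_subset_Icc_self hx'
    have hl : c 0 ≤ H (pol p x 0) := by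
      rw [← hslev 0 (Nat.zero_le _)]
      exact (hrm 0).monotoneOn (Ioo_subset_Icc_self (hsmem 0 (Nat.zero_le _))) hxI hx.1
    have hu : H (pol p x 0) ≤ c n := by
      rw [← hslev n le_rfl]
      exact (hrm 0).monotoneOn hxI (Ioo_subset_Icc_self (hsmem n le_rfl)) hx.2
    have hcx := abs_le.1 (c1 _ (pol_mem_ann h1 hxI 0))
    refine hN.stay hx' ?_ ?_ (hα x (hsub hxI)).1 (hα x (hsub hxI)).2 hθ
    · intro t ht
      have h3 := abs_le.1 (c1 _ (pol_mem_ann h1 ⟨le_rfl, h12.le⟩ t))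
      have h4 := hg₁ t ht
      have h5 := min_le_left η₁ η₂
      rw [← hη_def] at h5
      nlinarith [h3.1, h3.2, hcx.1, hcx.2]
    · intro t ht
      have h3 := abs_le.1 (c1 _ (pol_mem_ann h1 ⟨h12.le, le_rfl⟩ t))
      have h4 := hg₂ t ht
      have h5 := min_le_right η₁ η₂
      rw [← hη_def] at h5
      nlinarith [h3.1, h3.2, hcx.1, hcx.2]
  have hder : ∀ x ∈ Icc (s 0) (s n), ∀ θ ∈ Icc 0 (2 * Real.pi),
      HasDerivWithinAt (α x) (rhs p (pert H' Y' κ) θ (α x θ)) (Icc 0 (2 * Real.pi)) θ := by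
    intro x hx θ hθ
    have hx' : x ∈ Ioo r₁ r₂ := ⟨(hsmem 0 (Nat.zero_le _)).1.trans_le hx.1,
      hx.2.trans_lt (hsmem n le_rfl).2⟩
    have h3 := (hα x (hsub (Ioo_subset_Icc_self hx'))).2 θ hθ
    rwa [cl_eq (Ioo_subset_Icc_self (hstay x hx θ hθ).1)] at h3
  have hα0 : ∀ x ∈ Icc (s 0) (s n), α x 0 = x := by
    intro x hx
    exact (hα x (hsub ⟨(hsmem 0 (Nat.zero_le _)).1.le.trans hx.1,
      hx.2.trans (hsmem n le_rfl).2.le⟩)).1
  -- sign of the displacement
  set P : ℝ → ℝ := fun x => α x (2 * Real.pi) with hP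
  have h2pi : (2 * Real.pi) ∈ Icc 0 (2 * Real.pi) := ⟨Real.two_pi_pos.le, le_rfl⟩
  have hsign : ∀ k ≤ n, 0 < (-1) ^ k * (P (s k) - s k) := by
    intro k hk
    have hx : s k ∈ Icc (s 0) (s n) := ⟨hsle 0 k (Nat.zero_le _) hk, hsle k n hk le_rfl⟩
    have hmemk := hsmem k hk
    obtain ⟨hinc, hgc⟩ := hN.increment (fun θ hθ => Ioo_subset_Icc_self (hstay _ hx θ hθ).1)
      (hder _ hx)
    rw [hα0 _ hx] at hinc
    -- closeness of the position
    have hpos : ∀ θ ∈ Icc 0 (2 * Real.pi), |α (s k) θ - R k θ| < τ := by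
      intro θ hθ
      obtain ⟨h3, h4⟩ := hstay _ hx θ hθ
      have h3' := Ioo_subset_Icc_self h3
      have h5 := Ioo_subset_Icc_self (h.hmem k hk θ)
      have h6 : |H (pol p (α (s k) θ) θ) - H (pol p (R k θ) θ)| ≤ ε * (2 + 2 * Real.pi * C) := by
        rw [h.hlev k hk θ, ← hslev k hk]
        have e1 := abs_le.1 (c1 _ (pol_mem_ann h1 h3' θ))
        have e2 := abs_le.1 (c1 _ (pol_mem_ann h1 (Ioo_subset_Icc_self hmemk) 0))
        have e3 := abs_le.1 h4
        rw [abs_le]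
        constructor <;> nlinarith [e1.1, e1.2, e2.1, e2.2, e3.1, e3.2]
      have hmr : 0 < m / r₂ := by positivity
      have h7 : m / r₂ * |α (s k) θ - R k θ| ≤ ε * (2 + 2 * Real.pi * C) := by
        refine le_trans ?_ h6
        rcases le_total (R k θ) (α (s k) θ) with h8 | h8
        · have h9 := ray_lower (p := p) h1 (fun z _ => hdiff z) hm hm0.le (θ := θ) h5 h3' h8
          rw [abs_of_nonneg (by linarith)]
          exact h9.trans (le_abs_self _)
        · have h9 := ray_lower (p := p) h1 (fun z _ => hdiff z) hm hm0.le (θ := θ) h3' h5 h8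
          rw [abs_of_nonpos (by linarith), abs_sub_comm]
          refine le_trans (le_of_eq ?_) (h9.trans (le_abs_self _))
          ring
      have h8 := h7.trans_lt hε4
      rw [mul_comm τ] at h8
      exact lt_of_mul_lt_mul_left h8 hmr.le
    have hRc : ContinuousOn (fun θ => mel p H Y (pol p (R k θ) θ)) (Icc 0 (2 * Real.pi)) := by
      have h3 : Continuous fun θ => pol p (R k θ) θ := by
        unfold pol
        exact continuous_const.add ((h.hR k hk).smul continuous_ev)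
      exact hmelc.comp h3.continuousOn fun θ _ =>
        pol_mem_ann h1 (Ioo_subset_Icc_self (h.hmem k hk θ)) θ
    have hdiffint : |(∫ θ in (0:ℝ)..(2 * Real.pi), gain p H' Y' κ (pol p (α (s k) θ) θ)) -
        ∫ θ in (0:ℝ)..(2 * Real.pi), mel p H Y (pol p (R k θ) θ)| ≤ 2 * δ * (2 * Real.pi) := by
      rw [← intervalIntegral.integral_sub, ← Real.norm_eq_abs]
      · refine (intervalIntegral.norm_integral_le_of_norm_le_const (C := 2 * δ) ?_).trans
          (le_of_eq ?_)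
        · intro θ hθ
          rw [uIoc_of_le Real.two_pi_pos.le] at hθ
          have hθ' := Ioc_subset_Icc_self hθ
          have h3 := Ioo_subset_Icc_self (hstay _ hx θ hθ').1
          have e1 := hgain _ (pol_mem_ann h1 h3 θ)
          have e2 := huc _ (pol_mem_ann h1 h3 θ) _
            (pol_mem_ann h1 (Ioo_subset_Icc_self (h.hmem k hk θ)) θ)
            (by rw [dist_eq_norm]; exact (dist_pol_le p _ _ θ).trans_lt (hpos θ hθ'))
          rw [Real.dist_eq] at e2
          rw [Real.norm_eq_abs]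
          have e3 : gain p H' Y' κ (pol p (α (s k) θ) θ) - mel p H Y (pol p (R k θ) θ) =
            (gain p H' Y' κ (pol p (α (s k) θ) θ) - mel p H Y (pol p (α (s k) θ) θ)) +
            (mel p H Y (pol p (α (s k) θ) θ) - mel p H Y (pol p (R k θ) θ)) := by ring
          rw [e3]
          refine (abs_add_le _ _).trans ?_
          linarith
        · rw [sub_zero, abs_of_pos Real.two_pi_pos]
      · exact ContinuousOn.intervalIntegrable (by rwa [uIcc_of_le Real.two_pi_pos.le])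
      · exact ContinuousOn.intervalIntegrable (by rwa [uIcc_of_le Real.two_pi_pos.le])
    have hδM : 2 * δ * (2 * Real.pi) = M / 2 := by
      rw [hδ_def]
      field_simp
      ring
    rw [hδM] at hdiffint
    have hMk' := hM k hk
    simp only [hMk] at hMk'
    have hIsign : 0 < (-1) ^ k * ∫ θ in (0:ℝ)..(2 * Real.pi),
        gain p H' Y' κ (pol p (α (s k) θ) θ) := by
      have e := abs_le.1 hdiffint
      rcases neg_one_pow_eq_or ℝ k with h3 | h3
      · rw [h3] at hMk' ⊢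
        linarith [e.1, e.2]
      · rw [h3] at hMk' ⊢
        linarith [e.1, e.2]
    have hHsign : 0 < (-1) ^ k * (H' (pol p (P (s k)) 0) - H' (pol p (s k) 0)) := by
      rw [hinc]
      have := mul_pos hκ hIsign
      linarith
    have hmono' := ray_strictMono (p := p) (H := H') h1
      (fun z hz => (s1 z hz).differentiableAt (by norm_num)) hN.hrad 0
    have hPm : P (s k) ∈ Icc r₁ r₂ := Ioo_subset_Icc_self (hstay _ hx _ h2pi).1
    have hsm : s k ∈ Icc r₁ r₂ := Ioo_subset_Icc_self hmemk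
    rcases neg_one_pow_eq_or ℝ k with h3 | h3
    · rw [h3] at hHsign ⊢
      have h4 := (hmono'.lt_iff_lt hsm hPm).1 (by linarith)
      linarith
    · rw [h3] at hHsign ⊢
      have h4 := (hmono'.lt_iff_lt hPm hsm).1 (by linarith)
      linarith
  -- fixed points
  have hfix : ∀ k < n, ∃ x ∈ Ioo (s k) (s (k + 1)), P x - x = 0 := by
    intro k hk
    have hlo := hsle 0 k (Nat.zero_le _) hk.le
    have hup := hsle (k + 1) n (by omega) le_rfl
    apply exists_zero_of_mul_neg (hsmono k hk)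
    · apply ContinuousOn.sub _ continuousOn_id
      apply hαc.mono
      intro x hx
      exact hsub ⟨(hsmem 0 (Nat.zero_le _)).1.le.trans (hlo.trans hx.1),
        (hx.2.trans hup).trans (hsmem n le_rfl).2.le⟩
    · have e1 := hsign k hk.le
      have e2 := hsign (k + 1) (by omega)
      rw [pow_succ] at e2
      rcases neg_one_pow_eq_or ℝ k with h3 | h3
      · rw [h3] at e1 e2
        nlinarith
      · rw [h3] at e1 e2
        nlinarith
  choose! x hx1 hx2 using hfix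
  have hxmem : ∀ k < n, x k ∈ Icc (s 0) (s n) := fun k hk =>
    ⟨(hsle 0 k (Nat.zero_le _) hk.le).trans (hx1 k hk).1.le,
      (hx1 k hk).2.le.trans (hsle (k + 1) n (by omega) le_rfl)⟩
  have hxpos : ∀ k < n, 0 < x k := fun k hk =>
    (h1.trans (hsmem k hk.le).1).trans (hx1 k hk).1
  have horb : ∀ k < n, ∃ Cc : Set (ℝ × ℝ), ClosedOrbit (pert H' Y' κ) Cc ∧ Cc ⊆ ann p r₁ r₂ ∧
      ∀ y, 0 < y → (pol p y 0 ∈ Cc ↔ y = x k) := by
    intro k hk
    obtain ⟨Cc, e1, e2, e3⟩ := hN.closed (r := α (x k))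
      (fun θ hθ => Ioo_subset_Icc_self (hstay _ (hxmem k hk) θ hθ).1) (hder _ (hxmem k hk))
      (by rw [hα0 _ (hxmem k hk)]; have := hx2 k hk; simp only [hP] at this; linarith)
    rw [hα0 _ (hxmem k hk)] at e3
    exact ⟨Cc, e1, e2, e3⟩
  choose! Cc hC1 hC2 hC3 using horb
  refine le_encard_of_inj (fun i : Fin n => Cc i) ?_ (fun i => ⟨hC1 i i.2, hC2 i i.2⟩)
  intro i j hij
  simp only at hij
  have e1 : pol p (x i) 0 ∈ Cc i := (hC3 i i.2 _ (hxpos i i.2)).2 rfl
  rw [hij] at e1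
  have e2 := (hC3 j j.2 _ (hxpos i i.2)).1 e1
  by_contra hne
  rcases lt_or_gt_of_ne hne with h3 | h3
  · have h4 : (i : ℕ) + 1 ≤ j := h3
    have := (hx1 i i.2).2
    have := (hx1 j j.2).1
    have := hsle (i + 1) j h4 j.2.le
    linarith
  · have h4 : (j : ℕ) + 1 ≤ i := h3
    have := (hx1 j j.2).2
    have := (hx1 i i.2).1
    have := hsle (j + 1) i h4 i.2.le
    linarith

end

end Pool.Agent.Y300
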