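import Pool.Agent.Y300.Iso
import Pool.Agent.H709U.Top

/-! Polynomial fields with finitely many closed orbits and many of them. -/

set_option autoImplicit false

open Set MeasureTheory Topology Filter
open scoped NNReal

namespace Pool.Agent.Y300

open Pool.Agent.H709R2 (rot field)

lemma rot_zero (v : ℝ × ℝ) : rot 0 v = v := by
  unfold rot
  ext <;> simp

lemma continuous_rot_prod {f : ℝ × ℝ → ℝ × ℝ} (hf : Continuous f) :
    Continuous fun q : ℝ × (ℝ × ℝ) => rot q.1 (f q.2) := by
  unfold rot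
  fun_prop

lemma not_closedOrbit_zero {C : Set (ℝ × ℝ)} : ¬ ClosedOrbit (fun _ => 0) C := by
  rintro ⟨γ, T, -, hγ, -, ⟨s, t, hst⟩, -⟩
  exact hst (is_const_of_deriv_eq_zero (fun t => (hγ t).differentiableAt)
    (fun t => (hγ t).deriv) s t)

theorem exists_field {D N a b n : ℕ} (h : Stage D D N a b) (hD : 0 < D) (hDn : D ≤ n + 1) :
    ∃ P Q : MvPolynomial (Fin 2) ℝ, P.totalDegree ≤ n ∧ Q.totalDegree ≤ n ∧
      {C | ClosedOrbit (field P Q) C}.Finite ∧
      (N : ℕ∞) ≤ {C | ClosedOrbit (field P Q) C}.encard := by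
  obtain ⟨H, Y₁, Y₂, K, hH, hY₁, hY₂, hK, -, hM, -⟩ := h
  obtain ⟨ε, hε, hM⟩ := hM
  set Y : ℝ × ℝ → ℝ × ℝ := fun z => (Y₁ z, Y₂ z) with hY
  have hH2 : ContDiff ℝ 2 H := contDiff_of_mem hH
  have hY1 : ContDiff ℝ 1 Y := (contDiff_of_mem hY₁).prodMk (contDiff_of_mem hY₂)
  set V : ℝ × ℝ → ℝ × ℝ := fun z => ham H z + ε • Y z with hV
  have hham : ContDiff ℝ 1 (ham H) := by
    rw [contDiff_iff_contDiffAt]
    exact fun z => ContDiffAt.ham hH2.contDiffAt
  have hVc : ContDiff ℝ 1 V := hham.add (hY1.const_smul ε)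
  -- polynomials
  have m1 : (fun z => (V z).1) ∈ Pw D D D (D * D) := by
    have h1 := Submodule.add_mem _ (Submodule.neg_mem _ (fderiv_snd_mem hH))
      (Submodule.smul_mem _ ε (by rw [zero_add]; exact hY₁))
    rw [zero_add] at h1
    exact h1
  have m2 : (fun z => (V z).2) ∈ Pw D D D (D * D) := by
    have h1 := Submodule.add_mem _ (fderiv_fst_mem hH)
      (Submodule.smul_mem _ ε (by rw [zero_add]; exact hY₂))
    rw [zero_add] at h1
    exact h1
  obtain ⟨P, hP, hPe⟩ := exists_mv hD m1
  obtain ⟨Q, hQ, hQe⟩ := exists_mv hD m2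
  have hfield : field P Q = V := by
    funext z
    unfold H709R2.field
    rw [hPe, hQe]
  have hP' : P.totalDegree ≤ n := by omega
  have hQ' : Q.totalDegree ≤ n := by omega
  -- the perturbed data
  set Yα : ℝ → ℝ × ℝ → ℝ × ℝ := fun α z => ε⁻¹ • (rot α (V z) - ham H z) with hYα
  have hrot : ∀ α z, ham H z + ε • Yα α z = rot α (V z) := by
    intro α z
    simp only [hYα]
    rw [smul_smul, mul_inv_cancel₀ hε.ne', one_smul]
    abel
  have hev : ∀ᶠ α : ℝ in 𝓝 0, ∀ z ∈ K, ‖Yα α z - Y z‖ < ε := by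
    refine hK.eventually_forall_of_forall_eventually fun z _ => ?_
    have hc : Continuous fun q : ℝ × (ℝ × ℝ) => ‖Yα q.1 q.2 - Y q.2‖ := by
      have h1 : Continuous fun q : ℝ × (ℝ × ℝ) => Yα q.1 q.2 :=
        ((continuous_rot_prod hVc.continuous).sub
          (hham.continuous.comp continuous_snd)).const_smul ε⁻¹
      exact (h1.sub (hY1.continuous.comp continuous_snd)).norm
    have h2 : ‖Yα ((0:ℝ), z).1 ((0:ℝ), z).2 - Y ((0:ℝ), z).2‖ < ε := by
      have h3 : Yα 0 z = Y z := by
        simp only [hYα, rot_zero, hV]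
        rw [add_sub_cancel_left, smul_smul, inv_mul_cancel₀ hε.ne', one_smul]
      simp only [h3, sub_self, norm_zero]
      exact hε
    exact (hc.tendsto ((0:ℝ), z)).eventually_lt_const h2
  have hcount : ∀ α : ℝ, (∀ z ∈ K, ‖Yα α z - Y z‖ < ε) →
      (N : ℕ∞) ≤ {C | ClosedOrbit (fun z => rot α (V z)) C}.encard := by
    intro α hα
    have hrc : ContDiff ℝ 1 fun z => rot α (V z) := by
      unfold H709R2.rot
      have h1 := hVc.fst
      have h2 := hVc.snd
      exact ((contDiff_const.mul h1).sub (contDiff_const.mul h2)).prodMk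
        ((contDiff_const.mul h1).add (contDiff_const.mul h2))
    have h1 := hM H (Yα α) ε (fun z _ => hH2.contDiffAt)
      (fun z _ => ((hrc.sub hham).const_smul _).contDiffAt)
      (fun z _ => by rw [sub_self, abs_zero]; exact hε.le)
      (fun z _ => by rw [sub_self, norm_zero]; exact hε.le)
      (fun z hz => (hα z hz).le) hε le_rfl
    refine h1.trans (Set.encard_le_encard ?_)
    rintro C ⟨h2, -⟩
    have e : (fun z => ham H z + ε • Yα α z) = fun z => rot α (V z) := by
      funext z; exact hrot α z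
    rw [e] at h2
    exact h2
  by_cases h0 : P = 0 ∧ Q = 0
  · have hV0 : V = fun _ => 0 := by
      rw [← hfield, h0.1, h0.2]
      funext z
      simp [H709R2.field]
    have h1 := hcount 0 (hev.self_of_nhds)
    have hemp : {C | ClosedOrbit (fun z => rot 0 (V z)) C} = ∅ := by
      have e : (fun z => rot 0 (V z)) = fun _ => 0 := by
        funext z; rw [rot_zero, hV0]
      rw [e]
      ext C
      simp [not_closedOrbit_zero]
    have hemp2 : {C | ClosedOrbit (field P Q) C} = ∅ := by
      rw [hfield, hV0]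
      ext C
      simp [not_closedOrbit_zero]
    rw [hemp] at h1
    exact ⟨P, Q, hP', hQ', by rw [hemp2]; exact finite_empty, by rw [hemp2]; exact h1⟩
  · have hne : P ≠ 0 ∨ Q ≠ 0 := by
      by_contra hcon
      push Not at hcon
      exact h0 hcon
    have hae := H709U.ae_finite H709U.main hP' hQ' hne
    have hdense := Measure.dense_of_ae hae
    obtain ⟨δ, hδ, hball⟩ := Metric.eventually_nhds_iff.1 hev
    obtain ⟨α, hα1, hα2⟩ := hdense.exists_mem_open Metric.isOpen_ball
      ⟨(0:ℝ), Metric.mem_ball_self hδ⟩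
    have h1 := hcount α (hball hα2)
    have hfin : (H709U.Cl P Q α).Finite := hα1
    set P' : MvPolynomial (Fin 2) ℝ := Real.cos α • P - Real.sin α • Q with hP'd
    set Q' : MvPolynomial (Fin 2) ℝ := Real.sin α • P + Real.cos α • Q with hQ'd
    have hfield' : field P' Q' = fun z => rot α (V z) := by
      funext z
      rw [← hfield]
      simp [H709R2.field, H709R2.rot, hP'd, hQ'd, MvPolynomial.smul_eval]
    have hset : {C | ClosedOrbit (field P' Q') C} = H709U.Cl P Q α := by
      rw [hfield', ← hfield]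
      rfl
    refine ⟨P', Q', ?_, ?_, by rw [hset]; exact hfin, by rw [hfield']; exact h1⟩
    · refine (MvPolynomial.totalDegree_sub _ _).trans (max_le ?_ ?_)
      · exact (MvPolynomial.totalDegree_smul_le _ _).trans hP'
      · exact (MvPolynomial.totalDegree_smul_le _ _).trans hQ'
    · refine (MvPolynomial.totalDegree_add _ _).trans (max_le ?_ ?_)
      · exact (MvPolynomial.totalDegree_smul_le _ _).trans hP'
      · exact (MvPolynomial.totalDegree_smul_le _ _).trans hQ'

end Pool.Agent.Y300
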