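import Pool.Agent.Y300.Trans

/-! Folding and swapping of the data. -/

set_option autoImplicit false

open Set MeasureTheory Topology Filter
open scoped NNReal

namespace Pool.Agent.Y300

/-- the fold -/
def fo (z : ℝ × ℝ) : ℝ × ℝ := (z.1 ^ 2 - 2, z.2)

/-- the inverse branches of the fold -/
noncomputable def br (τ : ℝ) (z : ℝ × ℝ) : ℝ × ℝ := (τ * √(z.1 + 2), z.2)

/-- the folded field -/
noncomputable def fY (Y : ℝ × ℝ → ℝ × ℝ) (z : ℝ × ℝ) : ℝ × ℝ :=
  ((Y (fo z)).1, 2 * z.1 * (Y (fo z)).2)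

lemma contDiff_fo {n : WithTop ℕ∞} : ContDiff ℝ n fo := by
  unfold fo; fun_prop

lemma fo_br {τ : ℝ} (hτ : τ ^ 2 = 1) {z : ℝ × ℝ} (hz : -2 < z.1) : fo (br τ z) = z := by
  unfold fo br
  ext
  · simp only
    rw [mul_pow, hτ, Real.sq_sqrt (by linarith)]
    ring
  · rfl

lemma fderiv_fo_comp {H : ℝ × ℝ → ℝ} (hH : Differentiable ℝ H) (w v : ℝ × ℝ) :
    fderiv ℝ (fun z => H (fo z)) w v = fderiv ℝ H (fo w) (2 * w.1 * v.1, v.2) := by
  have h1 : HasFDerivAt fo (((2 * w.1) • ContinuousLinearMap.fst ℝ ℝ ℝ).prod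
      (ContinuousLinearMap.snd ℝ ℝ ℝ)) w := by
    have h2 : HasFDerivAt (fun z : ℝ × ℝ => z.1 ^ 2 - 2) ((2 * w.1) •
        ContinuousLinearMap.fst ℝ ℝ ℝ) w := by
      have := ((hasFDerivAt_fst (𝕜 := ℝ) (E := ℝ) (F := ℝ) (p := w)).pow 2).sub_const 2
      simpa using this
    exact h2.prodMk hasFDerivAt_snd
  have h3 := ((hH (fo w)).hasFDerivAt.comp w h1).fderiv
  have h4 : fderiv ℝ (fun z => H (fo z)) w = fderiv ℝ (H ∘ fo) w := rfl
  rw [h4, h3]
  simp

lemma hasFDerivAt_br {τ : ℝ} {z : ℝ × ℝ} (hz : -2 < z.1) :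
    HasFDerivAt (br τ) (((τ / (2 * √(z.1 + 2))) • ContinuousLinearMap.fst ℝ ℝ ℝ).prod
      (ContinuousLinearMap.snd ℝ ℝ ℝ)) z := by
  have h1 : HasFDerivAt (fun z : ℝ × ℝ => z.1 + 2) (ContinuousLinearMap.fst ℝ ℝ ℝ) z :=
    hasFDerivAt_fst.add_const 2
  have h2 := (h1.sqrt (by linarith : z.1 + 2 ≠ 0)).const_mul τ
  have h3 : HasFDerivAt (fun z : ℝ × ℝ => τ * √(z.1 + 2))
      ((τ / (2 * √(z.1 + 2))) • ContinuousLinearMap.fst ℝ ℝ ℝ) z := by
    refine h2.congr_fderiv ?_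
    rw [smul_smul]
    congr 1
    ring
  exact h3.prodMk hasFDerivAt_snd

lemma contDiffAt_br {τ : ℝ} {z : ℝ × ℝ} (hz : -2 < z.1) {n : WithTop ℕ∞} :
    ContDiffAt ℝ n (br τ) z := by
  have h1 : ContDiffAt ℝ n (fun z : ℝ × ℝ => z.1 + 2) z := by fun_prop
  exact (contDiffAt_const.mul (h1.sqrt (by linarith))).prodMk contDiffAt_snd

/-- a bound of the norm of a map `(a, b) ↦ (s a, b)` -/
lemma norm_scale_le {s : ℝ} :
    ‖(s • ContinuousLinearMap.fst ℝ ℝ ℝ).prod (ContinuousLinearMap.snd ℝ ℝ ℝ)‖ ≤ max |s| 1 := by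
  refine ContinuousLinearMap.opNorm_le_bound _ (by positivity) fun v => ?_
  simp only [ContinuousLinearMap.prod_apply, smul_apply,
    ContinuousLinearMap.coe_fst', ContinuousLinearMap.coe_snd', smul_eq_mul]
  rw [Prod.norm_def]
  refine max_le ?_ ?_
  · rw [norm_mul, Real.norm_eq_abs]
    exact mul_le_mul (le_max_left _ _) (norm_fst_le v) (norm_nonneg _) (by positivity)
  · refine (norm_snd_le v).trans ?_
    exact le_mul_of_one_le_left (norm_nonneg _) (le_max_right _ _)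

/-- folding of `Many` -/
lemma Many.fold {H : ℝ × ℝ → ℝ} {Y : ℝ × ℝ → ℝ × ℝ} {K : Set (ℝ × ℝ)} {N : ℕ}
    (h : Many H Y K N) (hK : IsCompact K) (hK2 : ∀ z ∈ K, -2 < z.1) (hH : Differentiable ℝ H)
    {τ : ℝ} (hτ : τ = 1 ∨ τ = -1) :
    Many (fun z => H (fo z)) (fY Y) (br τ '' K) N := by
  have hτ2 : τ ^ 2 = 1 := by rcases hτ with h | h <;> rw [h] <;> norm_num
  have hτ0 : τ ≠ 0 := by rcases hτ with h | h <;> rw [h] <;> norm_num
  have hs : ∀ z ∈ K, 0 < √(z.1 + 2) := fun z hz => Real.sqrt_pos.2 (by linarith [hK2 z hz])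
  have hgc : ContinuousOn (fun z : ℝ × ℝ => τ / (2 * √(z.1 + 2))) K := by
    refine continuousOn_const.div (by fun_prop) fun z hz => ?_
    have := hs z hz
    positivity
  have hinv : ∀ z ∈ K, fo (br τ z) = z := fun z hz => fo_br hτ2 (hK2 z hz)
  have hinj : InjOn (br τ) K := fun z hz w hw hzw => by
    rw [← hinv z hz, ← hinv w hw, hzw]
  obtain ⟨B, hB⟩ := hK.exists_bound_of_continuousOn hgc
  set B' := max B 1 with hB'
  have hB'0 : 0 < B' := lt_of_lt_of_le one_pos (le_max_right _ _)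
  have hBz : ∀ z ∈ K, |τ / (2 * √(z.1 + 2))| ≤ B' := fun z hz =>
    (hB z hz).trans (le_max_left _ _)
  refine h.transport (g := fun z => τ / (2 * √(z.1 + 2))) hinj
    (fun z hz => (hasFDerivAt_br (hK2 z hz)).differentiableAt) hgc ?_ ?_
  · rcases hτ with h | h
    · left
      intro z hz
      have := hs z hz
      rw [h]
      positivity
    · right
      intro z hz
      have := hs z hz
      rw [h, neg_div]
      have : 0 < 1 / (2 * √(z.1 + 2)) := by positivity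
      linarith
  intro ε hε
  refine ⟨ε / B', by positivity, fun H'' Y'' κ s1 s2 c1 c2 c3 hκ => ?_⟩
  have hε' : ε / B' ≤ ε := div_le_self hε.le (le_max_right _ _)
  have hm : ∀ z ∈ K, br τ z ∈ br τ '' K := fun z hz => mem_image_of_mem _ hz
  have hD : ∀ z ∈ K, ∀ F : ℝ × ℝ → ℝ, DifferentiableAt ℝ F (br τ z) →
      HasFDerivAt (fun z => F (br τ z)) ((fderiv ℝ F (br τ z)).comp
        (((τ / (2 * √(z.1 + 2))) • ContinuousLinearMap.fst ℝ ℝ ℝ).prod
      (ContinuousLinearMap.snd ℝ ℝ ℝ))) z := by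
    intro z hz F hF
    exact hF.hasFDerivAt.comp z (hasFDerivAt_br (hK2 z hz))
  refine ⟨fun z => H'' (br τ z), fun z => ((Y'' (br τ z)).1, τ / (2 * √(z.1 + 2)) *
    (Y'' (br τ z)).2), ?_, ?_, ?_, ?_, ?_, ?_⟩
  · intro z hz
    exact (s1 _ (hm z hz)).comp z (contDiffAt_br (hK2 z hz))
  · intro z hz
    have h1 : ContDiffAt ℝ 1 (fun z => Y'' (br τ z)) z :=
      (s2 _ (hm z hz)).comp z (contDiffAt_br (hK2 z hz))
    have h2 : ContDiffAt ℝ 1 (fun z : ℝ × ℝ => √(z.1 + 2)) z := by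
      have h1 : ContDiffAt ℝ 1 (fun z : ℝ × ℝ => z.1 + 2) z := by fun_prop
      exact h1.sqrt (by linarith [hK2 z hz])
    refine h1.fst.prodMk (ContDiffAt.mul (contDiffAt_const.div (contDiffAt_const.mul h2) ?_)
      h1.snd)
    have := hs z hz
    positivity
  · intro z hz
    have := c1 _ (hm z hz)
    simp only [hinv z hz] at this
    exact this.trans hε'
  · intro z hz
    have h1 := c2 _ (hm z hz)
    have h2 := (hD z hz H'' ((s1 _ (hm z hz)).differentiableAt (by norm_num))).fderiv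
    have h3 := (hD z hz (fun z => H (fo z)) (hH.comp (contDiff_fo.differentiable
      (n := 1) (by norm_num)) _)).fderiv
    have h4 : fderiv ℝ (fun z => H (fo (br τ z))) z = fderiv ℝ H z := by
      apply Filter.EventuallyEq.fderiv_eq
      have : ∀ᶠ w in 𝓝 z, -2 < w.1 := (continuous_fst.tendsto z).eventually (lt_mem_nhds (hK2 z hz))
      filter_upwards [this] with w hw
      simp only [fo_br hτ2 hw]
    rw [h4] at h3
    rw [h2, h3, ← ContinuousLinearMap.sub_comp]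
    calc _ ≤ _ := ContinuousLinearMap.opNorm_comp_le _ _
      _ ≤ ε / B' * B' := by
          refine mul_le_mul h1 (norm_scale_le.trans (max_le (hBz z hz) (le_max_right _ _)))
            (norm_nonneg _) (by positivity)
      _ = ε := by field_simp
  · intro z hz
    have h1 := c3 _ (hm z hz)
    have h2 : ‖(Y'' (br τ z)).1 - (Y z).1‖ ≤ ε / B' := by
      have := (norm_fst_le _).trans h1
      simpa [fY, hinv z hz] using this
    have h3 : ‖(Y'' (br τ z)).2 - 2 * (br τ z).1 * (Y z).2‖ ≤ ε / B' := by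
      have := (norm_snd_le _).trans h1
      simpa [fY, hinv z hz] using this
    rw [Prod.norm_def]
    refine max_le (h2.trans hε') ?_
    have h5 : τ / (2 * √(z.1 + 2)) * (2 * (br τ z).1) = 1 := by
      have := hs z hz
      simp only [br]
      rw [show τ / (2 * √(z.1 + 2)) * (2 * (τ * √(z.1 + 2))) = τ ^ 2 * (√(z.1 + 2) /
        √(z.1 + 2)) by field_simp, hτ2, div_self this.ne', one_mul]
    have h4 : τ / (2 * √(z.1 + 2)) * (Y'' (br τ z)).2 - (Y z).2 =
        τ / (2 * √(z.1 + 2)) * ((Y'' (br τ z)).2 - 2 * (br τ z).1 * (Y z).2) := by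
      rw [mul_sub, ← mul_assoc (τ / (2 * √(z.1 + 2))), h5, one_mul]
    simp only [Prod.snd_sub]
    rw [h4, norm_mul]
    calc _ ≤ B' * (ε / B') := mul_le_mul (hBz z hz) h3 (norm_nonneg _) hB'0.le
      _ = ε := by field_simp
  · intro z hz
    have h2 := (hD z hz H'' ((s1 _ (hm z hz)).differentiableAt (by norm_num))).fderiv
    rw [(hasFDerivAt_br (hK2 z hz)).fderiv]
    simp only [ham, h2]
    ext
    · simp only [ContinuousLinearMap.prod_apply, smul_apply,
        ContinuousLinearMap.coe_fst', ContinuousLinearMap.coe_snd', smul_eq_mul,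
        ContinuousLinearMap.comp_apply, Prod.fst_add, Prod.smul_fst]
      simp
    · simp only [ContinuousLinearMap.prod_apply, smul_apply,
        ContinuousLinearMap.coe_fst', ContinuousLinearMap.coe_snd', smul_eq_mul,
        ContinuousLinearMap.comp_apply, Prod.snd_add, Prod.smul_snd]
      rw [clm_apply (fderiv ℝ H'' (br τ z))]
      simp only
      ring

/-- the swapped field -/
def sY (Y : ℝ × ℝ → ℝ × ℝ) (z : ℝ × ℝ) : ℝ × ℝ := (-(Y z.swap).2, -(Y z.swap).1)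

lemma hasFDerivAt_swap' (z : ℝ × ℝ) :
    HasFDerivAt (Prod.swap : ℝ × ℝ → ℝ × ℝ)
      ((ContinuousLinearMap.snd ℝ ℝ ℝ).prod (ContinuousLinearMap.fst ℝ ℝ ℝ)) z :=
  hasFDerivAt_snd.prodMk hasFDerivAt_fst

lemma norm_swap_le :
    ‖(ContinuousLinearMap.snd ℝ ℝ ℝ).prod (ContinuousLinearMap.fst ℝ ℝ ℝ)‖ ≤ 1 := by
  refine ContinuousLinearMap.opNorm_le_bound _ (by positivity) fun v => ?_
  simp only [ContinuousLinearMap.prod_apply,
    ContinuousLinearMap.coe_fst', ContinuousLinearMap.coe_snd', one_mul]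
  rw [Prod.norm_def, Prod.norm_def]
  exact (max_comm _ _).le

lemma fderiv_swap_comp {H : ℝ × ℝ → ℝ} (hH : Differentiable ℝ H) (w v : ℝ × ℝ) :
    fderiv ℝ (fun z : ℝ × ℝ => H z.swap) w v = fderiv ℝ H w.swap v.swap := by
  have h3 := ((hH w.swap).hasFDerivAt.comp w (hasFDerivAt_swap' w)).fderiv
  have h4 : fderiv ℝ (fun z : ℝ × ℝ => H z.swap) w = fderiv ℝ (H ∘ Prod.swap) w := rfl
  rw [h4, h3]
  rfl

/-- swapping of `Many` -/
lemma Many.swap {H : ℝ × ℝ → ℝ} {Y : ℝ × ℝ → ℝ × ℝ} {K : Set (ℝ × ℝ)} {N : ℕ}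
    (h : Many H Y K N) (hH : Differentiable ℝ H) :
    Many (fun z => H z.swap) (sY Y) (Prod.swap '' K) N := by
  refine h.transport (g := fun _ => -1) (Prod.swap_injective.injOn)
    (fun z hz => (hasFDerivAt_swap' z).differentiableAt) continuousOn_const
    (Or.inr fun _ _ => by norm_num) ?_
  intro ε hε
  refine ⟨ε, hε, fun H'' Y'' κ s1 s2 c1 c2 c3 hκ => ?_⟩
  have hm : ∀ z ∈ K, z.swap ∈ Prod.swap '' K := fun z hz => mem_image_of_mem _ hz
  have hsw : ∀ n : WithTop ℕ∞, ContDiff ℝ n (Prod.swap : ℝ × ℝ → ℝ × ℝ) := fun n =>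
    contDiff_snd.prodMk contDiff_fst
  have hD : ∀ z ∈ K, ∀ F : ℝ × ℝ → ℝ, DifferentiableAt ℝ F z.swap →
      HasFDerivAt (fun z : ℝ × ℝ => F z.swap) ((fderiv ℝ F z.swap).comp
        ((ContinuousLinearMap.snd ℝ ℝ ℝ).prod (ContinuousLinearMap.fst ℝ ℝ ℝ))) z := by
    intro z hz F hF
    exact hF.hasFDerivAt.comp z (hasFDerivAt_swap' z)
  refine ⟨fun z => H'' z.swap, sY Y'', ?_, ?_, ?_, ?_, ?_, ?_⟩
  · intro z hz
    exact (s1 _ (hm z hz)).comp z (hsw 2).contDiffAt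
  · intro z hz
    have h1 : ContDiffAt ℝ 1 (fun z : ℝ × ℝ => Y'' z.swap) z :=
      (s2 _ (hm z hz)).comp z (hsw 1).contDiffAt
    exact h1.snd.neg.prodMk h1.fst.neg
  · intro z hz
    have := c1 _ (hm z hz)
    simpa using this
  · intro z hz
    have h1 := c2 _ (hm z hz)
    have h2 := (hD z hz H'' ((s1 _ (hm z hz)).differentiableAt (by norm_num))).fderiv
    have h3 := (hD z hz (fun z => H z.swap) (hH.comp ((hsw 1).differentiable
      (by norm_num)) _)).fderiv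
    simp only [Prod.swap_swap] at h3
    rw [show (fun z : ℝ × ℝ => H z) = H from rfl] at h3
    rw [h2, h3, ← ContinuousLinearMap.sub_comp]
    calc _ ≤ _ := ContinuousLinearMap.opNorm_comp_le _ _
      _ ≤ ε * 1 := mul_le_mul h1 norm_swap_le (norm_nonneg _) hε.le
      _ = ε := mul_one _
  · intro z hz
    have h1 := c3 _ (hm z hz)
    have h2 : ‖(Y'' z.swap).1 + (Y z).2‖ ≤ ε := by
      have := (norm_fst_le _).trans h1
      simpa [sY] using this
    have h3 : ‖(Y'' z.swap).2 + (Y z).1‖ ≤ ε := by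
      have := (norm_snd_le _).trans h1
      simpa [sY] using this
    rw [Prod.norm_def]
    refine max_le ?_ ?_
    · simp only [sY, Prod.fst_sub]
      rw [show -(Y'' z.swap).2 - (Y z).1 = -((Y'' z.swap).2 + (Y z).1) by ring, norm_neg]
      exact h3
    · simp only [sY, Prod.snd_sub]
      rw [show -(Y'' z.swap).1 - (Y z).2 = -((Y'' z.swap).1 + (Y z).2) by ring, norm_neg]
      exact h2
  · intro z hz
    have h2 := (hD z hz H'' ((s1 _ (hm z hz)).differentiableAt (by norm_num))).fderiv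
    rw [(hasFDerivAt_swap' z).fderiv]
    simp only [ham, h2, sY]
    ext
    · simp
    · simp

end Pool.Agent.Y300
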