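import Pool.Agent.Y300.Avg2

/-! Integration by parts in a disc, and closed orbits from signs of double integrals. -/

set_option autoImplicit false

open Set MeasureTheory Topology Filter
open scoped NNReal

namespace Pool.Agent.Y300

lemma integrableOn_Bl {f : ℝ × ℝ → ℝ} (hf : Continuous f) {r : ℝ} (hr : 0 ≤ r) (p : ℝ × ℝ) :
    IntegrableOn f (Bl p r) :=
  (hf.continuousOn.integrableOn_compact (isCompact_ann hr)).mono_set (Bl_subset_ann p r)

section

variable {p : ℝ × ℝ} {r₁ r₂ : ℝ} {H : ℝ × ℝ → ℝ} {a b : ℝ}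

lemma Well.green_aux (h : Well p r₁ r₂ H a b) {y : ℝ × ℝ → ℝ} (hy : ContDiff ℝ 1 y) {Φ ψ : ℝ → ℝ}
    (hΦ : ∀ t, HasDerivAt Φ (-ψ t) t) (hψ : Continuous ψ) (hΦ0 : ∀ t, b ≤ t → Φ t = 0)
    (v : ℝ × ℝ) :
    ∫ z in Bl p r₂, Φ (H z) * fderiv ℝ y z v =
      ∫ z in Bl p r₂, ψ (H z) * (fderiv ℝ H z v * y z) := by
  have hr2 : 0 < r₂ := h.pos.trans h.lt
  have hdH : Continuous (fderiv ℝ H) := h.hH.continuous_fderiv (by norm_num)
  have hdy : Continuous (fderiv ℝ y) := hy.continuous_fderiv (by norm_num)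
  have hΦc : Continuous Φ := continuous_iff_continuousAt.2 fun t => (hΦ t).continuousAt
  set X : ℝ × ℝ → ℝ := (Bl p r₂).indicator fun z => Φ (H z) with hX
  have hder : ∀ z, HasFDerivAt X ((Bl p r₂).indicator (fun z => (-ψ (H z)) • fderiv ℝ H z) z) z := by
    intro z
    by_cases hz : z ∈ Bl p r₂
    · rw [indicator_of_mem hz]
      have h1 : HasFDerivAt (fun z => Φ (H z)) ((-ψ (H z)) • fderiv ℝ H z) z :=
        (hΦ (H z)).comp_hasFDerivAt z ((h.hH.differentiable (by norm_num)) z).hasFDerivAt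
      refine h1.congr_of_eventuallyEq ?_
      filter_upwards [(isOpen_Bl p r₂).mem_nhds hz] with w hw
      rw [hX, indicator_of_mem hw]
    · rw [indicator_of_notMem hz]
      have hK : IsClosed {w | w ∈ ann p 0 r₂ ∧ H w ≤ b} :=
        (isCompact_ann hr2.le).isClosed.inter (isClosed_le h.hH.continuous continuous_const)
      have hzK : z ∉ {w | w ∈ ann p 0 r₂ ∧ H w ≤ b} := by
        rintro ⟨h1, h2⟩
        have h3 : dot (z - p) (z - p) = r₂ ^ 2 := le_antisymm h1.2 (not_lt.1 hz)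
        exact absurd h2 (not_le.2 (h.hout z h3))
      refine (hasFDerivAt_const (0:ℝ) z).congr_of_eventuallyEq ?_
      filter_upwards [hK.isOpen_compl.mem_nhds hzK] with w hw
      by_cases hwB : w ∈ Bl p r₂
      · rw [hX, indicator_of_mem hwB]
        apply hΦ0
        by_contra hcon
        exact hw ⟨Bl_subset_ann p r₂ hwB, (not_le.1 hcon).le⟩
      · rw [hX, indicator_of_notMem hwB]
  have hfd : ∀ z, fderiv ℝ X z v = (Bl p r₂).indicator
      (fun z => (-ψ (H z)) * fderiv ℝ H z v) z := by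
    intro z
    rw [(hder z).fderiv]
    by_cases hz : z ∈ Bl p r₂
    · rw [indicator_of_mem hz, indicator_of_mem hz]
      simp
    · rw [indicator_of_notMem hz, indicator_of_notMem hz]
      simp
  have hprod : ∀ f g : ℝ × ℝ → ℝ, (fun z => (Bl p r₂).indicator f z * g z) =
      (Bl p r₂).indicator fun z => f z * g z := by
    intro f g
    funext z
    by_cases hz : z ∈ Bl p r₂
    · rw [indicator_of_mem hz, indicator_of_mem hz]
    · rw [indicator_of_notMem hz, indicator_of_notMem hz, zero_mul]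
  have hc1 : Continuous fun z => (-ψ (H z)) * fderiv ℝ H z v * y z :=
    ((hψ.comp h.hH.continuous).neg.mul (hdH.clm_apply continuous_const)).mul hy.continuous
  have hc2 : Continuous fun z => Φ (H z) * fderiv ℝ y z v :=
    (hΦc.comp h.hH.continuous).mul (hdy.clm_apply continuous_const)
  have hc3 : Continuous fun z => Φ (H z) * y z := (hΦc.comp h.hH.continuous).mul hy.continuous
  have key := integral_mul_fderiv_eq_neg_fderiv_mul_of_integrable (μ := (volume : Measure (ℝ × ℝ)))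
    (f := X) (g := y) (v := v) ?_ ?_ ?_
    (fun z _ => (hder z).differentiableAt) fun z _ => (hy.differentiable (by norm_num)) z
  · simp only [hfd] at key
    rw [hX] at key
    simp only [hprod] at key
    rw [integral_indicator (measurableSet_Bl p r₂), integral_indicator (measurableSet_Bl p r₂)]
      at key
    rw [key, ← integral_neg]
    congr 1
    funext z
    ring
  · simp only [hfd]
    rw [hprod, integrable_indicator_iff (measurableSet_Bl p r₂)]
    exact integrableOn_Bl hc1 hr2.le p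
  · rw [hX, hprod, integrable_indicator_iff (measurableSet_Bl p r₂)]
    exact integrableOn_Bl hc2 hr2.le p
  · rw [hX, hprod, integrable_indicator_iff (measurableSet_Bl p r₂)]
    exact integrableOn_Bl hc3 hr2.le p

lemma Well.green (h : Well p r₁ r₂ H a b) {Y : ℝ × ℝ → ℝ × ℝ} (hY : ContDiff ℝ 1 Y) {Φ ψ : ℝ → ℝ}
    (hΦ : ∀ t, HasDerivAt Φ (-ψ t) t) (hψ : Continuous ψ) (hΦ0 : ∀ t, b ≤ t → Φ t = 0) :
    ∫ z in Bl p r₂, Φ (H z) * dv Y z = ∫ z in Bl p r₂, ψ (H z) * fderiv ℝ H z (Y z) := by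
  have hr2 : 0 < r₂ := h.pos.trans h.lt
  have hdH : Continuous (fderiv ℝ H) := h.hH.continuous_fderiv (by norm_num)
  have hΦc : Continuous Φ := continuous_iff_continuousAt.2 fun t => (hΦ t).continuousAt
  have h1 := h.green_aux (contDiff_fst.comp hY) hΦ hψ hΦ0 (1, 0)
  have h2 := h.green_aux (contDiff_snd.comp hY) hΦ hψ hΦ0 (0, 1)
  have hd1 : Continuous (fderiv ℝ (Prod.fst ∘ Y)) :=
    (contDiff_fst.comp hY).continuous_fderiv (by norm_num)
  have hd2 : Continuous (fderiv ℝ (Prod.snd ∘ Y)) :=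
    (contDiff_snd.comp hY).continuous_fderiv (by norm_num)
  have i1 : Continuous fun z => Φ (H z) * fderiv ℝ (Prod.fst ∘ Y) z (1, 0) :=
    (hΦc.comp h.hH.continuous).mul (hd1.clm_apply continuous_const)
  have i2 : Continuous fun z => Φ (H z) * fderiv ℝ (Prod.snd ∘ Y) z (0, 1) :=
    (hΦc.comp h.hH.continuous).mul (hd2.clm_apply continuous_const)
  have i3 : Continuous fun z => ψ (H z) * (fderiv ℝ H z (1, 0) * (Prod.fst ∘ Y) z) :=
    (hψ.comp h.hH.continuous).mul ((hdH.clm_apply continuous_const).mul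
      (continuous_fst.comp hY.continuous))
  have i4 : Continuous fun z => ψ (H z) * (fderiv ℝ H z (0, 1) * (Prod.snd ∘ Y) z) :=
    (hψ.comp h.hH.continuous).mul ((hdH.clm_apply continuous_const).mul
      (continuous_snd.comp hY.continuous))
  have e1 : ∫ z in Bl p r₂, Φ (H z) * dv Y z =
      (∫ z in Bl p r₂, Φ (H z) * fderiv ℝ (Prod.fst ∘ Y) z (1, 0)) +
      ∫ z in Bl p r₂, Φ (H z) * fderiv ℝ (Prod.snd ∘ Y) z (0, 1) := by
    rw [← integral_add (integrableOn_Bl i1 hr2.le p) (integrableOn_Bl i2 hr2.le p)]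
    refine integral_congr_ae (Eventually.of_forall fun z => ?_)
    simp only [dv, Function.comp_def]
    ring
  have e2 : ∫ z in Bl p r₂, ψ (H z) * fderiv ℝ H z (Y z) =
      (∫ z in Bl p r₂, ψ (H z) * (fderiv ℝ H z (1, 0) * (Prod.fst ∘ Y) z)) +
      ∫ z in Bl p r₂, ψ (H z) * (fderiv ℝ H z (0, 1) * (Prod.snd ∘ Y) z) := by
    rw [← integral_add (integrableOn_Bl i3 hr2.le p) (integrableOn_Bl i4 hr2.le p)]
    refine integral_congr_ae (Eventually.of_forall fun z => ?_)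
    simp only [Function.comp_def]
    rw [clm_apply]
    ring
  rw [e1, e2, h1, h2]

/-- closed orbits from alternating signs of double integrals -/
theorem Well.many (h : Well p r₁ r₂ H a b) {Y : ℝ × ℝ → ℝ × ℝ} (hY : ContDiff ℝ 1 Y) (n : ℕ)
    (Φ ψ : ℕ → ℝ → ℝ) (lo hi : ℕ → ℝ) (hlo : ∀ k ≤ n, a ≤ lo k) (hhi : ∀ k ≤ n, hi k ≤ b)
    (hlh : ∀ k < n, hi k ≤ lo (k + 1)) (hΦ : ∀ k ≤ n, ∀ t, HasDerivAt (Φ k) (-ψ k t) t)
    (hψ : ∀ k ≤ n, Continuous (ψ k)) (hψpos : ∀ k ≤ n, ∀ t, 0 ≤ ψ k t)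
    (hψ0 : ∀ k ≤ n, ∀ t, t ∉ Ioo (lo k) (hi k) → ψ k t = 0)
    (hΦ0 : ∀ k ≤ n, ∀ t, hi k ≤ t → Φ k t = 0)
    (hs : ∀ k ≤ n, 0 < (-1) ^ k * ∫ z in Bl p r₂, Φ k (H z) * dv Y z) :
    Many H Y (ann p r₁ r₂) n := by
  obtain ⟨R, hR, hRp, hRc⟩ := h.exists_R
  have hlev : ∀ k ≤ n, ∃ c ∈ Ioo (lo k) (hi k),
      0 < (-1) ^ k * ∫ θ in (0:ℝ)..(2 * Real.pi), mel p H Y (pol p (R θ c) θ) := by
    intro k hk
    refine h.exists_level hY.continuous hR hRc hRp (hψ k hk) (hψpos k hk) (hlo k hk) (hhi k hk)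
      (hψ0 k hk) ?_
    rw [← h.green hY (hΦ k hk) (hψ k hk) fun t ht => hΦ0 k hk t ((hhi k hk).trans ht)]
    exact hs k hk
  choose! c hc hcs using hlev
  have hcI : ∀ k ≤ n, c k ∈ Icc a b := fun k hk =>
    ⟨(hlo k hk).trans (hc k hk).1.le, (hc k hk).2.le.trans (hhi k hk)⟩
  refine Ovals.many (c := c) (R := fun k θ => R θ (c k))
    ⟨h.pos, h.lt, h.hH, hY.continuous, h.hrad, ?_, ?_, ?_, ?_, ?_⟩
  · intro k hk
    exact (hc k hk.le).2.trans_le ((hlh k hk).trans (hc (k + 1) hk).1.le)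
  · intro k hk
    have h8 : Continuous (fun θ : ℝ => ((θ, c k) : ℝ × ℝ)) := by fun_prop
    exact hRc.comp_continuous h8 fun θ => ⟨mem_univ _, hcI k hk⟩
  · intro k hk θ
    exact (hR θ (c k) (hcI k hk)).1
  · intro k hk θ
    exact (hR θ (c k) (hcI k hk)).2
  · intro k hk
    exact hcs k hk

end

end Pool.Agent.Y300
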