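import Pool.Agent.Y300.Asym

/-! Isolation of closed orbits when there are finitely many; fields of a stage. -/

set_option autoImplicit false

open Set MeasureTheory Topology Filter
open scoped NNReal

namespace Pool.Agent.Y300

lemma ClosedOrbit.isCompact {V : ℝ × ℝ → ℝ × ℝ} {C : Set (ℝ × ℝ)} (h : ClosedOrbit V C) :
    IsCompact C := by
  obtain ⟨γ, T, hT, hγ, hper, -, rfl⟩ := h
  have hc : Continuous γ := continuous_iff_continuousAt.2 fun t => (hγ t).continuousAt
  rw [← Function.Periodic.image_Icc (f := γ) hper hT 0]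
  exact isCompact_Icc.image hc

lemma closedOrbit_eq {V : ℝ × ℝ → ℝ × ℝ} (hV : ContDiff ℝ 1 V) {C D : Set (ℝ × ℝ)}
    (hC : ClosedOrbit V C) (hD : ClosedOrbit V D) {x : ℝ × ℝ} (hxC : x ∈ C) (hxD : x ∈ D) :
    C = D := by
  obtain ⟨R, hR⟩ := (hC.isCompact.union hD.isCompact).isBounded.subset_closedBall 0
  obtain ⟨γ, T, hT, hγ, hper, -, rfl⟩ := hC
  obtain ⟨η, S, hS, hη, hperη, -, rfl⟩ := hD
  obtain ⟨s, hs⟩ := hxC
  obtain ⟨t, ht⟩ := hxD
  have hcomp : IsCompact (Metric.closedBall (0 : ℝ × ℝ) R) := isCompact_closedBall _ _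
  obtain ⟨B, hB⟩ := hcomp.exists_bound_of_continuousOn
    (hV.continuous_fderiv (by norm_num)).continuousOn
  set K : ℝ≥0 := B.toNNReal with hK
  have hlip : LipschitzOnWith K V (Metric.closedBall (0 : ℝ × ℝ) R) := by
    apply Convex.lipschitzOnWith_of_nnnorm_fderiv_le (𝕜 := ℝ)
      (fun z _ => (hV.differentiable (by norm_num)) z) ?_ (convex_closedBall _ _)
    intro z hz
    rw [← NNReal.coe_le_coe, coe_nnnorm, hK]
    exact (hB z hz).trans (Real.le_coe_toNNReal B)
  have h1 : ∀ u, HasDerivAt (fun u => γ (u + s)) (V (γ (u + s))) u := fun u =>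
    (hγ (u + s)).comp_add_const u s
  have h2 : ∀ u, HasDerivAt (fun u => η (u + t)) (V (η (u + t))) u := fun u =>
    (hη (u + t)).comp_add_const u t
  have heq : (fun u => γ (u + s)) = fun u => η (u + t) := by
    refine ODE_solution_unique_univ (v := fun _ => V) (s := fun _ => Metric.closedBall 0 R)
      (K := K) (t₀ := 0) (fun _ => hlip) (fun u => ⟨h1 u, ?_⟩) (fun u => ⟨h2 u, ?_⟩) ?_
    · exact hR (Or.inl (mem_range_self _))
    · exact hR (Or.inr (mem_range_self _))
    · simp only [zero_add, hs, ht]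
  ext z
  constructor
  · rintro ⟨u, rfl⟩
    refine ⟨u - s + t, ?_⟩
    have := congrFun heq (u - s)
    simp only [sub_add_cancel] at this
    exact this.symm
  · rintro ⟨u, rfl⟩
    refine ⟨u - t + s, ?_⟩
    have := congrFun heq (u - t)
    simp only [sub_add_cancel] at this
    exact this

lemma isolated {V : ℝ × ℝ → ℝ × ℝ} (hV : ContDiff ℝ 1 V) (hfin : {C | ClosedOrbit V C}.Finite)
    {C : Set (ℝ × ℝ)} (hC : ClosedOrbit V C) :
    ∃ ε : ℝ, 0 < ε ∧ ∀ D, ClosedOrbit V D → D ≠ C → ∀ x ∈ D, ∀ y ∈ C, ε ≤ dist x y := by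
  have key : ∀ D, ClosedOrbit V D → D ≠ C → ∃ ε : ℝ, 0 < ε ∧ ∀ x ∈ D, ∀ y ∈ C, ε ≤ dist x y := by
    intro D hD hne
    have hcomp := hD.isCompact.prod hC.isCompact
    obtain ⟨q, hq, hmin⟩ := hcomp.exists_isMinOn (hD.nonempty.prod hC.nonempty)
      (continuous_dist).continuousOn
    refine ⟨dist q.1 q.2, dist_pos.2 fun h => ?_, fun x hx y hy => hmin (mk_mem_prod hx hy)⟩
    exact hne (closedOrbit_eq hV hD hC hq.1 (h ▸ hq.2))
  choose! e he hed using key
  set S := hfin.toFinset.filter fun D => D ≠ C with hS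
  rcases S.eq_empty_or_nonempty with h0 | hne
  · refine ⟨1, one_pos, fun D hD hDC => ?_⟩
    exfalso
    have : D ∈ S := by
      rw [hS, Finset.mem_filter]
      exact ⟨hfin.mem_toFinset.2 hD, hDC⟩
    rw [h0] at this
    exact absurd this (Finset.notMem_empty _)
  · obtain ⟨D₀, hD₀, hmin⟩ := S.exists_min_image e hne
    rw [hS, Finset.mem_filter] at hD₀
    refine ⟨e D₀, he D₀ (hfin.mem_toFinset.1 hD₀.1) hD₀.2, fun D hD hDC x hx y hy => ?_⟩
    have : D ∈ S := by
      rw [hS, Finset.mem_filter]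
      exact ⟨hfin.mem_toFinset.2 hD, hDC⟩
    exact (hmin D this).trans (hed D hD hDC x hx y hy)

end Pool.Agent.Y300
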