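import Mathlib

/-! Linear algebra: choice of functionals, pencils of matrices, asymptotic independence. -/

set_option autoImplicit false

open Set Topology Filter

namespace Pool.Agent.Y300

lemma exists_rows_aux {ι J : Type*} [Fintype ι] (T : J → ℝ → ι → ℝ)
    (hT : ∀ v : ι → ℝ, v ≠ 0 → ∀ t₀ : ℝ, 0 < t₀ → ∃ j, ∃ t, 0 < t ∧ t < t₀ ∧
      ∑ i, T j t i * v i ≠ 0) (t₀ : ℝ) (ht₀ : 0 < t₀) (n : ℕ) (hn : n ≤ Fintype.card ι) :
    ∃ (j : Fin n → J) (t : Fin n → ℝ) (τ : ℝ), 0 < τ ∧ τ ≤ t₀ ∧ (∀ k, τ ≤ t k ∧ t k < t₀) ∧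
      (∀ k l, k < l → 2 * t l < t k) ∧ LinearIndependent ℝ fun k => T (j k) (t k) := by
  classical
  induction n with
  | zero =>
    exact ⟨Fin.elim0, Fin.elim0, t₀, ht₀, le_rfl, fun k => k.elim0, fun k => k.elim0,
      linearIndependent_empty_type⟩
  | succ n ih =>
    obtain ⟨j, t, τ, hτ, hτ0, h1, h2, h3⟩ := ih (by omega)
    -- a vector orthogonal to the rows
    obtain ⟨v, hv, hvo⟩ : ∃ v : ι → ℝ, v ≠ 0 ∧ ∀ k, ∑ i, T (j k) (t k) i * v i = 0 := by
      set L : (ι → ℝ) →ₗ[ℝ] (Fin n → ℝ) := LinearMap.pi fun k =>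
        { toFun := fun v => ∑ i, T (j k) (t k) i * v i
          map_add' := fun v w => by
            rw [← Finset.sum_add_distrib]
            exact Finset.sum_congr rfl fun i _ => by rw [Pi.add_apply]; ring
          map_smul' := fun c v => by
            rw [RingHom.id_apply, smul_eq_mul, Finset.mul_sum]
            exact Finset.sum_congr rfl fun i _ => by rw [Pi.smul_apply, smul_eq_mul]; ring } with hL
      have hker : 0 < Module.finrank ℝ (LinearMap.ker L) := by
        have h4 := LinearMap.finrank_range_add_finrank_ker L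
        have h5 : Module.finrank ℝ (LinearMap.range L) ≤ n := by
          refine (Submodule.finrank_le _).trans ?_
          simp
        rw [Module.finrank_fintype_fun_eq_card] at h4
        omega
      obtain ⟨v, hv⟩ := Module.finrank_pos_iff_exists_ne_zero.1 hker
      refine ⟨v.1, fun h => hv (Subtype.ext h), fun k => ?_⟩
      have h6 : L v.1 = 0 := v.2
      exact congrFun h6 k
    obtain ⟨j', t', ht', ht'τ, hne⟩ := hT v hv (τ / 2) (by positivity)
    refine ⟨Fin.snoc j j', Fin.snoc t t', t', ht', by linarith, ?_, ?_, ?_⟩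
    · intro k
      refine Fin.lastCases ?_ (fun k => ?_) k
      · rw [Fin.snoc_last]
        exact ⟨le_rfl, by linarith⟩
      · rw [Fin.snoc_castSucc]
        have := h1 k
        exact ⟨by linarith [this.1], this.2⟩
    · intro k l
      refine Fin.lastCases ?_ (fun l => ?_) l
      · refine Fin.lastCases (fun h => absurd h (lt_irrefl _)) (fun k _ => ?_) k
        rw [Fin.snoc_last, Fin.snoc_castSucc]
        have := (h1 k).1
        linarith
      · refine Fin.lastCases (fun h => ?_) (fun k h => ?_) k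
        · exact absurd h (not_lt.2 (Fin.le_last _))
        · rw [Fin.snoc_castSucc, Fin.snoc_castSucc]
          exact h2 k l (by simpa using h)
    · have e : (fun k => T ((Fin.snoc j j' : Fin (n + 1) → J) k)
          ((Fin.snoc t t' : Fin (n + 1) → ℝ) k)) =
          Fin.snoc (fun k => T (j k) (t k)) (T j' t') := by
        funext k
        refine Fin.lastCases ?_ (fun k => ?_) k
        · simp
        · simp
      rw [e, linearIndependent_finSnoc]
      refine ⟨h3, fun hmem => hne ?_⟩
      set φ : (ι → ℝ) →ₗ[ℝ] ℝ :=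
        { toFun := fun w => ∑ i, w i * v i
          map_add' := fun w w' => by
            rw [← Finset.sum_add_distrib]
            exact Finset.sum_congr rfl fun i _ => by rw [Pi.add_apply]; ring
          map_smul' := fun c w => by
            rw [RingHom.id_apply, smul_eq_mul, Finset.mul_sum]
            exact Finset.sum_congr rfl fun i _ => by rw [Pi.smul_apply, smul_eq_mul]; ring } with hφ
      have h7 : Submodule.span ℝ (range fun k => T (j k) (t k)) ≤ LinearMap.ker φ := by
        rw [Submodule.span_le]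
        rintro _ ⟨k, rfl⟩
        exact hvo k
      exact h7 hmem

/-- a basis of functionals at separated parameters -/
lemma exists_rows {ι J : Type*} [Fintype ι] (T : J → ℝ → ι → ℝ)
    (hT : ∀ v : ι → ℝ, v ≠ 0 → ∀ t₀ : ℝ, 0 < t₀ → ∃ j, ∃ t, 0 < t ∧ t < t₀ ∧
      ∑ i, T j t i * v i ≠ 0) (t₀ : ℝ) (ht₀ : 0 < t₀) :
    ∃ (j : Fin (Fintype.card ι) → J) (t : Fin (Fintype.card ι) → ℝ), (∀ k, 0 < t k ∧ t k < t₀) ∧
      (∀ k l, k < l → 2 * t l < t k) ∧ LinearIndependent ℝ fun k => T (j k) (t k) := by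
  obtain ⟨j, t, τ, hτ, -, h1, h2, h3⟩ := exists_rows_aux T hT t₀ ht₀ _ le_rfl
  exact ⟨j, t, fun k => ⟨hτ.trans_le (h1 k).1, (h1 k).2⟩, h2, h3⟩

/-- in a pencil `T + τ S` with `T` invertible there are large `τ` with `T + τ S` invertible -/
lemma pencil {ι : Type*} [Fintype ι] (T S : Fin (Fintype.card ι) → ι → ℝ)
    (h : LinearIndependent ℝ T) (M : ℝ) :
    ∃ τ : ℝ, M < τ ∧ ∀ s : Fin (Fintype.card ι) → ℝ, ∃ v : ι → ℝ, ∀ k,
      ∑ i, (T k i + τ * S k i) * v i = s k := by
  classical
  set e : ι ≃ Fin (Fintype.card ι) := Fintype.equivFin ι with he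
  set A : Matrix (Fin (Fintype.card ι)) (Fin (Fintype.card ι)) ℝ := Matrix.of fun k l => T k (e.symm l) with hA
  set B : Matrix (Fin (Fintype.card ι)) (Fin (Fintype.card ι)) ℝ := Matrix.of fun k l => S k (e.symm l) with hB
  have hAu : IsUnit A := by
    rw [← Matrix.linearIndependent_rows_iff_isUnit]
    have h1 : (fun k => A.row k) = fun k => (LinearEquiv.funCongrLeft ℝ ℝ e.symm) (T k) := by
      funext k l
      rfl
    have h2 := h.map' (LinearEquiv.funCongrLeft ℝ ℝ e.symm).toLinearMap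
      (LinearEquiv.ker _)
    exact h2
  have hdet : A.det ≠ 0 := ((Matrix.isUnit_iff_isUnit_det A).1 hAu).ne_zero
  set P : Polynomial ℝ := Matrix.det ((Polynomial.C : ℝ →+* Polynomial ℝ).mapMatrix A +
    (Polynomial.X : Polynomial ℝ) • (Polynomial.C : ℝ →+* Polynomial ℝ).mapMatrix B) with hP
  have heval : ∀ τ, P.eval τ = (A + τ • B).det := by
    intro τ
    rw [hP, ← Polynomial.coe_evalRingHom, RingHom.map_det]
    congr 1
    ext k l
    simp only [RingHom.mapMatrix_apply, Matrix.map_apply, Matrix.add_apply, Matrix.smul_apply,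
      smul_eq_mul, Polynomial.coe_evalRingHom, Polynomial.eval_add, Polynomial.eval_mul,
      Polynomial.eval_C, Polynomial.eval_X]
  have hP0 : P ≠ 0 := by
    intro h0
    have := heval 0
    rw [h0, Polynomial.eval_zero, zero_smul, add_zero] at this
    exact hdet this.symm
  obtain ⟨τ, hτ, hτ0⟩ : ∃ τ : ℝ, M < τ ∧ P.eval τ ≠ 0 := by
    by_contra hcon
    push Not at hcon
    apply hP0
    apply Polynomial.eq_zero_of_infinite_isRoot
    exact (Ioi_infinite M).mono fun τ hτ => hcon τ hτ
  refine ⟨τ, hτ, fun s => ?_⟩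
  rw [heval] at hτ0
  have hu : IsUnit (A + τ • B).det := isUnit_iff_ne_zero.2 hτ0
  set w : Fin (Fintype.card ι) → ℝ := (A + τ • B)⁻¹.mulVec s with hw
  refine ⟨fun i => w (e i), fun k => ?_⟩
  have h3 : (A + τ • B).mulVec w = s := by
    rw [hw, Matrix.mulVec_mulVec, Matrix.mul_nonsing_inv _ hu, Matrix.one_mulVec]
  have h4 := congrFun h3 k
  rw [← h4]
  simp only [Matrix.mulVec, dotProduct]
  rw [← e.symm.sum_comp]
  refine Finset.sum_congr rfl fun l _ => ?_
  simp [hA, hB]

/-- asymptotic independence -/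
lemma indep {ι : Type*} [Fintype ι] {m : ℕ} (T : Fin m → ℝ → ι → ℝ) (o β : ι → ℕ)
    (y : Fin m → ℝ) (hy : Function.Injective y) (hβ : ∀ i, β i < m)
    (hinj : ∀ i i', o i = o i' → β i = β i' → i = i') (c : Fin m → ℕ → ℝ)
    (hc : ∀ j i, c j (o i) ≠ 0)
    (hlim : ∀ j i, Tendsto (fun t => T j t i / t ^ (2 * o i)) (𝓝[>] 0)
      (𝓝 (c j (o i) * y j ^ β i))) (v : ι → ℝ) (hv : v ≠ 0) (t₀ : ℝ) (ht₀ : 0 < t₀) :
    ∃ j, ∃ t, 0 < t ∧ t < t₀ ∧ ∑ i, T j t i * v i ≠ 0 := by
  classical
  by_contra hcon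
  push Not at hcon
  -- the lowest order
  set s := Finset.univ.filter fun i => v i ≠ 0 with hs
  have hsne : s.Nonempty := by
    obtain ⟨i, hi⟩ := Function.ne_iff.1 hv
    exact ⟨i, by rw [hs, Finset.mem_filter]; exact ⟨Finset.mem_univ _, hi⟩⟩
  obtain ⟨i₀, hi₀, hmin⟩ := s.exists_min_image o hsne
  have hi₀' : v i₀ ≠ 0 := (Finset.mem_filter.1 hi₀).2
  have hterm : ∀ j i, Tendsto (fun t => T j t i * v i / t ^ (2 * o i₀)) (𝓝[>] 0)
      (𝓝 (if o i = o i₀ then c j (o i₀) * (v i * y j ^ β i) else 0)) := by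
    intro j i
    by_cases hvi : v i = 0
    · simp [hvi]
    · have hoi : o i₀ ≤ o i := hmin i (by rw [hs, Finset.mem_filter]; exact ⟨Finset.mem_univ _, hvi⟩)
      have h1 : (fun t => T j t i / t ^ (2 * o i) * (v i * t ^ (2 * (o i - o i₀)))) =ᶠ[𝓝[>] 0]
          fun t => T j t i * v i / t ^ (2 * o i₀) := by
        filter_upwards [self_mem_nhdsWithin] with t ht
        have ht' : (t:ℝ) ≠ 0 := ne_of_gt ht
        have e : t ^ (2 * o i) = t ^ (2 * o i₀) * t ^ (2 * (o i - o i₀)) := by
          rw [← pow_add]; congr 1; omega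
        rw [e]
        field_simp
      refine Tendsto.congr' h1 ?_
      have h2 : Tendsto (fun t : ℝ => v i * t ^ (2 * (o i - o i₀))) (𝓝[>] 0)
          (𝓝 (v i * 0 ^ (2 * (o i - o i₀)))) := by
        have : Continuous fun t : ℝ => v i * t ^ (2 * (o i - o i₀)) := by fun_prop
        exact (this.tendsto 0).mono_left nhdsWithin_le_nhds
      have h3 := (hlim j i).mul h2
      by_cases ho : o i = o i₀
      · rw [if_pos ho]
        have : 2 * (o i - o i₀) = 0 := by omega
        have e : c j (o i₀) * (v i * y j ^ β i) =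
            c j (o i) * y j ^ β i * (v i * 0 ^ (2 * (o i - o i₀))) := by
          rw [this, pow_zero, ho]; ring
        rw [e]
        exact h3
      · rw [if_neg ho]
        have : 2 * (o i - o i₀) ≠ 0 := by omega
        rw [zero_pow this, mul_zero, mul_zero] at h3
        exact h3
  have hsum : ∀ j, ∑ i, (if o i = o i₀ then c j (o i₀) * (v i * y j ^ β i) else 0) = 0 := by
    intro j
    have h1 : Tendsto (fun t => ∑ i, T j t i * v i / t ^ (2 * o i₀)) (𝓝[>] 0)
        (𝓝 (∑ i, (if o i = o i₀ then c j (o i₀) * (v i * y j ^ β i) else 0))) :=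
      tendsto_finsetSum _ fun i _ => hterm j i
    have h2 : (fun t => ∑ i, T j t i * v i / t ^ (2 * o i₀)) =ᶠ[𝓝[>] 0] fun _ => 0 := by
      filter_upwards [Ioo_mem_nhdsGT ht₀] with t ht
      rw [← Finset.sum_div, hcon j t ht.1 ht.2, zero_div]
    have h3 := h1.congr' h2
    exact tendsto_nhds_unique h3 tendsto_const_nhds
  set P : Polynomial ℝ := ∑ i, if o i = o i₀ then Polynomial.C (v i) * Polynomial.X ^ β i else 0
    with hP
  have hPev : ∀ j, P.eval (y j) = 0 := by
    intro j
    have h1 := hsum j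
    have h2 : c j (o i₀) * P.eval (y j) = 0 := by
      rw [← h1, hP, Polynomial.eval_finsetSum, Finset.mul_sum]
      refine Finset.sum_congr rfl fun i _ => ?_
      split_ifs
      · simp
      · simp
    exact (mul_eq_zero.1 h2).resolve_left (hc j i₀)
  have hPdeg : P.natDegree < m := by
    have hm : 0 < m := (Nat.zero_le _).trans_lt (hβ i₀)
    have : P.natDegree ≤ m - 1 := by
      rw [hP]
      refine Polynomial.natDegree_sum_le_of_forall_le _ _ fun i _ => ?_
      split_ifs
      · refine (Polynomial.natDegree_C_mul_X_pow_le _ _).trans ?_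
        have := hβ i
        omega
      · simp
    omega
  have hP0 : P = 0 := by
    refine Polynomial.eq_zero_of_natDegree_lt_card_of_eval_eq_zero P hy hPev ?_
    rwa [Fintype.card_fin]
  have hcoef : P.coeff (β i₀) = v i₀ := by
    rw [hP, Polynomial.finsetSum_coeff, Finset.sum_eq_single i₀]
    · simp
    · intro i _ hi
      split_ifs with ho
      · rw [Polynomial.coeff_C_mul_X_pow]
        rw [if_neg]
        intro hβi
        exact hi (hinj i i₀ ho hβi.symm)
      · simp
    · intro h; exact absurd (Finset.mem_univ _) h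
  rw [hP0, Polynomial.coeff_zero] at hcoef
  exact hi₀' hcoef.symm

end Pool.Agent.Y300
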