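import Pool.Agent.Y300.Centre

/-! Closed orbits near a nondegenerate minimum for a perturbation with given first-order data. -/

set_option autoImplicit false

open Set MeasureTheory Topology Filter
open scoped NNReal

namespace Pool.Agent.Y300

lemma eventually_pos_compact {K : Set (ℝ × ℝ)} (hK : IsCompact K) {f g : ℝ × ℝ → ℝ}
    (hf : Continuous f) (hg : Continuous g) (h : ∀ z ∈ K, 0 < f z) :
    ∀ᶠ ε : ℝ in 𝓝 0, ∀ z ∈ K, 0 < f z + ε * g z := by
  refine hK.eventually_forall_of_forall_eventually fun z hz => ?_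
  have hc : Continuous fun q : ℝ × (ℝ × ℝ) => f q.2 + q.1 * g q.2 := by fun_prop
  have := (hc.tendsto ((0:ℝ), z)).eventually_const_lt (by simpa using h z hz)
  exact this

lemma contDiff_pert {n : WithTop ℕ∞} {H G : ℝ × ℝ → ℝ} (hH : ContDiff ℝ n H)
    (hG : ContDiff ℝ n G) (ε : ℝ) : ContDiff ℝ n (H + ε • G) := hH.add (hG.const_smul ε)

lemma contDiff_pert' {n : WithTop ℕ∞} {Y W : ℝ × ℝ → ℝ × ℝ} (hY : ContDiff ℝ n Y)
    (hW : ContDiff ℝ n W) (ε : ℝ) : ContDiff ℝ n (Y + ε • W) := hY.add (hW.const_smul ε)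

lemma fderiv_pert {H G : ℝ × ℝ → ℝ} (hH : Differentiable ℝ H) (hG : Differentiable ℝ G)
    (ε : ℝ) (z v : ℝ × ℝ) :
    fderiv ℝ (H + ε • G) z v = fderiv ℝ H z v + ε * fderiv ℝ G z v := by
  rw [fderiv_add (hH z) ((hG z).const_smul ε), fderiv_const_smul (hG z)]
  simp

lemma Well.eventually {p : ℝ × ℝ} {r₁ r₂ : ℝ} {H : ℝ × ℝ → ℝ} {a b : ℝ}
    (h : Well p r₁ r₂ H a b) {G : ℝ × ℝ → ℝ} (hG : ContDiff ℝ 2 G) :
    ∀ᶠ ε : ℝ in 𝓝 0, Well p r₁ r₂ (H + ε • G) a b := by
  have hr2 : 0 < r₂ := h.pos.trans h.lt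
  have hHc := h.hH.continuous
  have hGc := hG.continuous
  have hHd := h.hH.differentiable (by norm_num)
  have hGd := hG.differentiable (by norm_num)
  have hdH : Continuous fun z => fderiv ℝ H z (z - p) :=
    (h.hH.continuous_fderiv (by norm_num)).clm_apply (continuous_id.sub continuous_const)
  have hdG : Continuous fun z => fderiv ℝ G z (z - p) :=
    (hG.continuous_fderiv (by norm_num)).clm_apply (continuous_id.sub continuous_const)
  have e1 := eventually_pos_compact (isCompact_ann (p := p) (r₁ := r₁) hr2.le) hdH hdG h.hrad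
  have e2 := eventually_pos_compact (isCompact_ann (p := p) (r₁ := 0) h.pos.le)
    (continuous_const.sub hHc) hGc.neg (f := fun z => a - H z) (g := fun z => -G z)
    (fun z hz => sub_pos.2 (h.hin z hz.2))
  have e3 := eventually_pos_compact (isCompact_ann (p := p) (r₁ := r₂) hr2.le)
    (hHc.sub continuous_const) hGc (f := fun z => H z - b) (g := fun z => G z)
    (fun z hz => sub_pos.2 (h.hout z (le_antisymm hz.2 hz.1)))
  filter_upwards [e1, e2, e3] with ε h1 h2 h3
  refine ⟨h.pos, h.lt, h.ab, contDiff_pert h.hH hG ε, ?_, ?_, ?_⟩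
  · intro z hz
    rw [fderiv_pert hHd hGd]
    exact h1 z hz
  · intro z hz
    have h4 := h2 z ⟨by simpa using dot_self_nonneg _, hz⟩
    simp only [Pi.add_apply, Pi.smul_apply, smul_eq_mul]
    linarith
  · intro z hz
    have h4 := h3 z ⟨hz.ge, hz.le⟩
    simp only [Pi.add_apply, Pi.smul_apply, smul_eq_mul]
    linarith

/-- derivative of the double integral in the parameter -/
lemma hasDerivAt_double {F G ρ w : ℝ × ℝ → ℝ} (hF : Continuous F) (hG : Continuous G)
    (hρ : Continuous ρ) (hw : Continuous w) (p : ℝ × ℝ) {r : ℝ} (hr : 0 ≤ r) (h s : ℝ) :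
    HasDerivAt (fun ε : ℝ => ∫ z in Bl p r, ph ((F z + ε * G z - h) / s) * (ρ z + ε * w z))
      (∫ z in Bl p r, (ph ((F z - h) / s) * w z - ps ((F z - h) / s) / s * G z * ρ z)) 0 := by
  set g : ℝ × (ℝ × ℝ) → ℝ := fun q => -ps ((F q.2 + q.1 * G q.2 - h) / s) * (G q.2 / s) *
    (ρ q.2 + q.1 * w q.2) + ph ((F q.2 + q.1 * G q.2 - h) / s) * w q.2 with hg
  have hgc : Continuous g := by
    have h1 : Continuous fun q : ℝ × (ℝ × ℝ) => (F q.2 + q.1 * G q.2 - h) / s := by fun_prop
    have h2 := continuous_ps.comp h1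
    have h3 := continuous_ph.comp h1
    exact ((h2.neg.mul (by fun_prop)).mul (by fun_prop)).add (h3.mul (by fun_prop))
  obtain ⟨B, hB⟩ := ((isCompact_Icc (a := (-1:ℝ)) (b := 1)).prod
    (isCompact_ann (p := p) (r₁ := 0) hr)).exists_bound_of_continuousOn hgc.continuousOn
  have hfin : IsFiniteMeasure (volume.restrict (Bl p r)) := by
    constructor
    rw [Measure.restrict_apply_univ]
    exact (measure_mono (Bl_subset_ann p r)).trans_lt (isCompact_ann hr).measure_lt_top
  have key := hasDerivAt_integral_of_dominated_loc_of_deriv_le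
    (μ := volume.restrict (Bl p r)) (𝕜 := ℝ)
    (F := fun (ε : ℝ) z => ph ((F z + ε * G z - h) / s) * (ρ z + ε * w z))
    (F' := fun (ε : ℝ) z => g (ε, z)) (x₀ := (0:ℝ)) (s := Metric.ball 0 1) (bound := fun _ => B)
    (Metric.ball_mem_nhds _ one_pos) ?_ ?_ ?_ ?_ ?_ ?_
  · have h1 := key.2
    have h2 : (∫ z in Bl p r, g (0, z)) = (∫ z in Bl p r, (ph ((F z - h) / s) * w z -
        ps ((F z - h) / s) / s * G z * ρ z)) := by
      refine integral_congr_ae (Eventually.of_forall fun z => ?_)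
      simp only [hg, zero_mul, add_zero]
      ring
    rw [h2] at h1
    exact h1
  · refine Eventually.of_forall fun ε => ?_
    have h1 : Continuous fun z => (F z + ε * G z - h) / s := by fun_prop
    exact ((continuous_ph.comp h1).mul (by fun_prop)).aestronglyMeasurable
  · have h1 : Continuous fun z => (F z + 0 * G z - h) / s := by fun_prop
    exact integrableOn_Bl ((continuous_ph.comp h1).mul (by fun_prop)) hr p
  · have h1 : Continuous fun z : ℝ × ℝ => g (0, z) := hgc.comp (by fun_prop)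
    exact h1.aestronglyMeasurable
  · refine (ae_restrict_iff' (measurableSet_Bl p r)).2 (Eventually.of_forall fun z hz ε hε => ?_)
    refine hB (ε, z) ⟨?_, Bl_subset_ann p r hz⟩
    rw [Metric.mem_ball, dist_zero_right, Real.norm_eq_abs] at hε
    exact ⟨(abs_lt.1 hε).1.le, (abs_lt.1 hε).2.le⟩
  · exact integrable_const _
  · refine Eventually.of_forall fun z ε _ => ?_
    have h1 : HasDerivAt (fun ε : ℝ => (F z + ε * G z - h) / s) (G z / s) ε := by
      have := ((((hasDerivAt_id ε).mul_const (G z)).const_add (F z)).sub_const h).div_const s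
      simpa using this
    have h2 := (hasDerivAt_ph ((F z + ε * G z - h) / s)).comp ε h1
    have h3 : HasDerivAt (fun ε : ℝ => ρ z + ε * w z) (w z) ε := by
      have := ((hasDerivAt_id ε).mul_const (w z)).const_add (ρ z)
      simpa using this
    exact h2.mul h3

lemma eventually_pos_of_deriv {f : ℝ → ℝ} {f' : ℝ} (h : HasDerivAt f f' 0) (h0 : f 0 = 0)
    (hf' : 0 < f') : ∀ᶠ ε : ℝ in 𝓝[>] 0, 0 < f ε := by
  have h1 := h.tendsto_slope
  have h2 : Tendsto (slope f 0) (𝓝[>] 0) (𝓝 f') := h1.mono_left (nhdsWithin_mono _ (by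
    intro x hx; exact ne_of_gt hx))
  filter_upwards [h2.eventually_const_lt hf', self_mem_nhdsWithin] with ε h3 h4
  rw [slope_def_field, h0, sub_zero, sub_zero] at h3
  have h4' : (0:ℝ) < ε := h4
  rcases div_pos_iff.1 h3 with h5 | h5
  · exact h5.1
  · exact absurd h4' (not_lt.2 h5.2.le)

lemma dv_pert {Y W : ℝ × ℝ → ℝ × ℝ} (hY : ContDiff ℝ 1 Y) (hW : ContDiff ℝ 1 W) (ε : ℝ)
    (z : ℝ × ℝ) : dv (Y + ε • W) z = dv Y z + ε * dv W z := by
  unfold dv
  have h1 := fderiv_pert ((contDiff_fst.comp hY).differentiable (by norm_num))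
    ((contDiff_fst.comp hW).differentiable (by norm_num)) ε z (1, 0)
  have h2 := fderiv_pert ((contDiff_snd.comp hY).differentiable (by norm_num))
    ((contDiff_snd.comp hW).differentiable (by norm_num)) ε z (0, 1)
  have e1 : (fun z => ((Y + ε • W) z).1) = (Prod.fst ∘ Y) + ε • (Prod.fst ∘ W) := by
    funext z; simp
  have e2 : (fun z => ((Y + ε • W) z).2) = (Prod.snd ∘ Y) + ε • (Prod.snd ∘ W) := by
    funext z; simp
  rw [e1, e2, h1, h2]
  simp only [Function.comp_def]
  ring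

/-- closed orbits near a nondegenerate minimum -/
lemma Ctr.many {F : ℝ × ℝ → ℝ} {p : ℝ × ℝ} {α β r lam : ℝ} (h : Ctr F p α β r lam)
    {G : ℝ × ℝ → ℝ} (hG : ContDiff ℝ 2 G) {Y W : ℝ × ℝ → ℝ × ℝ} (hY : ContDiff ℝ 1 Y)
    (hW : ContDiff ℝ 1 W) (q : ℕ) (τ : ℕ → ℝ) (hτ : ∀ k ≤ q, 0 < τ k)
    (hτr : ∀ k ≤ q, 2 * τ k ^ 2 < lam * r ^ 2) (hτs : ∀ k < q, 2 * τ k ^ 2 ≤ τ (k + 1) ^ 2)
    (h0 : ∀ k ≤ q, ∫ z in Bl p r, ph ((F z - F p) / τ k ^ 2) * dv Y z = 0)
    (h1 : ∀ k ≤ q, 0 < (-1) ^ k * ∫ z in Bl p r, (ph ((F z - F p) / τ k ^ 2) * dv W z -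
      ps ((F z - F p) / τ k ^ 2) / τ k ^ 2 * G z * dv Y z)) :
    ∃ r₁, 0 < r₁ ∧ r₁ < r ∧ ∀ᶠ ε : ℝ in 𝓝[>] 0,
      Many (F + ε • G) (Y + ε • W) (ann p r₁ r) q := by
  have hFc := h.hF.continuous
  have hmono : ∀ j ≤ q, τ 0 ^ 2 ≤ τ j ^ 2 := by
    intro j
    induction j with
    | zero => intro _; exact le_rfl
    | succ j ih =>
      intro hj
      have h2 := ih (by omega)
      have h3 := hτs j (by omega)
      nlinarith [sq_nonneg (τ j)]
  have hmono' : ∀ j ≤ q, τ j ^ 2 ≤ τ q ^ 2 := by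
    intro j hj
    obtain ⟨d, rfl⟩ := Nat.exists_eq_add_of_le hj
    clear h0 h1 hmono
    induction d with
    | zero => exact le_rfl
    | succ d ih =>
      have h2 := ih (fun k hk => hτ k (by omega)) (fun k hk => hτr k (by omega))
        (fun k hk => hτs k (by omega)) (by omega)
      have h3 := hτs (j + d) (by omega)
      have h4 : τ (j + d) ^ 2 ≤ τ (j + (d + 1)) ^ 2 := by
        rw [show j + (d + 1) = j + d + 1 by ring]
        nlinarith [sq_nonneg (τ (j + d))]
      exact h2.trans h4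
  have hτ0 : 0 < τ 0 ^ 2 := pow_pos (hτ 0 (Nat.zero_le _)) 2
  have hτq : 0 < τ q ^ 2 := pow_pos (hτ q le_rfl) 2
  have hdisc : 0 < r := h.r0
  -- the inner radius
  obtain ⟨r₁, hr₁, hr₁r, hin⟩ : ∃ r₁, 0 < r₁ ∧ r₁ < r ∧
      ∀ z, dot (z - p) (z - p) ≤ r₁ ^ 2 → F z < F p + τ 0 ^ 2 := by
    have h2 := Metric.tendsto_nhds.1 (hFc.tendsto p) (τ 0 ^ 2) hτ0
    obtain ⟨δ, hδ, h3⟩ := Metric.eventually_nhds_iff.1 h2
    refine ⟨min δ r / 2, by positivity, ?_, fun z hz => ?_⟩
    · have := min_le_right δ r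
      linarith
    · have h4 := norm_sq_le_dot (z - p)
      have h5 : ‖z - p‖ ≤ min δ r / 2 :=
        abs_le_of_sq_le_sq' (h4.trans hz) (by positivity) |>.2
      have h6 := h3 (y := z) (by
        rw [dist_eq_norm]
        have := min_le_left δ r
        linarith)
      rw [Real.dist_eq] at h6
      linarith [(abs_lt.1 h6).2]
  refine ⟨r₁, hr₁, hr₁r, ?_⟩
  have hwell : Well p r₁ r F (F p + τ 0 ^ 2) (F p + 2 * τ q ^ 2) := by
    refine ⟨hr₁, hr₁r, ?_, h.hF, ?_, hin, ?_⟩
    · have := hmono q le_rfl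
      linarith
    · intro z hz
      refine h.rad z hz.2 ?_
      rintro rfl
      have h3 := hz.1
      simp only [sub_self, dot, Prod.fst_zero, Prod.snd_zero, mul_zero, add_zero] at h3
      have : 0 < r₁ ^ 2 := by positivity
      linarith
    · intro z hz
      have h3 := h.low z hz.le
      rw [hz] at h3
      have h4 := hτr q le_rfl
      linarith
  have hev1 := (hwell.eventually hG).filter_mono (nhdsWithin_le_nhds (s := Ioi 0))
  have hdvY : Continuous (dv Y) := by
    unfold dv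
    exact (((contDiff_fst.comp hY).continuous_fderiv (by norm_num)).clm_apply
      continuous_const).add (((contDiff_snd.comp hY).continuous_fderiv (by norm_num)).clm_apply
      continuous_const)
  have hdvW : Continuous (dv W) := by
    unfold dv
    exact (((contDiff_fst.comp hW).continuous_fderiv (by norm_num)).clm_apply
      continuous_const).add (((contDiff_snd.comp hW).continuous_fderiv (by norm_num)).clm_apply
      continuous_const)
  have hev2 : ∀ᶠ ε : ℝ in 𝓝[>] 0, ∀ k ∈ Finset.range (q + 1), 0 < (-1) ^ k *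
      ∫ z in Bl p r, ph ((F z + ε * G z - F p) / τ k ^ 2) * (dv Y z + ε * dv W z) := by
    rw [Filter.eventually_all_finset]
    intro k hk
    have hk' : k ≤ q := by
      have := Finset.mem_range.1 hk
      omega
    have hd := (hasDerivAt_double hFc hG.continuous hdvY hdvW p hdisc.le (F p)
      (τ k ^ 2)).const_mul ((-1 : ℝ) ^ k)
    refine eventually_pos_of_deriv hd ?_ (h1 k hk')
    simp only [zero_mul, add_zero, h0 k hk', mul_zero]
  filter_upwards [hev1, hev2] with ε hw hsg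
  refine hw.many (contDiff_pert' hY hW ε) q
    (fun k x => ph ((x - F p) / τ k ^ 2)) (fun k x => ps ((x - F p) / τ k ^ 2) / τ k ^ 2)
    (fun k => F p + τ k ^ 2) (fun k => F p + 2 * τ k ^ 2) ?_ ?_ ?_ ?_ ?_ ?_ ?_ ?_ ?_
  · intro k hk
    have := hmono k hk
    linarith
  · intro k hk
    have := hmono' k hk
    linarith
  · intro k hk
    have := hτs k hk
    linarith
  · intro k hk x
    have h2 : HasDerivAt (fun x : ℝ => (x - F p) / τ k ^ 2) (1 / τ k ^ 2) x :=
      ((hasDerivAt_id x).sub_const (F p)).div_const _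
    have h3 := (hasDerivAt_ph ((x - F p) / τ k ^ 2)).comp x h2
    refine h3.congr_deriv ?_
    ring
  · intro k hk
    have h2 : Continuous fun x : ℝ => (x - F p) / τ k ^ 2 := by fun_prop
    exact (continuous_ps.comp h2).div_const _
  · intro k hk x
    have := ps_nonneg ((x - F p) / τ k ^ 2)
    positivity
  · intro k hk x hx
    have hk2 : 0 < τ k ^ 2 := pow_pos (hτ k hk) 2
    rw [ps_zero, zero_div]
    rintro ⟨h2, h3⟩
    rw [lt_div_iff₀ hk2] at h2
    rw [div_lt_iff₀ hk2] at h3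
    exact hx ⟨by linarith, by linarith⟩
  · intro k hk x hx
    have hk2 : 0 < τ k ^ 2 := pow_pos (hτ k hk) 2
    apply ph_zero
    rw [le_div_iff₀ hk2]
    linarith
  · intro k hk
    have h2 := hsg k (Finset.mem_range.2 (by omega))
    refine h2.trans_eq ?_
    congr 1
    refine integral_congr_ae (Eventually.of_forall fun z => ?_)
    simp only
    rw [dv_pert hY hW]
    rfl

end Pool.Agent.Y300
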