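import Pool.Agent.Y300.Polar

/-! Closed orbits of small perturbations of Hamiltonian fields. -/

set_option autoImplicit false

open Set MeasureTheory Topology Filter
open scoped NNReal

namespace Pool.Agent.Y300

/-- Hamiltonian field -/
noncomputable def ham (H : ℝ × ℝ → ℝ) (z : ℝ × ℝ) : ℝ × ℝ :=
  (-(fderiv ℝ H z (0, 1)), fderiv ℝ H z (1, 0))

/-- All fields `ham H' + κ Y'`, with `(H', Y')` close to `(H, Y)` on `K` and `κ > 0` small, have at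
least `N` closed orbits in `K`. -/
def Many (H : ℝ × ℝ → ℝ) (Y : ℝ × ℝ → ℝ × ℝ) (K : Set (ℝ × ℝ)) (N : ℕ) : Prop :=
  ∃ ε > 0, ∀ (H' : ℝ × ℝ → ℝ) (Y' : ℝ × ℝ → ℝ × ℝ) (κ : ℝ),
    (∀ z ∈ K, ContDiffAt ℝ 2 H' z) → (∀ z ∈ K, ContDiffAt ℝ 1 Y' z) →
    (∀ z ∈ K, |H' z - H z| ≤ ε) → (∀ z ∈ K, ‖fderiv ℝ H' z - fderiv ℝ H z‖ ≤ ε) →
    (∀ z ∈ K, ‖Y' z - Y z‖ ≤ ε) → 0 < κ → κ ≤ ε →
    (N : ℕ∞) ≤ {C | ClosedOrbit (fun z => ham H' z + κ • Y' z) C ∧ C ⊆ K}.encard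

lemma clm_apply (L : ℝ × ℝ →L[ℝ] ℝ) (v : ℝ × ℝ) : L v = v.1 * L (1, 0) + v.2 * L (0, 1) := by
  have : v = v.1 • ((1, 0) : ℝ × ℝ) + v.2 • ((0, 1) : ℝ × ℝ) := by
    ext <;> simp
  conv_lhs => rw [this]
  rw [map_add, map_smul, map_smul]
  simp

lemma wedge_ham (H : ℝ × ℝ → ℝ) (z v : ℝ × ℝ) : wedge v (ham H z) = fderiv ℝ H z v := by
  rw [clm_apply]
  simp only [wedge, ham]
  ring

lemma fderiv_ham (H : ℝ × ℝ → ℝ) (z : ℝ × ℝ) : fderiv ℝ H z (ham H z) = 0 := by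
  rw [clm_apply]
  simp only [ham]
  ring

lemma wedge_add (a b c : ℝ × ℝ) : wedge a (b + c) = wedge a b + wedge a c := by
  simp only [wedge, Prod.fst_add, Prod.snd_add]; ring

lemma wedge_smul (a b : ℝ × ℝ) (t : ℝ) : wedge a (t • b) = t * wedge a b := by
  simp only [wedge, Prod.smul_fst, Prod.smul_snd, smul_eq_mul]; ring

lemma abs_wedge_le (a b : ℝ × ℝ) : |wedge a b| ≤ 2 * (‖a‖ * ‖b‖) := by
  have h1 := norm_fst_le a
  have h2 := norm_snd_le a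
  have h3 := norm_fst_le b
  have h4 := norm_snd_le b
  rw [Real.norm_eq_abs] at h1 h2 h3 h4
  unfold wedge
  calc |a.1 * b.2 - a.2 * b.1| ≤ |a.1 * b.2| + |a.2 * b.1| := abs_sub _ _
    _ ≤ ‖a‖ * ‖b‖ + ‖a‖ * ‖b‖ := by
        rw [abs_mul, abs_mul]
        gcongr
    _ = _ := by ring

/-- closed annulus -/
def ann (p : ℝ × ℝ) (r₁ r₂ : ℝ) : Set (ℝ × ℝ) :=
  {z | r₁ ^ 2 ≤ dot (z - p) (z - p) ∧ dot (z - p) (z - p) ≤ r₂ ^ 2}

lemma norm_sq_le_dot (v : ℝ × ℝ) : ‖v‖ ^ 2 ≤ dot v v := by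
  rw [Prod.norm_def]
  unfold dot
  rcases max_cases ‖v.1‖ ‖v.2‖ with ⟨h, -⟩ | ⟨h, -⟩
  · rw [h, Real.norm_eq_abs, sq_abs]; nlinarith [mul_self_nonneg v.2]
  · rw [h, Real.norm_eq_abs, sq_abs]; nlinarith [mul_self_nonneg v.1]

lemma norm_le_of_mem_ann {p : ℝ × ℝ} {r₁ r₂ : ℝ} (h2 : 0 ≤ r₂) {z : ℝ × ℝ} (hz : z ∈ ann p r₁ r₂) :
    ‖z - p‖ ≤ r₂ := by
  have := norm_sq_le_dot (z - p)
  exact abs_le_of_sq_le_sq' (this.trans hz.2) h2 |>.2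

lemma continuous_dot_self (p : ℝ × ℝ) : Continuous fun z : ℝ × ℝ => dot (z - p) (z - p) := by
  unfold dot
  fun_prop

lemma isCompact_ann {p : ℝ × ℝ} {r₁ r₂ : ℝ} (h2 : 0 ≤ r₂) : IsCompact (ann p r₁ r₂) := by
  apply Metric.isCompact_of_isClosed_isBounded
  · exact (isClosed_le continuous_const (continuous_dot_self p)).inter
      (isClosed_le (continuous_dot_self p) continuous_const)
  · refine (Metric.isBounded_closedBall (x := p) (r := r₂)).subset fun z hz => ?_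
    rw [mem_closedBall_iff_norm]
    exact norm_le_of_mem_ann h2 hz

lemma pol_mem_ann {p : ℝ × ℝ} {r₁ r₂ r : ℝ} (h1 : 0 < r₁) (hr : r ∈ Icc r₁ r₂) (θ : ℝ) :
    pol p r θ ∈ ann p r₁ r₂ := by
  unfold ann
  rw [mem_ofPred_eq, dot_self_pol]
  exact ⟨by nlinarith [hr.1], by nlinarith [hr.1, hr.2]⟩

/-- regularity of the polar equation -/
lemma rhs_regular {p : ℝ × ℝ} {r₁ r₂ : ℝ} (h1 : 0 < r₁) (h12 : r₁ < r₂) {Z : ℝ × ℝ → ℝ × ℝ}
    (hZ : ∀ z ∈ ann p r₁ r₂, ContDiffAt ℝ 1 Z z) (hw : ∀ z ∈ ann p r₁ r₂, 0 < wedge (z - p) (Z z))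
    (T : ℝ) :
    ∃ L : ℝ≥0, (∀ θ ∈ Icc 0 T, LipschitzOnWith L (rhs p Z θ) (Icc r₁ r₂)) ∧
      (∀ θ ∈ Icc 0 T, ∀ x ∈ Icc r₁ r₂, |rhs p Z θ x| ≤ L) ∧
      ∀ x ∈ Icc r₁ r₂, ContinuousOn (fun θ => rhs p Z θ x) (Icc 0 T) := by
  set F : ℝ × ℝ → ℝ := fun q => rhs p Z q.1 q.2 with hF
  set A : Set (ℝ × ℝ) := Icc 0 T ×ˢ Icc r₁ r₂ with hA
  have hAc : IsCompact A := isCompact_Icc.prod isCompact_Icc
  have hmem : ∀ q ∈ A, pol p q.2 q.1 ∈ ann p r₁ r₂ := fun q hq => pol_mem_ann h1 hq.2 _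
  have hreg : ∀ q ∈ A, ContDiffAt ℝ 1 F q := by
    intro q hq
    have hp : ContDiffAt ℝ 1 (fun q : ℝ × ℝ => pol p q.2 q.1) q := contDiff_pol.contDiffAt
    have hz : ContDiffAt ℝ 1 (fun q : ℝ × ℝ => Z (pol p q.2 q.1)) q :=
      (hZ _ (hmem q hq)).comp q hp
    have hp1 : ContDiffAt ℝ 1 (fun q : ℝ × ℝ => pol p q.2 q.1 - p) q := hp.sub contDiffAt_const
    have hdot : ContDiffAt ℝ 1 (fun q : ℝ × ℝ => dot (pol p q.2 q.1 - p) (Z (pol p q.2 q.1))) q := by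
      unfold dot
      exact (hp1.fst.mul hz.fst).add (hp1.snd.mul hz.snd)
    have hwed : ContDiffAt ℝ 1
        (fun q : ℝ × ℝ => wedge (pol p q.2 q.1 - p) (Z (pol p q.2 q.1))) q := by
      unfold wedge
      exact (hp1.fst.mul hz.snd).sub (hp1.snd.mul hz.fst)
    have h3 := (contDiffAt_snd.mul hdot).div hwed (hw _ (hmem q hq)).ne'
    exact h3
  have hcont : ContinuousOn F A := fun q hq => (hreg q hq).continuousAt.continuousWithinAt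
  have hdc : ContinuousOn (fun q => ‖fderiv ℝ F q‖) A := by
    intro q hq
    have h3 : ContDiffAt ℝ 0 (fderiv ℝ F) q := (hreg q hq).fderiv_right (m := 0) (by norm_num)
    exact (h3.continuousAt.norm).continuousWithinAt
  obtain ⟨M₁, hM₁⟩ := hAc.exists_bound_of_continuousOn hdc
  obtain ⟨M₂, hM₂⟩ := hAc.exists_bound_of_continuousOn hcont
  set L : ℝ≥0 := (max M₁ (max M₂ 0)).toNNReal with hL
  have hL' : (L : ℝ) = max M₁ (max M₂ 0) := Real.coe_toNNReal _ (by positivity)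
  refine ⟨L, fun θ hθ => ?_, fun θ hθ x hx => ?_, fun x hx => ?_⟩
  · have hconv : Convex ℝ A := (convex_Icc _ _).prod (convex_Icc _ _)
    have h3 : LipschitzOnWith L F A := by
      apply Convex.lipschitzOnWith_of_nnnorm_fderiv_le (𝕜 := ℝ) ?_ ?_ hconv
      · exact fun q hq => (hreg q hq).differentiableAt (by norm_num)
      · intro q hq
        rw [← NNReal.coe_le_coe, coe_nnnorm, hL']
        have := hM₁ q hq
        rw [norm_norm] at this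
        exact this.trans (le_max_left _ _)
    intro x hx y hy
    have h4 := h3 (show (θ, x) ∈ A from ⟨hθ, hx⟩) (show (θ, y) ∈ A from ⟨hθ, hy⟩)
    refine h4.trans ?_
    gcongr
    rw [Prod.edist_eq]
    simp
  · have := hM₂ (θ, x) ⟨hθ, hx⟩
    rw [Real.norm_eq_abs] at this
    rw [hL']
    exact this.trans ((le_max_left _ _).trans (le_max_right _ _))
  · have h3 : ContinuousOn (fun θ : ℝ => ((θ, x) : ℝ × ℝ)) (Icc 0 T) := by fun_prop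
    exact hcont.comp h3 fun θ hθ => ⟨hθ, hx⟩

end Pool.Agent.Y300
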