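import Pool.Agent.Y300.Turn

/-! Sign changes of the Melnikov integral over ovals give closed orbits. -/

set_option autoImplicit false

open Set MeasureTheory Topology Filter
open scoped NNReal

namespace Pool.Agent.Y300

lemma le_encard_of_inj {α : Type*} {S : Set α} {n : ℕ} (F : Fin n → α) (hF : Function.Injective F)
    (h : ∀ i, F i ∈ S) : (n : ℕ∞) ≤ S.encard := by
  classical
  have h1 : ((Finset.univ.image F : Finset α) : Set α) ⊆ S := by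
    intro x hx
    simp only [Finset.coe_image, Finset.coe_univ, image_univ, mem_range] at hx
    obtain ⟨i, rfl⟩ := hx
    exact h i
  have h2 := Set.encard_le_encard h1
  rw [Set.encard_coe_eq_coe_finsetCard, Finset.card_image_of_injective _ hF, Finset.card_univ,
    Fintype.card_fin] at h2
  exact h2

lemma exists_pos_le (n : ℕ) (a : ℕ → ℝ) (h : ∀ k ≤ n, 0 < a k) : ∃ M > 0, ∀ k ≤ n, M ≤ a k := by
  obtain ⟨k, hk, hmin⟩ := Finset.exists_min_image (Finset.range (n + 1)) a ⟨0, by simp⟩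
  refine ⟨a k, h k (by simpa [Nat.lt_succ_iff] using hk), fun j hj => hmin j (by simpa using by omega)⟩

/-- Melnikov integrand -/
noncomputable def mel (p : ℝ × ℝ) (H : ℝ × ℝ → ℝ) (Y : ℝ × ℝ → ℝ × ℝ) (z : ℝ × ℝ) : ℝ :=
  dot (z - p) (z - p) * fderiv ℝ H z (Y z) / fderiv ℝ H z (z - p)

/-- ovals of `H` in the annulus -/
structure Ovals (p : ℝ × ℝ) (r₁ r₂ : ℝ) (H : ℝ × ℝ → ℝ) (Y : ℝ × ℝ → ℝ × ℝ) (n : ℕ) (c : ℕ → ℝ)
    (R : ℕ → ℝ → ℝ) : Prop where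
  pos : 0 < r₁
  lt : r₁ < r₂
  hH : ContDiff ℝ 2 H
  hY : Continuous Y
  hrad : ∀ z ∈ ann p r₁ r₂, 0 < fderiv ℝ H z (z - p)
  hc : ∀ k < n, c k < c (k + 1)
  hR : ∀ k ≤ n, Continuous (R k)
  hmem : ∀ k ≤ n, ∀ θ, R k θ ∈ Ioo r₁ r₂
  hlev : ∀ k ≤ n, ∀ θ, H (pol p (R k θ) θ) = c k
  hsign : ∀ k ≤ n, 0 < (-1) ^ k * ∫ θ in (0:ℝ)..(2 * Real.pi), mel p H Y (pol p (R k θ) θ)

section

variable {p : ℝ × ℝ} {r₁ r₂ : ℝ} {H : ℝ × ℝ → ℝ} {Y : ℝ × ℝ → ℝ × ℝ}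

lemma hasDerivAt_ray (H : ℝ × ℝ → ℝ) (p : ℝ × ℝ) {r θ : ℝ}
    (hd : DifferentiableAt ℝ H (pol p r θ)) :
    HasDerivAt (fun r => H (pol p r θ)) (fderiv ℝ H (pol p r θ) (ev θ)) r := by
  have h1 : HasDerivAt (fun r => pol p r θ) (ev θ) r := by
    have := ((hasDerivAt_id r).smul_const (ev θ)).const_add p
    simpa [pol] using this
  exact HasFDerivAt.comp_hasDerivAt (f := fun r => pol p r θ) r hd.hasFDerivAt h1

lemma fderiv_ev_eq (H : ℝ × ℝ → ℝ) (p : ℝ × ℝ) {r θ : ℝ} (hr : 0 < r) :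
    fderiv ℝ H (pol p r θ) (ev θ) = fderiv ℝ H (pol p r θ) (pol p r θ - p) / r := by
  rw [pol_sub, map_smul, smul_eq_mul]
  field_simp

/-- quantitative monotonicity along rays -/
lemma ray_lower (h1 : 0 < r₁) {m : ℝ}
    (hdiff : ∀ z ∈ ann p r₁ r₂, DifferentiableAt ℝ H z)
    (hm : ∀ z ∈ ann p r₁ r₂, m ≤ fderiv ℝ H z (z - p)) (hm0 : 0 ≤ m) {a b θ : ℝ}
    (ha : a ∈ Icc r₁ r₂) (hb : b ∈ Icc r₁ r₂) (hab : a ≤ b) :
    m / r₂ * (b - a) ≤ H (pol p b θ) - H (pol p a θ) := by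
  have hsub : Icc a b ⊆ Icc r₁ r₂ := Icc_subset_Icc ha.1 hb.2
  have hr2 : 0 < r₂ := h1.trans_le (ha.1.trans ha.2)
  have hd : ∀ r ∈ Icc a b, HasDerivAt (fun r => H (pol p r θ)) (fderiv ℝ H (pol p r θ) (ev θ)) r :=
    fun r hr => hasDerivAt_ray H p (hdiff _ (pol_mem_ann h1 (hsub hr) θ))
  apply (convex_Icc a b).mul_sub_le_image_sub_of_le_deriv (f := fun r => H (pol p r θ))
    (fun r hr => (hd r hr).continuousAt.continuousWithinAt)
    (fun r hr => (hd r (interior_subset hr)).differentiableAt.differentiableWithinAt) ?_ a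
    (left_mem_Icc.2 hab) b (right_mem_Icc.2 hab) hab
  intro r hr
  have hr' := interior_subset hr
  rw [(hd r hr').deriv]
  have hr0 : 0 < r := h1.trans_le (hsub hr').1
  rw [fderiv_ev_eq H p hr0]
  have h3 := hm _ (pol_mem_ann h1 (hsub hr') θ)
  have h4 : m / r₂ ≤ m / r := div_le_div_of_nonneg_left hm0 hr0 (hsub hr').2
  exact h4.trans (by gcongr)

lemma ray_strictMono (h1 : 0 < r₁)
    (hdiff : ∀ z ∈ ann p r₁ r₂, DifferentiableAt ℝ H z)
    (hm : ∀ z ∈ ann p r₁ r₂, 0 < fderiv ℝ H z (z - p)) (θ : ℝ) :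
    StrictMonoOn (fun r => H (pol p r θ)) (Icc r₁ r₂) := by
  have hd : ∀ r ∈ Icc r₁ r₂, HasDerivAt (fun r => H (pol p r θ)) (fderiv ℝ H (pol p r θ) (ev θ)) r :=
    fun r hr => hasDerivAt_ray H p (hdiff _ (pol_mem_ann h1 hr θ))
  apply strictMonoOn_of_deriv_pos (convex_Icc _ _)
    (fun r hr => (hd r hr).continuousAt.continuousWithinAt)
  intro r hr
  have hr' := interior_subset hr
  rw [(hd r hr').deriv, fderiv_ev_eq H p (h1.trans_le hr'.1)]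
  exact div_pos (hm _ (pol_mem_ann h1 hr' θ)) (h1.trans_le hr'.1)

/-- a perturbation is close to the Hamiltonian field, with explicit constants -/
lemma near_close (h1 : 0 < r₁) (h12 : r₁ < r₂) {m BH BY : ℝ} (hm0 : 0 < m) (hBH : 0 ≤ BH)
    (hBY : 0 ≤ BY) (hm : ∀ z ∈ ann p r₁ r₂, m ≤ fderiv ℝ H z (z - p))
    (hH : ∀ z ∈ ann p r₁ r₂, ‖fderiv ℝ H z‖ ≤ BH) (hY : ∀ z ∈ ann p r₁ r₂, ‖Y z‖ ≤ BY)
    {ε : ℝ} (hε1 : ε ≤ 1) (hε : ε * (r₂ * (3 + 2 * BY)) ≤ m / 2)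
    {H' : ℝ × ℝ → ℝ} {Y' : ℝ × ℝ → ℝ × ℝ} {κ : ℝ}
    (s1 : ∀ z ∈ ann p r₁ r₂, ContDiffAt ℝ 2 H' z) (s2 : ∀ z ∈ ann p r₁ r₂, ContDiffAt ℝ 1 Y' z)
    (c2 : ∀ z ∈ ann p r₁ r₂, ‖fderiv ℝ H' z - fderiv ℝ H z‖ ≤ ε)
    (c3 : ∀ z ∈ ann p r₁ r₂, ‖Y' z - Y z‖ ≤ ε) (hκ : 0 < κ) (hκε : κ ≤ ε) :
    Near p r₁ r₂ H' Y' κ (r₂ ^ 2 * ((BH + 1) * (BY + 1)) * (2 / m)) ∧
    (∀ z ∈ ann p r₁ r₂, |gain p H' Y' κ z - mel p H Y z| ≤
      ε * (r₂ ^ 2 * (BH + BY + 1) * (2 / m) + r₂ ^ 2 * (BH * BY) * (r₂ * (3 + 2 * BY)) *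
        (2 / m ^ 2))) ∧
    ∀ z ∈ ann p r₁ r₂, m / 2 ≤ fderiv ℝ H' z (z - p) := by
  have hr2 : 0 < r₂ := h1.trans h12
  have hε0 : 0 < ε := hκ.trans_le hκε
  have key : ∀ z ∈ ann p r₁ r₂, |fderiv ℝ H' z (z - p) - fderiv ℝ H z (z - p)| ≤ ε * r₂ ∧
      |wedge (z - p) (pert H' Y' κ z) - fderiv ℝ H z (z - p)| ≤ ε * (r₂ * (3 + 2 * BY)) ∧
      |fderiv ℝ H' z (Y' z)| ≤ (BH + 1) * (BY + 1) ∧
      |fderiv ℝ H' z (Y' z) - fderiv ℝ H z (Y z)| ≤ ε * (BH + BY + 1) ∧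
      |fderiv ℝ H z (Y z)| ≤ BH * BY := by
    intro z hz
    have hn := norm_le_of_mem_ann hr2.le hz
    have hY' : ‖Y' z‖ ≤ BY + 1 := by
      calc ‖Y' z‖ = ‖(Y' z - Y z) + Y z‖ := by rw [sub_add_cancel]
        _ ≤ ‖Y' z - Y z‖ + ‖Y z‖ := norm_add_le _ _
        _ ≤ ε + BY := add_le_add (c3 z hz) (hY z hz)
        _ ≤ _ := by linarith
    have hH' : ‖fderiv ℝ H' z‖ ≤ BH + 1 := by
      calc ‖fderiv ℝ H' z‖ = ‖(fderiv ℝ H' z - fderiv ℝ H z) + fderiv ℝ H z‖ := by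
            rw [sub_add_cancel]
        _ ≤ ‖fderiv ℝ H' z - fderiv ℝ H z‖ + ‖fderiv ℝ H z‖ := norm_add_le _ _
        _ ≤ ε + BH := add_le_add (c2 z hz) (hH z hz)
        _ ≤ _ := by linarith
    have k1 : |fderiv ℝ H' z (z - p) - fderiv ℝ H z (z - p)| ≤ ε * r₂ := by
      rw [← Real.norm_eq_abs]
      have : fderiv ℝ H' z (z - p) - fderiv ℝ H z (z - p) =
        (fderiv ℝ H' z - fderiv ℝ H z) (z - p) := rfl
      rw [this]
      exact (ContinuousLinearMap.le_opNorm _ _).trans (mul_le_mul (c2 z hz) hn (norm_nonneg _) hε0.le)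
    have k2 : |κ * wedge (z - p) (Y' z)| ≤ ε * (2 * (r₂ * (BY + 1))) := by
      rw [abs_mul, abs_of_pos hκ]
      refine mul_le_mul hκε ((abs_wedge_le _ _).trans ?_) (abs_nonneg _) hε0.le
      gcongr
    refine ⟨k1, ?_, ?_, ?_, ?_⟩
    · have : wedge (z - p) (pert H' Y' κ z) - fderiv ℝ H z (z - p) =
          (fderiv ℝ H' z (z - p) - fderiv ℝ H z (z - p)) + κ * wedge (z - p) (Y' z) := by
        unfold pert
        rw [wedge_add, wedge_ham, wedge_smul]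
        ring
      rw [this]
      refine (abs_add_le _ _).trans ((add_le_add k1 k2).trans (le_of_eq ?_))
      ring
    · rw [← Real.norm_eq_abs]
      exact (ContinuousLinearMap.le_opNorm _ _).trans (mul_le_mul hH' hY' (norm_nonneg _)
        (by linarith))
    · have : fderiv ℝ H' z (Y' z) - fderiv ℝ H z (Y z) =
          fderiv ℝ H' z (Y' z - Y z) + (fderiv ℝ H' z - fderiv ℝ H z) (Y z) := by
        rw [map_sub]
        simp
      rw [this]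
      have e1 : |fderiv ℝ H' z (Y' z - Y z)| ≤ (BH + 1) * ε := by
        rw [← Real.norm_eq_abs]
        exact (ContinuousLinearMap.le_opNorm _ _).trans (mul_le_mul hH' (c3 z hz) (norm_nonneg _)
          (by linarith))
      have e2 : |(fderiv ℝ H' z - fderiv ℝ H z) (Y z)| ≤ ε * BY := by
        rw [← Real.norm_eq_abs]
        exact (ContinuousLinearMap.le_opNorm _ _).trans (mul_le_mul (c2 z hz) (hY z hz)
          (norm_nonneg _) hε0.le)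
      refine (abs_add_le _ _).trans ((add_le_add e1 e2).trans (le_of_eq ?_))
      ring
    · rw [← Real.norm_eq_abs]
      exact (ContinuousLinearMap.le_opNorm _ _).trans (mul_le_mul (hH z hz) (hY z hz) (norm_nonneg _)
        hBH)
  have hb : ∀ z ∈ ann p r₁ r₂, m / 2 ≤ wedge (z - p) (pert H' Y' κ z) := by
    intro z hz
    have := (abs_le.1 ((key z hz).2.1)).1
    have := hm z hz
    linarith
  have hr : ∀ z ∈ ann p r₁ r₂, m / 2 ≤ fderiv ℝ H' z (z - p) := by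
    intro z hz
    have h3 := (abs_le.1 ((key z hz).1)).1
    have h4 := hm z hz
    have h5 : ε * r₂ ≤ ε * (r₂ * (3 + 2 * BY)) := by
      apply mul_le_mul_of_nonneg_left _ hε0.le
      nlinarith
    linarith
  have hq : ∀ z ∈ ann p r₁ r₂, 0 ≤ dot (z - p) (z - p) ∧ dot (z - p) (z - p) ≤ r₂ ^ 2 :=
    fun z hz => ⟨by unfold dot; nlinarith [mul_self_nonneg (z - p).1, mul_self_nonneg (z - p).2],
      hz.2⟩
  refine ⟨⟨h1, h12, hκ, s1, s2, fun z hz => by have := hb z hz; linarith,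
    fun z hz => by have := hr z hz; linarith, ?_⟩, ?_, hr⟩
  · intro z hz
    obtain ⟨-, -, k3, -, -⟩ := key z hz
    have hb' := hb z hz
    have hbpos : 0 < wedge (z - p) (pert H' Y' κ z) := by linarith
    unfold gain
    rw [abs_div, abs_mul, abs_of_nonneg (hq z hz).1, abs_of_pos hbpos, div_eq_mul_inv]
    have h5 : (wedge (z - p) (pert H' Y' κ z))⁻¹ ≤ 2 / m := by
      rw [show 2 / m = (m / 2)⁻¹ by rw [inv_div]]
      exact inv_anti₀ (by positivity) hb'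
    have := (hq z hz).2
    gcongr
  · intro z hz
    obtain ⟨-, k2, -, k4, k5⟩ := key z hz
    have hb' := hb z hz
    have hbpos : 0 < wedge (z - p) (pert H' Y' κ z) := by linarith
    have hb0 := hm z hz
    have hb0pos : 0 < fderiv ℝ H z (z - p) := by linarith
    unfold gain mel
    set q := dot (z - p) (z - p)
    set a := fderiv ℝ H' z (Y' z)
    set a0 := fderiv ℝ H z (Y z)
    set b := wedge (z - p) (pert H' Y' κ z)
    set b0 := fderiv ℝ H z (z - p)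
    have e : q * a / b - q * a0 / b0 = q * (a - a0) * b⁻¹ - q * a0 * (b - b0) * (b⁻¹ * b0⁻¹) := by
      field_simp
      ring
    rw [e]
    have hbi : b⁻¹ ≤ 2 / m := by
      rw [show 2 / m = (m / 2)⁻¹ by rw [inv_div]]
      exact inv_anti₀ (by positivity) hb'
    have hb0i : b0⁻¹ ≤ m⁻¹ := inv_anti₀ hm0 hb0
    have hq0 := (hq z hz).1
    have hq1 := (hq z hz).2
    have f1 : |q * (a - a0) * b⁻¹| ≤ r₂ ^ 2 * (ε * (BH + BY + 1)) * (2 / m) := by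
      rw [abs_mul, abs_mul, abs_of_nonneg hq0, abs_of_pos (inv_pos.2 hbpos)]
      gcongr
    have f2 : |q * a0 * (b - b0) * (b⁻¹ * b0⁻¹)| ≤
        r₂ ^ 2 * (BH * BY) * (ε * (r₂ * (3 + 2 * BY))) * ((2 / m) * m⁻¹) := by
      rw [abs_mul, abs_mul, abs_mul, abs_of_nonneg hq0,
        abs_of_pos (mul_pos (inv_pos.2 hbpos) (inv_pos.2 hb0pos))]
      gcongr
    refine (abs_sub _ _).trans ((add_le_add f1 f2).trans (le_of_eq ?_))
    field_simp

end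

end Pool.Agent.Y300
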