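import Pool.Agent.Y300.Basic

/-! Polar coordinates, scalar equations on an interval, periodic extension. -/

set_option autoImplicit false

open Set MeasureTheory Topology Filter
open scoped NNReal

namespace Pool.Agent.Y300

/-- unit vector -/
noncomputable def ev (θ : ℝ) : ℝ × ℝ := (Real.cos θ, Real.sin θ)

/-- unit vector, rotated by a right angle -/
noncomputable def ev' (θ : ℝ) : ℝ × ℝ := (-Real.sin θ, Real.cos θ)

/-- polar coordinates around `p` -/
noncomputable def pol (p : ℝ × ℝ) (r θ : ℝ) : ℝ × ℝ := p + r • ev θ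

def dot (a b : ℝ × ℝ) : ℝ := a.1 * b.1 + a.2 * b.2

def wedge (a b : ℝ × ℝ) : ℝ := a.1 * b.2 - a.2 * b.1

lemma norm_ev_le (θ : ℝ) : ‖ev θ‖ ≤ 1 := by
  rw [Prod.norm_def, ev]
  exact max_le (by simpa using Real.abs_cos_le_one θ) (by simpa using Real.abs_sin_le_one θ)

lemma hasDerivAt_ev (θ : ℝ) : HasDerivAt ev (ev' θ) θ :=
  (Real.hasDerivAt_cos θ).prodMk (Real.hasDerivAt_sin θ)

lemma continuous_ev : Continuous ev := by
  unfold ev; fun_prop

lemma contDiff_ev {n : WithTop ℕ∞} : ContDiff ℝ n ev := by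
  unfold ev
  exact (Real.contDiff_cos).prodMk Real.contDiff_sin

lemma contDiff_pol {p : ℝ × ℝ} {n : WithTop ℕ∞} :
    ContDiff ℝ n (fun q : ℝ × ℝ => pol p q.2 q.1) := by
  unfold pol
  exact contDiff_const.add (contDiff_snd.smul (contDiff_ev.comp contDiff_fst))

lemma continuous_pol {p : ℝ × ℝ} : Continuous (fun q : ℝ × ℝ => pol p q.2 q.1) :=
  (contDiff_pol (n := 0)).continuous

lemma pol_two_pi (p : ℝ × ℝ) (r : ℝ) : pol p r (2 * Real.pi) = pol p r 0 := by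
  simp [pol, ev]

lemma pol_sub (p : ℝ × ℝ) (r θ : ℝ) : pol p r θ - p = r • ev θ := by simp [pol]

lemma dist_pol_le (p : ℝ × ℝ) (r r' θ : ℝ) : ‖pol p r θ - pol p r' θ‖ ≤ |r - r'| := by
  have : pol p r θ - pol p r' θ = (r - r') • ev θ := by
    simp only [pol]; rw [sub_smul]; abel
  rw [this, norm_smul, Real.norm_eq_abs]
  exact mul_le_of_le_one_right (abs_nonneg _) (norm_ev_le θ)

lemma dot_ev_self (θ : ℝ) : dot (ev θ) (ev θ) = 1 := by
  simp only [dot, ev]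
  nlinarith [Real.sin_sq_add_cos_sq θ]

lemma dot_self_pol (p : ℝ × ℝ) (r θ : ℝ) :
    dot (pol p r θ - p) (pol p r θ - p) = r ^ 2 := by
  rw [pol_sub]
  simp only [dot, ev, Prod.smul_fst, Prod.smul_snd, smul_eq_mul]
  nlinarith [Real.sin_sq_add_cos_sq θ]

lemma decomp (θ : ℝ) (Z : ℝ × ℝ) : Z = dot (ev θ) Z • ev θ + wedge (ev θ) Z • ev' θ := by
  have h := Real.sin_sq_add_cos_sq θ
  ext
  · simp only [dot, wedge, ev, ev', Prod.fst_add, Prod.smul_fst, smul_eq_mul]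
    linear_combination -Z.1 * h
  · simp only [dot, wedge, ev, ev', Prod.snd_add, Prod.smul_snd, smul_eq_mul]
    linear_combination -Z.2 * h

/-- right-hand side of the equation `dr/dθ` -/
noncomputable def rhs (p : ℝ × ℝ) (Z : ℝ × ℝ → ℝ × ℝ) (θ r : ℝ) : ℝ :=
  r * dot (pol p r θ - p) (Z (pol p r θ)) / wedge (pol p r θ - p) (Z (pol p r θ))

lemma wedge_pol_pos {p : ℝ × ℝ} {Z : ℝ × ℝ → ℝ × ℝ} {θ r : ℝ} (hr : 0 < r)
    (h : 0 < wedge (pol p r θ - p) (Z (pol p r θ))) : 0 < wedge (ev θ) (Z (pol p r θ)) := by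
  rw [pol_sub] at h
  have : wedge (r • ev θ) (Z (pol p r θ)) = r * wedge (ev θ) (Z (pol p r θ)) := by
    simp only [wedge, Prod.smul_fst, Prod.smul_snd, smul_eq_mul]; ring
  rw [this] at h
  exact pos_of_mul_pos_right h hr.le

/-- velocity of the curve in polar coordinates -/
lemma hasDerivAt_polar {p : ℝ × ℝ} {Z : ℝ × ℝ → ℝ × ℝ} {ρ : ℝ → ℝ} {θ : ℝ} {s : Set ℝ}
    (hρ : 0 < ρ θ) (hw : 0 < wedge (pol p (ρ θ) θ - p) (Z (pol p (ρ θ) θ)))
    (hd : HasDerivWithinAt ρ (rhs p Z θ (ρ θ)) s θ) :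
    HasDerivWithinAt (fun θ => pol p (ρ θ) θ)
      ((ρ θ ^ 2 / wedge (pol p (ρ θ) θ - p) (Z (pol p (ρ θ) θ))) • Z (pol p (ρ θ) θ)) s θ := by
  have h1 := (hd.smul (hasDerivAt_ev θ).hasDerivWithinAt).const_add p
  refine (h1.congr_deriv ?_)
  have hw' := wedge_pol_pos hρ hw
  set z := pol p (ρ θ) θ with hz
  set r := ρ θ with hr
  have e1 : wedge (z - p) (Z z) = r * wedge (ev θ) (Z z) := by
    rw [hz, pol_sub]
    simp only [wedge, Prod.smul_fst, Prod.smul_snd, smul_eq_mul]; ring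
  have e2 : dot (z - p) (Z z) = r * dot (ev θ) (Z z) := by
    rw [hz, pol_sub]
    simp only [dot, Prod.smul_fst, Prod.smul_snd, smul_eq_mul]; ring
  have e3 : rhs p Z θ r = r * dot (ev θ) (Z z) / wedge (ev θ) (Z z) := by
    unfold rhs
    rw [← hz, e1, e2]
    field_simp
  rw [e3, e1]
  conv_rhs => rw [decomp θ (Z z)]
  rw [smul_add, smul_smul, smul_smul, add_comm]
  congr 1
  · congr 1
    rw [← decomp θ (Z z)]
    field_simp
  · congr 1
    rw [← decomp θ (Z z)]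
    field_simp

/-- a closed curve in polar coordinates which solves the polar equation is a closed orbit -/
lemma closedOrbit_polar {p : ℝ × ℝ} {Z : ℝ × ℝ → ℝ × ℝ} {ρ : ℝ → ℝ} (hρ : ∀ θ, 0 < ρ θ)
    (hw : ∀ θ, 0 < wedge (pol p (ρ θ) θ - p) (Z (pol p (ρ θ) θ)))
    (hper : ∀ θ, ρ (θ + 2 * Real.pi) = ρ θ)
    (hd : ∀ θ, HasDerivAt ρ (rhs p Z θ (ρ θ)) θ)
    (hZ : ∀ θ, ContinuousAt Z (pol p (ρ θ) θ)) :
    ClosedOrbit Z (range fun θ => pol p (ρ θ) θ) := by
  have hρc : Continuous ρ := continuous_iff_continuousAt.2 fun θ => (hd θ).continuousAt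
  have hγc : Continuous fun θ => pol p (ρ θ) θ := by
    unfold pol
    exact continuous_const.add (hρc.smul continuous_ev)
  have hZc : Continuous fun θ => Z (pol p (ρ θ) θ) := by
    rw [continuous_iff_continuousAt]
    intro θ
    exact (hZ θ).comp (f := fun θ => pol p (ρ θ) θ) hγc.continuousAt
  have hγper : ∀ θ, pol p (ρ (θ + 2 * Real.pi)) (θ + 2 * Real.pi) = pol p (ρ θ) θ := by
    intro θ
    rw [hper]
    simp [pol, ev]
  have hwc : Continuous fun θ => wedge (pol p (ρ θ) θ - p) (Z (pol p (ρ θ) θ)) := by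
    unfold wedge
    have h1 := hγc.sub (continuous_const (y := p))
    exact (h1.fst.mul hZc.snd).sub (h1.snd.mul hZc.fst)
  refine closedOrbit_of_reparam
    (g := fun θ => ρ θ ^ 2 / wedge (pol p (ρ θ) θ - p) (Z (pol p (ρ θ) θ))) (S := 2 * Real.pi)
    ?_ ?_ Real.two_pi_pos hγper ?_ ?_ ?_
  · exact (hρc.pow 2).div hwc fun θ => (hw θ).ne'
  · intro θ
    have := hρ θ
    have := hw θ
    positivity
  · intro θ
    show ρ (θ + 2 * Real.pi) ^ 2 / wedge (pol p (ρ (θ + 2 * Real.pi)) (θ + 2 * Real.pi) - p)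
      (Z (pol p (ρ (θ + 2 * Real.pi)) (θ + 2 * Real.pi))) = _
    rw [hγper θ, hper θ]
  · intro θ
    have := hasDerivAt_polar (hρ θ) (hw θ) (hd θ).hasDerivWithinAt (s := univ)
    rwa [hasDerivWithinAt_univ] at this
  · refine ⟨0, Real.pi, ?_⟩
    intro h
    have h1 := congrArg Prod.fst h
    simp only [pol, ev, Real.cos_zero, Real.cos_pi, Prod.fst_add, Prod.smul_fst, smul_eq_mul] at h1
    have := hρ 0
    have := hρ Real.pi
    linarith

/-- flow of a bounded Lipschitz scalar equation on an interval -/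
lemma flow_exists {f : ℝ → ℝ → ℝ} {T : ℝ} (hT : 0 ≤ T) {L K : ℝ≥0}
    (hc : ∀ x, ContinuousOn (fun θ => f θ x) (Icc 0 T))
    (hlip : ∀ θ ∈ Icc 0 T, LipschitzWith K (f θ)) (hb : ∀ θ ∈ Icc 0 T, ∀ x, |f θ x| ≤ L)
    (B : ℝ≥0) :
    ∃ α : ℝ → ℝ → ℝ, (∀ x ∈ Icc (-(B:ℝ)) B, α x 0 = x ∧
      ∀ θ ∈ Icc 0 T, HasDerivWithinAt (α x) (f θ (α x θ)) (Icc 0 T) θ) ∧
      ContinuousOn (fun x => α x T) (Icc (-(B:ℝ)) B) := by
  have hPL : IsPicardLindelof f (⟨0, left_mem_Icc.2 hT⟩ : Icc (0:ℝ) T) 0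
      (B + L * T.toNNReal) B L K := by
    refine ⟨fun θ hθ => (hlip θ hθ).lipschitzOnWith, fun x _ => hc x,
      fun θ hθ x _ => hb θ hθ x, ?_⟩
    simp only [sub_zero, sub_self, NNReal.coe_add, NNReal.coe_mul, Real.coe_toNNReal T hT]
    rw [max_eq_left hT]
    linarith
  obtain ⟨α, h1, K', h2⟩ := hPL.exists_forall_mem_closedBall_eq_hasDerivWithinAt_lipschitzOnWith
  have e : Metric.closedBall (0:ℝ) B = Icc (-(B:ℝ)) B := by
    rw [Real.closedBall_eq_Icc]; simp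
  rw [e] at h1 h2
  exact ⟨α, h1, (h2 T (right_mem_Icc.2 hT)).continuousOn⟩

/-- periodic extension of a solution -/
lemma periodic_glue {f : ℝ → ℝ → ℝ} {T : ℝ} (hT : 0 < T) (hf : ∀ θ x, f (θ + T) x = f θ x)
    {r : ℝ → ℝ} (hr : ∀ θ ∈ Icc 0 T, HasDerivWithinAt r (f θ (r θ)) (Icc 0 T) θ)
    (h0 : r T = r 0) :
    ∃ ρ : ℝ → ℝ, (∀ θ, ρ (θ + T) = ρ θ) ∧ (∀ θ, HasDerivAt ρ (f θ (ρ θ)) θ) ∧
      EqOn ρ r (Icc 0 T) := by
  set ρ : ℝ → ℝ := fun θ => r (toIcoMod hT 0 θ) with hρ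
  have hfn : ∀ (n : ℤ) θ x, f (θ - n * T) x = f θ x := by
    intro n θ x
    have h1 : Function.Periodic (fun θ => f θ x) T := fun θ => hf θ x
    exact (h1.sub_int_mul_eq n)
  have hper : ∀ θ, ρ (θ + T) = ρ θ := by
    intro θ
    simp only [hρ, toIcoMod_add_right]
  have hpern : ∀ (n : ℤ) θ, ρ (θ - n * T) = ρ θ := fun n θ =>
    (show Function.Periodic ρ T from hper).sub_int_mul_eq n
  have hbase : EqOn ρ r (Icc 0 T) := by
    intro θ hθ
    rcases eq_or_lt_of_le hθ.2 with h | h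
    · have h2 : toIcoMod hT 0 T = 0 := by
        have := toIcoMod_add_right hT 0 0
        rw [zero_add] at this
        rw [this]
        exact toIcoMod_apply_left hT 0
      simp only [hρ, h, h2, h0]
    · have : toIcoMod hT 0 θ = θ := (toIcoMod_eq_self hT).2 ⟨hθ.1, by simpa using h⟩
      simp only [hρ, this]
  have hshift : ∀ n : ℤ, EqOn ρ (fun θ => r (θ - n * T)) (Icc (n * T) ((n + 1) * T)) := by
    intro n θ hθ
    show ρ θ = r (θ - n * T)
    rw [← hpern n θ]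
    refine hbase ⟨by linarith [hθ.1], ?_⟩
    have := hθ.2
    linarith
  have hwithin : ∀ (n : ℤ), ∀ θ ∈ Icc ((n:ℝ) * T) ((n + 1) * T),
      HasDerivWithinAt ρ (f θ (ρ θ)) (Icc ((n:ℝ) * T) ((n + 1) * T)) θ := by
    intro n θ hθ
    have hm : θ - n * T ∈ Icc 0 T := ⟨by linarith [hθ.1], by linarith [hθ.2]⟩
    have h1 := hr _ hm
    have h2 : HasDerivWithinAt (fun θ => r (θ - n * T)) (f (θ - n * T) (r (θ - n * T)))
        (Icc ((n:ℝ) * T) ((n + 1) * T)) θ := by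
      have h3 : HasDerivWithinAt (fun θ : ℝ => θ - n * T) 1 (Icc ((n:ℝ) * T) ((n + 1) * T)) θ :=
        ((hasDerivAt_id θ).sub_const _).hasDerivWithinAt
      have hmap : MapsTo (fun θ : ℝ => θ - n * T) (Icc ((n:ℝ) * T) ((n + 1) * T)) (Icc 0 T) :=
        fun x hx => ⟨by simp only; linarith [hx.1], by simp only; linarith [hx.2]⟩
      have h4 := HasDerivWithinAt.comp θ h1 h3 hmap
      rwa [mul_one] at h4
    rw [hfn n θ] at h2
    have h5 := hshift n hθ
    simp only at h5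
    rw [← h5] at h2
    exact h2.congr (hshift n) h5
  refine ⟨ρ, hper, fun θ => ?_, hbase⟩
  have hright : HasDerivWithinAt ρ (f θ (ρ θ)) (Ici θ) θ := by
    set n : ℤ := ⌊θ / T⌋ with hn
    have h1 : (n:ℝ) * T ≤ θ := by
      rw [← le_div_iff₀ hT]; exact Int.floor_le _
    have h2 : θ < (n + 1) * T := by
      rw [← div_lt_iff₀ hT]; exact Int.lt_floor_add_one _
    have h3 := hwithin n θ ⟨h1, h2.le⟩
    refine h3.mono_of_mem_nhdsWithin ?_
    refine mem_of_superset (Icc_mem_nhdsGE h2) ?_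
    exact Icc_subset_Icc_left h1
  have hleft : HasDerivWithinAt ρ (f θ (ρ θ)) (Iic θ) θ := by
    set n : ℤ := ⌈θ / T⌉ - 1 with hn
    have h1 : (n:ℝ) * T < θ := by
      rw [← lt_div_iff₀ hT, hn]
      push_cast
      have := Int.ceil_lt_add_one (θ / T)
      linarith
    have h2 : θ ≤ (n + 1) * T := by
      rw [← div_le_iff₀ hT, hn]
      push_cast
      have := Int.le_ceil (θ / T)
      linarith
    have h3 := hwithin n θ ⟨h1.le, h2⟩
    refine h3.mono_of_mem_nhdsWithin ?_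
    refine mem_of_superset (Icc_mem_nhdsLE h1) ?_
    exact Icc_subset_Icc_right h2
  have := hleft.union hright
  rwa [Iic_union_Ici, hasDerivWithinAt_univ] at this

end Pool.Agent.Y300
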