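import Pool.Agent.Y300.Fold

/-! Classes of polynomial functions of two variables given by a weighted degree. -/

set_option autoImplicit false

open Set MeasureTheory Topology Filter
open scoped NNReal

namespace Pool.Agent.Y300

/-- a monomial -/
def mo (α β : ℕ) (z : ℝ × ℝ) : ℝ := z.1 ^ α * z.2 ^ β

/-- combinations of the monomials `x ^ α y ^ β` with `a α + b β + c ≤ B` -/
def Pw (a b c B : ℕ) : Submodule ℝ (ℝ × ℝ → ℝ) :=
  Submodule.span ℝ {f | ∃ α β : ℕ, a * α + b * β + c ≤ B ∧ f = mo α β}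

lemma mo_mem {a b c B α β : ℕ} (h : a * α + b * β + c ≤ B) : mo α β ∈ Pw a b c B :=
  Submodule.subset_span ⟨α, β, h, rfl⟩

lemma contDiff_mo (α β : ℕ) {n : WithTop ℕ∞} : ContDiff ℝ n (mo α β) := by
  unfold mo; fun_prop

lemma contDiff_of_mem {a b c B : ℕ} {f : ℝ × ℝ → ℝ} (hf : f ∈ Pw a b c B) {n : WithTop ℕ∞} :
    ContDiff ℝ n f := by
  induction hf using Submodule.span_induction with
  | mem f h =>
    obtain ⟨α, β, -, rfl⟩ := h
    exact contDiff_mo α β
  | zero => exact contDiff_const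
  | add f g _ _ h1 h2 => exact h1.add h2
  | smul t f _ h1 => exact h1.const_smul t

/-- a linear map between classes -/
lemma map_mem {a b c B a' b' c' B' : ℕ} (L : (ℝ × ℝ → ℝ) →ₗ[ℝ] (ℝ × ℝ → ℝ))
    (h : ∀ α β : ℕ, a * α + b * β + c ≤ B → L (mo α β) ∈ Pw a' b' c' B')
    {f : ℝ × ℝ → ℝ} (hf : f ∈ Pw a b c B) : L f ∈ Pw a' b' c' B' := by
  have h1 : Pw a b c B ≤ (Pw a' b' c' B').comap L := by
    refine Submodule.span_le.2 ?_
    rintro g ⟨α, β, h2, rfl⟩
    exact h α β h2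
  exact h1 hf

lemma fold_mem {a b c B : ℕ} {f : ℝ × ℝ → ℝ} (hf : f ∈ Pw a b c B) :
    (fun z => f (fo z)) ∈ Pw a (2 * b) (2 * c) (2 * B) := by
  refine map_mem (LinearMap.funLeft ℝ ℝ fo) (fun α β h => ?_) hf
  have e : (LinearMap.funLeft ℝ ℝ fo) (mo α β) =
      ∑ m ∈ Finset.range (α + 1), ((-2) ^ (α - m) * (α.choose m : ℝ)) • mo (2 * m) β := by
    funext z
    rw [LinearMap.funLeft_apply, Finset.sum_apply]
    simp only [mo, fo, Pi.smul_apply, smul_eq_mul]
    rw [show z.1 ^ 2 - 2 = z.1 ^ 2 + (-2) by ring, add_pow, Finset.sum_mul]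
    refine Finset.sum_congr rfl fun m _ => ?_
    rw [pow_mul]
    ring
  rw [e]
  refine Submodule.sum_mem _ fun m hm => Submodule.smul_mem _ _ (mo_mem ?_)
  have hm' : m ≤ α := by
    have := Finset.mem_range.1 hm
    omega
  have : a * m ≤ a * α := Nat.mul_le_mul_left a hm'
  calc a * (2 * m) + 2 * b * β + 2 * c = 2 * (a * m + b * β + c) := by ring
    _ ≤ 2 * B := by omega

lemma mulx_mem {a b c B : ℕ} {f : ℝ × ℝ → ℝ} (hf : f ∈ Pw a b (c + a) B) (t : ℝ) :
    (fun z => t * z.1 * f z) ∈ Pw a b c B := by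
  refine map_mem (LinearMap.mulLeft ℝ (fun z : ℝ × ℝ => t * z.1)) (fun α β h => ?_) hf
  have e : (LinearMap.mulLeft ℝ (fun z : ℝ × ℝ => t * z.1)) (mo α β) = t • mo (α + 1) β := by
    funext z
    simp only [LinearMap.mulLeft_apply, Pi.mul_apply, mo, Pi.smul_apply, smul_eq_mul]
    ring
  rw [e]
  refine Submodule.smul_mem _ _ (mo_mem ?_)
  rw [mul_add, mul_one]
  omega

lemma swap_mem {a b c B : ℕ} {f : ℝ × ℝ → ℝ} (hf : f ∈ Pw a b c B) :
    (fun z => f z.swap) ∈ Pw b a c B := by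
  refine map_mem (LinearMap.funLeft ℝ ℝ Prod.swap) (fun α β h => ?_) hf
  have e : (LinearMap.funLeft ℝ ℝ Prod.swap) (mo α β) = mo β α := by
    funext z
    simp only [LinearMap.funLeft_apply, mo, Prod.fst_swap, Prod.snd_swap]
    ring
  rw [e]
  exact mo_mem (by omega)

lemma Pw_mono {a b c B c' B' : ℕ} (hc : c' ≤ c) (hB : B ≤ B') : Pw a b c B ≤ Pw a b c' B' := by
  refine Submodule.span_mono ?_
  rintro g ⟨α, β, h2, rfl⟩
  exact ⟨α, β, by omega, rfl⟩

lemma hasFDerivAt_mo (α β : ℕ) (z : ℝ × ℝ) :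
    HasFDerivAt (mo α β) ((z.1 ^ α * (β * z.2 ^ (β - 1))) • ContinuousLinearMap.snd ℝ ℝ ℝ +
      (z.2 ^ β * (α * z.1 ^ (α - 1))) • ContinuousLinearMap.fst ℝ ℝ ℝ) z := by
  have h1 := ((hasFDerivAt_fst (𝕜 := ℝ) (E := ℝ) (F := ℝ) (p := z)).pow α)
  have h2 := ((hasFDerivAt_snd (𝕜 := ℝ) (E := ℝ) (F := ℝ) (p := z)).pow β)
  have h3 := h1.mul h2
  refine h3.congr_fderiv ?_
  rw [smul_smul, smul_smul]
  simp only [nsmul_eq_mul]

lemma fderiv_fst_mem {a b c B : ℕ} {f : ℝ × ℝ → ℝ} (hf : f ∈ Pw a b c B) :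
    (fun z => fderiv ℝ f z (1, 0)) ∈ Pw a b (c + a) B := by
  induction hf using Submodule.span_induction with
  | mem f h =>
    obtain ⟨α, β, h, rfl⟩ := h
    have e : (fun z => fderiv ℝ (mo α β) z (1, 0)) = (α : ℝ) • mo (α - 1) β := by
      funext z
      rw [(hasFDerivAt_mo α β z).fderiv]
      simp [mo]
      ring
    rw [e]
    rcases Nat.eq_zero_or_pos α with h0 | h0
    · rw [h0]; simp
    · refine Submodule.smul_mem _ _ (mo_mem ?_)
      obtain ⟨k, rfl⟩ : ∃ k, α = k + 1 := ⟨α - 1, by omega⟩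
      rw [Nat.add_sub_cancel]
      rw [mul_add, mul_one] at h
      omega
  | zero =>
    simp only [fderiv_zero, Pi.zero_apply, zero_apply]
    exact Submodule.zero_mem _
  | add f g hf hg h1 h2 =>
    have e : (fun z => fderiv ℝ (f + g) z (1, 0)) = (fun z => fderiv ℝ f z (1, 0)) +
        fun z => fderiv ℝ g z (1, 0) := by
      funext z
      rw [fderiv_add ((contDiff_of_mem hf (n := 1)).differentiable (by norm_num) z)
        ((contDiff_of_mem hg (n := 1)).differentiable (by norm_num) z)]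
      simp
    rw [e]
    exact Submodule.add_mem _ h1 h2
  | smul t f hf h1 =>
    have e : (fun z => fderiv ℝ (t • f) z (1, 0)) = t • (fun z => fderiv ℝ f z (1, 0)) := by
      funext z
      rw [fderiv_const_smul ((contDiff_of_mem hf (n := 1)).differentiable (by norm_num) z)]
      simp
    rw [e]
    exact Submodule.smul_mem _ _ h1

lemma fderiv_snd_mem {a b c B : ℕ} {f : ℝ × ℝ → ℝ} (hf : f ∈ Pw a b c B) :
    (fun z => fderiv ℝ f z (0, 1)) ∈ Pw a b (c + b) B := by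
  have h1 := fderiv_fst_mem (swap_mem hf)
  have h2 := swap_mem h1
  convert h2 using 2 with z
  rw [fderiv_swap_comp ((contDiff_of_mem hf (n := 1)).differentiable (by norm_num))]
  rfl

lemma const_mul_mem {a b c B : ℕ} {f : ℝ × ℝ → ℝ} (hf : f ∈ Pw a b c B) (t : ℝ) :
    (fun z => t * f z) ∈ Pw a b c B := Submodule.smul_mem _ t hf

/-- conversion to multivariate polynomials -/
lemma exists_mv {D : ℕ} (hD : 0 < D) {f : ℝ × ℝ → ℝ} (hf : f ∈ Pw D D D (D * D)) :
    ∃ P : MvPolynomial (Fin 2) ℝ, P.totalDegree ≤ D - 1 ∧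
      ∀ z : ℝ × ℝ, MvPolynomial.eval ![z.1, z.2] P = f z := by
  induction hf using Submodule.span_induction with
  | mem f h =>
    obtain ⟨α, β, h, rfl⟩ := h
    refine ⟨MvPolynomial.X 0 ^ α * MvPolynomial.X 1 ^ β, ?_, fun z => by simp [mo]⟩
    have h1 : D * (α + β + 1) ≤ D * D := by
      calc D * (α + β + 1) = D * α + D * β + D := by ring
        _ ≤ _ := h
    have h2 : α + β + 1 ≤ D := Nat.le_of_mul_le_mul_left h1 hD
    refine (MvPolynomial.totalDegree_mul _ _).trans ?_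
    have h3 : (MvPolynomial.X 0 ^ α : MvPolynomial (Fin 2) ℝ).totalDegree ≤ α := by
      simp [MvPolynomial.totalDegree_X_pow]
    have h4 : (MvPolynomial.X 1 ^ β : MvPolynomial (Fin 2) ℝ).totalDegree ≤ β := by
      simp [MvPolynomial.totalDegree_X_pow]
    omega
  | zero => exact ⟨0, by simp, fun z => by simp⟩
  | add f g _ _ h1 h2 =>
    obtain ⟨P, hP, hP'⟩ := h1
    obtain ⟨Q, hQ, hQ'⟩ := h2
    exact ⟨P + Q, (MvPolynomial.totalDegree_add _ _).trans (max_le hP hQ), fun z => by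
      simp [hP', hQ']⟩
  | smul t f _ h1 =>
    obtain ⟨P, hP, hP'⟩ := h1
    exact ⟨t • P, (MvPolynomial.totalDegree_smul_le _ _).trans hP, fun z => by
      simp [MvPolynomial.smul_eval, hP']⟩

end Pool.Agent.Y300
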