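import Pool.Agent.Y300.Stage

/-! Preparations for the folding step. -/

set_option autoImplicit false

open Set MeasureTheory Topology Filter
open scoped NNReal

namespace Pool.Agent.Y300

lemma exists_inj {α : Type*} {S : Set α} {n : ℕ} (h : (n : ℕ∞) ≤ S.encard) :
    ∃ F : Fin n → α, Function.Injective F ∧ ∀ i, F i ∈ S := by
  classical
  obtain ⟨T, hT, hcard⟩ := Set.exists_subset_encard_eq h
  have hfin : T.Finite := Set.finite_of_encard_eq_coe hcard
  have h1 : hfin.toFinset.card = n := by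
    have := hfin.encard_eq_coe_toFinset_card
    rw [hcard] at this
    exact_mod_cast this.symm
  refine ⟨fun i => (hfin.toFinset.equivFinOfCardEq h1).symm i, fun i j hij => ?_, fun i => ?_⟩
  · exact (hfin.toFinset.equivFinOfCardEq h1).symm.injective (Subtype.ext hij)
  · exact hT (hfin.mem_toFinset.1 ((hfin.toFinset.equivFinOfCardEq h1).symm i).2)

/-- enumeration of a finite set of indices in decreasing order -/
lemma exists_enum {n : ℕ} (R : Finset (Fin n)) (hne : R.Nonempty) :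
    ∃ idx : ℕ → Fin n, (∀ i < R.card, idx i ∈ R) ∧ (∀ i, i + 1 < R.card → idx (i + 1) < idx i) ∧
      ∀ i < R.card, (R.filter fun l => idx i < l).card = i := by
  classical
  have hpos : 0 < R.card := Finset.card_pos.2 hne
  set e := R.orderEmbOfFin rfl with he
  set idx : ℕ → Fin n := fun i => e ⟨R.card - 1 - i, by omega⟩ with hidx
  refine ⟨idx, fun i _ => R.orderEmbOfFin_mem rfl _, fun i hi => ?_, fun i hi => ?_⟩
  · simp only [hidx]
    apply e.strictMono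
    rw [Fin.mk_lt_mk]
    omega
  · have h1 : R.filter (fun l => idx i < l) =
        (Finset.Ioi (⟨R.card - 1 - i, by omega⟩ : Fin R.card)).map e.toEmbedding := by
      ext l
      rw [Finset.mem_filter, Finset.mem_map]
      constructor
      · rintro ⟨h2, h3⟩
        have h4 : l ∈ Set.range e := by
          rw [he, R.range_orderEmbOfFin rfl]
          exact h2
        obtain ⟨x, rfl⟩ := h4
        refine ⟨x, ?_, rfl⟩
        rw [Finset.mem_Ioi]
        exact e.lt_iff_lt.1 h3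
      · rintro ⟨x, hx, rfl⟩
        rw [Finset.mem_Ioi] at hx
        exact ⟨R.orderEmbOfFin_mem rfl _, e.lt_iff_lt.2 hx⟩
    rw [h1, Finset.card_map, Fin.card_Ioi]
    simp only
    omega

/-- a tangency point on the fold line gives a nondegenerate extremum -/
lemma exists_ctr_sign {H : ℝ × ℝ → ℝ} (hH : ContDiff ℝ 2 H) {t₀ : ℝ} (ht : t₀ ∈ TL H) :
    ∃ σ : ℝ, (σ = 1 ∨ σ = -1) ∧ ∃ α β r₀ lam : ℝ, 0 < r₀ ∧ ∀ r, 0 < r → r ≤ r₀ →
      Ctr (fun z => σ * H (fo z)) (0, t₀) α β r lam := by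
  obtain ⟨-, h1, h2⟩ := ht
  have hHd := hH.differentiable (by norm_num : (2 : WithTop ℕ∞) ≠ 0)
  have hd : ∀ t : ℝ, deriv (fun t => H (-2, t)) t = fderiv ℝ H (-2, t) (0, 1) := by
    intro t
    have h3 : HasDerivAt (fun t : ℝ => ((-2 : ℝ), t)) (0, 1) t :=
      (hasDerivAt_const t (-2 : ℝ)).prodMk (hasDerivAt_id t)
    exact ((hHd _).hasFDerivAt.comp_hasDerivAt t h3).deriv
  set Hy : ℝ × ℝ → ℝ := fun z => fderiv ℝ H z (0, 1) with hHy
  have hHyd : Differentiable ℝ Hy :=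
    ((hH.fderiv_right (m := 1) (by norm_num)).clm_apply contDiff_const).differentiable
      (by norm_num)
  have hdd : ∀ t : ℝ, deriv (deriv fun t => H (-2, t)) t = fderiv ℝ Hy (-2, t) (0, 1) := by
    intro t
    have e : (deriv fun t => H (-2, t)) = fun t => Hy (-2, t) := by
      funext t; exact hd t
    rw [e]
    have h3 : HasDerivAt (fun t : ℝ => ((-2 : ℝ), t)) (0, 1) t :=
      (hasDerivAt_const t (-2 : ℝ)).prodMk (hasDerivAt_id t)
    exact ((hHyd _).hasFDerivAt.comp_hasDerivAt t h3).deriv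
  rw [hd] at h1
  rw [hdd] at h2
  have key : ∀ σ : ℝ, 0 < σ * fderiv ℝ H (-2, t₀) (1, 0) →
      0 < σ * fderiv ℝ Hy (-2, t₀) (0, 1) → ∃ α β r₀ lam : ℝ, 0 < r₀ ∧ ∀ r, 0 < r → r ≤ r₀ →
      Ctr (fun z => σ * H (fo z)) (0, t₀) α β r lam := by
    intro σ h3 h4
    have hs : ∀ z v, fderiv ℝ (fun z => σ * H z) z v = σ * fderiv ℝ H z v := by
      intro z v
      rw [fderiv_const_mul (hHd z)]
      rfl
    have hs2 : fderiv ℝ (fun z => fderiv ℝ (fun z => σ * H z) z (0, 1)) (-2, t₀) (0, 1) =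
        σ * fderiv ℝ Hy (-2, t₀) (0, 1) := by
      have e : (fun z => fderiv ℝ (fun z => σ * H z) z (0, 1)) = fun z => σ * Hy z := by
        funext z; exact hs z _
      rw [e, fderiv_const_mul (hHyd _)]
      rfl
    obtain ⟨r₀, hr₀, lam, -, h5⟩ := exists_ctr (H := fun z => σ * H z) (t₀ := t₀)
      (contDiff_const.mul hH) (by rw [hs, h1, mul_zero]) (by rw [hs]; exact h3)
      (by rw [hs2]; exact h4)
    exact ⟨_, _, r₀, lam, hr₀, h5⟩
  rcases mul_pos_iff.1 h2 with ⟨h3, h4⟩ | ⟨h3, h4⟩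
  · exact ⟨1, Or.inl rfl, key 1 (by linarith) (by linarith)⟩
  · exact ⟨-1, Or.inr rfl, key (-1) (by linarith) (by linarith)⟩

lemma contDiff_fY {Z : ℝ × ℝ → ℝ × ℝ} {n : WithTop ℕ∞} (hZ : ContDiff ℝ n Z) :
    ContDiff ℝ n (fY Z) := by
  have h1 : ContDiff ℝ n fun z => Z (fo z) := hZ.comp contDiff_fo
  exact h1.fst.prodMk ((contDiff_const.mul contDiff_fst).mul h1.snd)

/-- divergence of the folded field -/
lemma dv_fY {Z : ℝ × ℝ → ℝ × ℝ} (hZ : ContDiff ℝ 1 Z) (z : ℝ × ℝ) :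
    dv (fY Z) z = 2 * z.1 * dv Z (fo z) := by
  have h1 : Differentiable ℝ fun z => (Z z).1 := (contDiff_fst.comp hZ).differentiable (by norm_num)
  have h2 : Differentiable ℝ fun z => (Z z).2 := (contDiff_snd.comp hZ).differentiable (by norm_num)
  unfold dv fY
  simp only
  have e1 : fderiv ℝ (fun z => (Z (fo z)).1) z (1, 0) =
      2 * z.1 * fderiv ℝ (fun z => (Z z).1) (fo z) (1, 0) := by
    rw [fderiv_fo_comp h1, clm_apply (fderiv ℝ (fun z => (Z z).1) (fo z))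
      (2 * z.1 * ((1:ℝ), (0:ℝ)).1, ((1:ℝ), (0:ℝ)).2)]
    ring
  have e2 : fderiv ℝ (fun z : ℝ × ℝ => 2 * z.1 * (Z (fo z)).2) z (0, 1) =
      2 * z.1 * fderiv ℝ (fun z => (Z z).2) (fo z) (0, 1) := by
    have h3 : HasFDerivAt (fun z : ℝ × ℝ => 2 * z.1) ((2:ℝ) • ContinuousLinearMap.fst ℝ ℝ ℝ) z :=
      hasFDerivAt_fst.const_mul 2
    have h4 : DifferentiableAt ℝ (fun z => (Z (fo z)).2) z :=
      (h2.comp ((contDiff_fo (n := 1)).differentiable (by norm_num))) z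
    have h5 : HasFDerivAt (fun z : ℝ × ℝ => 2 * z.1 * (Z (fo z)).2) _ z := h3.mul h4.hasFDerivAt
    rw [h5.fderiv]
    simp only [add_apply, smul_apply, smul_eq_mul, ContinuousLinearMap.coe_fst', mul_zero,
      add_zero]
    rw [fderiv_fo_comp h2, mul_zero]
  rw [e1, e2]
  ring

/-- the auxiliary field -/
def Xf (ν : ℕ) (z : ℝ × ℝ) : ℝ × ℝ := ((z.1 + 2) ^ ν, 0)

lemma contDiff_Xf (ν : ℕ) {n : WithTop ℕ∞} : ContDiff ℝ n (Xf ν) := by
  unfold Xf; fun_prop

lemma dv_Xf (ν : ℕ) (z : ℝ × ℝ) : dv (Xf ν) z = ν * (z.1 + 2) ^ (ν - 1) := by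
  unfold dv Xf
  have h1 : HasFDerivAt (fun z : ℝ × ℝ => (z.1 + 2) ^ ν)
      ((ν * (z.1 + 2) ^ (ν - 1)) • ContinuousLinearMap.fst ℝ ℝ ℝ) z := by
    have := ((hasFDerivAt_fst (𝕜 := ℝ) (E := ℝ) (F := ℝ) (p := z)).add_const 2).pow ν
    simpa using this
  simp only [h1.fderiv]
  simp

/-- divergence of the folded perturbed field -/
lemma dv_folded {Y : ℝ × ℝ → ℝ × ℝ} (hY : ContDiff ℝ 1 Y) {ν : ℕ} (hν : 1 ≤ ν) (c : ℝ)
    (z : ℝ × ℝ) :
    dv (fY (Y + c • Xf ν)) z = 2 * z.1 * dv Y (fo z) + c * (2 * ν * z.1 ^ (2 * ν - 1)) := by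
  rw [dv_fY (contDiff_pert' hY (contDiff_Xf ν) c), dv_pert hY (contDiff_Xf ν), dv_Xf]
  have e : (fo z).1 + 2 = z.1 ^ 2 := by simp [fo]
  rw [e, ← pow_mul]
  obtain ⟨k, rfl⟩ : ∃ k, ν = k + 1 := ⟨ν - 1, by omega⟩
  rw [show 2 * (k + 1) - 1 = 2 * (k + 1 - 1) + 1 by omega, pow_succ]
  ring

lemma pow_shift_mem {D E ν : ℕ} (h : D * ν + E ≤ D * E) :
    (fun z : ℝ × ℝ => (z.1 + 2) ^ ν) ∈ Pw D E E (D * E) := by
  have e : (fun z : ℝ × ℝ => (z.1 + 2) ^ ν) =
      ∑ m ∈ Finset.range (ν + 1), ((2:ℝ) ^ (ν - m) * (ν.choose m : ℝ)) • mo m 0 := by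
    funext z
    rw [Finset.sum_apply, add_pow]
    refine Finset.sum_congr rfl fun m _ => ?_
    simp only [mo, Pi.smul_apply, smul_eq_mul, pow_zero, mul_one]
    ring
  rw [e]
  refine Submodule.sum_mem _ fun m hm => Submodule.smul_mem _ _ (mo_mem ?_)
  have hm' : m ≤ ν := by
    have := Finset.mem_range.1 hm
    omega
  have : D * m ≤ D * ν := Nat.mul_le_mul_left D hm'
  omega

end Pool.Agent.Y300
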