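import Pool.Agent.Y300.Local
import Pool.Agent.Y300.Lin

/-! The functionals at the centres created by folding. -/

set_option autoImplicit false

open Set MeasureTheory Topology Filter
open scoped NNReal

namespace Pool.Agent.Y300

lemma contDiff_sum' {ι E : Type*} [NormedAddCommGroup E] [NormedSpace ℝ E] (s : Finset ι)
    {f : ι → ℝ × ℝ → E} {n : WithTop ℕ∞} (h : ∀ i, ContDiff ℝ n (f i)) :
    ContDiff ℝ n (∑ i ∈ s, f i) := by
  have e : ∑ i ∈ s, f i = fun z => ∑ i ∈ s, f i z := by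
    funext z; exact Finset.sum_apply z s f
  rw [e]
  exact ContDiff.sum fun i _ => h i

/-- odd functions have zero integral over a symmetric disc -/
lemma odd_integral {f : ℝ × ℝ → ℝ} {p : ℝ × ℝ} (hp : p.1 = 0) (r : ℝ)
    (hf : ∀ z : ℝ × ℝ, f (-z.1, z.2) = -f z) : ∫ z in Bl p r, f z = 0 := by
  set e : ℝ × ℝ ≃ᵐ ℝ × ℝ := (MeasurableEquiv.neg ℝ).prodCongr (MeasurableEquiv.refl ℝ) with he
  have hmp : MeasurePreserving e (volume : Measure (ℝ × ℝ)) volume :=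
    (Measure.measurePreserving_neg (volume : Measure ℝ)).prod (MeasurePreserving.id volume)
  have h1 : ∫ z in Bl p r, f z = ∫ z, (Bl p r).indicator f z :=
    (integral_indicator (measurableSet_Bl p r)).symm
  have h2 : ∫ z, (Bl p r).indicator f (e z) = ∫ z, (Bl p r).indicator f z :=
    hmp.integral_comp' _
  have h3 : ∀ z, (Bl p r).indicator f (e z) = -(Bl p r).indicator f z := by
    intro z
    have e1 : e z = (-z.1, z.2) := rfl
    rw [e1]
    have hmem : ((-z.1, z.2) : ℝ × ℝ) ∈ Bl p r ↔ z ∈ Bl p r := by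
      have : dot ((-z.1, z.2) - p) ((-z.1, z.2) - p) = dot (z - p) (z - p) := by
        simp only [dot, Prod.fst_sub, Prod.snd_sub, hp]
        ring
      simp only [Bl, mem_ofPred_eq, this]
    by_cases hz : z ∈ Bl p r
    · rw [indicator_of_mem hz, indicator_of_mem (hmem.2 hz), hf]
    · rw [indicator_of_notMem hz, indicator_of_notMem (fun h => hz (hmem.1 h)), neg_zero]
  simp only [h3] at h2
  rw [integral_neg] at h2
  rw [h1]
  linarith

/-- divergence directions -/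
def wfun (q : ℕ × ℕ) : ℝ × ℝ → ℝ := mo (2 * (q.1 - 1)) q.2

/-- fields with these divergences -/
noncomputable def Wfun (q : ℕ × ℕ) (z : ℝ × ℝ) : ℝ × ℝ :=
  (((2 * (q.1 - 1) + 1 : ℕ) : ℝ)⁻¹ * mo (2 * (q.1 - 1) + 1) q.2 z, 0)

/-- Hamiltonian directions -/
def Gfun (ν : ℕ) (q : ℕ × ℕ) : ℝ × ℝ → ℝ := mo (2 * (q.1 - ν) + 1) q.2

lemma contDiff_Wfun (q : ℕ × ℕ) {n : WithTop ℕ∞} : ContDiff ℝ n (Wfun q) :=
  (contDiff_const.mul (contDiff_mo _ _)).prodMk contDiff_const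

lemma dv_Wfun (q : ℕ × ℕ) (z : ℝ × ℝ) : dv (Wfun q) z = wfun q z := by
  unfold dv Wfun wfun
  have h1 : HasFDerivAt (fun z : ℝ × ℝ => ((2 * (q.1 - 1) + 1 : ℕ) : ℝ)⁻¹ *
      mo (2 * (q.1 - 1) + 1) q.2 z) _ z := (hasFDerivAt_mo (2 * (q.1 - 1) + 1) q.2 z).const_mul _
  simp only [h1.fderiv]
  simp only [fderiv_fun_const, Pi.zero_apply, zero_apply, add_zero]
  simp only [smul_apply, add_apply, ContinuousLinearMap.coe_fst',
    ContinuousLinearMap.coe_snd', smul_eq_mul, mul_zero, zero_add, mul_one, mo,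
    Nat.add_sub_cancel]
  have : ((2 * (q.1 - 1) + 1 : ℕ) : ℝ) ≠ 0 := by positivity
  field_simp

/-- main part of the functional -/
noncomputable def Trow (ν : ℕ) (σ : ℝ) (F : ℝ × ℝ → ℝ) (p : ℝ × ℝ) (r t : ℝ) (q : ℕ × ℕ) : ℝ :=
  if q.1 ≤ ν then σ * ∫ z in Bl p r, wfun q z * ph ((F z - F p) / t ^ 2)
  else -∫ z in Bl p r, (2 * ν * z.1 ^ (2 * ν - 1)) * Gfun ν q z * (ps ((F z - F p) / t ^ 2) / t ^ 2)

/-- the remaining part of the functional -/
noncomputable def Srow (ν : ℕ) (ρ : ℝ × ℝ → ℝ) (F : ℝ × ℝ → ℝ) (p : ℝ × ℝ) (r t : ℝ)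
    (q : ℕ × ℕ) : ℝ :=
  if q.1 ≤ ν then 0
  else -∫ z in Bl p r, ρ z * Gfun ν q z * (ps ((F z - F p) / t ^ 2) / t ^ 2)

/-- the limit constants -/
noncomputable def crow (ν : ℕ) (σ α β : ℝ) (o : ℕ) : ℝ :=
  if o ≤ ν then σ * ∫ ζ : ℝ × ℝ, ζ.1 ^ (2 * (o - 1)) * ph (α * ζ.1 ^ 2 + β * ζ.2 ^ 2)
  else -(2 * ν * ∫ ζ : ℝ × ℝ, ζ.1 ^ (2 * o) * ps (α * ζ.1 ^ 2 + β * ζ.2 ^ 2))

lemma crow_ne_zero {ν : ℕ} (hν : 1 ≤ ν) {σ α β : ℝ} (hσ : σ ≠ 0) (hα : 0 < α) (hβ : 0 < β) (o : ℕ) :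
    crow ν σ α β o ≠ 0 := by
  unfold crow
  split_ifs
  · exact mul_ne_zero hσ (moment_pos hα hβ continuous_ph (fun t ht => ph_zero ht) ph_nonneg
      one_pos ph_one_pos.ne' _).ne'
  · have h1 : (0:ℝ) < ν := by exact_mod_cast hν
    have h2 := moment_pos hα hβ continuous_ps (fun t ht => ps_zero fun h => absurd h.2 (not_lt.2 ht))
      ps_nonneg (t₀ := 3 / 2) (by norm_num) (by rw [ps_half]; norm_num) o
    have h3 : 0 < 2 * (ν:ℝ) * ∫ ζ : ℝ × ℝ, ζ.1 ^ (2 * o) * ps (α * ζ.1 ^ 2 + β * ζ.2 ^ 2) := by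
      positivity
    linarith

lemma Trow_lim {ν : ℕ} (hν : 1 ≤ ν) {σ : ℝ} {F : ℝ × ℝ → ℝ} {p : ℝ × ℝ} {α β r lam : ℝ}
    (h : Ctr F p α β r lam) (hp : p.1 = 0) {q : ℕ × ℕ} (hq : 1 ≤ q.1) :
    Tendsto (fun t => Trow ν σ F p r t q / t ^ (2 * q.1)) (𝓝[>] 0)
      (𝓝 (crow ν σ α β q.1 * p.2 ^ q.2)) := by
  have hg : Continuous fun z : ℝ × ℝ => z.2 ^ q.2 := by fun_prop
  unfold Trow crow
  split_ifs with hqν
  · have h1 := (h.scale hp hg continuous_ph (fun t ht => ph_zero ht) (q.1 - 1)).const_mul σ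
    have e : 2 * (q.1 - 1) + 2 = 2 * q.1 := by omega
    rw [e] at h1
    refine (h1.congr fun t => ?_).trans (le_of_eq ?_)
    · rw [mul_div_assoc]
      rfl
    · congr 1
      ring
  · have h1 := (h.scale hp hg continuous_ps
      (fun t ht => ps_zero fun h => absurd h.2 (not_lt.2 ht)) q.1).const_mul (-(2 * (ν:ℝ)))
    refine (h1.congr' ?_).trans (le_of_eq ?_)
    · filter_upwards [self_mem_nhdsWithin] with t ht
      have ht' : (0:ℝ) < t := ht
      have e1 : ∫ z in Bl p r, (2 * ν * z.1 ^ (2 * ν - 1)) * Gfun ν q z *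
          (ps ((F z - F p) / t ^ 2) / t ^ 2) = (2 * ν / t ^ 2) *
          ∫ z in Bl p r, z.1 ^ (2 * q.1) * z.2 ^ q.2 * ps ((F z - F p) / t ^ 2) := by
        rw [← integral_const_mul]
        refine integral_congr_ae (Eventually.of_forall fun z => ?_)
        simp only [Gfun, mo]
        have e2 : z.1 ^ (2 * q.1) = z.1 ^ (2 * ν - 1) * z.1 ^ (2 * (q.1 - ν) + 1) := by
          rw [← pow_add]
          congr 1
          omega
        rw [e2]
        ring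
      rw [e1, pow_add]
      field_simp
    · congr 1
      ring

lemma continuous_dv {Y : ℝ × ℝ → ℝ × ℝ} (hY : ContDiff ℝ 1 Y) : Continuous (dv Y) := by
  unfold dv
  exact (((contDiff_fst.comp hY).continuous_fderiv (by norm_num)).clm_apply
    continuous_const).add (((contDiff_snd.comp hY).continuous_fderiv (by norm_num)).clm_apply
    continuous_const)

lemma dv_smul {Y : ℝ × ℝ → ℝ × ℝ} (hY : ContDiff ℝ 1 Y) (c : ℝ) (z : ℝ × ℝ) :
    dv (c • Y) z = c * dv Y z := by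
  have h := dv_pert (Y := 0) contDiff_const hY c z
  rw [zero_add] at h
  rw [h]
  have : dv (0 : ℝ × ℝ → ℝ × ℝ) z = 0 := by
    simp [dv]
  rw [this, zero_add]

lemma dv_sum {ι : Type*} (s : Finset ι) (a : ι → ℝ) (W : ι → ℝ × ℝ → ℝ × ℝ)
    (hW : ∀ i, ContDiff ℝ 1 (W i)) (z : ℝ × ℝ) :
    dv (∑ i ∈ s, a i • W i) z = ∑ i ∈ s, a i * dv (W i) z := by
  classical
  induction s using Finset.induction_on with
  | empty => simp [dv]
  | insert i s hi ih =>
    rw [Finset.sum_insert hi, Finset.sum_insert hi, ← ih]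
    have hs : ContDiff ℝ 1 (∑ i ∈ s, a i • W i) :=
      contDiff_sum' _ fun i => (hW i).const_smul (a i)
    have h1 := dv_pert hs (hW i) (a i) z
    rw [add_comm, h1, add_comm]

/-- the functional on a combination of directions -/
lemma row_sum {ι : Type*} [Fintype ι] (Q : ι → ℕ × ℕ) {ν : ℕ} {σ : ℝ} (hσ : σ ^ 2 = 1)
    {F : ℝ × ℝ → ℝ} (hF : Continuous F) {p : ℝ × ℝ} {r t : ℝ} (hr : 0 ≤ r)
    {ρ : ℝ × ℝ → ℝ} (hρ : Continuous ρ) {Y : ℝ × ℝ → ℝ × ℝ} (hY : ContDiff ℝ 1 Y) {c τ : ℝ}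
    (hcτ : τ * c = 1)
    (hdv : ∀ z, dv Y z = ρ z + c * (2 * ν * z.1 ^ (2 * ν - 1))) (v : ι → ℝ) :
    ∫ z in Bl p r, (ph ((F z - F p) / t ^ 2) *
        dv (σ • ∑ i, (if (Q i).1 ≤ ν then v i else 0) • Wfun (Q i)) z -
      ps ((F z - F p) / t ^ 2) / t ^ 2 *
        (σ • ∑ i, (if (Q i).1 ≤ ν then 0 else τ * v i) • Gfun ν (Q i)) z * dv (σ • Y) z) =
      ∑ i, (Trow ν σ F p r t (Q i) + τ * Srow ν ρ F p r t (Q i)) * v i := by
  have hW1 : ContDiff ℝ 1 (∑ i, (if (Q i).1 ≤ ν then v i else 0) • Wfun (Q i)) :=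
    contDiff_sum' _ fun i =>
    (contDiff_Wfun (Q i)).const_smul (if (Q i).1 ≤ ν then v i else 0)
  have hc1 : Continuous fun z => (F z - F p) / t ^ 2 := by fun_prop
  have hph := continuous_ph.comp hc1
  have hps := (continuous_ps.comp hc1).div_const (t ^ 2)
  have hGc : ∀ i, Continuous (Gfun ν (Q i)) := fun i => (contDiff_mo _ _ (n := 0)).continuous
  have hwc : ∀ i, Continuous (wfun (Q i)) := fun i => (contDiff_mo _ _ (n := 0)).continuous
  have key : ∀ z, ph ((F z - F p) / t ^ 2) *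
        dv (σ • ∑ i, (if (Q i).1 ≤ ν then v i else 0) • Wfun (Q i)) z -
      ps ((F z - F p) / t ^ 2) / t ^ 2 *
        (σ • ∑ i, (if (Q i).1 ≤ ν then 0 else τ * v i) • Gfun ν (Q i)) z * dv (σ • Y) z =
      ∑ i, (if (Q i).1 ≤ ν then σ * v i * (wfun (Q i) z * ph ((F z - F p) / t ^ 2))
        else -(τ * v i * (ρ z * Gfun ν (Q i) z * (ps ((F z - F p) / t ^ 2) / t ^ 2))) -
          v i * ((2 * ν * z.1 ^ (2 * ν - 1)) * Gfun ν (Q i) z *
            (ps ((F z - F p) / t ^ 2) / t ^ 2))) := by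
    intro z
    rw [dv_smul hW1, dv_sum _ _ _ fun i => contDiff_Wfun _, dv_smul hY, hdv,
      Pi.smul_apply, Finset.sum_apply, smul_eq_mul, Finset.mul_sum, Finset.mul_sum,
      Finset.mul_sum, Finset.mul_sum, Finset.sum_mul, ← Finset.sum_sub_distrib]
    refine Finset.sum_congr rfl fun i _ => ?_
    rw [dv_Wfun, Pi.smul_apply, smul_eq_mul]
    split_ifs
    · ring
    · have : τ * v i * (c * (2 * ν * z.1 ^ (2 * ν - 1))) =
          v i * (2 * ν * z.1 ^ (2 * ν - 1)) := by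
        linear_combination v i * (2 * ν * z.1 ^ (2 * ν - 1)) * hcτ
      linear_combination (-(σ ^ 2) * Gfun ν (Q i) z *
        (ps ((F z - F p) / t ^ 2) / t ^ 2)) * this - (τ * v i *
        (ρ z * Gfun ν (Q i) z * (ps ((F z - F p) / t ^ 2) / t ^ 2)) + v i *
        ((2 * ν * z.1 ^ (2 * ν - 1)) * Gfun ν (Q i) z *
            (ps ((F z - F p) / t ^ 2) / t ^ 2))) * hσ
  simp only [key]
  have i1 : ∀ i, Continuous fun z => wfun (Q i) z * ph ((F z - F p) / t ^ 2) :=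
    fun i => (hwc i).mul hph
  have i2 : ∀ i, Continuous fun z => ρ z * Gfun ν (Q i) z * (ps ((F z - F p) / t ^ 2) / t ^ 2) :=
    fun i => (hρ.mul (hGc i)).mul hps
  have i3 : ∀ i, Continuous fun z : ℝ × ℝ => (2 * ν * z.1 ^ (2 * ν - 1)) * Gfun ν (Q i) z *
            (ps ((F z - F p) / t ^ 2) / t ^ 2) :=
    fun i => ((by fun_prop : Continuous fun z : ℝ × ℝ => 2 * (ν:ℝ) * z.1 ^ (2 * ν - 1)).mul
      (hGc i)).mul hps
  rw [integral_finsetSum]
  · refine Finset.sum_congr rfl fun i _ => ?_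
    unfold Trow Srow
    split_ifs
    · rw [integral_const_mul]
      ring
    · rw [integral_sub, integral_neg, integral_const_mul, integral_const_mul]
      · ring
      · exact (integrableOn_Bl ((i2 i).const_smul (τ * v i)) hr p).neg
      · exact integrableOn_Bl ((i3 i).const_smul (v i)) hr p
  · intro i _
    split_ifs
    · exact integrableOn_Bl ((i1 i).const_smul (σ * v i)) hr p
    · exact (integrableOn_Bl ((i2 i).const_smul (τ * v i)) hr p).neg.sub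
        (integrableOn_Bl ((i3 i).const_smul (v i)) hr p)

end Pool.Agent.Y300
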