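import Pool.Agent.Y300.Green

/-! Small levels near a nondegenerate minimum. -/

set_option autoImplicit false

open Set MeasureTheory Topology Filter
open scoped NNReal

namespace Pool.Agent.Y300

/-- weight -/
noncomputable def ps (t : ℝ) : ℝ := max 0 ((t - 1) * (2 - t))

/-- its integral -/
noncomputable def ph (t : ℝ) : ℝ := ∫ s in t..2, ps s

lemma continuous_ps : Continuous ps := by unfold ps; fun_prop

lemma ps_nonneg (t : ℝ) : 0 ≤ ps t := le_max_left _ _

lemma ps_zero {t : ℝ} (ht : t ∉ Ioo (1:ℝ) 2) : ps t = 0 := by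
  unfold ps
  rw [max_eq_left]
  rw [mem_Ioo, not_and_or, not_lt, not_lt] at ht
  rcases ht with h | h
  · exact mul_nonpos_of_nonpos_of_nonneg (by linarith) (by linarith)
  · exact mul_nonpos_of_nonneg_of_nonpos (by linarith) (by linarith)

lemma ps_half : ps (3 / 2) = 1 / 4 := by
  unfold ps
  norm_num

lemma ps_pos {t : ℝ} (ht : t ∈ Ioo (1:ℝ) 2) : 0 < ps t := by
  unfold ps
  rw [lt_max_iff]
  right
  exact mul_pos (by linarith [ht.1]) (by linarith [ht.2])

lemma hasDerivAt_ph (t : ℝ) : HasDerivAt ph (-ps t) t :=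
  intervalIntegral.integral_hasDerivAt_left (continuous_ps.intervalIntegrable _ _)
    continuous_ps.stronglyMeasurable.stronglyMeasurableAtFilter continuous_ps.continuousAt

lemma continuous_ph : Continuous ph :=
  continuous_iff_continuousAt.2 fun t => (hasDerivAt_ph t).continuousAt

lemma ph_zero {t : ℝ} (ht : 2 ≤ t) : ph t = 0 := by
  unfold ph
  rw [intervalIntegral.integral_congr (g := fun _ => 0)]
  · simp
  · intro s hs
    rw [uIcc_comm, uIcc_of_le ht] at hs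
    exact ps_zero fun h => absurd h.2 (not_lt.2 hs.1)

lemma ph_nonneg (t : ℝ) : 0 ≤ ph t := by
  rcases le_total t 2 with h | h
  · exact intervalIntegral.integral_nonneg h fun s _ => ps_nonneg s
  · rw [ph_zero h]

lemma ph_one_pos : 0 < ph 1 := by
  unfold ph
  exact intervalIntegral.intervalIntegral_pos_of_pos_on (continuous_ps.intervalIntegrable _ _)
    (fun x hx => ps_pos hx) (by norm_num)

/-- nondegenerate minimum with a disc -/
structure Ctr (F : ℝ × ℝ → ℝ) (p : ℝ × ℝ) (α β r lam : ℝ) : Prop where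
  hF : ContDiff ℝ 2 F
  r0 : 0 < r
  l0 : 0 < lam
  a0 : 0 < α
  b0 : 0 < β
  low : ∀ z, dot (z - p) (z - p) ≤ r ^ 2 → lam * dot (z - p) (z - p) ≤ F z - F p
  rad : ∀ z, dot (z - p) (z - p) ≤ r ^ 2 → z ≠ p → 0 < fderiv ℝ F z (z - p)
  lim : ∀ ζ : ℝ × ℝ, Tendsto (fun t : ℝ => (F (p + t • ζ) - F p) / t ^ 2) (𝓝[>] 0)
    (𝓝 (α * ζ.1 ^ 2 + β * ζ.2 ^ 2))

lemma dot_smul_smul (t : ℝ) (ζ : ℝ × ℝ) : dot (t • ζ) (t • ζ) = t ^ 2 * dot ζ ζ := by
  simp only [dot, Prod.smul_fst, Prod.smul_snd, smul_eq_mul]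
  ring

lemma Ctr.scale {F : ℝ × ℝ → ℝ} {p : ℝ × ℝ} {α β r lam : ℝ} (h : Ctr F p α β r lam)
    (hp : p.1 = 0) {g : ℝ × ℝ → ℝ} (hg : Continuous g) {Ψ : ℝ → ℝ} (hΨ : Continuous Ψ)
    (hΨ0 : ∀ t, 2 ≤ t → Ψ t = 0) (q : ℕ) :
    Tendsto (fun t : ℝ => (∫ z in Bl p r, z.1 ^ (2 * q) * g z * Ψ ((F z - F p) / t ^ 2)) /
      t ^ (2 * q + 2)) (𝓝[>] 0)
      (𝓝 (g p * ∫ ζ : ℝ × ℝ, ζ.1 ^ (2 * q) * Ψ (α * ζ.1 ^ 2 + β * ζ.2 ^ 2))) := by
  set f : ℝ → ℝ × ℝ → ℝ := fun t z => z.1 ^ (2 * q) * g z * Ψ ((F z - F p) / t ^ 2) with hf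
  set G : ℝ → ℝ × ℝ → ℝ := fun t ζ =>
    (Bl p r).indicator (fun z => g z * Ψ ((F z - F p) / t ^ 2)) (p + t • ζ) * ζ.1 ^ (2 * q) with hG
  have hfc : ∀ t, Continuous (fun z => g z * Ψ ((F z - F p) / t ^ 2)) := fun t =>
    hg.mul (hΨ.comp ((h.hF.continuous.sub continuous_const).div_const _))
  have hchange : ∀ t : ℝ, 0 < t → (∫ z in Bl p r, f t z) / t ^ (2 * q + 2) = ∫ ζ, G t ζ := by
    intro t ht
    have e1 : ∫ z in Bl p r, f t z = ∫ z, (Bl p r).indicator (f t) (p + z) := by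
      rw [integral_add_left_eq_self (fun z => (Bl p r).indicator (f t) z) p]
      exact (integral_indicator (measurableSet_Bl p r)).symm
    have e2 := Measure.integral_comp_smul (volume : Measure (ℝ × ℝ))
      (fun z => (Bl p r).indicator (f t) (p + z)) t
    have e3 : Module.finrank ℝ (ℝ × ℝ) = 2 := by simp
    rw [e3, abs_of_pos (by positivity), smul_eq_mul] at e2
    rw [e1]
    have e4 : (∫ z, (Bl p r).indicator (f t) (p + z)) =
        t ^ 2 * ∫ ζ, (Bl p r).indicator (f t) (p + t • ζ) := by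
      rw [e2]
      field_simp
    rw [e4, pow_add, mul_comm (t ^ (2 * q)), mul_div_mul_left _ _ (by positivity),
      ← integral_div]
    refine integral_congr_ae (Eventually.of_forall fun ζ => ?_)
    simp only [hG]
    by_cases hz : p + t • ζ ∈ Bl p r
    · rw [indicator_of_mem hz, indicator_of_mem hz]
      simp only [hf, Prod.fst_add, hp, zero_add, Prod.smul_fst, smul_eq_mul]
      rw [mul_pow]
      field_simp
    · rw [indicator_of_notMem hz, indicator_of_notMem hz]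
      simp
  have hev : (fun t : ℝ => (∫ z in Bl p r, f t z) / t ^ (2 * q + 2)) =ᶠ[𝓝[>] 0]
      fun t => ∫ ζ, G t ζ := by
    filter_upwards [self_mem_nhdsWithin] with t ht
    exact hchange t ht
  refine Tendsto.congr' hev.symm ?_
  rw [← integral_const_mul]
  -- bounds
  obtain ⟨Cg, hCg⟩ := (isCompact_ann (p := p) (r₁ := 0) h.r0.le).exists_bound_of_continuousOn
    hg.continuousOn
  obtain ⟨CΨ, hCΨ⟩ := (isCompact_Icc (a := (0:ℝ)) (b := 2)).exists_bound_of_continuousOn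
    hΨ.continuousOn
  have hCg0 : 0 ≤ Cg := (norm_nonneg _).trans (hCg p (by
    refine ⟨?_, ?_⟩ <;> simp [dot]
    positivity))
  have hCΨ0 : 0 ≤ CΨ := (norm_nonneg _).trans (hCΨ 0 ⟨le_rfl, by norm_num⟩)
  set ρ : ℝ := √(2 / lam) with hρ
  have hl := h.l0
  have hρ2 : ρ ^ 2 = 2 / lam := Real.sq_sqrt (by positivity)
  refine tendsto_integral_filter_of_dominated_convergence
    ((ann 0 0 ρ).indicator fun ζ => Cg * CΨ * ζ.1 ^ (2 * q)) ?_ ?_ ?_ ?_
  · refine Eventually.of_forall fun t => ?_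
    have h1 : Measurable fun ζ : ℝ × ℝ =>
        (Bl p r).indicator (fun z => g z * Ψ ((F z - F p) / t ^ 2)) (p + t • ζ) :=
      ((hfc t).measurable.indicator (measurableSet_Bl p r)).comp
        ((continuous_const.add (continuous_id.const_smul t)).measurable)
    exact (h1.mul (by fun_prop : Measurable fun ζ : ℝ × ℝ => ζ.1 ^ (2 * q))).aestronglyMeasurable
  · filter_upwards [self_mem_nhdsWithin] with t ht
    have ht' : (0:ℝ) < t := ht
    refine Eventually.of_forall fun ζ => ?_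
    simp only [hG]
    have hpow : (0:ℝ) ≤ ζ.1 ^ (2 * q) := by rw [pow_mul]; positivity
    have hmemann : ζ ∈ ann 0 0 ρ ↔ dot ζ ζ ≤ 2 / lam := by
      rw [ann, mem_ofPred_eq, sub_zero, hρ2]
      refine ⟨fun h => h.2, fun h => ⟨by simpa using dot_self_nonneg ζ, h⟩⟩
    by_cases hz : p + t • ζ ∈ Bl p r
    · rw [indicator_of_mem hz]
      have hz' : dot (p + t • ζ - p) (p + t • ζ - p) < r ^ 2 := hz
      have hlow := h.low _ hz'.le
      rw [add_sub_cancel_left, dot_smul_smul] at hlow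
      have hratio : lam * dot ζ ζ ≤ (F (p + t • ζ) - F p) / t ^ 2 := by
        rw [le_div_iff₀ (by positivity)]
        linarith
      by_cases hζ : ζ ∈ ann 0 0 ρ
      · rw [indicator_of_mem hζ, norm_mul, norm_mul, Real.norm_of_nonneg hpow]
        refine mul_le_mul_of_nonneg_right ?_ hpow
        refine mul_le_mul (hCg _ (Bl_subset_ann p r hz)) ?_ (norm_nonneg _) hCg0
        by_cases h2 : (F (p + t • ζ) - F p) / t ^ 2 ≤ 2
        · exact hCΨ _ ⟨(mul_nonneg hl.le (dot_self_nonneg ζ)).trans hratio, h2⟩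
        · rw [hΨ0 _ (not_le.1 h2).le, norm_zero]
          exact hCΨ0
      · rw [indicator_of_notMem hζ]
        rw [hmemann, not_le, div_lt_iff₀ hl] at hζ
        rw [hΨ0 _ (by linarith), mul_zero, zero_mul, norm_zero]
    · rw [indicator_of_notMem hz, zero_mul, norm_zero]
      apply indicator_nonneg
      intro ζ _
      rw [pow_mul]
      positivity
  · rw [integrable_indicator_iff (isCompact_ann (Real.sqrt_nonneg _)).measurableSet]
    exact (by fun_prop : Continuous fun ζ : ℝ × ℝ => Cg * CΨ * ζ.1 ^ (2 * q)).continuousOn.integrableOn_compact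
      (isCompact_ann (Real.sqrt_nonneg _))
  · refine Eventually.of_forall fun ζ => ?_
    have hline : Tendsto (fun t : ℝ => p + t • ζ) (𝓝[>] 0) (𝓝 p) := by
      have : Continuous fun t : ℝ => p + t • ζ := by fun_prop
      have h1 := this.tendsto 0
      rw [zero_smul, add_zero] at h1
      exact h1.mono_left nhdsWithin_le_nhds
    have hin : ∀ᶠ t in 𝓝[>] (0:ℝ), p + t • ζ ∈ Bl p r := by
      refine hline.eventually ((isOpen_Bl p r).mem_nhds ?_)
      show dot (p - p) (p - p) < r ^ 2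
      have := h.r0
      simp only [sub_self, dot, Prod.fst_zero, Prod.snd_zero, mul_zero, add_zero]
      positivity
    have h1 : Tendsto (fun t : ℝ => g (p + t • ζ) * Ψ ((F (p + t • ζ) - F p) / t ^ 2) *
        ζ.1 ^ (2 * q)) (𝓝[>] 0) (𝓝 (g p * Ψ (α * ζ.1 ^ 2 + β * ζ.2 ^ 2) * ζ.1 ^ (2 * q))) :=
      (((hg.tendsto p).comp hline).mul ((hΨ.tendsto _).comp (h.lim ζ))).mul_const _
    have h2 : g p * (ζ.1 ^ (2 * q) * Ψ (α * ζ.1 ^ 2 + β * ζ.2 ^ 2)) =
        g p * Ψ (α * ζ.1 ^ 2 + β * ζ.2 ^ 2) * ζ.1 ^ (2 * q) := by ring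
    rw [h2]
    refine h1.congr' ?_
    filter_upwards [hin] with t ht
    simp only [hG]
    rw [indicator_of_mem ht]

lemma moment_pos {α β : ℝ} (hα : 0 < α) (hβ : 0 < β) {Ψ : ℝ → ℝ} (hΨ : Continuous Ψ)
    (hΨ0 : ∀ t, 2 ≤ t → Ψ t = 0) (hpos : ∀ t, 0 ≤ Ψ t) {t₀ : ℝ} (ht₀ : 0 < t₀) (hne : Ψ t₀ ≠ 0)
    (q : ℕ) :
    0 < ∫ ζ : ℝ × ℝ, ζ.1 ^ (2 * q) * Ψ (α * ζ.1 ^ 2 + β * ζ.2 ^ 2) := by
  refine Continuous.integral_pos_of_hasCompactSupport_nonneg_nonzero
    (x := ((√(t₀ / α), 0) : ℝ × ℝ)) ?_ ?_ ?_ ?_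
  · fun_prop
  · refine HasCompactSupport.intro
      (isCompact_ann (p := 0) (r₁ := 0) (Real.sqrt_nonneg (2 / α + 2 / β))) ?_
    intro ζ hζ
    rw [hΨ0, mul_zero]
    by_contra hcon
    push Not at hcon
    apply hζ
    rw [ann, mem_ofPred_eq, sub_zero, Real.sq_sqrt (by positivity)]
    refine ⟨by simpa using dot_self_nonneg ζ, ?_⟩
    unfold dot
    have h1 : 0 ≤ α * ζ.1 ^ 2 := by positivity
    have h2 : 0 ≤ β * ζ.2 ^ 2 := by positivity
    have h3 : ζ.1 * ζ.1 ≤ 2 / α := by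
      rw [le_div_iff₀ hα]
      nlinarith
    have h4 : ζ.2 * ζ.2 ≤ 2 / β := by
      rw [le_div_iff₀ hβ]
      nlinarith
    linarith
  · intro ζ
    simp only [Pi.zero_apply]
    have := hpos (α * ζ.1 ^ 2 + β * ζ.2 ^ 2)
    rw [pow_mul]
    positivity
  · simp only
    rw [Real.sq_sqrt (by positivity), show α * (t₀ / α) + β * 0 ^ 2 = t₀ by field_simp; ring]
    refine mul_ne_zero (pow_ne_zero _ ?_) hne
    have : 0 < √(t₀ / α) := Real.sqrt_pos.2 (by positivity)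
    exact this.ne'

end Pool.Agent.Y300
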