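import Pool.Agent.Y300.Rows

/-! Stages of the construction; swapping; tangencies under folding and perturbation. -/

set_option autoImplicit false

open Set MeasureTheory Topology Filter
open scoped NNReal

namespace Pool.Agent.Y300

/-- tangencies on the left side -/
def TL (H : ℝ × ℝ → ℝ) : Set ℝ := Tn (fun t => H (-2, t)) (fun t => fderiv ℝ H (-2, t) (1, 0))

/-- tangencies on the right side -/
def TR (H : ℝ × ℝ → ℝ) : Set ℝ := Tn (fun t => H (2, t)) (fun t => -fderiv ℝ H (2, t) (1, 0))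

/-- tangencies on the lower side -/
def TB (H : ℝ × ℝ → ℝ) : Set ℝ := Tn (fun t => H (t, -2)) (fun t => fderiv ℝ H (t, -2) (0, 1))

/-- tangencies on the upper side -/
def TT (H : ℝ × ℝ → ℝ) : Set ℝ := Tn (fun t => H (t, 2)) (fun t => -fderiv ℝ H (t, 2) (0, 1))

/-- the open square -/
def sq : Set (ℝ × ℝ) := Ioo (-2) 2 ×ˢ Ioo (-2) 2

/-- a stage of the construction -/
def Stage (E D N a b : ℕ) : Prop :=
  ∃ (H Y₁ Y₂ : ℝ × ℝ → ℝ) (K : Set (ℝ × ℝ)), H ∈ Pw D E 0 (D * E) ∧ Y₁ ∈ Pw D E E (D * E) ∧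
    Y₂ ∈ Pw D E D (D * E) ∧ IsCompact K ∧ K ⊆ sq ∧ Many H (fun z => (Y₁ z, Y₂ z)) K N ∧
    (a : ℕ∞) ≤ (TL H).encard ∧ (a : ℕ∞) ≤ (TR H).encard ∧ (b : ℕ∞) ≤ (TB H).encard ∧
    (b : ℕ∞) ≤ (TT H).encard

section tangency

variable {H : ℝ × ℝ → ℝ}

lemma TL_swap (hH : Differentiable ℝ H) : TL (fun z => H z.swap) = TB H := by
  unfold TL TB
  congr 1
  funext t
  rw [fderiv_swap_comp hH]
  rfl

lemma TR_swap (hH : Differentiable ℝ H) : TR (fun z => H z.swap) = TT H := by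
  unfold TR TT
  congr 1
  funext t
  rw [fderiv_swap_comp hH]
  rfl

lemma TB_swap (hH : Differentiable ℝ H) : TB (fun z => H z.swap) = TL H := by
  unfold TL TB
  congr 1
  funext t
  rw [fderiv_swap_comp hH]
  rfl

lemma TT_swap (hH : Differentiable ℝ H) : TT (fun z => H z.swap) = TR H := by
  unfold TR TT
  congr 1
  funext t
  rw [fderiv_swap_comp hH]
  rfl

lemma TL_fold (hH : Differentiable ℝ H) : TR H ⊆ TL (fun z => H (fo z)) := by
  have h := Tn_scale (f := fun t => H (2, t)) (g := fun t => -fderiv ℝ H (2, t) (1, 0))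
    (c := 4) (by norm_num)
  refine h.trans (le_of_eq ?_)
  unfold TL
  have e : ∀ t : ℝ, fo (-2, t) = (2, t) := fun t => by simp only [fo]; norm_num
  congr 1
  · funext t
    simp only [e]
  · funext t
    rw [fderiv_fo_comp hH, e, clm_apply (fderiv ℝ H (2, t)) (2 * ((-2 : ℝ), t).1 * ((1:ℝ), (0:ℝ)).1,
      ((1:ℝ), (0:ℝ)).2)]
    ring

lemma TR_fold (hH : Differentiable ℝ H) : TR H ⊆ TR (fun z => H (fo z)) := by
  have h := Tn_scale (f := fun t => H (2, t)) (g := fun t => -fderiv ℝ H (2, t) (1, 0))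
    (c := 4) (by norm_num)
  refine h.trans (le_of_eq ?_)
  unfold TR
  have e : ∀ t : ℝ, fo (2, t) = (2, t) := fun t => by simp only [fo]; norm_num
  congr 1
  · funext t
    simp only [e]
  · funext t
    rw [fderiv_fo_comp hH, e, clm_apply (fderiv ℝ H (2, t)) (2 * ((2 : ℝ), t).1 * ((1:ℝ), (0:ℝ)).1,
      ((1:ℝ), (0:ℝ)).2)]
    ring

lemma TB_fold (hH : ContDiff ℝ 2 H) {n : ℕ} (h : (n : ℕ∞) ≤ (TB H).encard) :
    ((2 * n : ℕ) : ℕ∞) ≤ (TB (fun z => H (fo z))).encard := by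
  have hf : ContDiff ℝ 2 fun t : ℝ => H (t, -2) := hH.comp (contDiff_id.prodMk contDiff_const)
  have h1 := Tn_fold hf h
  have e : TB (fun z => H (fo z)) = Tn (fun u => (fun t : ℝ => H (t, -2)) (u ^ 2 - 2))
      (fun u => (fun t : ℝ => fderiv ℝ H (t, -2) (0, 1)) (u ^ 2 - 2)) := by
    unfold TB
    congr 1
    funext t
    rw [fderiv_fo_comp (hH.differentiable (by norm_num))]
    simp [fo]
  rw [e]
  exact h1

lemma TT_fold (hH : ContDiff ℝ 2 H) {n : ℕ} (h : (n : ℕ∞) ≤ (TT H).encard) :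
    ((2 * n : ℕ) : ℕ∞) ≤ (TT (fun z => H (fo z))).encard := by
  have hf : ContDiff ℝ 2 fun t : ℝ => H (t, 2) := hH.comp (contDiff_id.prodMk contDiff_const)
  have h1 := Tn_fold hf h
  have e : TT (fun z => H (fo z)) = Tn (fun u => (fun t : ℝ => H (t, 2)) (u ^ 2 - 2))
      (fun u => (fun t : ℝ => -fderiv ℝ H (t, 2) (0, 1)) (u ^ 2 - 2)) := by
    unfold TT
    congr 1
    funext t
    rw [fderiv_fo_comp (hH.differentiable (by norm_num))]
    simp [fo]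
  rw [e]
  exact h1

/-- persistence of the number of tangencies on a side -/
lemma Tn_pert {G : ℝ × ℝ → ℝ} (hH : ContDiff ℝ 2 H) (hG : ContDiff ℝ 2 G) {ℓ : ℝ → ℝ × ℝ}
    (hℓ : ContDiff ℝ 2 ℓ) (v : ℝ × ℝ) {n : ℕ}
    (h : (n : ℕ∞) ≤ (Tn (fun t => H (ℓ t)) (fun t => fderiv ℝ H (ℓ t) v)).encard) :
    ∀ᶠ ε : ℝ in 𝓝 0, (n : ℕ∞) ≤ (Tn (fun t => (H + ε • G) (ℓ t))
      (fun t => fderiv ℝ (H + ε • G) (ℓ t) v)).encard := by
  have hf : ContDiff ℝ 2 fun t : ℝ => H (ℓ t) := hH.comp hℓ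
  have hf₁ : ContDiff ℝ 2 fun t : ℝ => G (ℓ t) := hG.comp hℓ
  have hg : Continuous fun t : ℝ => fderiv ℝ H (ℓ t) v :=
    ((hH.continuous_fderiv (by norm_num)).comp hℓ.continuous).clm_apply continuous_const
  have hg₁ : Continuous fun t : ℝ => fderiv ℝ G (ℓ t) v :=
    ((hG.continuous_fderiv (by norm_num)).comp hℓ.continuous).clm_apply continuous_const
  obtain ⟨ε₀, hε₀, h1⟩ := Tn_persist hf hf₁ hg hg₁ h
  rw [Metric.eventually_nhds_iff]
  refine ⟨ε₀, hε₀, fun ε hε => ?_⟩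
  rw [Real.dist_eq, sub_zero] at hε
  have h2 := h1 ε hε.le
  have e : (fun t => fderiv ℝ (H + ε • G) (ℓ t) v) =
      fun t => fderiv ℝ H (ℓ t) v + ε * fderiv ℝ G (ℓ t) v := by
    funext t
    exact fderiv_pert (hH.differentiable (by norm_num)) (hG.differentiable (by norm_num)) ε _ v
  rw [e]
  exact h2

lemma neg_fderiv (z v : ℝ × ℝ) : -fderiv ℝ H z v = fderiv ℝ H z (-v) := by rw [map_neg]

lemma T_pert {G : ℝ × ℝ → ℝ} (hH : ContDiff ℝ 2 H) (hG : ContDiff ℝ 2 G) {a b : ℕ}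
    (hL : (a : ℕ∞) ≤ (TL H).encard) (hR : (a : ℕ∞) ≤ (TR H).encard)
    (hB : (b : ℕ∞) ≤ (TB H).encard) (hT : (b : ℕ∞) ≤ (TT H).encard) :
    ∀ᶠ ε : ℝ in 𝓝 0, (a : ℕ∞) ≤ (TL (H + ε • G)).encard ∧ (a : ℕ∞) ≤ (TR (H + ε • G)).encard ∧
      (b : ℕ∞) ≤ (TB (H + ε • G)).encard ∧ (b : ℕ∞) ≤ (TT (H + ε • G)).encard := by
  unfold TL TR TB TT at *
  simp only [neg_fderiv] at *
  have l1 : ContDiff ℝ 2 fun t : ℝ => ((-2 : ℝ), t) := contDiff_const.prodMk contDiff_id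
  have l2 : ContDiff ℝ 2 fun t : ℝ => ((2 : ℝ), t) := contDiff_const.prodMk contDiff_id
  have l3 : ContDiff ℝ 2 fun t : ℝ => (t, (-2 : ℝ)) := contDiff_id.prodMk contDiff_const
  have l4 : ContDiff ℝ 2 fun t : ℝ => (t, (2 : ℝ)) := contDiff_id.prodMk contDiff_const
  have h1 := Tn_pert hH hG l1 (1, 0) hL
  have h2 := Tn_pert hH hG l2 (-(1, 0)) hR
  have h3 := Tn_pert hH hG l3 (0, 1) hB
  have h4 := Tn_pert hH hG l4 (-(0, 1)) hT
  filter_upwards [h1, h2, h3, h4] with ε e1 e2 e3 e4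
  exact ⟨e1, e2, e3, e4⟩

end tangency

/-- swapping the coordinates -/
lemma Stage.swap {E D N a b : ℕ} (h : Stage E D N a b) : Stage D E N b a := by
  obtain ⟨H, Y₁, Y₂, K, hH, hY₁, hY₂, hK, hKs, hM, hL, hR, hB, hT⟩ := h
  have hHd : Differentiable ℝ H := (contDiff_of_mem hH (n := 1)).differentiable (by norm_num)
  refine ⟨fun z => H z.swap, fun z => -Y₂ z.swap, fun z => -Y₁ z.swap, Prod.swap '' K, ?_, ?_, ?_,
    ?_, ?_, ?_, ?_, ?_, ?_, ?_⟩
  · rw [mul_comm E D]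
    exact swap_mem hH
  · rw [mul_comm E D]
    have := const_mul_mem (swap_mem hY₂) (-1)
    simpa using this
  · rw [mul_comm E D]
    have := const_mul_mem (swap_mem hY₁) (-1)
    simpa using this
  · exact hK.image continuous_swap
  · rintro _ ⟨z, hz, rfl⟩
    obtain ⟨h1, h2⟩ := hKs hz
    exact ⟨h2, h1⟩
  · exact hM.swap hHd
  · rw [TL_swap hHd]; exact hB
  · rw [TR_swap hHd]; exact hT
  · rw [TB_swap hHd]; exact hL
  · rw [TT_swap hHd]; exact hR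

lemma Stage.mono {E D N a b N' a' b' : ℕ} (h : Stage E D N a b) (hN : N' ≤ N) (ha : a' ≤ a)
    (hb : b' ≤ b) : Stage E D N' a' b' := by
  obtain ⟨H, Y₁, Y₂, K, hH, hY₁, hY₂, hK, hKs, hM, hL, hR, hB, hT⟩ := h
  have ha' : (a' : ℕ∞) ≤ a := by exact_mod_cast ha
  have hb' : (b' : ℕ∞) ≤ b := by exact_mod_cast hb
  exact ⟨H, Y₁, Y₂, K, hH, hY₁, hY₂, hK, hKs, hM.mono Subset.rfl hN, ha'.trans hL, ha'.trans hR,
    hb'.trans hB, hb'.trans hT⟩

end Pool.Agent.Y300
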