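import Pool.Agent.Y300.Prep

/-! The folding step. -/

set_option autoImplicit false

open Set MeasureTheory Topology Filter
open scoped NNReal

namespace Pool.Agent.Y300

lemma ev_lt {f : ℝ → ℝ} (hf : Continuous f) {c : ℝ} (h : f 0 < c) :
    ∀ᶠ r in 𝓝[>] (0:ℝ), f r < c :=
  ((hf.tendsto 0).eventually_lt_const h).filter_mono nhdsWithin_le_nhds

lemma mem_ann_snd {p : ℝ × ℝ} {r₁ r : ℝ} (hr : 0 ≤ r) {z : ℝ × ℝ} (hz : z ∈ ann p r₁ r) :
    |z.1 - p.1| ≤ r ∧ |z.2 - p.2| ≤ r := by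
  have h := norm_le_of_mem_ann hr hz
  exact ⟨(norm_fst_le (z - p)).trans h, (norm_snd_le (z - p)).trans h⟩

/-- many closed orbits near one of the new centres -/
lemma centre_many {a n : ℕ} {ν : ℕ} (hν : 1 ≤ ν) {ι : Type*} [Fintype ι] (Q : ι → ℕ × ℕ)
    {H : ℝ × ℝ → ℝ} {Y : ℝ × ℝ → ℝ × ℝ} (hY : ContDiff ℝ 1 Y) {c τ : ℝ} (hcτ : τ * c = 1)
    {y : Fin a → ℝ} {σ α β lam : Fin a → ℝ} {r : ℝ}
    (hσ : ∀ j, σ j = 1 ∨ σ j = -1)
    (hC : ∀ j, Ctr (fun z => σ j * H (fo z)) (0, y j) (α j) (β j) r (lam j)) {t₀ : ℝ}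
    (ht₀ : ∀ j, 2 * t₀ ^ 2 < lam j * r ^ 2)
    (jj : Fin n → Fin a) (tt : Fin n → ℝ) (htt : ∀ k, 0 < tt k ∧ tt k < t₀)
    (hsep : ∀ k l, k < l → 2 * tt l < tt k) (v : ι → ℝ)
    (hv : ∀ k, ∑ i, (Trow ν (σ (jj k)) (fun z => σ (jj k) * H (fo z)) (0, y (jj k)) r (tt k) (Q i) +
      τ * Srow ν (fun z => 2 * z.1 * dv Y (fo z)) (fun z => σ (jj k) * H (fo z)) (0, y (jj k)) r
        (tt k) (Q i)) * v i = (-1) ^ (Finset.univ.filter fun l => jj l = jj k ∧ k < l).card)
    (j : Fin a) :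
    ∃ r₁, 0 < r₁ ∧ r₁ < r ∧ ∀ᶠ ε : ℝ in 𝓝[>] 0,
      Many ((fun z => H (fo z)) + ε • ∑ i, (if (Q i).1 ≤ ν then 0 else τ * v i) • Gfun ν (Q i))
        (fY (Y + c • Xf ν) + ε • ∑ i, (if (Q i).1 ≤ ν then v i else 0) • Wfun (Q i))
        (ann (0, y j) r₁ r) ((Finset.univ.filter fun k => jj k = j).card - 1) := by
  have hr : 0 < r := (hC j).r0
  set R := Finset.univ.filter fun k => jj k = j with hR
  rcases R.eq_empty_or_nonempty with he | hne
  · refine ⟨r / 2, by positivity, by linarith, Eventually.of_forall fun ε => ?_⟩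
    rw [he]
    exact Many.zero _ _ _
  obtain ⟨idx, hidx1, hidx2, hidx3⟩ := exists_enum R hne
  have hpos : 0 < R.card := Finset.card_pos.2 hne
  set q := R.card - 1 with hq
  have hjj : ∀ k ≤ q, jj (idx k) = j := fun k hk =>
    (Finset.mem_filter.1 (hidx1 k (by omega))).2
  set Yt := fY (Y + c • Xf ν) with hYt
  set WW := ∑ i, (if (Q i).1 ≤ ν then v i else 0) • Wfun (Q i) with hWW
  set GG := ∑ i, (if (Q i).1 ≤ ν then 0 else τ * v i) • Gfun ν (Q i) with hGG
  have hYt1 : ContDiff ℝ 1 Yt := contDiff_fY (contDiff_pert' hY (contDiff_Xf ν) c)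
  have hWW1 : ContDiff ℝ 1 WW := contDiff_sum' _ fun i =>
    (contDiff_Wfun (Q i)).const_smul (if (Q i).1 ≤ ν then v i else 0)
  have hGG2 : ContDiff ℝ 2 GG := contDiff_sum' _ fun i =>
    (show ContDiff ℝ 2 (Gfun ν (Q i)) from contDiff_mo _ _).const_smul
      (if (Q i).1 ≤ ν then 0 else τ * v i)
  have hρc : Continuous fun z : ℝ × ℝ => 2 * z.1 * dv Y (fo z) :=
    (continuous_const.mul continuous_fst).mul ((continuous_dv hY).comp
      (contDiff_fo (n := 0)).continuous)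
  have hdvY : ∀ z, dv Yt z = 2 * z.1 * dv Y (fo z) + c * (2 * ν * z.1 ^ (2 * ν - 1)) :=
    dv_folded hY hν c
  have hσ2 : σ j ^ 2 = 1 := by rcases hσ j with h | h <;> rw [h] <;> norm_num
  have hmany := (hC j).many (G := σ j • GG) (Y := σ j • Yt) (W := σ j • WW)
    (hGG2.const_smul (σ j)) (hYt1.const_smul (σ j)) (hWW1.const_smul (σ j)) q
    (fun k => tt (idx k)) (fun k _ => (htt _).1) ?_ ?_ ?_ ?_
  · obtain ⟨r₁, hr₁, hr₁r, hev⟩ := hmany
    refine ⟨r₁, hr₁, hr₁r, hev.mono fun ε hε => ?_⟩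
    rcases hσ j with h | h
    · rw [h] at hε
      have e1 : (fun z => (1:ℝ) * H (fo z)) + ε • ((1:ℝ) • GG) = (fun z => H (fo z)) + ε • GG := by
        simp only [one_mul, one_smul]
      have e2 : (1:ℝ) • Yt + ε • ((1:ℝ) • WW) = Yt + ε • WW := by simp only [one_smul]
      rw [e1, e2] at hε
      exact hε
    · rw [h] at hε
      apply Many.of_neg
      have e1 : (fun z => (-1:ℝ) * H (fo z)) + ε • ((-1:ℝ) • GG) =
          -((fun z => H (fo z)) + ε • GG) := by
        funext z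
        simp only [Pi.add_apply, Pi.smul_apply, Pi.neg_apply, smul_eq_mul]
        ring
      have e2 : (-1:ℝ) • Yt + ε • ((-1:ℝ) • WW) = -(Yt + ε • WW) := by
        rw [neg_smul, one_smul, neg_smul, one_smul, smul_neg, neg_add]
      rw [e1, e2] at hε
      exact hε
  · intro k _
    have h1 := htt (idx k)
    have h2 := ht₀ j
    nlinarith [h1.1, h1.2]
  · intro k hk
    have h1 := hsep _ _ (hidx2 k (by omega))
    have h2 := htt (idx k)
    have h3 := htt (idx (k + 1))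
    nlinarith [h2.1, h3.1]
  · intro k hk
    refine odd_integral rfl r fun z => ?_
    have hfo : fo (-z.1, z.2) = fo z := by simp [fo]
    rw [dv_smul hYt1, dv_smul hYt1, hdvY, hdvY]
    simp only [hfo]
    have hodd : Odd (2 * ν - 1) := ⟨ν - 1, by omega⟩
    rw [hodd.neg_pow]
    ring
  · intro k hk
    have h1 := row_sum Q (p := (0, y j)) (t := tt (idx k)) hσ2 (hC j).hF.continuous hr.le hρc hYt1
      hcτ hdvY v
    have h2 := hv (idx k)
    rw [hjj k hk] at h2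
    have h3 : (Finset.univ.filter fun l => jj l = j ∧ idx k < l).card = k := by
      have := hidx3 k (by omega)
      rw [hR, Finset.filter_filter] at this
      exact this
    rw [h3] at h2
    have h4 : 0 < ((-1:ℝ) ^ k) * ((-1:ℝ) ^ k) := by
      rw [← mul_pow]; norm_num
    rw [← h2, ← h1] at h4
    rw [← h2, ← h1]
    exact h4

lemma exists_radius {K : Set (ℝ × ℝ)} (hK : IsCompact K) (hKs : K ⊆ sq) {a : ℕ} {y : Fin a → ℝ}
    (hyinj : Function.Injective y) (hy : ∀ j, y j ∈ Ioo (-2 : ℝ) 2) {r₀ : Fin a → ℝ}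
    (hr₀ : ∀ j, 0 < r₀ j) :
    ∃ r : ℝ, 0 < r ∧ (∀ j, r ≤ r₀ j) ∧ (∀ z ∈ K, r ^ 2 < z.1 + 2) ∧ (∀ j, |y j| + r < 2) ∧
      (∀ i j, i ≠ j → 2 * r < |y i - y j|) ∧ r < 2 := by
  have h1 : ∀ᶠ r in 𝓝[>] (0:ℝ), ∀ j, r < r₀ j :=
    eventually_all.2 fun j => ev_lt continuous_id (hr₀ j)
  have h2 : ∀ᶠ r in 𝓝[>] (0:ℝ), ∀ z ∈ K, r ^ 2 < z.1 + 2 := by
    rcases K.eq_empty_or_nonempty with he | hne
    · rw [he]
      exact Eventually.of_forall fun r z hz => absurd hz (notMem_empty _)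
    · obtain ⟨z₀, hz₀, hmin⟩ := hK.exists_isMinOn hne
        (by fun_prop : Continuous fun z : ℝ × ℝ => z.1 + 2).continuousOn
      have h3 : 0 < z₀.1 + 2 := by
        have := (hKs hz₀).1.1
        linarith
      have h4 := ev_lt (f := fun r : ℝ => r ^ 2) (by fun_prop) (c := z₀.1 + 2) (by simpa using h3)
      filter_upwards [h4] with r hr z hz
      exact hr.trans_le (hmin hz)
  have h3 : ∀ᶠ r in 𝓝[>] (0:ℝ), ∀ j, |y j| + r < 2 :=
    eventually_all.2 fun j => ev_lt (by fun_prop) (by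
      simpa using abs_lt.2 ⟨(hy j).1, (hy j).2⟩)
  have h4 : ∀ᶠ r in 𝓝[>] (0:ℝ), ∀ i j, i ≠ j → 2 * r < |y i - y j| := by
    refine eventually_all.2 fun i => eventually_all.2 fun j => ?_
    by_cases hij : i = j
    · exact Eventually.of_forall fun r h => absurd hij h
    · have h5 : 0 < |y i - y j| := abs_pos.2 (sub_ne_zero.2 fun h => hij (hyinj h))
      have h6 := ev_lt (f := fun r : ℝ => 2 * r) (by fun_prop) (c := |y i - y j|)
        (by simpa using h5)
      exact h6.mono fun r hr _ => hr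
  have h5 : ∀ᶠ r in 𝓝[>] (0:ℝ), r < 2 := ev_lt continuous_id (by norm_num)
  obtain ⟨r, a1, a2, a3, a4, a5, a6⟩ :=
    (h1.and (h2.and (h3.and (h4.and (h5.and (self_mem_nhdsWithin : Ioi (0:ℝ) ∈ 𝓝[>] (0:ℝ))))))).exists
  exact ⟨r, a6, fun j => (a1 j).le, a2, a3, a4, a5⟩

lemma isCompact_br {K : Set (ℝ × ℝ)} (hK : IsCompact K) (hKs : K ⊆ sq) (τ : ℝ) :
    IsCompact (br τ '' K) := by
  refine hK.image_of_continuousOn fun z hz => ?_
  exact (contDiffAt_br (n := 0) (by
    have := (hKs hz).1.1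
    linarith)).continuousAt.continuousWithinAt

lemma br_mem_sq {τ : ℝ} (hτ : τ = 1 ∨ τ = -1) {z : ℝ × ℝ} (hz : z ∈ sq) :
    br τ z ∈ sq ∧ (br τ z).1 ^ 2 = z.1 + 2 := by
  have h1 := hz.1.1
  have h2 := hz.1.2
  have hs : √(z.1 + 2) ^ 2 = z.1 + 2 := Real.sq_sqrt (by linarith)
  have hsp := Real.sqrt_nonneg (z.1 + 2)
  have hs2 : √(z.1 + 2) < 2 := by nlinarith
  refine ⟨⟨?_, hz.2⟩, ?_⟩
  · rcases hτ with h | h
    · simp only [br, h]
      exact ⟨by linarith, by linarith⟩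
    · simp only [br, h]
      exact ⟨by linarith, by linarith⟩
  · simp only [br]
    rw [mul_pow, hs]
    rcases hτ with h | h <;> rw [h] <;> ring

/-- the folding step -/
theorem Stage.fold {E D N a b ν : ℕ} (h : Stage E D N a b) (hν : 1 ≤ ν)
    (hνD : D * ν + E ≤ D * E) (cols : Finset (ℕ × ℕ)) (hβ : ∀ q ∈ cols, q.2 < a)
    (h1 : ∀ q ∈ cols, 1 ≤ q.1)
    (hw : ∀ q ∈ cols, q.1 ≤ ν → D * (2 * (q.1 - 1) + 1) + 2 * E * q.2 + 2 * E ≤ D * (2 * E))
    (hG : ∀ q ∈ cols, ν < q.1 → D * (2 * (q.1 - ν) + 1) + 2 * E * q.2 ≤ D * (2 * E)) :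
    Stage (2 * E) D (2 * N + (cols.card - a)) a (2 * b) := by
  classical
  obtain ⟨H, Y₁, Y₂, K, hH, hY₁, hY₂, hK, hKs, hM, hL, hR, hB, hT⟩ := h
  have hH2 : ContDiff ℝ 2 H := contDiff_of_mem hH
  have hHd : Differentiable ℝ H := hH2.differentiable (by norm_num)
  set Y : ℝ × ℝ → ℝ × ℝ := fun z => (Y₁ z, Y₂ z) with hY
  have hY1 : ContDiff ℝ 1 Y := (contDiff_of_mem hY₁).prodMk (contDiff_of_mem hY₂)
  obtain ⟨y, hyinj, hyT⟩ := exists_inj hL
  choose σ hσ α β r₀ lam hr₀ hctr using fun j => exists_ctr_sign hH2 (hyT j)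
  obtain ⟨r, hr, hrr₀, hrK, hrbox, hrsep, hr2⟩ := exists_radius hK hKs hyinj
    (fun j => (hyT j).1) hr₀
  have hC : ∀ j, Ctr (fun z => σ j * H (fo z)) (0, y j) (α j) (β j) r (lam j) := fun j =>
    hctr j r hr (hrr₀ j)
  -- perturbation before folding
  obtain ⟨t₁, ht₁, hM1⟩ := hM.perturb hK (G := 0) (W := Xf ν) hHd contDiff_const
    (contDiff_Xf ν (n := 0)).continuous
  -- bound for the levels
  obtain ⟨t₀, ht₀, ht₀l⟩ : ∃ t₀ : ℝ, 0 < t₀ ∧ ∀ j, 2 * t₀ ^ 2 < lam j * r ^ 2 := by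
    have h2 : ∀ᶠ t in 𝓝[>] (0:ℝ), ∀ j, 2 * t ^ 2 < lam j * r ^ 2 :=
      eventually_all.2 fun j => ev_lt (by fun_prop) (by
        have := (hC j).l0
        have : 0 < lam j * r ^ 2 := by positivity
        simpa using this)
    obtain ⟨t, h3, h4⟩ := (h2.and (self_mem_nhdsWithin : Ioi (0:ℝ) ∈ 𝓝[>] (0:ℝ))).exists
    exact ⟨t, h4, h3⟩
  -- rows
  have hTT := indep (ι := {q // q ∈ cols})
    (T := fun j t i => Trow ν (σ j) (fun z => σ j * H (fo z)) (0, y j) r t i.1)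
    (o := fun i => i.1.1) (β := fun i => i.1.2) y hyinj (fun i => hβ _ i.2)
    (fun i i' e1 e2 => Subtype.ext (Prod.ext e1 e2))
    (c := fun j o => crow ν (σ j) (α j) (β j) o)
    (fun j i => crow_ne_zero hν (by rcases hσ j with h | h <;> rw [h] <;> norm_num)
      (hC j).a0 (hC j).b0 _)
    (fun j i => Trow_lim hν (hC j) rfl (h1 _ i.2))
  obtain ⟨jj, tt, htt, hsep, hli⟩ := exists_rows (ι := {q // q ∈ cols})
    (fun j t i => Trow ν (σ j) (fun z => σ j * H (fo z)) (0, y j) r t i.1) hTT t₀ ht₀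
  obtain ⟨τ, hτ, hsolve⟩ := pencil (ι := {q // q ∈ cols}) _
    (fun k i => Srow ν (fun z => 2 * z.1 * dv Y (fo z)) (fun z => σ (jj k) * H (fo z))
      (0, y (jj k)) r (tt k) i.1) hli (1 / t₁)
  have hτ0 : 0 < τ := lt_trans (by positivity) hτ
  set c := 1 / τ with hc
  have hcτ : τ * c = 1 := by rw [hc]; field_simp
  have hct : |c| ≤ t₁ := by
    rw [abs_of_pos (by positivity), hc, div_le_iff₀ hτ0]
    rw [div_lt_iff₀ ht₁] at hτ
    linarith
  obtain ⟨v, hv⟩ := hsolve fun k =>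
    (-1) ^ (Finset.univ.filter fun l => jj l = jj k ∧ k < l).card
  set Ht : ℝ × ℝ → ℝ := fun z => H (fo z) with hHt
  set Yt := fY (Y + c • Xf ν) with hYt
  set WW := ∑ i : {q // q ∈ cols}, (if i.1.1 ≤ ν then v i else 0) • Wfun i.1 with hWW
  set GG := ∑ i : {q // q ∈ cols}, (if i.1.1 ≤ ν then 0 else τ * v i) • Gfun ν i.1 with hGG
  have hmain := fun j => centre_many hν (fun i : {q // q ∈ cols} => i.1) hY1 hcτ hσ hC ht₀l jj tt
    htt hsep v hv j
  choose r₁ hr₁ hr₁r hmain using hmain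
  have hHt2 : ContDiff ℝ 2 Ht := hH2.comp contDiff_fo
  have hWW1 : ContDiff ℝ 1 WW := contDiff_sum' _ fun i =>
    (contDiff_Wfun i.1).const_smul (if i.1.1 ≤ ν then v i else 0)
  have hGG2 : ContDiff ℝ 2 GG := contDiff_sum' _ fun i =>
    (show ContDiff ℝ 2 (Gfun ν i.1) from contDiff_mo _ _).const_smul
      (if i.1.1 ≤ ν then 0 else τ * v i)
  have hbr : ∀ s : ℝ, (s = 1 ∨ s = -1) →
      ∀ᶠ ε : ℝ in 𝓝[>] 0, Many (Ht + ε • GG) (Yt + ε • WW) (br s '' K) N := by
    intro s hs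
    have h2 := hM1 c hct
    rw [smul_zero, add_zero] at h2
    have h3 := h2.fold hK (fun z hz => (hKs hz).1.1) hHd hs
    obtain ⟨ε₀, hε₀, h4⟩ := h3.perturb (isCompact_br hK hKs s) (G := GG) (W := WW)
      (hHt2.differentiable (by norm_num)) (hGG2.of_le (by norm_num)) hWW1.continuous
    filter_upwards [Ioo_mem_nhdsGT hε₀] with ε hε
    exact h4 ε (by rw [abs_of_pos hε.1]; exact hε.2.le)
  have htan := (T_pert hHt2 hGG2 (hR.trans (Set.encard_le_encard (TL_fold hHd)))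
    (hR.trans (Set.encard_le_encard (TR_fold hHd))) (TB_fold hH2 hB)
    (TT_fold hH2 hT)).filter_mono (nhdsWithin_le_nhds (s := Ioi 0))
  obtain ⟨ε, e1, e2, e3, e4⟩ := ((hbr 1 (Or.inl rfl)).and ((hbr (-1) (Or.inr rfl)).and
    ((eventually_all.2 hmain).and htan))).exists
  refine ⟨Ht + ε • GG, fun z => ((Yt + ε • WW) z).1, fun z => ((Yt + ε • WW) z).2,
    (br 1 '' K ∪ br (-1) '' K) ∪ ⋃ j ∈ (Finset.univ : Finset (Fin a)), ann (0, y j) (r₁ j) r,
    ?_, ?_, ?_, ?_, ?_, ?_, e4.1, e4.2.1, e4.2.2.1, e4.2.2.2⟩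
  · refine Submodule.add_mem _ ?_ (Submodule.smul_mem _ _ (Submodule.sum_mem _ fun i _ => ?_))
    · have := fold_mem hH
      rwa [mul_zero, show 2 * (D * E) = D * (2 * E) by ring] at this
    · by_cases hi : i.1.1 ≤ ν
      · rw [if_pos hi, zero_smul]
        exact Submodule.zero_mem _
      · rw [if_neg hi]
        refine Submodule.smul_mem _ _ (mo_mem ?_)
        have := hG _ i.2 (not_le.1 hi)
        omega
  · have hA : (fun z => (Y₁ + c • fun z : ℝ × ℝ => (z.1 + 2) ^ ν) (fo z)) ∈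
        Pw D (2 * E) (2 * E) (D * (2 * E)) := by
      have := fold_mem (Submodule.add_mem _ hY₁ (Submodule.smul_mem _ c (pow_shift_mem hνD)))
      rwa [show 2 * (D * E) = D * (2 * E) by ring] at this
    have hB' : (∑ i : {q // q ∈ cols}, (if i.1.1 ≤ ν then v i else 0) •
        (((2 * (i.1.1 - 1) + 1 : ℕ) : ℝ)⁻¹ • mo (2 * (i.1.1 - 1) + 1) i.1.2)) ∈
        Pw D (2 * E) (2 * E) (D * (2 * E)) := by
      refine Submodule.sum_mem _ fun i _ => ?_
      by_cases hi : i.1.1 ≤ ν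
      · refine Submodule.smul_mem _ _ (Submodule.smul_mem _ _ (mo_mem ?_))
        exact hw _ i.2 hi
      · rw [if_neg hi, zero_smul]
        exact Submodule.zero_mem _
    have hsum := Submodule.add_mem _ hA (Submodule.smul_mem _ ε hB')
    convert hsum using 1
    funext z
    simp only [Pi.add_apply, Pi.smul_apply, Prod.fst_add, Prod.smul_fst, hYt, fY, hWW,
      Finset.sum_apply, Prod.fst_sum, Xf, Wfun, hY, smul_eq_mul]
  · have hA : (fun z => 2 * z.1 * Y₂ (fo z)) ∈ Pw D (2 * E) D (D * (2 * E)) := by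
      have := fold_mem hY₂
      rw [show 2 * (D * E) = D * (2 * E) by ring, show 2 * D = D + D by ring] at this
      exact mulx_mem this 2
    convert hA using 1
    funext z
    simp only [Pi.add_apply, Pi.smul_apply, Prod.snd_add, Prod.smul_snd, hYt, fY, hWW,
      Finset.sum_apply, Prod.snd_sum, Xf, Wfun, hY, smul_zero, Finset.sum_const_zero, add_zero]
  · refine ((isCompact_br hK hKs 1).union (isCompact_br hK hKs (-1))).union ?_
    exact Finset.isCompact_biUnion _ fun j _ => isCompact_ann hr.le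
  · refine union_subset (union_subset ?_ ?_) ?_
    · rintro _ ⟨z, hz, rfl⟩
      exact (br_mem_sq (Or.inl rfl) (hKs hz)).1
    · rintro _ ⟨z, hz, rfl⟩
      exact (br_mem_sq (Or.inr rfl) (hKs hz)).1
    · refine iUnion₂_subset fun j _ z hz => ?_
      obtain ⟨h2, h3⟩ := mem_ann_snd hr.le hz
      simp only [sub_zero] at h2 h3
      have h4 := hrbox j
      have h5 : |z.2| < 2 := by
        have : z.2 = (z.2 - y j) + y j := by ring
        rw [this]
        have := abs_add_le (z.2 - y j) (y j)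
        linarith
      exact ⟨abs_lt.1 (h2.trans_lt hr2), abs_lt.1 h5⟩
  · have hd1 : Disjoint (br 1 '' K) (br (-1) '' K) := by
      rw [Set.disjoint_left]
      rintro _ ⟨z, hz, rfl⟩ ⟨w, hw, h2⟩
      have h3 : 0 < √(z.1 + 2) := Real.sqrt_pos.2 (by
        have := (hKs hz).1.1
        linarith)
      have h4 : 0 < √(w.1 + 2) := Real.sqrt_pos.2 (by
        have := (hKs hw).1.1
        linarith)
      have h5 := congrArg Prod.fst h2
      simp only [br] at h5
      linarith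
    have hd2 : ∀ i ∈ (Finset.univ : Finset (Fin a)), ∀ j ∈ (Finset.univ : Finset (Fin a)),
        i ≠ j → Disjoint (ann (0, y i) (r₁ i) r) (ann (0, y j) (r₁ j) r) := by
      intro i _ j _ hij
      rw [Set.disjoint_left]
      intro z hz hz'
      have h2 := (mem_ann_snd hr.le hz).2
      have h3 := (mem_ann_snd hr.le hz').2
      simp only at h2 h3
      have h4 := hrsep i j hij
      have h5 : |y i - y j| ≤ |z.2 - y j| + |z.2 - y i| := by
        calc |y i - y j| = |(z.2 - y j) - (z.2 - y i)| := by ring_nf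
          _ ≤ _ := abs_sub _ _
      linarith
    have hd3 : Disjoint (br 1 '' K ∪ br (-1) '' K)
        (⋃ j ∈ (Finset.univ : Finset (Fin a)), ann (0, y j) (r₁ j) r) := by
      rw [Set.disjoint_iUnion₂_right]
      intro j _
      rw [Set.disjoint_left]
      intro w hw hw'
      have h2 := (mem_ann_snd hr.le hw').1
      simp only [sub_zero] at h2
      have h3 : w.1 ^ 2 ≤ r ^ 2 := sq_le_sq' (by linarith [(abs_le.1 h2).1]) (abs_le.1 h2).2
      rcases hw with ⟨z, hz, rfl⟩ | ⟨z, hz, rfl⟩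
      · have h4 := (br_mem_sq (Or.inl rfl) (hKs hz)).2
        have h5 := hrK z hz
        linarith
      · have h4 := (br_mem_sq (Or.inr rfl) (hKs hz)).2
        have h5 := hrK z hz
        linarith
    have hall := ((e1.union e2 hd1).union (Many.biUnion Finset.univ (fun j _ => e3 j) hd2) hd3)
    refine hall.mono Subset.rfl ?_
    have hcount : Fintype.card {q // q ∈ cols} =
        ∑ j : Fin a, (Finset.univ.filter fun k => jj k = j).card := by
      have h2 := Finset.card_eq_sum_card_fiberwise (s := (Finset.univ :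
        Finset (Fin (Fintype.card {q // q ∈ cols})))) (t := (Finset.univ : Finset (Fin a)))
        (f := jj) fun x _ => Finset.mem_univ _
      rwa [Finset.card_univ, Fintype.card_fin] at h2
    have hcount' : cols.card = ∑ j : Fin a, (Finset.univ.filter fun k => jj k = j).card := by
      rw [← hcount]
      exact (Fintype.card_coe cols).symm
    have h3 : ∑ j : Fin a, (Finset.univ.filter fun k => jj k = j).card ≤
        ∑ j : Fin a, (((Finset.univ.filter fun k => jj k = j).card - 1) + 1) :=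
      Finset.sum_le_sum fun j _ => by omega
    rw [Finset.sum_add_distrib, Finset.sum_const, Finset.card_univ, Fintype.card_fin, smul_eq_mul,
      mul_one, ← hcount'] at h3
    omega

end Pool.Agent.Y300
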