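import Pool.Agent.Y300.Many

/-! Operations on `Many`: monotonicity, unions, perturbations, transport. -/

set_option autoImplicit false

open Set MeasureTheory Topology Filter
open scoped NNReal

namespace Pool.Agent.Y300

lemma Many.mono {H : ℝ × ℝ → ℝ} {Y : ℝ × ℝ → ℝ × ℝ} {K K' : Set (ℝ × ℝ)} {N N' : ℕ}
    (h : Many H Y K N) (hK : K ⊆ K') (hN : N' ≤ N) : Many H Y K' N' := by
  obtain ⟨ε, hε, h⟩ := h
  refine ⟨ε, hε, fun H' Y' κ s1 s2 c1 c2 c3 hκ hκε => ?_⟩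
  have h1 := h H' Y' κ (fun z hz => s1 z (hK hz)) (fun z hz => s2 z (hK hz))
    (fun z hz => c1 z (hK hz)) (fun z hz => c2 z (hK hz)) (fun z hz => c3 z (hK hz)) hκ hκε
  refine le_trans (by exact_mod_cast hN) (h1.trans (Set.encard_le_encard ?_))
  rintro C ⟨h2, h3⟩
  exact ⟨h2, h3.trans hK⟩

lemma Many.zero (H : ℝ × ℝ → ℝ) (Y : ℝ × ℝ → ℝ × ℝ) (K : Set (ℝ × ℝ)) : Many H Y K 0 :=
  ⟨1, one_pos, fun _ _ _ _ _ _ _ _ _ _ => by simp⟩

lemma Many.union {H : ℝ × ℝ → ℝ} {Y : ℝ × ℝ → ℝ × ℝ} {K K' : Set (ℝ × ℝ)} {N N' : ℕ}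
    (h : Many H Y K N) (h' : Many H Y K' N') (hd : Disjoint K K') :
    Many H Y (K ∪ K') (N + N') := by
  obtain ⟨ε, hε, h⟩ := h
  obtain ⟨ε', hε', h'⟩ := h'
  refine ⟨min ε ε', lt_min hε hε', fun H' Y' κ s1 s2 c1 c2 c3 hκ hκε => ?_⟩
  have h1 := h H' Y' κ (fun z hz => s1 z (Or.inl hz)) (fun z hz => s2 z (Or.inl hz))
    (fun z hz => (c1 z (Or.inl hz)).trans (min_le_left _ _))
    (fun z hz => (c2 z (Or.inl hz)).trans (min_le_left _ _))
    (fun z hz => (c3 z (Or.inl hz)).trans (min_le_left _ _)) hκ (hκε.trans (min_le_left _ _))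
  have h2 := h' H' Y' κ (fun z hz => s1 z (Or.inr hz)) (fun z hz => s2 z (Or.inr hz))
    (fun z hz => (c1 z (Or.inr hz)).trans (min_le_right _ _))
    (fun z hz => (c2 z (Or.inr hz)).trans (min_le_right _ _))
    (fun z hz => (c3 z (Or.inr hz)).trans (min_le_right _ _)) hκ (hκε.trans (min_le_right _ _))
  set V := fun z => ham H' z + κ • Y' z
  have hdis : Disjoint {C | ClosedOrbit V C ∧ C ⊆ K} {C | ClosedOrbit V C ∧ C ⊆ K'} := by
    rw [Set.disjoint_left]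
    rintro C ⟨h3, h4⟩ ⟨-, h5⟩
    obtain ⟨x, hx⟩ := h3.nonempty
    exact Set.disjoint_left.1 hd (h4 hx) (h5 hx)
  have h3 : {C | ClosedOrbit V C ∧ C ⊆ K} ∪ {C | ClosedOrbit V C ∧ C ⊆ K'} ⊆
      {C | ClosedOrbit V C ∧ C ⊆ K ∪ K'} := by
    rintro C (⟨h3, h4⟩ | ⟨h3, h4⟩)
    · exact ⟨h3, h4.trans subset_union_left⟩
    · exact ⟨h3, h4.trans subset_union_right⟩
  refine le_trans ?_ (Set.encard_le_encard h3)
  rw [Set.encard_union_eq hdis]
  push_cast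
  exact add_le_add h1 h2

lemma Many.biUnion {ι : Type*} {H : ℝ × ℝ → ℝ} {Y : ℝ × ℝ → ℝ × ℝ} (s : Finset ι)
    {K : ι → Set (ℝ × ℝ)} {N : ι → ℕ} (h : ∀ i ∈ s, Many H Y (K i) (N i))
    (hd : ∀ i ∈ s, ∀ j ∈ s, i ≠ j → Disjoint (K i) (K j)) :
    Many H Y (⋃ i ∈ s, K i) (∑ i ∈ s, N i) := by
  classical
  induction s using Finset.induction_on with
  | empty => simpa using Many.zero H Y ∅
  | insert a s ha ih =>
    rw [Finset.sum_insert ha, Finset.set_biUnion_insert]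
    refine (h a (Finset.mem_insert_self _ _)).union (ih (fun i hi => h i
      (Finset.mem_insert_of_mem hi)) (fun i hi j hj => hd i (Finset.mem_insert_of_mem hi) j
      (Finset.mem_insert_of_mem hj))) ?_
    rw [Set.disjoint_iUnion₂_right]
    intro i hi
    exact hd a (Finset.mem_insert_self _ _) i (Finset.mem_insert_of_mem hi) (by
      rintro rfl; exact ha hi)

/-- `Many` is stable under small perturbations of `(H, Y)` -/
lemma Many.perturb {H : ℝ × ℝ → ℝ} {Y : ℝ × ℝ → ℝ × ℝ} {K : Set (ℝ × ℝ)} {N : ℕ}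
    (h : Many H Y K N) (hK : IsCompact K) {G : ℝ × ℝ → ℝ} {W : ℝ × ℝ → ℝ × ℝ}
    (hH : Differentiable ℝ H) (hG : ContDiff ℝ 1 G) (hW : Continuous W) :
    ∃ t₀ : ℝ, 0 < t₀ ∧ ∀ t : ℝ, |t| ≤ t₀ → Many (H + t • G) (Y + t • W) K N := by
  obtain ⟨ε, hε, h⟩ := h
  obtain ⟨B₁, hB₁⟩ := hK.exists_bound_of_continuousOn hG.continuous.continuousOn
  obtain ⟨B₂, hB₂⟩ := hK.exists_bound_of_continuousOn
    (hG.continuous_fderiv (by norm_num)).continuousOn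
  obtain ⟨B₃, hB₃⟩ := hK.exists_bound_of_continuousOn hW.continuousOn
  set B := max (max B₁ B₂) (max B₃ 0) with hB
  have hB0 : 0 ≤ B := le_max_of_le_right (le_max_right _ _)
  have hb1 : B₁ ≤ B := (le_max_left _ _).trans (le_max_left _ _)
  have hb2 : B₂ ≤ B := (le_max_right _ _).trans (le_max_left _ _)
  have hb3 : B₃ ≤ B := (le_max_left _ _).trans (le_max_right _ _)
  refine ⟨ε / (2 * (B + 1)), by positivity, fun t ht => ⟨ε / 2, by positivity, ?_⟩⟩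
  have htB : |t| * B ≤ ε / 2 := by
    rw [le_div_iff₀ (by positivity)] at ht
    nlinarith [abs_nonneg t]
  intro H' Y' κ s1 s2 c1 c2 c3 hκ hκε
  refine h H' Y' κ s1 s2 ?_ ?_ ?_ hκ (by linarith)
  · intro z hz
    have e : H' z - H z = (H' z - (H + t • G) z) + t * G z := by
      simp only [Pi.add_apply, Pi.smul_apply, smul_eq_mul]; ring
    rw [e]
    refine (abs_add_le _ _).trans ?_
    have h1 := c1 z hz
    have h2 : |t * G z| ≤ |t| * B := by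
      rw [abs_mul]
      exact mul_le_mul_of_nonneg_left ((hB₁ z hz).trans hb1) (abs_nonneg _)
    linarith
  · intro z hz
    have e1 : fderiv ℝ (H + t • G) z = fderiv ℝ H z + t • fderiv ℝ G z := by
      rw [fderiv_add (hH z) ((hG.differentiable (by norm_num) z).const_smul t),
        fderiv_const_smul (hG.differentiable (by norm_num) z)]
    have e : fderiv ℝ H' z - fderiv ℝ H z =
        (fderiv ℝ H' z - fderiv ℝ (H + t • G) z) + t • fderiv ℝ G z := by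
      rw [e1]; abel
    rw [e]
    refine (norm_add_le _ _).trans ?_
    have h1 := c2 z hz
    have h2 : ‖t • fderiv ℝ G z‖ ≤ |t| * B := by
      rw [norm_smul, Real.norm_eq_abs]
      exact mul_le_mul_of_nonneg_left ((hB₂ z hz).trans hb2) (abs_nonneg _)
    linarith
  · intro z hz
    have e : Y' z - Y z = (Y' z - (Y + t • W) z) + t • W z := by
      simp only [Pi.add_apply, Pi.smul_apply]; abel
    rw [e]
    refine (norm_add_le _ _).trans ?_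
    have h1 := c3 z hz
    have h2 : ‖t • W z‖ ≤ |t| * B := by
      rw [norm_smul, Real.norm_eq_abs]
      exact mul_le_mul_of_nonneg_left ((hB₃ z hz).trans hb3) (abs_nonneg _)
    linarith

lemma closedOrbit_transport {Z Z₂ : ℝ × ℝ → ℝ × ℝ} {ψ : ℝ × ℝ → ℝ × ℝ} {K : Set (ℝ × ℝ)}
    {g : ℝ × ℝ → ℝ} (hψ : ∀ z ∈ K, DifferentiableAt ℝ ψ z) (hg : ContinuousOn g K)
    (hs : (∀ z ∈ K, 0 < g z) ∨ ∀ z ∈ K, g z < 0)
    (h : ∀ z ∈ K, fderiv ℝ ψ z (Z z) = g z • Z₂ (ψ z)) (hinj : InjOn ψ K) {C : Set (ℝ × ℝ)}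
    (hC : ClosedOrbit Z C) (hCK : C ⊆ K) : ClosedOrbit Z₂ (ψ '' C) := by
  obtain ⟨γ, T, hT, hγ, hper, ⟨s, t, hst⟩, rfl⟩ := hC
  have hK : ∀ s, γ s ∈ K := fun s => hCK (mem_range_self s)
  rw [← range_comp]
  have hγc : Continuous γ := continuous_iff_continuousAt.2 fun t => (hγ t).continuousAt
  refine closedOrbit_of_reparam' (g := fun s => g (γ s)) (S := T)
    (hg.comp_continuous hγc hK) ?_ hT ?_ ?_ ?_ ⟨s, t, ?_⟩
  · rcases hs with hs | hs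
    · exact Or.inl fun s => hs _ (hK s)
    · exact Or.inr fun s => hs _ (hK s)
  · intro s
    simp only [Function.comp, hper]
  · intro s
    simp only [hper]
  · intro s
    have h1 := (hψ _ (hK s)).hasFDerivAt.comp_hasDerivAt s (hγ s)
    rw [h _ (hK s)] at h1
    exact h1
  · intro h2
    exact hst (hinj (hK s) (hK t) h2)

/-- transport of `Many` by a change of coordinates -/
lemma Many.transport {H H₂ : ℝ × ℝ → ℝ} {Y Y₂ : ℝ × ℝ → ℝ × ℝ} {K : Set (ℝ × ℝ)} {N : ℕ}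
    (h : Many H Y K N) {ψ : ℝ × ℝ → ℝ × ℝ} {g : ℝ × ℝ → ℝ} (hinj : InjOn ψ K)
    (hψ : ∀ z ∈ K, DifferentiableAt ℝ ψ z) (hg : ContinuousOn g K)
    (hs : (∀ z ∈ K, 0 < g z) ∨ ∀ z ∈ K, g z < 0)
    (hyp : ∀ ε > 0, ∃ ε₂ > 0, ∀ (H'' : ℝ × ℝ → ℝ) (Y'' : ℝ × ℝ → ℝ × ℝ) (κ : ℝ),
      (∀ z ∈ ψ '' K, ContDiffAt ℝ 2 H'' z) → (∀ z ∈ ψ '' K, ContDiffAt ℝ 1 Y'' z) →
      (∀ z ∈ ψ '' K, |H'' z - H₂ z| ≤ ε₂) →
      (∀ z ∈ ψ '' K, ‖fderiv ℝ H'' z - fderiv ℝ H₂ z‖ ≤ ε₂) →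
      (∀ z ∈ ψ '' K, ‖Y'' z - Y₂ z‖ ≤ ε₂) → 0 < κ →
      ∃ (H' : ℝ × ℝ → ℝ) (Y' : ℝ × ℝ → ℝ × ℝ),
        (∀ z ∈ K, ContDiffAt ℝ 2 H' z) ∧ (∀ z ∈ K, ContDiffAt ℝ 1 Y' z) ∧
        (∀ z ∈ K, |H' z - H z| ≤ ε) ∧ (∀ z ∈ K, ‖fderiv ℝ H' z - fderiv ℝ H z‖ ≤ ε) ∧
        (∀ z ∈ K, ‖Y' z - Y z‖ ≤ ε) ∧
        ∀ z ∈ K, fderiv ℝ ψ z (ham H' z + κ • Y' z) =
          g z • (ham H'' (ψ z) + κ • Y'' (ψ z))) :
    Many H₂ Y₂ (ψ '' K) N := by
  obtain ⟨ε, hε, h⟩ := h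
  obtain ⟨ε₂, hε₂, hyp⟩ := hyp ε hε
  refine ⟨min ε ε₂, lt_min hε hε₂, fun H'' Y'' κ s1 s2 c1 c2 c3 hκ hκε => ?_⟩
  obtain ⟨H', Y', a1, a2, a3, a4, a5, a6⟩ := hyp H'' Y'' κ s1 s2
    (fun z hz => (c1 z hz).trans (min_le_right _ _))
    (fun z hz => (c2 z hz).trans (min_le_right _ _))
    (fun z hz => (c3 z hz).trans (min_le_right _ _)) hκ
  have h1 := h H' Y' κ a1 a2 a3 a4 a5 hκ (hκε.trans (min_le_left _ _))
  refine h1.trans ?_
  refine Set.encard_le_encard_of_injOn (f := fun C => ψ '' C) ?_ ?_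
  · rintro C ⟨h2, h3⟩
    exact ⟨closedOrbit_transport (Z := fun z => ham H' z + κ • Y' z)
      (Z₂ := fun z => ham H'' z + κ • Y'' z) hψ hg hs a6 hinj h2 h3, image_mono h3⟩
  · rintro C ⟨-, h3⟩ C' ⟨-, h3'⟩ hCC
    simp only at hCC
    exact (hinj.image_eq_image_iff h3 h3').1 hCC

lemma Many.of_neg {H : ℝ × ℝ → ℝ} {Y : ℝ × ℝ → ℝ × ℝ} {K : Set (ℝ × ℝ)} {N : ℕ}
    (h : Many (-H) (-Y) K N) : Many H Y K N := by
  have h1 := h.transport (H₂ := H) (Y₂ := Y) (ψ := id) (g := fun _ => -1) (injOn_id _)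
    (fun z _ => differentiableAt_id) continuousOn_const (Or.inr fun _ _ => by norm_num) ?_
  · simpa using h1
  · intro ε hε
    refine ⟨ε, hε, fun H'' Y'' κ s1 s2 c1 c2 c3 hκ => ⟨-H'', -Y'', ?_, ?_, ?_, ?_, ?_, ?_⟩⟩
    all_goals simp only [id_eq, image_id, image_id'] at *
    · exact fun z hz => (s1 z hz).neg
    · exact fun z hz => (s2 z hz).neg
    · intro z hz
      simp only [Pi.neg_apply]
      rw [show -H'' z - -H z = -(H'' z - H z) by ring, abs_neg]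
      exact c1 z hz
    · intro z hz
      rw [fderiv_neg, fderiv_neg, show -fderiv ℝ H'' z - -fderiv ℝ H z =
        -(fderiv ℝ H'' z - fderiv ℝ H z) by abel, norm_neg]
      exact c2 z hz
    · intro z hz
      simp only [Pi.neg_apply]
      rw [show -Y'' z - -Y z = -(Y'' z - Y z) by abel, norm_neg]
      exact c3 z hz
    · intro z hz
      rw [fderiv_id]
      simp only [ham, fderiv_neg, ContinuousLinearMap.neg_apply, Pi.neg_apply]
      ext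
      · simp
      · simp

end Pool.Agent.Y300
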