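import Pool.Agent.Y300.Many

/-! One turn of a field close to a Hamiltonian one in an annulus. -/

set_option autoImplicit false

open Set MeasureTheory Topology Filter
open scoped NNReal

namespace Pool.Agent.Y300

/-- the perturbed field -/
noncomputable def pert (H : ℝ × ℝ → ℝ) (Y : ℝ × ℝ → ℝ × ℝ) (κ : ℝ) (z : ℝ × ℝ) : ℝ × ℝ :=
  ham H z + κ • Y z

/-- integrand of the increment of `H` in the polar angle, divided by `κ` -/
noncomputable def gain (p : ℝ × ℝ) (H : ℝ × ℝ → ℝ) (Y : ℝ × ℝ → ℝ × ℝ) (κ : ℝ) (z : ℝ × ℝ) : ℝ :=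
  dot (z - p) (z - p) * fderiv ℝ H z (Y z) / wedge (z - p) (pert H Y κ z)

/-- a field close to a Hamiltonian one -/
structure Near (p : ℝ × ℝ) (r₁ r₂ : ℝ) (H : ℝ × ℝ → ℝ) (Y : ℝ × ℝ → ℝ × ℝ) (κ C : ℝ) : Prop where
  pos : 0 < r₁
  lt : r₁ < r₂
  hκ : 0 < κ
  hH : ∀ z ∈ ann p r₁ r₂, ContDiffAt ℝ 2 H z
  hY : ∀ z ∈ ann p r₁ r₂, ContDiffAt ℝ 1 Y z
  hw : ∀ z ∈ ann p r₁ r₂, 0 < wedge (z - p) (pert H Y κ z)
  hrad : ∀ z ∈ ann p r₁ r₂, 0 < fderiv ℝ H z (z - p)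
  hG : ∀ z ∈ ann p r₁ r₂, |gain p H Y κ z| ≤ C

/-- clamping to `[r₁, r₂]` -/
noncomputable def cl (r₁ r₂ x : ℝ) : ℝ := max r₁ (min x r₂)

lemma cl_mem {r₁ r₂ : ℝ} (h : r₁ ≤ r₂) (x : ℝ) : cl r₁ r₂ x ∈ Icc r₁ r₂ :=
  ⟨le_max_left _ _, max_le h (min_le_right _ _)⟩

lemma cl_eq {r₁ r₂ x : ℝ} (h : x ∈ Icc r₁ r₂) : cl r₁ r₂ x = x := by
  unfold cl
  rw [min_eq_left h.2, max_eq_right h.1]

lemma lipschitz_cl (r₁ r₂ : ℝ) : LipschitzWith 1 (cl r₁ r₂) :=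
  (LipschitzWith.id.min_const r₂).const_max r₁

section

variable {p : ℝ × ℝ} {r₁ r₂ : ℝ} {H : ℝ × ℝ → ℝ} {Y : ℝ × ℝ → ℝ × ℝ} {κ C : ℝ}

lemma ContDiffAt.ham {H : ℝ × ℝ → ℝ} {z : ℝ × ℝ} (h : ContDiffAt ℝ 2 H z) :
    ContDiffAt ℝ 1 (ham H) z := by
  have h1 : ContDiffAt ℝ 1 (fderiv ℝ H) z := h.fderiv_right (m := 1) (by norm_num)
  exact ((h1.clm_apply contDiffAt_const).neg).prodMk (h1.clm_apply contDiffAt_const)

lemma Near.contDiffAt (h : Near p r₁ r₂ H Y κ C) {z : ℝ × ℝ} (hz : z ∈ ann p r₁ r₂) :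
    ContDiffAt ℝ 1 (pert H Y κ) z :=
  (ContDiffAt.ham (h.hH z hz)).add ((h.hY z hz).const_smul κ)

lemma Near.C_nonneg (h : Near p r₁ r₂ H Y κ C) : 0 ≤ C :=
  (abs_nonneg _).trans (h.hG (pol p r₁ 0) (pol_mem_ann h.pos ⟨le_rfl, h.lt.le⟩ 0))

/-- evolution of `H` along a solution of the polar equation -/
lemma Near.deriv_H (h : Near p r₁ r₂ H Y κ C) {ρ : ℝ → ℝ} {s : Set ℝ} {θ : ℝ}
    (hρ : ρ θ ∈ Icc r₁ r₂) (hd : HasDerivWithinAt ρ (rhs p (pert H Y κ) θ (ρ θ)) s θ) :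
    HasDerivWithinAt (fun θ => H (pol p (ρ θ) θ)) (κ * gain p H Y κ (pol p (ρ θ) θ)) s θ := by
  have hz := pol_mem_ann (p := p) h.pos hρ θ
  have hpos : 0 < ρ θ := h.pos.trans_le hρ.1
  have h1 := hasDerivAt_polar hpos (h.hw _ hz) hd
  have h2 : HasFDerivAt H (fderiv ℝ H (pol p (ρ θ) θ)) (pol p (ρ θ) θ) :=
    ((h.hH _ hz).differentiableAt (by norm_num)).hasFDerivAt
  have h3 := HasFDerivAt.comp_hasDerivWithinAt (f := fun θ => pol p (ρ θ) θ) θ h2 h1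
  refine h3.congr_deriv ?_
  rw [map_smul, smul_eq_mul]
  unfold gain
  rw [dot_self_pol]
  have h4 : fderiv ℝ H (pol p (ρ θ) θ) (pert H Y κ (pol p (ρ θ) θ)) =
      κ * fderiv ℝ H (pol p (ρ θ) θ) (Y (pol p (ρ θ) θ)) := by
    unfold pert
    rw [map_add, fderiv_ham, map_smul, smul_eq_mul, zero_add]
  rw [h4]
  ring

lemma Near.stay (h : Near p r₁ r₂ H Y κ C) {x : ℝ} (hx : x ∈ Ioo r₁ r₂)
    (g1 : ∀ θ ∈ Icc 0 (2 * Real.pi), H (pol p r₁ θ) + κ * C * (2 * Real.pi) < H (pol p x 0))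
    (g2 : ∀ θ ∈ Icc 0 (2 * Real.pi), H (pol p x 0) + κ * C * (2 * Real.pi) < H (pol p r₂ θ))
    {ρ : ℝ → ℝ}
    (h0 : ρ 0 = x)
    (hd : ∀ θ ∈ Icc 0 (2 * Real.pi), HasDerivWithinAt ρ (rhs p (pert H Y κ) θ (cl r₁ r₂ (ρ θ)))
      (Icc 0 (2 * Real.pi)) θ) {θ : ℝ} (hθ : θ ∈ Icc 0 (2 * Real.pi)) :
    ρ θ ∈ Ioo r₁ r₂ ∧ |H (pol p (ρ θ) θ) - H (pol p x 0)| ≤ κ * C * (2 * Real.pi) := by
  have hcont : ContinuousOn ρ (Icc 0 (2 * Real.pi)) := fun θ hθ => (hd θ hθ).continuousWithinAt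
  have hC := h.C_nonneg
  have hκ := h.hκ
  have hpi := Real.pi_pos
  -- bound on an initial interval
  have key : ∀ t ∈ Icc 0 (2 * Real.pi), (∀ θ ∈ Icc 0 t, ρ θ ∈ Icc r₁ r₂) →
      |H (pol p (ρ t) t) - H (pol p x 0)| ≤ κ * C * (2 * Real.pi) := by
    intro t ht hin
    have hsub : Icc 0 t ⊆ Icc 0 (2 * Real.pi) := Icc_subset_Icc_right ht.2
    have h1 : ∀ θ ∈ Icc 0 t, HasDerivWithinAt (fun θ => H (pol p (ρ θ) θ))
        (κ * gain p H Y κ (pol p (ρ θ) θ)) (Icc 0 t) θ := by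
      intro θ hθ
      have h2 := (hd θ (hsub hθ)).mono hsub
      rw [cl_eq (hin θ hθ)] at h2
      exact h.deriv_H (hin θ hθ) h2
    have h2 : ∀ θ ∈ Icc 0 t, ‖κ * gain p H Y κ (pol p (ρ θ) θ)‖ ≤ κ * C := by
      intro θ hθ
      rw [Real.norm_eq_abs, abs_mul, abs_of_pos hκ]
      exact mul_le_mul_of_nonneg_left (h.hG _ (pol_mem_ann h.pos (hin θ hθ) θ)) hκ.le
    have h3 := (convex_Icc 0 t).norm_image_sub_le_of_norm_hasDerivWithin_le h1 h2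
      (left_mem_Icc.2 ht.1) (right_mem_Icc.2 ht.1)
    simp only [h0] at h3
    rw [Real.norm_eq_abs, sub_zero, Real.norm_eq_abs, abs_of_nonneg ht.1] at h3
    exact h3.trans (by gcongr; exact ht.2)
  have hall : ∀ θ ∈ Icc 0 (2 * Real.pi), ρ θ ∈ Ioo r₁ r₂ := by
    by_contra hcon
    push Not at hcon
    set S : Set ℝ := Icc 0 (2 * Real.pi) ∩ ρ ⁻¹' (Ioo r₁ r₂)ᶜ with hS
    have hSc : IsCompact S := by
      apply isCompact_Icc.of_isClosed_subset _ inter_subset_left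
      exact hcont.preimage_isClosed_of_isClosed isClosed_Icc isOpen_Ioo.isClosed_compl
    have hSne : S.Nonempty := by
      obtain ⟨θ, h1, h2⟩ := hcon
      exact ⟨θ, h1, h2⟩
    obtain ⟨t, htS, htl⟩ := hSc.exists_isLeast hSne
    have ht0 : 0 < t := by
      rcases eq_or_lt_of_le htS.1.1 with h1 | h1
      · exfalso
        apply htS.2
        rw [← h1, h0]
        exact hx
      · exact h1
    have hbefore : ∀ θ ∈ Ico 0 t, ρ θ ∈ Ioo r₁ r₂ := by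
      intro θ hθ
      by_contra h1
      have : t ≤ θ := htl ⟨⟨hθ.1, hθ.2.le.trans htS.1.2⟩, h1⟩
      linarith [hθ.2]
    have hin : ∀ θ ∈ Icc 0 t, ρ θ ∈ Icc r₁ r₂ := by
      have h1 : MapsTo ρ (Ico 0 t) (Ioo r₁ r₂) := hbefore
      have h2 : MapsTo ρ (closure (Ico 0 t)) (closure (Ioo r₁ r₂)) := by
        apply h1.closure_of_continuousOn
        rw [closure_Ico ht0.ne]
        exact hcont.mono (Icc_subset_Icc_right htS.1.2)
      rw [closure_Ico ht0.ne, closure_Ioo h.lt.ne] at h2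
      exact h2
    have h3 := key t htS.1 hin
    have h4 := hin t (right_mem_Icc.2 ht0.le)
    have h5 : ρ t = r₁ ∨ ρ t = r₂ := by
      by_contra h6
      push Not at h6
      exact htS.2 ⟨lt_of_le_of_ne h4.1 (Ne.symm h6.1), lt_of_le_of_ne h4.2 h6.2⟩
    rw [abs_le] at h3
    rcases h5 with h5 | h5
    · rw [h5] at h3
      linarith [g1 t htS.1, h3.1]
    · rw [h5] at h3
      linarith [g2 t htS.1, h3.2]
  exact ⟨hall θ hθ, key θ hθ fun θ' hθ' =>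
    Ioo_subset_Icc_self (hall θ' ⟨hθ'.1, hθ'.2.trans hθ.2⟩)⟩

/-- increment of `H` in one turn -/
lemma Near.increment (h : Near p r₁ r₂ H Y κ C) {ρ : ℝ → ℝ}
    (hin : ∀ θ ∈ Icc 0 (2 * Real.pi), ρ θ ∈ Icc r₁ r₂)
    (hd : ∀ θ ∈ Icc 0 (2 * Real.pi), HasDerivWithinAt ρ (rhs p (pert H Y κ) θ (ρ θ))
      (Icc 0 (2 * Real.pi)) θ) :
    H (pol p (ρ (2 * Real.pi)) 0) - H (pol p (ρ 0) 0) =
      κ * ∫ θ in (0:ℝ)..(2 * Real.pi), gain p H Y κ (pol p (ρ θ) θ) ∧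
    ContinuousOn (fun θ => gain p H Y κ (pol p (ρ θ) θ)) (Icc 0 (2 * Real.pi)) := by
  have hcont : ContinuousOn ρ (Icc 0 (2 * Real.pi)) := fun θ hθ => (hd θ hθ).continuousWithinAt
  have h1 : ∀ θ ∈ Icc 0 (2 * Real.pi), HasDerivWithinAt (fun θ => H (pol p (ρ θ) θ))
      (κ * gain p H Y κ (pol p (ρ θ) θ)) (Icc 0 (2 * Real.pi)) θ := fun θ hθ =>
    h.deriv_H (hin θ hθ) (hd θ hθ)
  have hg : ContinuousOn (fun θ => gain p H Y κ (pol p (ρ θ) θ)) (Icc 0 (2 * Real.pi)) := by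
    have h2 : ∀ z ∈ ann p r₁ r₂, ContinuousAt (gain p H Y κ) z := by
      intro z hz
      have h3 : ContinuousAt (fderiv ℝ H) z :=
        ((h.hH z hz).fderiv_right (m := 1) (by norm_num)).continuousAt
      have h4 : ContinuousAt Y z := (h.hY z hz).continuousAt
      have h5 : ContinuousAt (pert H Y κ) z := (h.contDiffAt hz).continuousAt
      have h6 : ContinuousAt (fun z => wedge (z - p) (pert H Y κ z)) z := by
        unfold wedge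
        have h7 : ContinuousAt (fun z : ℝ × ℝ => z - p) z := by fun_prop
        exact (h7.fst.mul h5.snd).sub (h7.snd.mul h5.fst)
      exact (((continuous_dot_self p).continuousAt.mul (h3.clm_apply h4))).div h6 (h.hw z hz).ne'
    have h3 : ContinuousOn (fun θ => pol p (ρ θ) θ) (Icc 0 (2 * Real.pi)) := by
      unfold pol
      exact continuousOn_const.add (hcont.smul continuous_ev.continuousOn)
    intro θ hθ
    exact (h2 _ (pol_mem_ann h.pos (hin θ hθ) θ)).comp_continuousWithinAt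
      (f := fun θ => pol p (ρ θ) θ) (h3 θ hθ)
  refine ⟨?_, hg⟩
  have h2 := intervalIntegral.integral_eq_sub_of_hasDeriv_right_of_le Real.two_pi_pos.le
    (f := fun θ => H (pol p (ρ θ) θ)) (f' := fun θ => κ * gain p H Y κ (pol p (ρ θ) θ))
    (fun θ hθ => (h1 θ hθ).continuousWithinAt)
    (fun θ hθ => ((h1 θ (Ioo_subset_Icc_self hθ)).hasDerivAt
      (Icc_mem_nhds hθ.1 hθ.2)).hasDerivWithinAt) ?_
  · rw [intervalIntegral.integral_const_mul] at h2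
    rw [h2, pol_two_pi]
  · apply ContinuousOn.intervalIntegrable
    rw [uIcc_of_le Real.two_pi_pos.le]
    exact continuousOn_const.mul hg

end

end Pool.Agent.Y300
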